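import Mathlib

set_option autoImplicit false

namespace Pool.Agent.P.MP_83f3dc_co

/-- Every set of `n` points in `ℝ^d` has a `j`-dimensional flat meeting the convex hull of each
of its `k`-element subsets. -/
def HasTransversal (d j k n : ℕ) : Prop :=
  ∀ X : Finset (EuclideanSpace ℝ (Fin d)), X.card = n →
    ∃ L : AffineSubspace ℝ (EuclideanSpace ℝ (Fin d)),
      (L : Set (EuclideanSpace ℝ (Fin d))).Nonempty ∧ Module.finrank ℝ L.direction = j ∧
        ∀ Y ⊆ X, Y.card = k →
          ((L : Set (EuclideanSpace ℝ (Fin d))) ∩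
            convexHull ℝ (Y : Set (EuclideanSpace ℝ (Fin d)))).Nonempty

end Pool.Agent.P.MP_83f3dc_co
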