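import Pool.Agent.Lib.Ramsey.Basic

set_option autoImplicit false

open Module Submodule

namespace Pool.Agent.P.MP_83f3dc_co

variable {ι : Type} [Fintype ι] {E : Type} [AddCommGroup E] [Module ℝ E]

lemma exists_dep [DecidableEq ι] (g : ι → E) (S : Finset ι) :
    ∃ V : Submodule ℝ (ι → ℝ), S.card ≤ finrank ℝ V + finrank ℝ (span ℝ (g '' S)) ∧
      ∀ v ∈ V, (∀ i, i ∉ S → v i = 0) ∧ ∑ i, v i • g i = 0 := by
  let T : (S → ℝ) →ₗ[ℝ] E := Fintype.linearCombination ℝ (fun i : S => g i)
  let ex : (S → ℝ) →ₗ[ℝ] (ι → ℝ) :=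
    { toFun := fun w i => if h : i ∈ S then w ⟨i, h⟩ else 0
      map_add' := by
        intro w w'
        funext i
        by_cases h : i ∈ S <;> simp [h]
      map_smul' := by
        intro c w
        funext i
        by_cases h : i ∈ S <;> simp [h] }
  have hex : Function.Injective ex := by
    intro w w' h
    funext i
    have := congrFun h i.1
    simpa [ex, i.2] using this
  refine ⟨(LinearMap.ker T).map ex, ?_, ?_⟩
  · have h1 := LinearMap.finrank_range_add_finrank_ker T
    have h2 : finrank ℝ ((LinearMap.ker T).map ex) = finrank ℝ (LinearMap.ker T) :=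
      (LinearEquiv.finrank_eq (Submodule.equivMapOfInjective ex hex _)).symm
    have h3 : LinearMap.range T = span ℝ (g '' S) := by
      rw [Fintype.range_linearCombination]
      congr 1
      ext x
      simp
    rw [h3] at h1
    simp only [Module.finrank_fintype_fun_eq_card, Fintype.card_coe] at h1
    omega
  · rintro _ ⟨w, hw, rfl⟩
    refine ⟨fun i hi => by simp [ex, hi], ?_⟩
    have hw' : ∑ i : S, w i • g i = 0 := by
      simpa [T, Fintype.linearCombination_apply] using hw
    rw [← hw', ← Finset.sum_subset (Finset.subset_univ S), ← Finset.sum_coe_sort S]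
    · refine Finset.sum_congr rfl fun i _ => ?_
      simp [ex, i.2]
    · intro i _ hi
      simp [ex, hi]

omit [Fintype ι] in
lemma exists_form (g : ι → E) (A : Finset ι) (n : ℕ) (h : finrank ℝ (span ℝ (g '' A)) ≤ n) :
    ∃ ω : E [⋀^Fin n]→ₗ[ℝ] ℝ, ∀ f : Fin n → ι, (∀ j, f j ∈ A) →
      LinearIndependent ℝ (g ∘ f) → ω (g ∘ f) ≠ 0 := by
  have hfin : Module.Finite ℝ (span ℝ (g '' A)) :=
    Module.Finite.span_of_finite ℝ (A.finite_toSet.image g)
  obtain ⟨ψ₀, hψ₀⟩ := (finrank_le_iff_exists_linearMap (R := ℝ)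
    (M := span ℝ (g '' A)) (M' := Fin n → ℝ)).1 (by simpa using h)
  obtain ⟨ψ, hψ⟩ := ψ₀.exists_extend
  refine ⟨Matrix.detRowAlternating.compLinearMap ψ, fun f hf hli => ?_⟩
  have hdisj : Disjoint (span ℝ (Set.range (g ∘ f))) (LinearMap.ker ψ) := by
    rw [Submodule.disjoint_def]
    intro x hx hx0
    have hx' : x ∈ span ℝ (g '' A) := by
      refine span_mono ?_ hx
      rintro _ ⟨j, rfl⟩
      exact ⟨f j, hf j, rfl⟩
    have h1 : ψ₀ ⟨x, hx'⟩ = 0 := by
      rw [← hψ]
      exact hx0
    have h2 : (⟨x, hx'⟩ : span ℝ (g '' A)) = 0 := hψ₀ (by rw [h1, map_zero])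
    exact congrArg Subtype.val h2
  have hli' := hli.map hdisj
  have hU : IsUnit (Matrix.of fun j => ψ (g (f j))) :=
    Matrix.linearIndependent_rows_iff_isUnit.1 hli'
  rw [Matrix.isUnit_iff_isUnit_det] at hU
  exact hU.ne_zero

omit [Fintype ι] in
lemma finrank_le_of_forall_dep [LinearOrder ι] (g : ι → E) (B : Finset ι) (e : ℕ)
    (h : ∀ f : Fin (e + 1) → ι, StrictMono f → (∀ j, f j ∈ B) →
      ¬ LinearIndependent ℝ (g ∘ f)) : finrank ℝ (span ℝ (g '' B)) ≤ e := by
  classical
  by_contra hlt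
  push Not at hlt
  obtain ⟨b, hbB, -, hsp, hli⟩ := exists_linearIndepOn_extension (K := ℝ) (v := g)
    (linearIndepOn_empty ℝ g) (Set.empty_subset (B : Set ι))
  have hbfin : b.Finite := B.finite_toSet.subset hbB
  lift b to Finset ι using hbfin
  have hfin : Module.Finite ℝ (span ℝ (g '' b)) :=
    Module.Finite.span_of_finite ℝ (b.finite_toSet.image g)
  have h1 : finrank ℝ (span ℝ (g '' B)) ≤ finrank ℝ (span ℝ (g '' b)) :=
    Submodule.finrank_mono (span_le.2 hsp)
  have h2 : finrank ℝ (span ℝ (g '' b)) ≤ b.card := by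
    have := finrank_span_finset_le_card (R := ℝ) (b.image g)
    rw [Set.finrank, Finset.coe_image] at this
    exact this.trans Finset.card_image_le
  obtain ⟨C, hCb, hC⟩ := Finset.exists_subset_card_eq (show e + 1 ≤ b.card by omega)
  refine h (C.orderEmbOfFin hC) (C.orderEmbOfFin hC).strictMono
    (fun j => hbB (hCb (C.orderEmbOfFin_mem hC j))) ?_
  exact hli.comp (fun j => (⟨C.orderEmbOfFin hC j, hCb (C.orderEmbOfFin_mem hC j)⟩ : b))
    fun i j hij => by
      have h3 : C.orderEmbOfFin hC i = C.orderEmbOfFin hC j := by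
        simpa using hij
      exact (C.orderEmbOfFin hC).injective h3

/-- Columns used to build a supporting functional. -/
lemma exists_cols (e s : ℕ) (T : Finset ℕ) (hT : T.card = e / 2) (hTs : ∀ t ∈ T, t < s) :
    ∃ c : Fin e → ℕ, (∀ l, c l ≤ 2 * s) ∧ (∀ t ∈ T, ∃ l, c l = 2 * t) ∧
      ∀ j, j < s → j ∉ T → ∃ p : Fin (e + 1), Even (p : ℕ) ∧
        StrictMono (p.insertNth (2 * j) c : Fin (e + 1) → ℕ) := by
  let τ := T.orderEmbOfFin hT
  have hτ : ∀ l, τ l ∈ T := fun l => T.orderEmbOfFin_mem hT l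
  let c : Fin e → ℕ := fun l => if h : (l : ℕ) / 2 < e / 2 then 2 * τ ⟨l / 2, h⟩ + l % 2 else 2 * s
  have hc1 : ∀ (l : Fin e) (h : (l : ℕ) / 2 < e / 2), c l = 2 * τ ⟨l / 2, h⟩ + l % 2 :=
    fun l h => dif_pos h
  have hc2 : ∀ (l : Fin e), ¬ (l : ℕ) / 2 < e / 2 → c l = 2 * s := fun l h => dif_neg h
  have hmono : StrictMono c := by
    intro l l' hll'
    have hll : (l : ℕ) < l' := hll'
    have hl' := l'.2
    by_cases h : (l : ℕ) / 2 < e / 2
    · have h3 := hTs _ (hτ ⟨l / 2, h⟩)
      by_cases h' : (l' : ℕ) / 2 < e / 2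
      · rw [hc1 l h, hc1 l' h']
        rcases (show (l : ℕ) / 2 = l' / 2 ∨ (l : ℕ) / 2 < l' / 2 by omega) with h4 | h4
        · have : (⟨l / 2, h⟩ : Fin (e / 2)) = ⟨l' / 2, h'⟩ := Fin.ext h4
          rw [this]
          omega
        · have : τ ⟨l / 2, h⟩ < τ ⟨l' / 2, h'⟩ := τ.strictMono h4
          omega
      · rw [hc1 l h, hc2 l' h']
        omega
    · omega
  refine ⟨c, fun l => ?_, fun t ht => ?_, fun j hj hjT => ?_⟩
  · by_cases h : (l : ℕ) / 2 < e / 2
    · have h3 := hTs _ (hτ ⟨l / 2, h⟩)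
      rw [hc1 l h]
      omega
    · rw [hc2 l h]
  · have : t ∈ Set.range τ := by
      rw [Finset.range_orderEmbOfFin]
      exact ht
    obtain ⟨l, rfl⟩ := this
    have hl := l.2
    have h : (2 * (l : ℕ)) / 2 < e / 2 := by omega
    refine ⟨⟨2 * l, by omega⟩, ?_⟩
    rw [hc1 _ h]
    have : (⟨2 * (l : ℕ) / 2, h⟩ : Fin (e / 2)) = l := Fin.ext (by simp)
    simp only [this]
    omega
  · let p' : ℕ := (Finset.univ.filter fun l : Fin (e / 2) => τ l < j).card
    have hp' : ∀ l : Fin (e / 2), (l : ℕ) < p' ↔ τ l < j := fun l =>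
      Tuple.lt_card_lt_iff_apply_lt_of_monotone τ.monotone
    have hp'le : p' ≤ e / 2 := by
      simpa using Finset.card_filter_le Finset.univ fun l : Fin (e / 2) => τ l < j
    refine ⟨⟨2 * p', by omega⟩, by simp, ?_⟩
    rw [Fin.strictMono_insertNth_iff]
    refine ⟨hmono, fun l hl => ?_, fun l hl => ?_⟩
    · have hl' : (l : ℕ) < 2 * p' := hl
      have h : (l : ℕ) / 2 < e / 2 := by omega
      have := (hp' ⟨l / 2, h⟩).1 (by simp only; omega)
      rw [hc1 l h]
      omega
    · have hl' : 2 * p' ≤ (l : ℕ) := hl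
      by_cases h : (l : ℕ) / 2 < e / 2
      · have h1 : ¬ τ ⟨l / 2, h⟩ < j := fun h2 => by
          have := (hp' ⟨l / 2, h⟩).2 h2
          simp only at this
          omega
        have h2 : τ ⟨l / 2, h⟩ ≠ j := fun h3 => hjT (h3 ▸ hτ _)
        rw [hc1 l h]
        omega
      · rw [hc2 l h]
        omega

theorem gale (lam e : ℕ) : ∃ N : ℕ, ∀ (ι : Type) [Fintype ι] [LinearOrder ι] (E : Type)
    [AddCommGroup E] [Module ℝ E] (g : ι → E) (A : Finset ι), N ≤ A.card →
    finrank ℝ (span ℝ (g '' A)) ≤ e → ∃ V : Submodule ℝ (ι → ℝ), lam ≤ finrank ℝ V ∧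
      ∀ v ∈ V, ∑ i, v i • g i = 0 ∧ (Finset.univ.filter fun i => 0 < v i).card ≤ lam + e / 2 := by
  classical
  induction e with
  | zero =>
    refine ⟨lam, fun ι _ _ E _ _ g A hA hfr => ?_⟩
    obtain ⟨S, hSA, hS⟩ := Finset.exists_subset_card_eq hA
    obtain ⟨V, hV, hV'⟩ := exists_dep g S
    have hfin : Module.Finite ℝ (span ℝ (g '' A)) :=
      Module.Finite.span_of_finite ℝ (A.finite_toSet.image g)
    have h1 : finrank ℝ (span ℝ (g '' S)) ≤ finrank ℝ (span ℝ (g '' A)) :=
      Submodule.finrank_mono (span_mono (Set.image_mono hSA))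
    refine ⟨V, by omega, fun v hv => ⟨(hV' v hv).2, ?_⟩⟩
    have : (Finset.univ.filter fun i => 0 < v i) ⊆ S := by
      intro i hi
      by_contra h
      have := (Finset.mem_filter.1 hi).2
      rw [(hV' v hv).1 i h] at this
      exact lt_irrefl _ this
    have := Finset.card_le_card this
    omega
  | succ e ih =>
    obtain ⟨Ne, hNe⟩ := ih
    set s := lam + e + 1 with hs
    obtain ⟨N, hN⟩ := Pool.Agent.Lib.Ramsey.ramsey SignType (e + 1) (max Ne (2 * s + 1))
    refine ⟨N, fun ι _ _ E _ _ g A hA hfr => ?_⟩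
    obtain ⟨ω, hω⟩ := exists_form g A (e + 1) hfr
    obtain ⟨B, hBA, hB, col, hcol⟩ := hN ι A hA fun f => SignType.sign (ω (g ∘ f))
    by_cases h0 : col = 0
    · have hfr' := finrank_le_of_forall_dep g B e fun f hf hfB hli =>
        hω f (fun j => hBA (hfB j)) hli (sign_eq_zero_iff.1 (h0 ▸ hcol f hf hfB))
      obtain ⟨V, hV, hV'⟩ := hNe ι E g B (by omega) hfr'
      exact ⟨V, hV, fun v hv => ⟨(hV' v hv).1, (hV' v hv).2.trans (by omega)⟩⟩
    obtain ⟨B', hB'B, hB'⟩ := Finset.exists_subset_card_eq (show 2 * s + 1 ≤ B.card by omega)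
    let β₀ := B'.orderEmbOfFin hB'
    let β : ℕ → ι := fun n => β₀ ⟨min n (2 * s), by omega⟩
    have hβB : ∀ n, β n ∈ B := fun n => hB'B (B'.orderEmbOfFin_mem hB' _)
    have hβ : ∀ n m, n < m → m ≤ 2 * s → β n < β m := by
      intro n m hnm hm
      apply β₀.strictMono
      change min n (2 * s) < min m (2 * s)
      omega
    let σ : ℕ → ι := fun j => β (2 * j)
    have hσ : Set.InjOn σ (Finset.range s : Set ℕ) := by
      intro i hi j hj hij
      have hi' : i < s := by simpa using hi
      have hj' : j < s := by simpa using hj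
      by_contra hne
      rcases lt_or_gt_of_ne hne with h | h
      · exact (hβ (2 * i) (2 * j) (by omega) (by omega)).ne hij
      · exact (hβ (2 * j) (2 * i) (by omega) (by omega)).ne' hij
    let S : Finset ι := (Finset.range s).image σ
    have hS : S.card = s := by rw [Finset.card_image_of_injOn hσ, Finset.card_range]
    have hSA : S ⊆ A := by
      intro x hx
      obtain ⟨j, -, rfl⟩ := Finset.mem_image.1 hx
      exact hBA (hβB _)
    obtain ⟨V, hV, hV'⟩ := exists_dep g S
    have hfin : Module.Finite ℝ (span ℝ (g '' A)) :=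
      Module.Finite.span_of_finite ℝ (A.finite_toSet.image g)
    have h1 : finrank ℝ (span ℝ (g '' S)) ≤ finrank ℝ (span ℝ (g '' A)) :=
      Submodule.finrank_mono (span_mono (Set.image_mono hSA))
    refine ⟨V, by omega, fun v hv => ⟨(hV' v hv).2, ?_⟩⟩
    by_contra hcon
    push Not at hcon
    obtain ⟨hv0, hvs⟩ := hV' v hv
    have hpos : (Finset.univ.filter fun i => 0 < v i) =
        ((Finset.range s).filter fun j => 0 < v (σ j)).image σ := by
      ext i
      simp only [Finset.mem_filter, Finset.mem_univ, true_and, Finset.mem_image]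
      constructor
      · intro hi
        have : i ∈ S := by
          by_contra h
          rw [hv0 i h] at hi
          exact lt_irrefl _ hi
        obtain ⟨j, hj, rfl⟩ := Finset.mem_image.1 this
        exact ⟨j, ⟨hj, hi⟩, rfl⟩
      · rintro ⟨j, ⟨-, hj⟩, rfl⟩
        exact hj
    have hc1 : (Finset.univ.filter fun i => 0 < v i).card ≤
        ((Finset.range s).filter fun j => 0 < v (σ j)).card := by
      rw [hpos]; exact Finset.card_image_le
    have hc2 := Finset.card_filter_add_card_filter_not (s := Finset.range s)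
      (fun j => 0 < v (σ j))
    rw [Finset.card_range] at hc2
    obtain ⟨T, hT1, hT2, hT⟩ := Finset.exists_subsuperset_card_eq
      (Finset.filter_subset (fun j => ¬ 0 < v (σ j)) (Finset.range s)) (n := e / 2)
      (by omega) (by rw [Finset.card_range]; omega)
    obtain ⟨c, hc, hcT, hcp⟩ := exists_cols e s T hT fun t ht => Finset.mem_range.1 (hT2 ht)
    let h : E →ₗ[ℝ] ℝ :=
      { toFun := fun x => ω (Matrix.vecCons x (g ∘ β ∘ c))
        map_add' := fun x y => ω.map_vecCons_add _ x y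
        map_smul' := fun a x => ω.map_vecCons_smul _ a x }
    have hT0 : ∀ t ∈ T, h (g (σ t)) = 0 := by
      intro t ht
      obtain ⟨l, hl⟩ := hcT t ht
      refine ω.map_eq_zero_of_eq _ (i := 0) (j := l.succ) ?_ (Fin.succ_ne_zero l).symm
      simp [σ, hl]
    have hTs : ∀ j, j < s → j ∉ T → SignType.sign (h (g (σ j))) = col := by
      intro j hj hjT
      obtain ⟨p, hp, hmono⟩ := hcp j hj hjT
      have hle : ∀ l, (p.insertNth (2 * j) c : Fin (e + 1) → ℕ) l ≤ 2 * s := by
        intro l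
        refine p.succAboveCases ?_ (fun l => ?_) l
        · simp only [Fin.insertNth_apply_same]; omega
        · simp only [Fin.insertNth_apply_succAbove]; exact hc l
      have h2 := hcol (β ∘ (p.insertNth (2 * j) c : Fin (e + 1) → ℕ))
        (fun a b hab => hβ _ _ (hmono hab) (hle b)) fun l => hβB _
      have h3 : g ∘ β ∘ (p.insertNth (2 * j) c : Fin (e + 1) → ℕ)
          = p.insertNth (g (σ j)) (g ∘ β ∘ c) := by
        funext l
        refine p.succAboveCases ?_ (fun l => ?_) l
        · simp [σ]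
        · simp
      rw [h3, ω.map_insertNth, hp.neg_one_pow, one_smul] at h2
      exact h2
    have hsum : ∑ j ∈ Finset.range s, v (σ j) * h (g (σ j)) = 0 := by
      have h4 := congrArg h hvs
      rw [map_sum, map_zero, ← Finset.sum_subset (Finset.subset_univ S),
        Finset.sum_image hσ] at h4
      · simpa using h4
      · intro i _ hi
        simp [hv0 i hi]
    have hne : ∃ j ∈ Finset.range s, j ∉ T := by
      by_contra hall
      push Not at hall
      have := Finset.card_le_card (show Finset.range s ⊆ T from hall)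
      rw [Finset.card_range] at this
      omega
    have hvpos : ∀ j ∈ Finset.range s, j ∉ T → 0 < v (σ j) := by
      intro j hj hjT
      by_contra hn
      exact hjT (hT1 (Finset.mem_filter.2 ⟨hj, hn⟩))
    have hterm : ∀ j ∈ Finset.range s, j ∉ T → 0 < (col : ℝ) * (v (σ j) * h (g (σ j))) := by
      intro j hj hjT
      have h5 := hTs j (Finset.mem_range.1 hj) hjT
      have h6 : h (g (σ j)) ≠ 0 := fun h7 => h0 (by rw [← h5, h7, sign_zero])
      have h7 : (col : ℝ) * h (g (σ j)) = |h (g (σ j))| := by rw [← h5, sign_mul_self]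
      have h8 := mul_pos (hvpos j hj hjT) (abs_pos.2 h6)
      rw [← h7] at h8
      linarith [mul_left_comm (v (σ j)) (col : ℝ) (h (g (σ j)))]
    have hlt : 0 < ∑ j ∈ Finset.range s, (col : ℝ) * (v (σ j) * h (g (σ j))) := by
      obtain ⟨j, hj, hjT⟩ := hne
      refine Finset.sum_pos' (fun i hi => ?_) ⟨j, hj, hterm j hj hjT⟩
      by_cases hiT : i ∈ T
      · rw [hT0 i hiT]; simp
      · exact (hterm i hi hiT).le
    rw [← Finset.mul_sum, hsum, mul_zero] at hlt
    exact lt_irrefl _ hlt

end Pool.Agent.P.MP_83f3dc_co
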