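import Mathlib

/-! Symmetrisation and contraction on finite probability spaces. -/

set_option autoImplicit false

open Finset
open scoped RealInnerProductSpace

noncomputable section

namespace Pool.Agent.P.MP_83f3dc_co.KL

/-- average over a finite type -/
def av {Ω : Type} [Fintype Ω] (φ : Ω → ℝ) : ℝ := (∑ ω, φ ω) / Fintype.card Ω

/-- maximum over a finite type -/
def mx {τ : Type} [Fintype τ] [Nonempty τ] (φ : τ → ℝ) : ℝ := univ.sup' univ_nonempty φ

section basic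

variable {Ω Ω' : Type} [Fintype Ω] [Fintype Ω']

theorem av_mono {φ ψ : Ω → ℝ} (h : ∀ ω, φ ω ≤ ψ ω) : av φ ≤ av ψ :=
  div_le_div_of_nonneg_right (sum_le_sum fun ω _ => h ω) (Nat.cast_nonneg _)

theorem av_const [Nonempty Ω] (a : ℝ) : av (fun _ : Ω => a) = a := by
  have : (Fintype.card Ω : ℝ) ≠ 0 := by exact_mod_cast Fintype.card_ne_zero
  simp only [av, sum_const, card_univ, nsmul_eq_mul]
  field_simp

theorem av_add (φ ψ : Ω → ℝ) : av (fun ω => φ ω + ψ ω) = av φ + av ψ := by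
  simp only [av, sum_add_distrib, add_div]

theorem av_mul (a : ℝ) (φ : Ω → ℝ) : av (fun ω => a * φ ω) = a * av φ := by
  simp only [av, ← mul_sum, mul_div_assoc]

theorem av_sum {κ : Type} (s : Finset κ) (φ : κ → Ω → ℝ) :
    av (fun ω => ∑ p ∈ s, φ p ω) = ∑ p ∈ s, av (φ p) := by
  simp only [av]
  rw [sum_comm, sum_div]

theorem av_equiv (σ : Ω' ≃ Ω) (φ : Ω → ℝ) : av (fun ω => φ (σ ω)) = av φ := by
  simp only [av]
  rw [Equiv.sum_comp σ φ, Fintype.card_congr σ]

theorem av_comm (φ : Ω → Ω' → ℝ) :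
    av (fun ω => av (fun ω' => φ ω ω')) = av (fun ω' => av (fun ω => φ ω ω')) := by
  simp only [av, ← sum_div]
  rw [sum_comm, div_right_comm]

theorem av_prod (φ : Ω × Ω' → ℝ) : av φ = av (fun ω => av (fun ω' => φ (ω, ω'))) := by
  simp only [av, ← sum_div]
  rw [Fintype.sum_prod_type, Fintype.card_prod, Nat.cast_mul, div_div, mul_comm]

theorem av_cons {j : ℕ} (φ : (Fin (j + 1) → Ω) → ℝ) :
    av φ = av (fun ω : Ω => av (fun ω' : Fin j → Ω => φ (Fin.cons ω ω'))) := by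
  rw [← av_equiv (Fin.consEquiv fun _ : Fin (j + 1) => Ω) φ, av_prod]
  rfl

theorem av_pi {κ : Type} [Fintype κ] [DecidableEq κ] (φ : κ → Ω → ℝ) :
    av (fun ω : κ → Ω => ∏ p, φ p (ω p)) = ∏ p, av (φ p) := by
  simp only [av]
  rw [prod_div_distrib, prod_univ_sum, Fintype.piFinset_univ, prod_const, Fintype.card_fun,
    Nat.cast_pow, card_univ]

variable {τ : Type} [Fintype τ] [Nonempty τ]

theorem le_mx (φ : τ → ℝ) (x : τ) : φ x ≤ mx φ := le_sup' φ (mem_univ x)

theorem mx_eq (φ : τ → ℝ) : ∃ x, mx φ = φ x := by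
  obtain ⟨x, -, h⟩ := exists_mem_eq_sup' (univ_nonempty (α := τ)) φ
  exact ⟨x, h⟩

theorem mx_le {φ : τ → ℝ} {a : ℝ} (h : ∀ x, φ x ≤ a) : mx φ ≤ a := by
  obtain ⟨x, hx⟩ := mx_eq φ
  rw [hx]; exact h x

end basic

variable {Ω τ : Type} [Fintype Ω] [Nonempty Ω] [Fintype τ] [Nonempty τ]

/-- one step of symmetrisation and contraction -/
theorem step (G : Ω → τ → ℝ) (σ : Ω ≃ Ω) (hσ : ∀ ω x, G (σ ω) x = - G ω x) (a : ℝ)
    (ha : ∀ x, a ≤ av fun ω => |G ω x|) (c : τ → ℝ) :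
    av (fun ω => mx fun x => c x + (a - |G ω x|)) ≤ av fun ω => mx fun x => c x + 2 * G ω x := by
  choose X hX using fun ω => mx_eq fun x => c x + (a - |G ω x|)
  set Φ : Ω → ℝ := fun ω => mx fun x => c x + 2 * G ω x with hΦ
  have key : ∀ ω x y, c x + c y + 2 * |G ω x - G ω y| ≤ Φ ω + Φ (σ ω) := by
    intro ω x y
    have h1 := le_mx (fun x => c x + 2 * G ω x) x
    have h2 := le_mx (fun x => c x + 2 * G ω x) y
    have h3 := le_mx (fun x => c x + 2 * G (σ ω) x) x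
    have h4 := le_mx (fun x => c x + 2 * G (σ ω) x) y
    simp only [hσ] at h3 h4
    simp only [hΦ, hσ]
    rcases abs_cases (G ω x - G ω y) with h | h <;> linarith [h.1]
  set U : Ω → Ω → ℝ := fun ω ω' => c (X ω) + (|G ω' (X ω)| - |G ω (X ω)|) with hU
  have h1 : av (fun ω => mx fun x => c x + (a - |G ω x|)) ≤ av fun ω => av fun ω' => U ω ω' := by
    refine av_mono fun ω => ?_
    have e : av (fun ω' => U ω ω') = (c (X ω) - |G ω (X ω)|) + av fun ω' => |G ω' (X ω)| := by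
      rw [← av_const (Ω := Ω) (c (X ω) - |G ω (X ω)|), ← av_add]
      congr 1; funext ω'; simp only [hU]; ring
    rw [hX ω, e]
    linarith [ha (X ω)]
  have h2 : (av fun ω => av fun ω' => U ω ω') + (av fun ω => av fun ω' => U ω' ω) ≤
      av fun ω => av fun ω' => (1 / 2) * (Φ ω + Φ (σ ω)) + (1 / 2) * (Φ ω' + Φ (σ ω')) := by
    rw [← av_add]
    refine av_mono fun ω => ?_
    rw [← av_add]
    refine av_mono fun ω' => ?_
    have k1 := key ω (X ω') (X ω)
    have k2 := key ω' (X ω) (X ω')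
    have k3 := abs_sub_abs_le_abs_sub (G ω (X ω')) (G ω (X ω))
    have k4 := abs_sub_abs_le_abs_sub (G ω' (X ω)) (G ω' (X ω'))
    simp only [hU]
    linarith
  have h3 : av (fun ω => (1 / 2) * (Φ ω + Φ (σ ω))) = av Φ := by
    rw [av_mul, av_add, av_equiv σ Φ]; ring
  rw [av_comm (fun ω ω' => U ω' ω)] at h2
  simp only [av_add, av_const, h3] at h2
  linarith

theorem steps (G : Ω → τ → ℝ) (σ : Ω ≃ Ω) (hσ : ∀ ω x, G (σ ω) x = - G ω x) (a : ℝ)
    (ha : ∀ x, a ≤ av fun ω => |G ω x|) : ∀ (j : ℕ) (c : τ → ℝ),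
    av (fun ω : Fin j → Ω => mx fun x => c x + ∑ i, (a - |G (ω i) x|)) ≤
      av fun ω : Fin j → Ω => mx fun x => c x + 2 * ∑ i, G (ω i) x
  | 0, c => by simp
  | j + 1, c => by
    rw [av_cons, av_cons]
    simp only [Fin.sum_univ_succ, Fin.cons_zero, Fin.cons_succ]
    calc _ ≤ av fun ω : Ω => av fun ω' : Fin j → Ω =>
          mx fun x => (c x + (a - |G ω x|)) + 2 * ∑ i, G (ω' i) x := by
          refine av_mono fun ω => ?_
          simpa only [add_assoc] using steps G σ hσ a ha j fun x => c x + (a - |G ω x|)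
      _ ≤ _ := by
          rw [av_comm, av_comm (fun (ω : Ω) (ω' : Fin j → Ω) =>
            mx fun x => c x + 2 * (G ω x + ∑ i, G (ω' i) x))]
          refine av_mono fun ω' => ?_
          have := step G σ hσ a ha fun x => c x + 2 * ∑ i, G (ω' i) x
          convert this using 5 <;> ring

/-- if every sample annihilates some point of the family, the width is large -/
theorem width_ge {j : ℕ} (G : Ω → (Fin j → Ω) → ℝ) (σ : Ω ≃ Ω) (hσ : ∀ ω x, G (σ ω) x = - G ω x)
    (a : ℝ) (ha : ∀ x, a ≤ av fun ω => |G ω x|) (h0 : ∀ ω i, G (ω i) ω = 0)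
    (B : (Fin j → Ω) → ℝ) (hB : ∀ ω x, ∑ i, G (ω i) x ≤ B ω) : j * a ≤ 2 * av B := by
  have h := steps G σ hσ a ha j fun _ => 0
  have h1 : (j : ℝ) * a ≤ av fun ω : Fin j → Ω => mx fun x => 0 + ∑ i, (a - |G (ω i) x|) := by
    rw [← av_const (Ω := Fin j → Ω) ((j : ℝ) * a)]
    refine av_mono fun ω => le_trans (le_of_eq ?_) (le_mx _ ω)
    simp [h0]
  refine h1.trans (h.trans ?_)
  rw [← av_mul]
  exact av_mono fun ω => mx_le fun x => by linarith [hB ω x]

end Pool.Agent.P.MP_83f3dc_co.KL
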