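import Pool.Agent.P.MP_83f3dc_co.KL1

/-! Sums of random signs. -/

set_option autoImplicit false

open Finset Real

noncomputable section

namespace Pool.Agent.P.MP_83f3dc_co.KL

/-- the sign of a boolean -/
def sg (b : Bool) : ℝ := if b then 1 else -1

theorem av_bool (φ : Bool → ℝ) : av φ = (φ true + φ false) / 2 := by
  simp [av]

theorem sg_not (b : Bool) : sg (!b) = - sg b := by cases b <;> simp [sg]

theorem mom_fin : ∀ (n : ℕ) (a : Fin n → ℝ),
    av (fun ω : Fin n → Bool => (∑ q, sg (ω q) * a q) ^ 2) = ∑ q, a q ^ 2 ∧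
    av (fun ω : Fin n → Bool => (∑ q, sg (ω q) * a q) ^ 4) ≤ 3 * (∑ q, a q ^ 2) ^ 2
  | 0, a => by simp [av]
  | n + 1, a => by
    obtain ⟨h2, h4⟩ := mom_fin n fun q => a q.succ
    have hs : 0 ≤ ∑ q : Fin n, a q.succ ^ 2 := sum_nonneg fun _ _ => sq_nonneg _
    rw [av_cons, av_cons, av_comm, av_comm (fun (ω : Bool) (ω' : Fin n → Bool) =>
      (∑ q, sg ((Fin.cons ω ω' : Fin (n + 1) → Bool) q) * a q) ^ 4)]
    simp only [Fin.sum_univ_succ, Fin.cons_zero, Fin.cons_succ, av_bool]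
    constructor
    · rw [← h2, ← av_const (Ω := Fin n → Bool) (a 0 ^ 2), ← av_add]
      congr 1; funext ω; simp only [sg]; simp; ring
    · have e : (fun ω : Fin n → Bool =>
          ((sg true * a 0 + ∑ q, sg (ω q) * a q.succ) ^ 4 +
            (sg false * a 0 + ∑ q, sg (ω q) * a q.succ) ^ 4) / 2) =
          fun ω => (a 0 ^ 4 + 6 * a 0 ^ 2 * (∑ q, sg (ω q) * a q.succ) ^ 2) +
            (∑ q, sg (ω q) * a q.succ) ^ 4 := by
        funext ω
        have e1 : sg true = 1 := rfl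
        have e2 : sg false = -1 := rfl
        rw [e1, e2]; ring
      rw [e, av_add, av_add, av_const, av_mul, h2]
      nlinarith [sq_nonneg (a 0 ^ 2)]

variable {ι : Type} [Fintype ι] [DecidableEq ι]

theorem mom (a : ι → ℝ) :
    av (fun ω : ι → Bool => (∑ q, sg (ω q) * a q) ^ 2) = ∑ q, a q ^ 2 ∧
    av (fun ω : ι → Bool => (∑ q, sg (ω q) * a q) ^ 4) ≤ 3 * (∑ q, a q ^ 2) ^ 2 := by
  let e := (Fintype.equivFin ι).symm
  have h := mom_fin _ (fun q => a (e q))
  have e1 : ∀ k : ℕ, av (fun ω : ι → Bool => (∑ q, sg (ω q) * a q) ^ k) =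
      av (fun ω : Fin (Fintype.card ι) → Bool => (∑ q, sg (ω q) * a (e q)) ^ k) := fun k => by
    rw [← av_equiv (Equiv.arrowCongr e (Equiv.refl Bool))]
    congr 1; funext ω
    rw [← Equiv.sum_comp e]
    simp
  rw [e1, e1, ← Equiv.sum_comp e fun q => a q ^ 2]
  exact h

/-- Khintchine's inequality -/
theorem khin (a : ι → ℝ) (ha : ∑ q, a q ^ 2 = 1) :
    4 / 7 ≤ av fun ω : ι → Bool => |∑ q, sg (ω q) * a q| := by
  obtain ⟨h2, h4⟩ := mom a
  rw [ha] at h2 h4
  have h : av (fun ω : ι → Bool => 6 / 7 * (∑ q, sg (ω q) * a q) ^ 2 +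
      -(32 / 343) * (∑ q, sg (ω q) * a q) ^ 4) ≤ av fun ω : ι → Bool => |∑ q, sg (ω q) * a q| := by
    refine av_mono fun ω => ?_
    generalize (∑ q, sg (ω q) * a q) = t
    have e2 : t ^ 2 = |t| ^ 2 := (sq_abs t).symm
    have e4 : t ^ 4 = |t| ^ 4 := by
      rw [show t ^ 4 = (t ^ 2) ^ 2 by ring, e2]; ring
    rw [e4, e2]
    have h0 := abs_nonneg t
    generalize |t| = u at *
    have : 0 ≤ u * ((4 / 7 * u - 1) ^ 2 * (4 / 7 * u + 2)) := by positivity
    nlinarith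
  rw [av_add, av_mul, av_mul, h2] at h
  linarith

theorem mgf {j : ℕ} (a : ι → ℝ) (t : ℝ) :
    av (fun ω : Fin j → ι → Bool => exp (t * ∑ i, ∑ q, sg (ω i q) * a q)) ≤
      exp (t ^ 2 * (j * ∑ q, a q ^ 2) / 2) := by
  have e1 : (fun ω : Fin j → ι → Bool => exp (t * ∑ i, ∑ q, sg (ω i q) * a q)) =
      fun ω => ∏ i, (fun (_ : Fin j) (η : ι → Bool) => ∏ q, exp (t * (sg (η q) * a q))) i (ω i) := by
    funext ω
    simp only [mul_sum, exp_sum]
  have e2 : av (fun η : ι → Bool => ∏ q, exp (t * (sg (η q) * a q))) =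
      ∏ q, cosh (t * a q) := by
    rw [av_pi (fun q b => exp (t * (sg b * a q)))]
    refine prod_congr rfl fun q _ => ?_
    rw [av_bool, cosh_eq]
    simp [sg]
  rw [e1]
  refine (av_pi fun (_ : Fin j) (η : ι → Bool) => ∏ q, exp (t * (sg (η q) * a q))).trans_le ?_
  simp only [e2]
  have h3 : ∏ q, cosh (t * a q) ≤ exp (t ^ 2 * (∑ q, a q ^ 2) / 2) := by
    rw [mul_sum, sum_div, exp_sum]
    refine prod_le_prod (fun q _ => (cosh_pos _).le) fun q _ => ?_
    rw [← mul_pow]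
    exact cosh_le_exp_half_sq _
  calc ∏ _i : Fin j, ∏ q, cosh (t * a q) ≤ ∏ _i : Fin j, exp (t ^ 2 * (∑ q, a q ^ 2) / 2) :=
        prod_le_prod (fun _ _ => prod_nonneg fun q _ => (cosh_pos _).le) fun _ _ => h3
    _ = _ := by
        rw [prod_const, card_univ, Fintype.card_fin, ← exp_nat_mul]
        congr 1; ring

/-- second moment of the part above the level `s * w` -/
theorem tail {j : ℕ} (a : ι → ℝ) {s w : ℝ} (hs : 0 < s) (hw : 0 < w)
    (ha : j * ∑ q, a q ^ 2 ≤ w ^ 2) :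
    av (fun ω : Fin j → ι → Bool => (max (|∑ i, ∑ q, sg (ω i q) * a q| - s * w) 0) ^ 2) ≤
      4 * w ^ 2 / s ^ 2 * exp (-(s ^ 2 / 2)) := by
  set t := s / w with ht
  have ht0 : 0 < t := div_pos hs hw
  have htw : t * w = s := div_mul_cancel₀ s hw.ne'
  have h1 : ∀ y : ℝ, (max (|y| - s * w) 0) ^ 2 ≤
      2 / t ^ 2 * exp (-(s ^ 2)) * (exp (t * y) + exp (-t * y)) := by
    intro y
    have e0 : 0 < exp (t * y) := exp_pos _
    have e1 : 0 < exp (-t * y) := exp_pos _
    rcases le_total (|y| - s * w) 0 with h | h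
    · rw [max_eq_right h]
      have : (0 : ℝ) ^ 2 = 0 := by norm_num
      rw [this]; positivity
    · rw [max_eq_left h]
      have h2 := quadratic_le_exp_of_nonneg (mul_nonneg ht0.le h)
      have h3 : exp (t * (|y| - s * w)) = exp (-(s ^ 2)) * exp (t * |y|) := by
        rw [← exp_add]; congr 1
        rw [mul_sub, mul_left_comm t s w, htw]; ring
      have h4 : exp (t * |y|) ≤ exp (t * y) + exp (-t * y) := by
        rcases abs_cases y with h5 | h5
        · rw [h5.1]; linarith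
        · rw [h5.1, mul_neg, ← neg_mul]; linarith
      have h5 : (t * (|y| - s * w)) ^ 2 / 2 ≤ exp (-(s ^ 2)) * (exp (t * y) + exp (-t * y)) := by
        have := mul_le_mul_of_nonneg_left h4 (exp_pos (-(s ^ 2))).le
        have := mul_nonneg ht0.le h
        linarith
      rw [mul_assoc, div_mul_eq_mul_div, le_div_iff₀ (by positivity)]
      nlinarith
  refine (av_mono fun ω => h1 _).trans ?_
  rw [av_mul, av_add]
  have h2 : ∀ u : ℝ, u ^ 2 = t ^ 2 → av (fun ω : Fin j → ι → Bool =>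
      exp (u * ∑ i, ∑ q, sg (ω i q) * a q)) ≤ exp (s ^ 2 / 2) := fun u hu => by
    refine (mgf a u).trans (exp_le_exp.2 ?_)
    rw [hu, ← htw, mul_pow]
    have := mul_le_mul_of_nonneg_left ha (sq_nonneg t)
    linarith
  have h3 := add_le_add (h2 t rfl) (h2 (-t) (neg_sq t))
  refine (mul_le_mul_of_nonneg_left h3 (by positivity)).trans (le_of_eq ?_)
  have e : exp (-(s ^ 2 / 2)) = exp (-(s ^ 2)) * exp (s ^ 2 / 2) := by
    rw [← exp_add]; congr 1; ring
  rw [e, ht]
  field_simp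
  ring

end Pool.Agent.P.MP_83f3dc_co.KL
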