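import Pool.Agent.P.MP_83f3dc_co.KL2

/-! Almost Euclidean sections of a flat subspace of `l1`. -/

set_option autoImplicit false

open Finset Real
open scoped RealInnerProductSpace

noncomputable section

namespace Pool.Agent.P.MP_83f3dc_co.KL

variable {ι : Type} [Fintype ι] [DecidableEq ι]

theorem proj_mat (F : Submodule ℝ (EuclideanSpace ℝ ι)) {τ : ℝ} (hτ : 0 ≤ τ)
    (hF : ∀ x ∈ F, ∀ p, x p ^ 2 ≤ τ * ‖x‖ ^ 2) :
    ∃ M : ι → ι → ℝ, (∀ x ∈ F, ∀ q, x q = ∑ p, M p q * x p) ∧ ∀ p, ∑ q, M p q ^ 2 ≤ τ := by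
  have hs : ∀ (x : EuclideanSpace ℝ ι) (q : ι), ⟪EuclideanSpace.single q (1 : ℝ), x⟫ = x q :=
    fun x q => by rw [EuclideanSpace.inner_single_left]; simp
  let u : ι → EuclideanSpace ℝ ι := fun p => F.starProjection (EuclideanSpace.single p 1)
  have h1 : ∀ x ∈ F, ∀ q, x q = ⟪u q, x⟫ := fun x hx q => by
    rw [← hs, Submodule.inner_starProjection_left_eq_right, Submodule.starProjection_eq_self_iff.2 hx]
  have h2 : ∀ p q, u p q = u q p := fun p q => by
    rw [h1 _ (F.starProjection_apply_mem _) q, h1 _ (F.starProjection_apply_mem _) p,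
      real_inner_comm]
  refine ⟨fun p q => u p q, fun x hx q => ?_, fun p => ?_⟩
  · rw [h1 x hx q, PiLp.inner_apply]
    refine sum_congr rfl fun p _ => ?_
    show _ = u p q * x p
    rw [h2 p q, real_inner_comm]
    simp
  · have h3 : u p p = ‖u p‖ ^ 2 := by
      rw [h1 _ (F.starProjection_apply_mem _) p, real_inner_self_eq_norm_sq]
    have h4 := hF _ (F.starProjection_apply_mem (EuclideanSpace.single p 1)) p
    have h5 : ∑ q, u p q ^ 2 = ‖u p‖ ^ 2 := by
      rw [EuclideanSpace.real_norm_sq_eq]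
    change u p p ^ 2 ≤ τ * ‖u p‖ ^ 2 at h4
    rw [h3] at h4
    rw [h5]
    by_contra h
    push Not at h
    nlinarith

theorem section_l1 (F : Submodule ℝ (EuclideanSpace ℝ ι)) {τ : ℝ} (hτ : 0 ≤ τ)
    (hF : ∀ x ∈ F, ∀ p, x p ^ 2 ≤ τ * ‖x‖ ^ 2) {j : ℕ} {s w L R : ℝ} (hs : 0 < s) (hw : 0 < w)
    (hR : 0 < R) (hjw : j * τ ≤ w ^ 2)
    (hR2 : Fintype.card ι * (4 * w ^ 2 / s ^ 2 * exp (-(s ^ 2 / 2))) ≤ R ^ 2)
    (hL : 2 * (s * w * L + R) < j * (4 / 7)) :
    ∃ ω : Fin j → ι → Bool, ∀ x ∈ F, ‖x‖ = 1 → (∀ i, ∑ q, sg (ω i q) * x q = 0) →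
      L < ∑ q, |x q| := by
  by_contra hcon
  push Not at hcon
  choose X hXF hX1 hX0 hXL using hcon
  obtain ⟨M, hM1, hM2⟩ := proj_mat F hτ hF
  have hsq : ∀ ω, ∑ q, X ω q ^ 2 = 1 := fun ω => by
    rw [← EuclideanSpace.real_norm_sq_eq, hX1, one_pow]
  let σ : (ι → Bool) ≃ (ι → Bool) :=
    Function.Involutive.toPerm (fun η q => !η q) fun η => by funext q; simp
  let t : (Fin j → ι → Bool) → ι → ℝ := fun ω p =>
    max (|∑ i, ∑ q, sg (ω i q) * M p q| - s * w) 0
  have h := width_ge (fun η ω => ∑ q, sg (η q) * X ω q) σ (fun η ω => by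
      rw [← sum_neg_distrib]
      refine sum_congr rfl fun q _ => ?_
      change sg (!η q) * _ = _
      rw [sg_not, neg_mul]) (4 / 7) (fun ω => khin _ (hsq ω)) hX0
    (fun ω => (s * w * L + R / 2) + 1 / (2 * R) * ∑ p, t ω p ^ 2) (fun ω x => by
      have e : ∑ i, ∑ q, sg (ω i q) * X x q = ∑ p, (∑ i, ∑ q, sg (ω i q) * M p q) * X x p := by
        simp only [sum_mul]
        rw [sum_comm (s := univ (α := ι))]
        refine sum_congr rfl fun i _ => ?_
        rw [sum_comm]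
        refine sum_congr rfl fun q _ => ?_
        rw [hM1 _ (hXF x) q, mul_sum]
        exact sum_congr rfl fun p _ => by ring
      have h1 : ∀ p, (∑ i, ∑ q, sg (ω i q) * M p q) * X x p ≤
          s * w * |X x p| + R / 2 * X x p ^ 2 + 1 / (2 * R) * t ω p ^ 2 := fun p => by
        have h2 : |∑ i, ∑ q, sg (ω i q) * M p q| - s * w ≤ t ω p := le_max_left _ _
        have h3 := le_abs_self ((∑ i, ∑ q, sg (ω i q) * M p q) * X x p)
        rw [abs_mul] at h3
        have h4 := mul_le_mul_of_nonneg_right h2 (abs_nonneg (X x p))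
        have h5 : t ω p * |X x p| ≤ R / 2 * X x p ^ 2 + 1 / (2 * R) * t ω p ^ 2 := by
          have h6 : 0 ≤ 1 / (2 * R) * (t ω p - R * |X x p|) ^ 2 := by positivity
          have h7 : 1 / (2 * R) * (t ω p - R * |X x p|) ^ 2 =
              R / 2 * |X x p| ^ 2 + 1 / (2 * R) * t ω p ^ 2 - t ω p * |X x p| := by
            field_simp; ring
          rw [h7, sq_abs] at h6
          linarith
        linarith
      rw [e]
      refine (sum_le_sum fun p _ => h1 p).trans ?_
      rw [sum_add_distrib, sum_add_distrib, ← mul_sum, ← mul_sum, ← mul_sum, hsq, mul_one]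
      have := mul_le_mul_of_nonneg_left (hXL x) (mul_pos hs hw).le
      linarith)
  rw [av_add, av_const, av_mul, av_sum] at h
  have h2 : ∑ p, av (fun ω => t ω p ^ 2) ≤ R ^ 2 := by
    refine le_trans (sum_le_sum fun p _ => tail (M p) hs hw
      ((mul_le_mul_of_nonneg_left (hM2 p) (Nat.cast_nonneg j)).trans hjw)) ?_
    rwa [sum_const, card_univ, nsmul_eq_mul]
  have h3 := mul_le_mul_of_nonneg_left h2 (show 0 ≤ 1 / (2 * R) by positivity)
  have h4 : 1 / (2 * R) * R ^ 2 = R / 2 := by field_simp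
  linarith

/-- the proportion of points that every half-space through the flat contains -/
def del (D j : ℕ) : ℝ := j / (400 * D * log (400 * D / j))

theorem del_facts {D j : ℕ} (hj : 1 ≤ j) (hjD : j ≤ D) :
    5 ≤ log (400 * (D : ℝ) / j) ∧ 0 < del D j ∧ del D j ≤ 1 / 2 := by
  have hj' : (1 : ℝ) ≤ j := by exact_mod_cast hj
  have hD : (j : ℝ) ≤ D := by exact_mod_cast hjD
  have h1 : (5 : ℝ) ≤ log (400 * (D : ℝ) / j) := by
    rw [le_log_iff_exp_le (by apply div_pos <;> linarith), le_div_iff₀ (by linarith)]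
    have h2 : exp 5 ≤ 400 := by
      have h3 : exp 5 = exp 1 ^ 5 := by rw [← exp_nat_mul]; norm_num
      have h4 := pow_le_pow_left₀ (exp_pos 1).le exp_one_lt_d9.le 5
      rw [h3]; refine h4.trans (by norm_num)
    nlinarith
  refine ⟨h1, ?_, ?_⟩
  · unfold del
    apply div_pos <;> nlinarith
  · unfold del
    rw [div_le_iff₀ (by nlinarith)]
    nlinarith

theorem section_del (F : Submodule ℝ (EuclideanSpace ℝ ι)) {D j : ℕ} (hj : 1 ≤ j) (hjD : j ≤ D)
    (hn : 0 < Fintype.card ι)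
    (hF : ∀ x ∈ F, ∀ p, x p ^ 2 ≤ 5 / 2 * D / Fintype.card ι * ‖x‖ ^ 2) :
    ∃ ω : Fin j → ι → Bool, ∀ x ∈ F, ‖x‖ = 1 → (∀ i, ∑ q, sg (ω i q) * x q = 0) →
      4 * (del D j * Fintype.card ι) < (∑ q, |x q|) ^ 2 := by
  obtain ⟨h5, hδ, -⟩ := del_facts hj hjD
  have hj' : (1 : ℝ) ≤ j := by exact_mod_cast hj
  have hD : (j : ℝ) ≤ D := by exact_mod_cast hjD
  have hn' : (0 : ℝ) < Fintype.card ι := by exact_mod_cast hn
  have hD0 : (0 : ℝ) < D := by linarith
  have hj0 : (0 : ℝ) < j := by linarith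
  set n : ℝ := (Fintype.card ι : ℝ) with hnd
  set l := log (400 * (D : ℝ) / j) with hl
  have hs2 : √(2 * l) ^ 2 = 2 * l := sq_sqrt (by linarith)
  have hw2 : √(j * (5 / 2 * D / n)) ^ 2 = j * (5 / 2 * D / n) := sq_sqrt (by positivity)
  have hL2 : √(4 * (del D j * n)) ^ 2 = 4 * (del D j * n) := sq_sqrt (by positivity)
  have he : exp (-(√(2 * l) ^ 2 / 2)) = j / (400 * D) := by
    rw [hs2, show 2 * l / 2 = l by ring, exp_neg, hl, exp_log (by positivity), inv_div]
  obtain ⟨ω, hω⟩ := section_l1 F (by positivity) hF (j := j) (s := √(2 * l))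
    (w := √(j * (5 / 2 * D / n))) (L := √(4 * (del D j * n))) (R := j / 20)
    (sqrt_pos.2 (by linarith)) (sqrt_pos.2 (by positivity)) (by positivity) hw2.ge (by
      rw [he, hs2, hw2, ← hnd]
      have e : n * (4 * (j * (5 / 2 * D / n)) / (2 * l) * (j / (400 * D))) = j ^ 2 / (80 * l) := by
        field_simp; ring
      rw [e, div_le_iff₀ (by linarith)]
      nlinarith [sq_nonneg (j : ℝ)]) (by
      have e : (√(2 * l) * √(j * (5 / 2 * D / n)) * √(4 * (del D j * n))) ^ 2 = j ^ 2 / 20 := by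
        rw [mul_pow, mul_pow, hs2, hw2, hL2]
        unfold del
        rw [← hl]
        have : l ≠ 0 := by linarith
        field_simp; ring
      have h6 : √(2 * l) * √(j * (5 / 2 * D / n)) * √(4 * (del D j * n)) ≤ 9 / 40 * j := by
        refine le_of_pow_le_pow_left₀ two_ne_zero (by positivity) ?_
        rw [e]
        nlinarith [sq_nonneg (j : ℝ)]
      linarith)
  refine ⟨ω, fun x hx h1 h0 => ?_⟩
  rw [← hL2]
  exact pow_lt_pow_left₀ (hω x hx h1 h0) (sqrt_nonneg _) two_ne_zero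

end Pool.Agent.P.MP_83f3dc_co.KL
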