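import Pool.Agent.P.MP_83f3dc_co.Upper

set_option autoImplicit false
set_option linter.unusedSectionVars false
set_option linter.unusedVariables false

open MeasureTheory ProbabilityTheory Module Set Filter Topology
open scoped RealInnerProductSpace ENNReal

noncomputable section

namespace Pool.Agent.P.MP_83f3dc_co.KT

theorem basic_ext {V : Type} [AddCommGroup V] [Module ℝ V] [FiniteDimensional ℝ V]
    (U : Submodule ℝ V) {m : ℕ} (h : finrank ℝ U ≤ m) (h' : m ≤ finrank ℝ V) :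
    ∃ U', U ≤ U' ∧ finrank ℝ U' = m := by
  obtain ⟨C, hC⟩ := U.exists_isCompl
  have h1 := Submodule.finrank_add_eq_of_isCompl hC
  obtain ⟨C', hC', h2⟩ := exists_sub C (m := m - finrank ℝ U) (by omega)
  refine ⟨U ⊔ C', le_sup_left, ?_⟩
  have h3 := Submodule.finrank_sup_add_finrank_inf_eq U C'
  rw [(hC.disjoint.mono_right hC').eq_bot, finrank_bot] at h3
  omega

theorem has_mono_n {d j k n n' : ℕ} (hd : 0 < d) (h : n ≤ n') (H : HasTransversal d j k n') :
    HasTransversal d j k n := by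
  intro X hX
  have : Nonempty (Fin d) := ⟨⟨0, hd⟩⟩
  have : Infinite (EuclideanSpace ℝ (Fin d)) :=
    Infinite.of_injective _ (mc_inj hd)
  obtain ⟨X', h1, h2⟩ := Infinite.exists_superset_card_eq X n' (hX ▸ h)
  obtain ⟨L, h3, h4, h5⟩ := H X' h2
  exact ⟨L, h3, h4, fun Y hY => h5 Y (hY.trans h1)⟩

theorem has_mono_j {d j j' k n : ℕ} (h : j ≤ j') (h' : j' ≤ d) (H : HasTransversal d j k n) :
    HasTransversal d j' k n := by
  intro X hX
  obtain ⟨L, ⟨x, hx⟩, h4, h5⟩ := H X hX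
  obtain ⟨U, h1, h2⟩ := basic_ext L.direction (m := j') (h4 ▸ h) (by simpa using h')
  refine ⟨AffineSubspace.mk' x U, ⟨x, AffineSubspace.self_mem_mk' x U⟩, ?_, fun Y hY hc => ?_⟩
  · rw [AffineSubspace.direction_mk', h2]
  · obtain ⟨y, hy, hy'⟩ := h5 Y hY hc
    exact ⟨y, AffineSubspace.mem_mk'.2 (h1 (AffineSubspace.vsub_mem_direction hy hx)), hy'⟩

theorem has_one {d j k : ℕ} (hj : j ≤ d) (hk : 1 ≤ k) : HasTransversal d j k 1 := by
  intro X hX
  obtain ⟨x, rfl⟩ := Finset.card_eq_one.1 hX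
  obtain ⟨U, -, h2⟩ := basic_ext (⊥ : Submodule ℝ (EuclideanSpace ℝ (Fin d))) (m := j)
    (by simp) (by simpa using hj)
  refine ⟨AffineSubspace.mk' x U, ⟨x, AffineSubspace.self_mem_mk' x U⟩, ?_, fun Y hY hc => ?_⟩
  · rw [AffineSubspace.direction_mk', h2]
  · obtain ⟨y, hy⟩ := Finset.card_pos.1 (hc ▸ hk : 0 < Y.card)
    obtain rfl := Finset.mem_singleton.1 (hY hy)
    exact ⟨y, AffineSubspace.self_mem_mk' y U, subset_convexHull ℝ _ hy⟩

theorem le_of_has {d c k n : ℕ} (hc : 1 ≤ c) (hcd : c ≤ d) (hk : 1 ≤ k)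
    (H : HasTransversal d (d - c) k n) : n ≤ d + 2 * k := by
  by_contra hn
  have h1 := upper 1 (k - 1) (d - 1) n le_rfl (by omega)
  rw [show d - 1 + 1 = d by omega, show 1 + (k - 1) = k by omega] at h1
  exact h1 (has_mono_j (by omega) (by omega) H)

theorem exists_m {d c k : ℕ} (hc : 1 ≤ c) (hcd : c ≤ d) (hk : 1 ≤ k) :
    ∃ m : ℕ, IsGreatest {n : ℕ | 0 < n ∧ HasTransversal d (d - c) k n} m := by
  have hb : BddAbove {n : ℕ | 0 < n ∧ HasTransversal d (d - c) k n} :=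
    ⟨d + 2 * k, fun n hn => le_of_has hc hcd hk hn.2⟩
  exact ⟨_, Nat.sSup_mem ⟨1, one_pos, has_one (Nat.sub_le _ _) hk⟩ hb,
    fun n hn => le_csSup hb hn⟩

end Pool.Agent.P.MP_83f3dc_co.KT
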