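import Pool.Agent.P.MP_83f3dc_co.KTFlat
import Pool.Agent.P.MP_83f3dc_co.KTBasic

set_option autoImplicit false
set_option linter.unusedSectionVars false
set_option linter.unusedVariables false

open MeasureTheory ProbabilityTheory Module Set Filter Topology
open scoped RealInnerProductSpace ENNReal

noncomputable section

namespace Pool.Agent.P.MP_83f3dc_co.KT

theorem lower_m {d c k m : ℕ} (hc : 1 ≤ c) (hcd : c < d) (hk : 1 ≤ k)
    (hm : IsGreatest {n : ℕ | 0 < n ∧ HasTransversal d (d - c) k n} m) (a : ℕ) (hca : c ≤ a)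
    (had : a ≤ d + 1) : (d : ℝ) - a + (2 - 4 * eta a c) * k ≤ m := by
  have h0 := eta_nonneg hc hca
  have hk' : (0 : ℝ) < k := by exact_mod_cast hk
  have hp : 0 < 1 / 2 + eta a c := by linarith
  have ht : 0 < (k : ℝ) / (1 / 2 + eta a c) := div_pos hk' hp
  obtain ⟨m0, hm0⟩ : ∃ m0 : ℕ, ⌈(k : ℝ) / (1 / 2 + eta a c)⌉₊ = m0 + 1 :=
    Nat.exists_eq_succ_of_ne_zero (Nat.ceil_pos.2 ht).ne'
  have h1 := Nat.ceil_lt_add_one ht.le
  have h2 := Nat.le_ceil ((k : ℝ) / (1 / 2 + eta a c))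
  rw [hm0] at h1 h2
  push_cast at h1 h2
  have h3 : (m0 : ℝ) * (1 / 2 + eta a c) < k := by
    rw [← lt_div_iff₀ hp]; linarith
  have h4 := has_of d c k a m0 hc hca had hcd.le h3
  have h5 : d + 1 - a + m0 ≤ m := by
    rcases Nat.eq_zero_or_pos (d + 1 - a + m0) with h | h
    · omega
    · exact hm.2 ⟨h, h4⟩
  have h6 : (d : ℝ) + 1 + m0 ≤ m + a := by
    have : d + 1 + m0 ≤ m + a := by omega
    exact_mod_cast this
  have h7 : (2 - 4 * eta a c) * k ≤ (k : ℝ) / (1 / 2 + eta a c) := by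
    rw [le_div_iff₀ hp]
    nlinarith [mul_nonneg hk'.le (mul_nonneg h0 h0)]
  linarith

theorem partA (d c k : ℕ) (hc : 1 ≤ c) (hcd : c < d) (hk : 1 ≤ k) :
    ∃ m : ℕ, IsGreatest {n : ℕ | 0 < n ∧ HasTransversal d (d - c) k n} m ∧
      ∀ a : ℕ, c ≤ a → a ≤ d + 1 →
        (d : ℝ) - a + (2 - 160 * √((c : ℝ) / a) * Real.log (2 * (a : ℝ) / c)) * k ≤ m := by
  obtain ⟨m, hm⟩ := exists_m hc hcd.le hk
  refine ⟨m, hm, fun a hca had => ?_⟩
  have h := lower_m hc hcd hk hm a hca had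
  have e : 4 * eta a c = 160 * √((c : ℝ) / a) * Real.log (2 * (a : ℝ) / c) := by
    unfold eta; ring
  rwa [e] at h

theorem partB (ε : ℝ) (hε : 0 < ε) : ∃ K : ℕ, ∀ d c k m : ℕ, 1 ≤ c → c < d → 1 ≤ k → K * c ≤ d →
    IsGreatest {n : ℕ | 0 < n ∧ HasTransversal d (d - c) k n} m →
      |(m : ℝ) - (d + 2 * k)| ≤ ε * (d + 2 * k) := by
  obtain ⟨A, hA, hη⟩ := eta_small (ε / 2) (by positivity)
  refine ⟨⌈(A : ℝ) / ε⌉₊ + A, fun d c k m hc hcd hk hK hm => ?_⟩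
  have hAd : A * c ≤ d := le_trans (Nat.mul_le_mul_right c (Nat.le_add_left _ _)) hK
  have h1 := lower_m hc hcd hk hm (A * c) (Nat.le_mul_of_pos_left c hA) (by omega)
  have h2 : (m : ℝ) ≤ d + 2 * k := by exact_mod_cast le_of_has hc hcd.le hk hm.1.2
  have h3 := hη c hc
  have hk' : (0 : ℝ) ≤ k := Nat.cast_nonneg k
  have hc' : (0 : ℝ) ≤ c := Nat.cast_nonneg c
  have h4 : ((A * c : ℕ) : ℝ) ≤ ε * d := by
    have h5 : (⌈(A : ℝ) / ε⌉₊ : ℝ) * c ≤ d := by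
      have : ⌈(A : ℝ) / ε⌉₊ * c ≤ d := le_trans (Nat.mul_le_mul_right c (Nat.le_add_right _ _)) hK
      exact_mod_cast this
    have h6 : (A : ℝ) ≤ ε * ⌈(A : ℝ) / ε⌉₊ := by
      have := Nat.le_ceil ((A : ℝ) / ε)
      rwa [div_le_iff₀' hε] at this
    push_cast
    calc (A : ℝ) * c ≤ ε * ⌈(A : ℝ) / ε⌉₊ * c := mul_le_mul_of_nonneg_right h6 hc'
      _ = ε * (⌈(A : ℝ) / ε⌉₊ * c) := by ring
      _ ≤ ε * d := mul_le_mul_of_nonneg_left h5 hε.le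
  rw [abs_sub_comm, abs_of_nonneg (by linarith)]
  nlinarith [mul_le_mul_of_nonneg_right h3 hk']

end Pool.Agent.P.MP_83f3dc_co.KT
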