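import Pool.Agent.P.MP_83f3dc_co.KL3
import Pool.Agent.P.MP_83f3dc_co.KTA

/-! Forster position with a lower frame bound, and the core estimate. -/

set_option autoImplicit false

open Module Set Filter Topology
open scoped RealInnerProductSpace

noncomputable section

namespace Pool.Agent.P.MP_83f3dc_co.KL

open KT

theorem forster_norm2 {D : ℕ} {z : E D} (hz : ‖z‖ = 1) (w : E D) (hw : w ≠ 0) :
    ‖LinearMap.transvection (innerₗ (E D) z) z w‖ ^ 2 ≤
      ‖w‖ ^ 2 * Real.exp (3 * ⟪z, ‖w‖⁻¹ • w⟫ ^ 2) := by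
  have h0 : ‖w‖ ≠ 0 := norm_ne_zero_iff.2 hw
  have h1 : ‖LinearMap.transvection (innerₗ (E D) z) z w‖ ^ 2 =
      ‖w‖ ^ 2 * (3 * ⟪z, ‖w‖⁻¹ • w⟫ ^ 2 + 1) := by
    rw [LinearMap.transvection.apply, innerₗ_apply_apply, norm_add_sq_real,
      real_inner_smul_right, real_inner_smul_right, norm_smul, hz, mul_one, Real.norm_eq_abs,
      sq_abs, real_inner_comm z w]
    field_simp
    ring
  rw [h1]
  exact mul_le_mul_of_nonneg_left (Real.add_one_le_exp _) (sq_nonneg _)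

theorem forster2 {D : ℕ} {ι : Type} [Fintype ι] (v : ι → Fin D → E D)
    (hv : ∀ i, LinearIndependent ℝ (v i)) :
    ∃ B : E D ≃ₗ[ℝ] E D, ∀ z : E D, 2 / 5 * (Fintype.card ι : ℝ) * ‖z‖ ^ 2 ≤
      ∑ i, ∑ b, ⟪z, ‖B (v i b)‖⁻¹ • B (v i b)⟫ ^ 2 := by
  rcases isEmpty_or_nonempty ι with hι | hι
  · exact ⟨LinearEquiv.refl _ _, fun z => by simp⟩
  have hN : (1 : ℝ) ≤ Fintype.card ι := by exact_mod_cast Fintype.card_pos
  set N := Fintype.card ι with hNd
  set m : ℝ := ∏ i, (EuclideanSpace.basisFun (Fin D) ℝ).toBasis.det (v i) ^ 2 with hm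
  have hm0 : 0 < m :=
    Finset.prod_pos fun i _ => sq_pos_of_ne_zero (forster_det_ne (hv i))
  set S : Set ℝ := {x | ∃ B : E D →ₗ[ℝ] E D, LinearMap.det B ≠ 0 ∧
    x = (∏ i, ∏ b, ‖B (v i b)‖ ^ 2) / (LinearMap.det B ^ 2) ^ N} with hS
  have hlow : ∀ x ∈ S, m ≤ x := by
    rintro _ ⟨B, hB, rfl⟩
    rw [le_div_iff₀ (by positivity), mul_comm]
    exact forster_low v B
  have hne : S.Nonempty := ⟨_, LinearMap.id, by simp, rfl⟩
  have hμ : 0 < sInf S := hm0.trans_le (le_csInf hne hlow)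
  obtain ⟨_, ⟨B, hB, rfl⟩, h2⟩ :=
    exists_lt_of_csInf_lt hne (show sInf S < 7 / 6 * sInf S by linarith)
  have hBv : ∀ i b, B (v i b) ≠ 0 := fun i b h =>
    (hv i).ne_zero b ((B.equivOfDetNeZero hB).map_eq_zero_iff.1 h)
  have unit : ∀ z : E D, ‖z‖ = 1 →
      2 / 5 * (N : ℝ) ≤ ∑ i, ∑ b, ⟪z, ‖B (v i b)‖⁻¹ • B (v i b)⟫ ^ 2 := by
    intro z hz
    set R := LinearMap.transvection (innerₗ (E D) z) z with hR
    have hdet : LinearMap.det R = 2 := by
      rw [hR, LinearMap.transvection.det, innerₗ_apply_apply, real_inner_self_eq_norm_sq, hz]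
      norm_num
    have hd : LinearMap.det (R ∘ₗ B) = 2 * LinearMap.det B := by
      rw [LinearMap.det_comp, hdet]
    have h3 : sInf S ≤ (∏ i, ∏ b, ‖(R ∘ₗ B) (v i b)‖ ^ 2) / (LinearMap.det (R ∘ₗ B) ^ 2) ^ N :=
      csInf_le ⟨m, hlow⟩ ⟨R ∘ₗ B, by rw [hd]; positivity, rfl⟩
    set T : ℝ := ∑ i, ∑ b, ⟪z, ‖B (v i b)‖⁻¹ • B (v i b)⟫ ^ 2 with hT
    have h4 : ∏ i, ∏ b, ‖(R ∘ₗ B) (v i b)‖ ^ 2 ≤
        (∏ i, ∏ b, ‖B (v i b)‖ ^ 2) * Real.exp (3 * T) := by
      rw [hT, Finset.mul_sum, Real.exp_sum, ← Finset.prod_mul_distrib]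
      refine Finset.prod_le_prod (fun i _ => Finset.prod_nonneg fun b _ => sq_nonneg _)
        fun i _ => ?_
      rw [Finset.mul_sum, Real.exp_sum, ← Finset.prod_mul_distrib]
      exact Finset.prod_le_prod (fun b _ => sq_nonneg _) fun b _ => forster_norm2 hz _ (hBv i b)
    have h5 : sInf S ≤ 7 / 6 * sInf S * (Real.exp (3 * T) / 4 ^ N) := by
      refine h3.trans ?_
      calc _ ≤ (∏ i, ∏ b, ‖B (v i b)‖ ^ 2) * Real.exp (3 * T) /
            (LinearMap.det (R ∘ₗ B) ^ 2) ^ N :=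
            div_le_div_of_nonneg_right h4 (pow_nonneg (sq_nonneg _) _)
        _ = (∏ i, ∏ b, ‖B (v i b)‖ ^ 2) / (LinearMap.det B ^ 2) ^ N *
            (Real.exp (3 * T) / 4 ^ N) := by
            rw [hd, show (2 * LinearMap.det B) ^ 2 = LinearMap.det B ^ 2 * 4 by ring, mul_pow]
            field_simp
        _ ≤ _ := mul_le_mul_of_nonneg_right h2.le (by positivity)
    have h6 : 1 ≤ 7 / 6 * (Real.exp (3 * T) / 4 ^ N) := by
      by_contra h
      nlinarith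
    have e4 : Real.exp (2 * Real.log 2) = 4 := by
      rw [two_mul, Real.exp_add, Real.exp_log two_pos]; norm_num
    have h7 : Real.exp (3 * T) / 4 ^ N = Real.exp (3 * T - N * (2 * Real.log 2)) := by
      rw [Real.exp_sub, Real.exp_nat_mul, e4]
    have h8 : 1 ≤ Real.exp (1 / 6 + (3 * T - N * (2 * Real.log 2))) := by
      rw [Real.exp_add, ← h7]
      refine h6.trans (mul_le_mul_of_nonneg_right ?_ (by positivity))
      linarith [Real.add_one_le_exp (1 / 6 : ℝ)]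
    rw [Real.one_le_exp_iff] at h8
    have h9 := Real.log_two_gt_d9
    nlinarith
  refine ⟨B.equivOfDetNeZero hB, fun z => ?_⟩
  change _ ≤ ∑ i, ∑ b, ⟪z, ‖B (v i b)‖⁻¹ • B (v i b)⟫ ^ 2
  rcases eq_or_ne z 0 with rfl | hz
  · simp
  have h0 : ‖z‖ ≠ 0 := norm_ne_zero_iff.2 hz
  have h1 := unit (‖z‖⁻¹ • z) (by rw [norm_smul, norm_inv, norm_norm, inv_mul_cancel₀ h0])
  have h3 : ∑ i, ∑ b, ⟪z, ‖B (v i b)‖⁻¹ • B (v i b)⟫ ^ 2 =
      (∑ i, ∑ b, ⟪‖z‖⁻¹ • z, ‖B (v i b)‖⁻¹ • B (v i b)⟫ ^ 2) * ‖z‖ ^ 2 := by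
    rw [Finset.sum_mul]
    refine Finset.sum_congr rfl fun i _ => ?_
    rw [Finset.sum_mul]
    refine Finset.sum_congr rfl fun b _ => ?_
    rw [real_inner_smul_left]
    field_simp
  rw [h3]
  exact mul_le_mul_of_nonneg_right h1 (sq_nonneg _)

theorem count_le {ι : Type} [Fintype ι] (x : ι → ℝ) (h0 : ∑ p, x p = 0) (h1 : ∑ p, x p ^ 2 = 1)
    {u : ℝ} (hu : 4 * u < (∑ p, |x p|) ^ 2) :
    ((Finset.univ.filter fun p => 0 < x p).card : ℝ) ≤ Fintype.card ι - u := by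
  classical
  have h2 := Finset.card_filter_add_card_filter_not (s := Finset.univ) fun p => 0 < x p
  rw [Finset.card_univ] at h2
  set A := Finset.univ.filter fun p => ¬ 0 < x p with hA
  have h3 : ∑ p, |x p| = -2 * ∑ p ∈ A, x p := by
    have h4 : ∑ p, |x p| = ∑ p, (x p + if ¬ 0 < x p then -2 * x p else 0) :=
      Finset.sum_congr rfl fun p _ => by
        by_cases h : 0 < x p
        · rw [if_neg (not_not.2 h), abs_of_pos h, add_zero]
        · rw [if_pos h, abs_of_nonpos (not_lt.1 h)]; ring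
    rw [h4, Finset.sum_add_distrib, h0, zero_add, ← Finset.sum_filter, Finset.mul_sum]
  have h5 : (∑ p ∈ A, x p) ^ 2 ≤ A.card * ∑ p ∈ A, x p ^ 2 := sq_sum_le_card_mul_sum_sq
  have h6 : ∑ p ∈ A, x p ^ 2 ≤ 1 :=
    h1 ▸ Finset.sum_le_sum_of_subset_of_nonneg (Finset.subset_univ _) fun _ _ _ => sq_nonneg _
  have h7 := mul_le_mul_of_nonneg_left h6 (Nat.cast_nonneg (α := ℝ) A.card)
  have h8 : ((Finset.univ.filter fun p => 0 < x p).card : ℝ) + A.card = Fintype.card ι := by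
    exact_mod_cast h2
  rw [h3] at hu
  nlinarith

theorem core2 {D c j : ℕ} (hj : 1 ≤ j) (hD : c + j + 1 ≤ D) {ι : Type} [Fintype ι] (e : ι → E D)
    (he1 : ∀ p, ‖e p‖ = 1)
    (he : ∀ z, 2 / 5 * (Fintype.card ι : ℝ) / D * ‖z‖ ^ 2 ≤ ∑ p, ⟪z, e p⟫ ^ 2) :
    ∃ G : Fin c → E D, LinearIndependent ℝ G ∧ ∀ y : Fin c → ℝ,
      ((Finset.univ.filter fun p => 0 < ⟪∑ a, y a • G a, e p⟫).card : ℝ) ≤
        (Fintype.card ι : ℝ) * (1 - del D j) := by
  classical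
  rcases Nat.eq_zero_or_pos (Fintype.card ι) with hn | hn
  · have hcD : c ≤ D := by omega
    refine ⟨fun a => EuclideanSpace.basisFun (Fin D) ℝ (Fin.castLE hcD a),
      (EuclideanSpace.basisFun (Fin D) ℝ).orthonormal.linearIndependent.comp _
        (Fin.castLE_injective hcD), fun y => ?_⟩
    have := Fintype.card_eq_zero_iff.1 hn
    simp
  have hn' : (0 : ℝ) < Fintype.card ι := by exact_mod_cast hn
  have hD' : (0 : ℝ) < D := by exact_mod_cast (show 0 < D by omega)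
  let T : E D →ₗ[ℝ] EuclideanSpace ℝ ι := (WithLp.linearEquiv 2 ℝ (ι → ℝ)).symm.toLinearMap ∘ₗ
    LinearMap.pi fun p => innerₗ (E D) (e p)
  have hT : ∀ z p, T z p = ⟪z, e p⟫ := fun z p => real_inner_comm z (e p)
  obtain ⟨ω, hω⟩ := section_del (LinearMap.range T) (D := D) hj (by omega) hn (by
    rintro _ ⟨z, rfl⟩ p
    have h1 := he z
    have h2 : ‖T z‖ ^ 2 = ∑ p, ⟪z, e p⟫ ^ 2 := by
      rw [EuclideanSpace.real_norm_sq_eq]
      exact Finset.sum_congr rfl fun p _ => by rw [hT]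
    have h3 : ⟪z, e p⟫ ^ 2 ≤ ‖z‖ ^ 2 := by
      have := abs_real_inner_le_norm z (e p)
      rw [he1, mul_one] at this
      rw [← sq_abs]
      exact pow_le_pow_left₀ (abs_nonneg _) this 2
    rw [hT, h2]
    refine h3.trans (le_trans (le_of_eq ?_) (mul_le_mul_of_nonneg_left h1 (by positivity)))
    field_simp)
  let φ : Option (Fin j) → E D →ₗ[ℝ] ℝ := fun o =>
    ∑ p, (o.elim 1 fun i => sg (ω i p)) • innerₗ (E D) (e p)
  have hφ : ∀ o z, φ o z = ∑ p, (o.elim 1 fun i => sg (ω i p)) * T z p := fun o z => by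
    simp only [φ, LinearMap.sum_apply, LinearMap.smul_apply, smul_eq_mul]
    rfl
  have h1 := LinearMap.finrank_range_add_finrank_ker (LinearMap.pi φ)
  have h2 := Submodule.finrank_le (LinearMap.range (LinearMap.pi φ))
  rw [Module.finrank_fintype_fun_eq_card, Fintype.card_option, Fintype.card_fin] at h2
  rw [finrank_euclideanSpace_fin] at h1
  obtain ⟨f, hf⟩ := exists_linearIndependent_of_le_finrank (R := ℝ)
    (M := LinearMap.ker (LinearMap.pi φ)) (n := c) (by omega)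
  refine ⟨_, hf.map' _ (Submodule.ker_subtype _), fun y => ?_⟩
  have hz : ∑ a, y a • ((LinearMap.ker (LinearMap.pi φ)).subtype ∘ f) a ∈
      LinearMap.ker (LinearMap.pi φ) :=
    Submodule.sum_mem _ fun a _ => Submodule.smul_mem _ _ (f a).2
  generalize ∑ a, y a • ((LinearMap.ker (LinearMap.pi φ)).subtype ∘ f) a = z at hz
  have hz' : ∀ o, φ o z = 0 := congrFun hz
  obtain ⟨-, -, hδ⟩ := del_facts (D := D) hj (by omega)
  simp only [← hT]
  by_cases h0 : T z = 0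
  · simp only [h0, PiLp.zero_apply, lt_self_iff_false, Finset.filter_false, Finset.card_empty,
      Nat.cast_zero]
    exact mul_nonneg hn'.le (by linarith)
  have hpos : 0 < ‖T z‖⁻¹ := inv_pos.2 (norm_pos_iff.2 h0)
  have hφ' : ∀ o, ∑ p, (Option.elim o 1 fun i => sg (ω i p)) * (‖T z‖⁻¹ • T z) p = 0 := fun o => by
    have h3 := hz' o
    rw [hφ] at h3
    simp only [PiLp.smul_apply, smul_eq_mul, mul_left_comm _ ‖T z‖⁻¹]
    rw [← Finset.mul_sum, h3, mul_zero]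
  have hx1 : ‖‖T z‖⁻¹ • T z‖ = 1 := norm_smul_inv_norm h0
  have h4 := count_le (fun p => (‖T z‖⁻¹ • T z) p) (by simpa using hφ' none)
    (by rw [← EuclideanSpace.real_norm_sq_eq, hx1, one_pow])
    (hω _ (Submodule.smul_mem _ _ ⟨z, rfl⟩) hx1 fun i => hφ' (some i))
  simp only [PiLp.smul_apply, smul_eq_mul, mul_pos_iff_of_pos_left hpos] at h4
  linarith

end Pool.Agent.P.MP_83f3dc_co.KL
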