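import Mathlib

/-! The Prekopa-Leindler inequality (copied from the landed file of MP_f791b6_an). -/

set_option autoImplicit false

open MeasureTheory Set Metric Filter Topology
open scoped ContDiff RealInnerProductSpace ENNReal

namespace Pool.Agent.P.MP_83f3dc_co.KT


lemma pl_vol_shift (A C : Set ℝ) (b : ℝ) (h : ∀ a ∈ A, a + b ∈ C) : volume A ≤ volume C := by
  have : volume ((fun x => x + b) ⁻¹' C) = volume C := measure_preimage_add_right _ _ _
  rw [← this]
  exact measure_mono fun a ha => h a ha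

lemma pl_bm_compact (K L C : Set ℝ) (hK : IsCompact K) (hL : IsCompact L) (hKn : K.Nonempty)
    (hLn : L.Nonempty) (h : ∀ a ∈ K, ∀ b ∈ L, a + b ∈ C) : volume K + volume L ≤ volume C := by
  obtain ⟨α, hα, hmax⟩ := hK.exists_isGreatest hKn
  obtain ⟨β, hβ, hmin⟩ := hL.exists_isLeast hLn
  rw [← measure_inter_add_sdiff C (measurableSet_Iic (a := α + β))]
  refine add_le_add (pl_vol_shift _ _ β fun a ha => ⟨h a ha β hβ, ?_⟩) ?_
  · have := hmax ha
    simp only [mem_Iic]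
    linarith
  · rw [← measure_sdiff_null (s := L) (measure_singleton β)]
    refine pl_vol_shift _ _ α fun b hb => ⟨?_, ?_⟩
    · rw [add_comm]
      exact h α hα b hb.1
    · have h1 : β ≤ b := hmin hb.1
      have h2 : b ≠ β := hb.2
      have := lt_of_le_of_ne h1 h2.symm
      simp only [mem_Iic, not_le]
      linarith

lemma pl_bm_one (A B C : Set ℝ) (hA : MeasurableSet A) (hB : MeasurableSet B) (hAn : A.Nonempty)
    (hBn : B.Nonempty) (h : ∀ a ∈ A, ∀ b ∈ B, a + b ∈ C) : volume A + volume B ≤ volume C := by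
  obtain ⟨a0, ha0⟩ := hAn
  obtain ⟨b0, hb0⟩ := hBn
  rcases eq_or_ne (volume A) 0 with h0 | h0
  · rw [h0, zero_add]
    exact pl_vol_shift _ _ a0 fun b hb => by rw [add_comm]; exact h a0 ha0 b hb
  rcases eq_or_ne (volume B) 0 with h1 | h1
  · rw [h1, add_zero]
    exact pl_vol_shift _ _ b0 fun a ha => h a ha b0 hb0
  by_contra hc
  obtain ⟨u, hu, v, hv, huv⟩ := ENNReal.exists_lt_add_of_lt_add (not_le.1 hc) h0 h1
  obtain ⟨K, hKA, hK, hKu⟩ := hA.exists_lt_isCompact hu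
  obtain ⟨L, hLB, hL, hLv⟩ := hB.exists_lt_isCompact hv
  have := pl_bm_compact K L C hK hL (nonempty_of_measure_ne_zero (zero_le.trans_lt hKu).ne')
    (nonempty_of_measure_ne_zero (zero_le.trans_lt hLv).ne')
    fun a ha b hb => h a (hKA ha) b (hLB hb)
  exact absurd ((huv.trans_le (add_le_add hKu.le hLv.le)).trans_le this) (lt_irrefl _)

lemma pl_vol_smul (A : Set ℝ) {r : ℝ} (hr : 0 < r) :
    volume ((fun x => r⁻¹ • x) ⁻¹' A) = ENNReal.ofReal r * volume A := by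
  rw [Measure.addHaar_preimage_smul (volume : Measure ℝ) (inv_ne_zero hr.ne') A]
  simp [abs_of_pos hr]

lemma pl_bm_t {t : ℝ} (h0 : 0 < t) (h1 : t < 1) (A B C : Set ℝ) (hA : MeasurableSet A)
    (hB : MeasurableSet B) (hAn : A.Nonempty) (hBn : B.Nonempty)
    (h : ∀ a ∈ A, ∀ b ∈ B, (1 - t) • a + t • b ∈ C) :
    ENNReal.ofReal (1 - t) * volume A + ENNReal.ofReal t * volume B ≤ volume C := by
  have h2 : 0 < 1 - t := by linarith
  rw [← pl_vol_smul A h2, ← pl_vol_smul B h0]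
  obtain ⟨a0, ha0⟩ := hAn
  obtain ⟨b0, hb0⟩ := hBn
  refine pl_bm_one _ _ _ (hA.preimage (measurable_const_smul _))
    (hB.preimage (measurable_const_smul _)) ⟨(1 - t) • a0, ?_⟩ ⟨t • b0, ?_⟩ fun a ha b hb => ?_
  · rw [mem_preimage, inv_smul_smul₀ h2.ne']
    exact ha0
  · rw [mem_preimage, inv_smul_smul₀ h0.ne']
    exact hb0
  · have := h _ ha _ hb
    rwa [smul_inv_smul₀ h2.ne', smul_inv_smul₀ h0.ne'] at this

lemma pl_norm {t : ℝ} (h0 : 0 < t) (h1 : t < 1) (F G H : ℝ → ℝ) (mF : Measurable F)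
    (mG : Measurable G) (mH : Measurable H)
    (F0 : ∀ x, 0 ≤ F x) (G0 : ∀ x, 0 ≤ G x) (H0 : ∀ x, 0 ≤ H x)
    (F1 : ∀ x, F x ≤ 1) (G1 : ∀ x, G x ≤ 1)
    (Fs : ∀ s < 1, ∃ x, s < F x) (Gs : ∀ s < 1, ∃ x, s < G x)
    (h : ∀ x y, F x ^ (1 - t) * G y ^ t ≤ H ((1 - t) • x + t • y)) :
    ENNReal.ofReal (1 - t) * (∫⁻ x, ENNReal.ofReal (F x)) +
      ENNReal.ofReal t * ∫⁻ x, ENNReal.ofReal (G x) ≤ ∫⁻ x, ENNReal.ofReal (H x) := by
  rw [lintegral_eq_lintegral_meas_lt _ (Filter.Eventually.of_forall F0) mF.aemeasurable,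
    lintegral_eq_lintegral_meas_lt _ (Filter.Eventually.of_forall G0) mG.aemeasurable,
    lintegral_eq_lintegral_meas_lt _ (Filter.Eventually.of_forall H0) mH.aemeasurable]
  have hm : Measurable fun s : ℝ => volume {a : ℝ | s < F a} :=
    Antitone.measurable fun s t hst => measure_mono fun a (ha : t < F a) => hst.trans_lt ha
  rw [← lintegral_const_mul' _ _ ENNReal.ofReal_ne_top,
    ← lintegral_const_mul' _ _ ENNReal.ofReal_ne_top, ← lintegral_add_left (hm.const_mul _)]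
  refine setLIntegral_mono' measurableSet_Ioi fun s hs => ?_
  have hs0 : 0 < s := hs
  by_cases h2 : s < 1
  · refine pl_bm_t h0 h1 _ _ _ (measurableSet_lt measurable_const mF)
      (measurableSet_lt measurable_const mG) (Fs s h2) (Gs s h2) fun a ha b hb => ?_
    have ha' : s < F a := ha
    have hb' : s < G b := hb
    refine lt_of_lt_of_le ?_ (h a b)
    have e : s = s ^ (1 - t) * s ^ t := by
      rw [← Real.rpow_add hs0, sub_add_cancel, Real.rpow_one]
    rw [e]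
    exact mul_lt_mul'' (Real.rpow_lt_rpow hs0.le ha' (by linarith))
      (Real.rpow_lt_rpow hs0.le hb' h0) (Real.rpow_nonneg hs0.le _) (Real.rpow_nonneg hs0.le _)
  · have e1 : {a : ℝ | s < F a} = ∅ :=
      eq_empty_of_forall_notMem fun a (ha : s < F a) => h2 (ha.trans_le (F1 a))
    have e2 : {a : ℝ | s < G a} = ∅ :=
      eq_empty_of_forall_notMem fun a (ha : s < G a) => h2 (ha.trans_le (G1 a))
    simp [e1, e2]

lemma pl_amgm {t : ℝ} (h0 : 0 < t) (h1 : t < 1) (X Y : ℝ≥0∞) :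
    X ^ (1 - t) * Y ^ t ≤ ENNReal.ofReal (1 - t) * X + ENNReal.ofReal t * Y := by
  have h2 : 0 < 1 - t := by linarith
  rcases eq_or_ne X ⊤ with rfl | hX
  · rw [ENNReal.mul_top (ENNReal.ofReal_pos.2 h2).ne', top_add]
    exact le_top
  rcases eq_or_ne Y ⊤ with rfl | hY
  · rw [ENNReal.mul_top (ENNReal.ofReal_pos.2 h0).ne', add_top]
    exact le_top
  obtain ⟨x, hx, rfl⟩ : ∃ x : ℝ, 0 ≤ x ∧ ENNReal.ofReal x = X :=
    ⟨_, ENNReal.toReal_nonneg, ENNReal.ofReal_toReal hX⟩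
  obtain ⟨y, hy, rfl⟩ : ∃ y : ℝ, 0 ≤ y ∧ ENNReal.ofReal y = Y :=
    ⟨_, ENNReal.toReal_nonneg, ENNReal.ofReal_toReal hY⟩
  rw [ENNReal.ofReal_rpow_of_nonneg hx h2.le, ENNReal.ofReal_rpow_of_nonneg hy h0.le,
    ← ENNReal.ofReal_mul (Real.rpow_nonneg hx _), ← ENNReal.ofReal_mul h2.le,
    ← ENNReal.ofReal_mul h0.le,
    ← ENNReal.ofReal_add (mul_nonneg h2.le hx) (mul_nonneg h0.le hy)]
  exact ENNReal.ofReal_le_ofReal
    (Real.geom_mean_le_arith_mean2_weighted h2.le h0.le hx hy (by ring))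

lemma pl_lint_div (f : ℝ → ℝ) (a : ℝ) (ha : 0 < a) :
    ∫⁻ x, ENNReal.ofReal (f x) = ENNReal.ofReal a * ∫⁻ x, ENNReal.ofReal (f x / a) := by
  rw [← lintegral_const_mul' _ _ ENNReal.ofReal_ne_top]
  refine lintegral_congr fun x => ?_
  rw [← ENNReal.ofReal_mul ha.le, mul_div_cancel₀ _ ha.ne']

lemma pl_bdd {t : ℝ} (h0 : 0 < t) (h1 : t < 1) (f g h : ℝ → ℝ) (mf : Measurable f)
    (mg : Measurable g) (mh : Measurable h)
    (f0 : ∀ x, 0 ≤ f x) (g0 : ∀ x, 0 ≤ g x) (k0 : ∀ x, 0 ≤ h x) (N : ℝ)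
    (f1 : ∀ x, f x ≤ N) (g1 : ∀ x, g x ≤ N)
    (H : ∀ x y, f x ^ (1 - t) * g y ^ t ≤ h ((1 - t) • x + t • y)) :
    (∫⁻ x, ENNReal.ofReal (f x)) ^ (1 - t) * (∫⁻ x, ENNReal.ofReal (g x)) ^ t ≤
      ∫⁻ x, ENNReal.ofReal (h x) := by
  have h2 : 0 < 1 - t := by linarith
  have bf : BddAbove (range f) := ⟨N, by rintro _ ⟨x, rfl⟩; exact f1 x⟩
  have bg : BddAbove (range g) := ⟨N, by rintro _ ⟨x, rfl⟩; exact g1 x⟩
  set a := ⨆ x, f x with ha
  set b := ⨆ x, g x with hb
  have fa : ∀ x, f x ≤ a := fun x => le_ciSup bf x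
  have gb : ∀ x, g x ≤ b := fun x => le_ciSup bg x
  by_cases a0 : a ≤ 0
  · have : ∀ x, ENNReal.ofReal (f x) = 0 := fun x => ENNReal.ofReal_eq_zero.2 ((fa x).trans a0)
    simp only [this, lintegral_zero, ENNReal.zero_rpow_of_pos h2, zero_mul, zero_le]
  by_cases b0 : b ≤ 0
  · have : ∀ x, ENNReal.ofReal (g x) = 0 := fun x => ENNReal.ofReal_eq_zero.2 ((gb x).trans b0)
    simp only [this, lintegral_zero, ENNReal.zero_rpow_of_pos h0, mul_zero, zero_le]
  rw [not_le] at a0 b0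
  have c0 : 0 < a ^ (1 - t) * b ^ t :=
    mul_pos (Real.rpow_pos_of_pos a0 _) (Real.rpow_pos_of_pos b0 _)
  have key := pl_norm h0 h1 (fun x => f x / a) (fun x => g x / b)
    (fun x => h x / (a ^ (1 - t) * b ^ t))
    (mf.div_const _) (mg.div_const _) (mh.div_const _) (fun x => div_nonneg (f0 x) a0.le)
    (fun x => div_nonneg (g0 x) b0.le) (fun x => div_nonneg (k0 x) c0.le)
    (fun x => (div_le_one a0).2 (fa x)) (fun x => (div_le_one b0).2 (gb x))
    (fun s hs => by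
      obtain ⟨x, hx⟩ := exists_lt_of_lt_ciSup (f := f) (show s * a < a by nlinarith)
      exact ⟨x, (lt_div_iff₀ a0).2 hx⟩)
    (fun s hs => by
      obtain ⟨x, hx⟩ := exists_lt_of_lt_ciSup (f := g) (show s * b < b by nlinarith)
      exact ⟨x, (lt_div_iff₀ b0).2 hx⟩)
    (fun x y => by
      rw [Real.div_rpow (f0 x) a0.le, Real.div_rpow (g0 y) b0.le, div_mul_div_comm]
      exact div_le_div_of_nonneg_right (H x y) c0.le)
  rw [pl_lint_div f a a0, pl_lint_div g b b0, pl_lint_div h _ c0,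
    ENNReal.mul_rpow_of_nonneg _ _ h2.le, ENNReal.mul_rpow_of_nonneg _ _ h0.le,
    ENNReal.ofReal_rpow_of_pos a0, ENNReal.ofReal_rpow_of_pos b0, mul_mul_mul_comm,
    ← ENNReal.ofReal_mul (Real.rpow_nonneg a0.le _)]
  exact mul_le_mul_right ((pl_amgm h0 h1 _ _).trans key) _

lemma pl_lint_trunc (f : ℝ → ℝ≥0∞) (mf : Measurable f) :
    ∫⁻ x, f x = ⨆ N : ℕ, ∫⁻ x, min (f x) N := by
  rw [← lintegral_iSup (fun N => mf.min measurable_const)
    (fun N M hNM x => min_le_min_left _ (by exact_mod_cast hNM))]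
  refine lintegral_congr fun x => ?_
  rw [← inf_iSup_eq (f x) (fun N : ℕ => (N : ℝ≥0∞)), ENNReal.iSup_natCast]
  simp

lemma pl_rpow_iSup {p : ℝ} (hp : 0 < p) (a : ℕ → ℝ≥0∞) : (⨆ N, a N) ^ p = ⨆ N, a N ^ p :=
  (ENNReal.orderIsoRpow p hp).map_iSup a

lemma pl_one {t : ℝ} (h0 : 0 < t) (h1 : t < 1) (f g h : ℝ → ℝ≥0∞) (mf : Measurable f)
    (mg : Measurable g) (mh : Measurable h)
    (H : ∀ x y, f x ^ (1 - t) * g y ^ t ≤ h ((1 - t) • x + t • y)) :
    (∫⁻ x, f x) ^ (1 - t) * (∫⁻ x, g x) ^ t ≤ ∫⁻ x, h x := by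
  have h2 : 0 < 1 - t := by linarith
  have step : ∀ N : ℕ, (∫⁻ x, min (f x) N) ^ (1 - t) * (∫⁻ x, min (g x) N) ^ t ≤
      ∫⁻ x, h x := by
    intro N
    have ne : ∀ z : ℝ≥0∞, min z N ≠ ⊤ := fun z =>
      ne_top_of_le_ne_top (ENNReal.natCast_ne_top N) (min_le_right _ _)
    have le : ∀ z : ℝ≥0∞, (min z N).toReal ≤ N := fun z => by
      have := ENNReal.toReal_mono (ENNReal.natCast_ne_top N) (min_le_right z N)
      simpa using this
    have := pl_bdd h0 h1 (fun x => (min (f x) N).toReal) (fun x => (min (g x) N).toReal)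
      (fun x => (min (h x) N).toReal) (mf.min measurable_const).ennreal_toReal
      (mg.min measurable_const).ennreal_toReal (mh.min measurable_const).ennreal_toReal
      (fun x => ENNReal.toReal_nonneg) (fun x => ENNReal.toReal_nonneg)
      (fun x => ENNReal.toReal_nonneg) N (fun x => le _) (fun x => le _) (fun x y => by
        rw [ENNReal.toReal_rpow, ENNReal.toReal_rpow, ← ENNReal.toReal_mul]
        refine ENNReal.toReal_mono (ne _) (le_min ?_ ?_)
        · exact (mul_le_mul' (ENNReal.rpow_le_rpow (min_le_left _ _) h2.le)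
            (ENNReal.rpow_le_rpow (min_le_left _ _) h0.le)).trans (H x y)
        · refine (mul_le_mul' (ENNReal.rpow_le_rpow (min_le_right _ _) h2.le)
            (ENNReal.rpow_le_rpow (min_le_right _ _) h0.le)).trans_eq ?_
          rw [← ENNReal.rpow_add_of_nonneg _ _ h2.le h0.le, sub_add_cancel, ENNReal.rpow_one])
    simp only [ENNReal.ofReal_toReal (ne _)] at this
    exact this.trans (lintegral_mono fun x => min_le_left _ _)
  rw [pl_lint_trunc f mf, pl_lint_trunc g mg, pl_rpow_iSup h2, pl_rpow_iSup h0, ENNReal.iSup_mul]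
  refine iSup_le fun N => ?_
  rw [ENNReal.mul_iSup]
  refine iSup_le fun M => le_trans (mul_le_mul'
    (ENNReal.rpow_le_rpow (lintegral_mono fun x => ?_) h2.le)
    (ENNReal.rpow_le_rpow (lintegral_mono fun x => ?_) h0.le)) (step (max N M))
  · exact min_le_min_left _ (by exact_mod_cast le_max_left N M)
  · exact min_le_min_left _ (by exact_mod_cast le_max_right N M)

theorem pl (n : ℕ) {t : ℝ} (h0 : 0 < t) (h1 : t < 1) :
    ∀ f g h : (Fin n → ℝ) → ℝ≥0∞, Measurable f → Measurable g → Measurable h →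
      (∀ x y, f x ^ (1 - t) * g y ^ t ≤ h ((1 - t) • x + t • y)) →
      (∫⁻ x, f x) ^ (1 - t) * (∫⁻ x, g x) ^ t ≤ ∫⁻ x, h x := by
  induction n with
  | zero =>
    intro f g h _ _ _ H
    have := H default default
    rw [Subsingleton.elim ((1 - t) • default + t • default : Fin 0 → ℝ) default] at this
    have e : ∀ k : (Fin 0 → ℝ) → ℝ≥0∞, ∫⁻ x, k x = k default := fun k => by
      rw [lintegral_unique, volume_pi, Measure.pi_univ]
      simp only [Finset.univ_eq_empty, Finset.prod_empty, mul_one]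
      exact congrArg k (Subsingleton.elim _ _)
    rw [e, e, e]
    exact this
  | succ n ih =>
    intro f g h mf mg mh H
    let e := (MeasurableEquiv.piFinSuccAbove (fun _ : Fin (n + 1) => ℝ) 0).symm
    have he : MeasurePreserving e volume volume :=
      (volume_preserving_piFinSuccAbove (fun _ : Fin (n + 1) => ℝ) 0).symm
    have tr : ∀ k : (Fin (n + 1) → ℝ) → ℝ≥0∞, Measurable k →
        ∫⁻ x, k x = ∫⁻ s : ℝ, ∫⁻ x : Fin n → ℝ, k (e (s, x)) := by
      intro k mk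
      rw [← he.lintegral_comp mk, Measure.volume_eq_prod]
      exact lintegral_prod _ (mk.comp e.measurable).aemeasurable
    have me : ∀ k : (Fin (n + 1) → ℝ) → ℝ≥0∞, Measurable k →
        Measurable fun s : ℝ => ∫⁻ x : Fin n → ℝ, k (e (s, x)) := fun k mk =>
      (mk.comp e.measurable).lintegral_prod_right'
    have ms : ∀ k : (Fin (n + 1) → ℝ) → ℝ≥0∞, Measurable k → ∀ s : ℝ,
        Measurable fun x : Fin n → ℝ => k (e (s, x)) := fun k mk s =>
      (mk.comp e.measurable).comp measurable_prodMk_left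
    rw [tr f mf, tr g mg, tr h mh]
    refine pl_one h0 h1 _ _ _ (me f mf) (me g mg) (me h mh) fun r s => ?_
    refine ih _ _ _ (ms f mf r) (ms g mg s) (ms h mh _) fun x y => ?_
    refine (H (e (r, x)) (e (s, y))).trans_eq (congrArg h ?_)
    ext i
    refine Fin.cases ?_ (fun j => ?_) i <;> simp [e, MeasurableEquiv.piFinSuccAbove]

end Pool.Agent.P.MP_83f3dc_co.KT
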