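import Pool.Agent.P.MP_83f3dc_co.KTG
import Pool.Agent.P.MP_83f3dc_co.KTPL

set_option autoImplicit false
set_option linter.unusedSectionVars false
set_option linter.unusedVariables false

open MeasureTheory ProbabilityTheory Module Set Filter Topology
open scoped RealInnerProductSpace ENNReal

noncomputable section

namespace Pool.Agent.P.MP_83f3dc_co.KT

theorem lip_integrable {n : ℕ} (f : E n → ℝ) (Λ : ℝ) (hΛ : 0 ≤ Λ)
    (hf : ∀ x y, |f x - f y| ≤ Λ * ‖x - y‖) : Continuous f ∧ Integrable f (stdGaussian (E n)) := by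
  have hc : Continuous f :=
    (LipschitzWith.of_dist_le_mul (K := ⟨Λ, hΛ⟩) fun x y => by
      rw [Real.dist_eq, dist_eq_norm]; exact hf x y).continuous
  refine ⟨hc, Integrable.mono' (((integrable_norm_pow 1).const_mul Λ).add (integrable_const |f 0|))
    hc.aestronglyMeasurable (ae_of_all _ fun x => ?_)⟩
  have h1 := hf x 0
  have h2 := abs_sub_abs_le_abs_sub (f x) (f 0)
  rw [sub_zero] at h1
  simp only [Real.norm_eq_abs, Pi.add_apply, pow_one]
  linarith

theorem conc_dens (n : ℕ) : ∃ κ : ℝ, ∀ k : E n → ℝ, Measurable k →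
    ∫⁻ x, ENNReal.ofReal (Real.exp (k x)) ∂(stdGaussian (E n)) =
      ∫⁻ x : Fin n → ℝ, ENNReal.ofReal (Real.exp (κ + k (WithLp.toLp 2 x) -
        ‖(WithLp.toLp 2 x : E n)‖ ^ 2 / 2)) := by
  have hpi := Real.pi_pos
  refine ⟨Real.log ((2 * Real.pi) ^ (-(finrank ℝ (E n) : ℝ) / 2)), fun k hk => ?_⟩
  have h0 : 0 < (2 * Real.pi) ^ (-(finrank ℝ (E n) : ℝ) / 2) := Real.rpow_pos_of_pos (by positivity) _
  rw [stdGaussian_eq_withDensity, lintegral_withDensity_eq_lintegral_mul _ (by fun_prop)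
    (by fun_prop), ← (PiLp.volume_preserving_toLp (Fin n)).lintegral_comp (by fun_prop)]
  refine lintegral_congr fun x => ?_
  rw [Pi.mul_apply, ← ENNReal.ofReal_mul (by positivity), sub_eq_add_neg, Real.exp_add,
    Real.exp_add, Real.exp_log h0, neg_div 2 (_ ^ 2), mul_right_comm]

theorem conc_half (u : ℝ) :
    ENNReal.ofReal (Real.exp u) ^ (1 / 2 : ℝ) = ENNReal.ofReal (Real.exp (u / 2)) := by
  rw [ENNReal.ofReal_rpow_of_pos (Real.exp_pos u), ← Real.exp_mul, mul_one_div]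

theorem conc_jensen {n : ℕ} {g : E n → ℝ} (hg : Integrable g (stdGaussian (E n))) :
    ENNReal.ofReal (Real.exp (∫ x, g x ∂(stdGaussian (E n)))) ≤
      ∫⁻ x, ENNReal.ofReal (Real.exp (g x)) ∂(stdGaussian (E n)) := by
  obtain ⟨m, hm⟩ : ∃ m, m = ∫ x, g x ∂(stdGaussian (E n)) := ⟨_, rfl⟩
  have hi : Integrable (fun x => Real.exp m * (g x + (1 - m))) (stdGaussian (E n)) :=
    (hg.add (integrable_const _)).const_mul _
  have h1 : ∫ x, Real.exp m * (g x + (1 - m)) ∂(stdGaussian (E n)) = Real.exp m := by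
    rw [integral_const_mul, integral_add hg (integrable_const _), ← hm]
    simp
  have h2 : ∫ x, Real.exp m * (g x + (1 - m)) ∂(stdGaussian (E n)) ≤
      ∫ x, max (Real.exp m * (g x + (1 - m))) 0 ∂(stdGaussian (E n)) :=
    integral_mono hi hi.pos_part fun x => le_max_left _ _
  rw [← hm, ← h1]
  refine (ENNReal.ofReal_le_ofReal h2).trans ?_
  rw [ofReal_integral_eq_lintegral_ofReal hi.pos_part (ae_of_all _ fun x => le_max_right _ _)]
  refine lintegral_mono fun x => ENNReal.ofReal_le_ofReal (max_le ?_ (Real.exp_pos _).le)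
  have h3 := Real.add_one_le_exp (g x - m)
  calc Real.exp m * (g x + (1 - m)) ≤ Real.exp m * Real.exp (g x - m) :=
        mul_le_mul_of_nonneg_left (by linarith) (Real.exp_pos m).le
    _ = Real.exp (g x) := by rw [← Real.exp_add, add_sub_cancel]

theorem conc_one {n : ℕ} (f : E n → ℝ) (Λ : ℝ) (hΛ : 0 ≤ Λ)
    (hf : ∀ x y, |f x - f y| ≤ Λ * ‖x - y‖) :
    ∫⁻ x, ENNReal.ofReal (Real.exp (f x)) ∂(stdGaussian (E n)) ≤
      ENNReal.ofReal (Real.exp (∫ x, f x ∂(stdGaussian (E n)) + Λ ^ 2)) := by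
  obtain ⟨hc, hi⟩ := lip_integrable f Λ hΛ hf
  have hm := hc.measurable
  obtain ⟨κ, hκ⟩ := conc_dens n
  have key := pl n (t := 1 / 2) (by norm_num) (by norm_num)
    (fun x => ENNReal.ofReal (Real.exp (κ + f (WithLp.toLp 2 x) -
      ‖(WithLp.toLp 2 x : E n)‖ ^ 2 / 2)))
    (fun x => ENNReal.ofReal (Real.exp (κ + -f (WithLp.toLp 2 x) -
      ‖(WithLp.toLp 2 x : E n)‖ ^ 2 / 2)))
    (fun x => ENNReal.ofReal (Real.exp (κ + Λ ^ 2 / 2 - ‖(WithLp.toLp 2 x : E n)‖ ^ 2 / 2)))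
    (by fun_prop) (by fun_prop) (by fun_prop) fun x y => by
      rw [show (1 - 1 / 2 : ℝ) = 1 / 2 by norm_num, conc_half, conc_half,
        ← ENNReal.ofReal_mul (Real.exp_pos _).le, ← Real.exp_add]
      refine ENNReal.ofReal_le_ofReal (Real.exp_le_exp.2 ?_)
      rw [WithLp.toLp_add, WithLp.toLp_smul, WithLp.toLp_smul]
      generalize (WithLp.toLp 2 x : E n) = a
      generalize (WithLp.toLp 2 y : E n) = b
      have h1 := (le_abs_self _).trans (hf a b)
      have h2 := parallelogram_law_with_norm ℝ a b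
      rw [← smul_add, norm_smul, Real.norm_of_nonneg (by norm_num : (0 : ℝ) ≤ 1 / 2)]
      nlinarith [sq_nonneg (‖a - b‖ - 2 * Λ)]
  rw [← hκ f hm, ← hκ (fun x => -f x) hm.neg, ← hκ (fun _ => Λ ^ 2 / 2) measurable_const,
    show (1 - 1 / 2 : ℝ) = 1 / 2 by norm_num, lintegral_const, measure_univ, mul_one,
    ← conc_half, ← ENNReal.mul_rpow_of_nonneg _ _ (by norm_num),
    ENNReal.rpow_le_rpow_iff (by norm_num)] at key
  have h1 := conc_jensen hi.neg
  simp only [Pi.neg_apply, integral_neg] at h1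
  have h2 := mul_le_mul_left ((mul_le_mul_right h1 _).trans key)
    (ENNReal.ofReal (Real.exp (∫ x, f x ∂(stdGaussian (E n)))))
  rwa [mul_assoc, ← ENNReal.ofReal_mul (Real.exp_pos _).le, ← ENNReal.ofReal_mul (Real.exp_pos _).le,
    ← Real.exp_add, ← Real.exp_add, neg_add_cancel, Real.exp_zero, ENNReal.ofReal_one, mul_one,
    add_comm] at h2

/-- Gaussian concentration of Lipschitz functions -/
theorem conc {n : ℕ} (f : E n → ℝ) (Λ : ℝ) (hΛ : 0 ≤ Λ)
    (hf : ∀ x y, |f x - f y| ≤ Λ * ‖x - y‖) (θ : ℝ) :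
    ∫⁻ x, ENNReal.ofReal (Real.exp (θ * f x)) ∂(stdGaussian (E n)) ≤
      ENNReal.ofReal (Real.exp (θ * ∫ x, f x ∂(stdGaussian (E n)) + θ ^ 2 * Λ ^ 2)) := by
  have h := conc_one (fun x => θ * f x) (|θ| * Λ) (mul_nonneg (abs_nonneg θ) hΛ) fun x y => by
    rw [← mul_sub, abs_mul, mul_assoc]
    exact mul_le_mul_of_nonneg_left (hf x y) (abs_nonneg θ)
  rwa [integral_const_mul, mul_pow, sq_abs] at h

end Pool.Agent.P.MP_83f3dc_co.KT
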