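import Pool.Agent.P.MP_83f3dc_co.KTParD

set_option autoImplicit false
set_option linter.unusedSectionVars false
set_option linter.unusedVariables false

open MeasureTheory ProbabilityTheory Module Set Filter Topology
open scoped RealInnerProductSpace ENNReal

noncomputable section

namespace Pool.Agent.P.MP_83f3dc_co.KT

/-- the numerical facts used in the construction, with `T = H ^ 3 * Y`, `δ = 1 / (H ^ 2 * Y)` -/
theorem Par.num {c D n : ℕ} {H Y : ℝ} (P : Par c D n H Y) :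
    1 ≤ n ∧ 1 ≤ ⌊H ^ 2 * Y⌋₊ ∧ 12 ≤ H ^ 3 * Y ∧ 1 / (H ^ 2 * Y) ≤ 1 ∧
      (⌊H ^ 2 * Y⌋₊ : ℝ) * H ≤ H ^ 3 * Y ∧
      ((100 * n : ℕ) : ℝ) * ⌊H ^ 2 * Y⌋₊ * Real.exp (-H ^ 2 / 2) ≤ 1 ∧
      ((100 * n : ℕ) : ℝ) * (H ^ 3 * Y) *
        Real.exp (-(H ^ 3 * Y) ^ 2 * (1 / (H ^ 2 * Y)) ^ 2 / 32) ≤ 1 / 200 ∧
      1 + 2 / (1 / (8 * c * (100 * (n : ℝ)) * H * (H ^ 3 * Y))) ≤ (100 * (n : ℝ)) ^ 8 ∧
      gain n H Y ≤ √(((100 * n : ℕ) : ℝ) * ⌊H ^ 2 * Y⌋₊) / (20 * (H ^ 3 * Y)) ∧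
      0 < gain n H Y := by
  obtain ⟨c2, h12, cH, HN, Y1, YN, NY, DN, far, un⟩ := P
  have hn : 1 ≤ n := by
    rcases Nat.eq_zero_or_pos n with h | h
    · subst h
      simp at HN
      linarith
    · exact h
  have hnR : (1 : ℝ) ≤ n := by exact_mod_cast hn
  have hcast : ((100 * n : ℕ) : ℝ) = 100 * (n : ℝ) := by push_cast; ring
  rw [hcast]
  unfold gain
  generalize hN : 100 * (n : ℝ) = N at *
  have hN100 : (100 : ℝ) ≤ N := by rw [← hN]; linarith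
  have hH0 : 0 < H := by linarith
  have hY0 : 0 < Y := by linarith
  have hN0 : 0 < N := by linarith
  have hc0 : (0 : ℝ) < c := by
    have : (2 : ℝ) ≤ c := by exact_mod_cast c2
    linarith
  have hH2 : (144 : ℝ) ≤ H ^ 2 := by nlinarith
  have hx : (144 : ℝ) ≤ H ^ 2 * Y := by nlinarith
  have hx0 : 0 < H ^ 2 * Y := by linarith
  have hT : H ^ 3 * Y = H ^ 2 * Y * H := by ring
  have hT0 : 0 < H ^ 3 * Y := by positivity
  have hfl : (⌊H ^ 2 * Y⌋₊ : ℝ) ≤ H ^ 2 * Y := Nat.floor_le hx0.le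
  have hfl2 : H ^ 2 * Y / 2 ≤ (⌊H ^ 2 * Y⌋₊ : ℝ) := by
    have := Nat.lt_floor_add_one (H ^ 2 * Y)
    linarith
  have hxN : H ^ 2 * Y ≤ N ^ 3 := by
    calc H ^ 2 * Y ≤ N ^ 2 * N := by gcongr
      _ = N ^ 3 := by ring
  have hTN : H ^ 3 * Y ≤ N ^ 4 := by
    calc H ^ 3 * Y ≤ N ^ 3 * N := by gcongr
      _ = N ^ 4 := by ring
  have he : 0 < Real.exp (-H ^ 2 / 32) := Real.exp_pos _
  refine ⟨hn, ?_, ?_, ?_, ?_, ?_, ?_, ?_, ?_, ?_⟩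
  · exact Nat.le_floor (by push_cast; linarith)
  · rw [hT]; nlinarith
  · rw [div_le_one hx0]; linarith
  · rw [hT]; gcongr
  · have h1 : Real.exp (-H ^ 2 / 2) ≤ Real.exp (-H ^ 2 / 32) :=
      Real.exp_le_exp.2 (by linarith)
    have h2 : N * N ^ 3 ≤ 200 * N ^ 5 := by
      have h3 : N * N ^ 3 * 1 ≤ N * N ^ 3 * (200 * N) := by gcongr; linarith
      calc N * N ^ 3 = N * N ^ 3 * 1 := by ring
        _ ≤ N * N ^ 3 * (200 * N) := h3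
        _ = 200 * N ^ 5 := by ring
    calc N * (⌊H ^ 2 * Y⌋₊ : ℝ) * Real.exp (-H ^ 2 / 2)
        ≤ N * N ^ 3 * Real.exp (-H ^ 2 / 32) := by
          gcongr
          exact hfl.trans hxN
      _ ≤ 200 * N ^ 5 * Real.exp (-H ^ 2 / 32) := by gcongr
      _ ≤ 1 := far
  · have h1 : -(H ^ 3 * Y) ^ 2 * (1 / (H ^ 2 * Y)) ^ 2 / 32 = -H ^ 2 / 32 := by
      field_simp
    rw [h1]
    have h2 : N * (H ^ 3 * Y) * Real.exp (-H ^ 2 / 32) ≤ N * N ^ 4 * Real.exp (-H ^ 2 / 32) := by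
      gcongr
    have h3 : N * N ^ 4 * Real.exp (-H ^ 2 / 32) = 200 * N ^ 5 * Real.exp (-H ^ 2 / 32) / 200 := by
      ring
    linarith
  · have h1 : 2 / (1 / (8 * c * N * H * (H ^ 3 * Y))) = 16 * (c * N * H * (H ^ 3 * Y)) := by
      field_simp
      norm_num
    rw [h1]
    have h2 : c * N * H * (H ^ 3 * Y) ≤ N * N * N * N ^ 4 := by
      gcongr
      exact cH.trans HN
    have h3 : (1 : ℝ) ≤ N ^ 7 := one_le_pow₀ (by linarith)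
    have h4 : N * N * N * N ^ 4 = N ^ 7 := by ring
    have h5 : 100 * N ^ 7 ≤ N * N ^ 7 := by gcongr
    have h6 : N * N ^ 7 = N ^ 8 := by ring
    linarith
  · have h1 : √(N / (2 * Y)) * (H * Y) ≤ √(N * (⌊H ^ 2 * Y⌋₊ : ℝ)) := by
      apply Real.le_sqrt_of_sq_le
      rw [mul_pow, Real.sq_sqrt (by positivity)]
      calc N / (2 * Y) * (H * Y) ^ 2 = N * (H ^ 2 * Y / 2) := by field_simp
        _ ≤ N * (⌊H ^ 2 * Y⌋₊ : ℝ) := by gcongr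
    calc √(N / (2 * Y)) / (20 * H ^ 2) = √(N / (2 * Y)) * (H * Y) / (20 * (H ^ 3 * Y)) := by
          field_simp
      _ ≤ √(N * (⌊H ^ 2 * Y⌋₊ : ℝ)) / (20 * (H ^ 3 * Y)) := by gcongr
  · have : 0 < √(N / (2 * Y)) := Real.sqrt_pos.2 (by positivity)
    positivity

end Pool.Agent.P.MP_83f3dc_co.KT
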