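import Pool.Agent.P.MP_83f3dc_co.KTKer0

set_option autoImplicit false
set_option linter.unusedSectionVars false
set_option linter.unusedVariables false

open MeasureTheory ProbabilityTheory Module Set Filter Topology
open scoped RealInnerProductSpace ENNReal

noncomputable section

namespace Pool.Agent.P.MP_83f3dc_co.KT

variable {V : Type} [NormedAddCommGroup V] [InnerProductSpace ℝ V] [FiniteDimensional ℝ V]
  [MeasurableSpace V] [BorelSpace V]

theorem sec_int_bdd (f : V → ℝ) (hf : Measurable f) (C : ℝ) (hC : ∀ y, |f y| ≤ C) :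
    Integrable f (stdGaussian V) :=
  Integrable.of_bound hf.aestronglyMeasurable C
    (Filter.Eventually.of_forall fun y => by simpa [Real.norm_eq_abs] using hC y)

theorem sec_int_cos (v : V) : Integrable (fun y : V => Real.cos ⟪y, v⟫) (stdGaussian V) :=
  sec_int_bdd _ (by fun_prop) 1 fun y => Real.abs_cos_le_one _

theorem sec_sin_mul (v w y : V) : Real.sin ⟪y, v⟫ * Real.sin ⟪y, w⟫
    = (Real.cos ⟪y, v - w⟫ - Real.cos ⟪y, v + w⟫) / 2 := by
  rw [inner_sub_right, inner_add_right, Real.cos_sub, Real.cos_add]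
  ring

theorem sec_int_mul (v w : V) :
    Integrable (fun y : V => Real.sin ⟪y, v⟫ * Real.sin ⟪y, w⟫) (stdGaussian V) := by
  simp only [sec_sin_mul]
  exact ((sec_int_cos _).sub (sec_int_cos _)).div_const 2

theorem sec_pair (v w : V) : ∫ y, Real.sin ⟪y, v⟫ * Real.sin ⟪y, w⟫ ∂(stdGaussian V)
    ≤ Real.exp (-‖v - w‖ ^ 2 / 2) / 2 := by
  simp only [sec_sin_mul]
  rw [integral_div, integral_sub (sec_int_cos _) (sec_int_cos _), int_cos, int_cos]
  have := Real.exp_pos (-‖v + w‖ ^ 2 / 2)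
  linarith

theorem second {κ : Type} [Fintype κ] (v : κ → V) (h : ℝ) (h0 : 0 ≤ h)
    (hv : ∀ p q, p ≠ q → h ≤ ‖v p - v q‖)
    (hc : (Fintype.card κ : ℝ) * Real.exp (-h ^ 2 / 2) ≤ 1) :
    ∫ y, (∑ p, Real.sin ⟪y, v p⟫) ^ 2 ∂(stdGaussian V) ≤ Fintype.card κ := by
  classical
  have h1 : ∀ y : V, (∑ p, Real.sin ⟪y, v p⟫) ^ 2
      = ∑ p, ∑ q, Real.sin ⟪y, v p⟫ * Real.sin ⟪y, v q⟫ := by
    intro y
    rw [sq, Finset.sum_mul_sum]
  simp only [h1]
  rw [integral_finsetSum _ (fun p _ => integrable_finsetSum _ fun q _ => sec_int_mul _ _)]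
  have h2 : ∀ p, ∫ y, ∑ q, Real.sin ⟪y, v p⟫ * Real.sin ⟪y, v q⟫ ∂(stdGaussian V) ≤ 1 := by
    intro p
    rw [integral_finsetSum _ (fun q _ => sec_int_mul _ _)]
    have h3 : ∀ q, ∫ y, Real.sin ⟪y, v p⟫ * Real.sin ⟪y, v q⟫ ∂(stdGaussian V)
        ≤ (if p = q then (1 / 2 : ℝ) else 0) + Real.exp (-h ^ 2 / 2) / 2 := by
      intro q
      refine (sec_pair _ _).trans ?_
      have hp := Real.exp_pos (-h ^ 2 / 2)
      by_cases hpq : p = q
      · subst hpq
        simp only [sub_self, norm_zero, if_true]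
        norm_num
        positivity
      · have h4 := hv p q hpq
        have h5 : h ^ 2 ≤ ‖v p - v q‖ ^ 2 := pow_le_pow_left₀ h0 h4 2
        have h6 : Real.exp (-‖v p - v q‖ ^ 2 / 2) ≤ Real.exp (-h ^ 2 / 2) :=
          Real.exp_le_exp.2 (by linarith)
        simp only [hpq, if_false]
        linarith
    refine (Finset.sum_le_sum fun q _ => h3 q).trans ?_
    rw [Finset.sum_add_distrib, Finset.sum_ite_eq, Finset.sum_const, Finset.card_univ,
      nsmul_eq_mul]
    simp only [Finset.mem_univ, if_true]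
    linarith
  refine (Finset.sum_le_sum fun p _ => h2 p).trans ?_
  simp

theorem dual_le (F P : V → ℝ) (hF : Measurable F) (hP : Measurable P) (C : ℝ)
    (hC : ∀ y, |P y| ≤ C) (hodd : ∀ y, F (-y) = -F y) (S B : ℝ) (hS : ∀ y, F y ≤ S)
    (hB : ∫ y, P y ^ 2 ∂(stdGaussian V) ≤ B) : ∫ y, F y * P y ∂(stdGaussian V) ≤ S * √B := by
  have hFa : ∀ y, |F y| ≤ S := by
    intro y
    have h1 := hS y
    have h2 := hS (-y)
    rw [hodd] at h2
    exact abs_le.2 ⟨by linarith, h1⟩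
  have hS0 : 0 ≤ S := (abs_nonneg _).trans (hFa 0)
  have hC0 : 0 ≤ C := (abs_nonneg _).trans (hC 0)
  have iP : Integrable (fun y => |P y|) (stdGaussian V) := (sec_int_bdd P hP C hC).abs
  have iP2 : Integrable (fun y => P y ^ 2) (stdGaussian V) := by
    refine sec_int_bdd _ (hP.pow_const 2) (C ^ 2) fun y => ?_
    rw [abs_pow]
    exact pow_le_pow_left₀ (abs_nonneg _) (hC y) 2
  have iFP : Integrable (fun y => F y * P y) (stdGaussian V) := by
    refine sec_int_bdd _ (hF.mul hP) (S * C) fun y => ?_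
    rw [abs_mul]
    exact mul_le_mul (hFa y) (hC y) (abs_nonneg _) hS0
  set m : ℝ := ∫ y, |P y| ∂(stdGaussian V) with hm
  have h1 : ∫ y, F y * P y ∂(stdGaussian V) ≤ S * m := by
    rw [hm, ← integral_const_mul]
    refine integral_mono iFP (iP.const_mul S) fun y => ?_
    refine (le_abs_self _).trans ?_
    show |F y * P y| ≤ S * |P y|
    rw [abs_mul]
    exact mul_le_mul_of_nonneg_right (hFa y) (abs_nonneg _)
  have h2 : ∫ y, 2 * m * |P y| ∂(stdGaussian V) ≤ ∫ y, (P y ^ 2 + m ^ 2) ∂(stdGaussian V) := by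
    refine integral_mono (iP.const_mul _) (iP2.add (integrable_const _)) fun y => ?_
    show 2 * m * |P y| ≤ P y ^ 2 + m ^ 2
    have h3 := sq_nonneg (|P y| - m)
    have h4 := sq_abs (P y)
    nlinarith
  rw [integral_const_mul, integral_add iP2 (integrable_const _), integral_const, ← hm] at h2
  simp only [probReal_univ, one_smul] at h2
  have h5 : m ≤ √B := Real.le_sqrt_of_sq_le (by nlinarith)
  exact h1.trans (mul_le_mul_of_nonneg_left h5 hS0)

theorem waves_sep {b b' : V} (hb : ‖b‖ = 1) (hb' : ‖b'‖ = 1) {T t t' δ : ℝ} (hT : 0 ≤ T)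
    (ht : T ≤ t) (hδ : 0 ≤ δ) (h : δ ≤ ‖pr b' b‖) : T * δ ≤ ‖t • b - t' • b'‖ := by
  have h1 := norm_pr_le b' (t • b - t' • b')
  rw [pr_sub, pr_smul, pr_smul, pr_self, smul_zero, sub_zero, norm_smul, Real.norm_eq_abs,
    abs_of_nonneg (hT.trans ht)] at h1
  exact (mul_le_mul ht h hδ (hT.trans ht)).trans h1

end Pool.Agent.P.MP_83f3dc_co.KT
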