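import Pool.Agent.P.MP_83f3dc_co.KTTest1
import Pool.Agent.P.MP_83f3dc_co.KTSec

set_option autoImplicit false
set_option linter.unusedSectionVars false
set_option linter.unusedVariables false

open MeasureTheory ProbabilityTheory Module Set Filter Topology
open scoped RealInnerProductSpace ENNReal

noncomputable section

namespace Pool.Agent.P.MP_83f3dc_co.KT

variable {V : Type} [NormedAddCommGroup V] [InnerProductSpace ℝ V] [FiniteDimensional ℝ V]
  [MeasurableSpace V] [BorelSpace V]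

/-- the quadratic test for the half-space discrepancy -/
theorem l2test {N t M : ℕ} (hN : 1 ≤ N) (ht : 1 ≤ t) (hM1 : 1 ≤ M) (Γ : Finset (Fin N))
    (hΓ : 100 * Γᶜ.card ≤ N) (b : Fin N → V) (hb : ∀ i ∈ Γ, ‖b i‖ = 1) (δ : ℝ) (hδ : 0 < δ)
    (hδ1 : δ ≤ 1) (hsep : ∀ i ∈ Γ, ∀ j ∈ Γ, i ≠ j → δ ≤ ‖pr (b j) (b i)‖) (T h : ℝ)
    (hT : 12 ≤ T) (hh : 0 < h) (hM : M * h ≤ T) (hhT : h ≤ T * δ) (hTδ : 2 < T * δ)
    (h1 : (N : ℝ) * M * Real.exp (-h ^ 2 / 2) ≤ 1)
    (h2 : (N : ℝ) * T * Real.exp (-T ^ 2 * δ ^ 2 / 32) ≤ 1 / 200) (w : Fin N × Fin t → V)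
    (hw : ∀ p, p.1 ∈ Γ → w p ≠ 0 ∧ ‖‖w p‖⁻¹ • w p - b p.1‖ ≤ 1 / (2 * T)) :
    ∃ y : V, t * √((N : ℝ) * M) / (20 * T) ≤ ∑ p, Real.sign ⟪y, w p⟫ := by
  by_contra hcon
  push Not at hcon
  have hT0 : 0 < T := by linarith
  have hN0 : (0 : ℝ) < N := by exact_mod_cast hN
  have ht0 : (0 : ℝ) < t := by exact_mod_cast ht
  have hM0 : (0 : ℝ) < M := by exact_mod_cast hM1
  obtain ⟨v, hv⟩ : ∃ v : Γ × Fin M → V, ∀ q, v q = (T + (q.2 : ℕ) * h) • b q.1 := ⟨_, fun _ => rfl⟩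
  have hcard : (Fintype.card (Γ × Fin M) : ℝ) ≤ N * M := by
    rw [Fintype.card_prod, Fintype.card_coe, Fintype.card_fin, Nat.cast_mul]
    have : (Γ.card : ℝ) ≤ N := by exact_mod_cast (Finset.card_le_univ Γ).trans_eq (Fintype.card_fin N)
    exact mul_le_mul_of_nonneg_right this hM0.le
  have hsv : ∀ p q, p ≠ q → h ≤ ‖v p - v q‖ := by
    rintro ⟨i, j⟩ ⟨i', j'⟩ hpq
    rw [hv, hv]
    by_cases hi : i = i'
    · subst hi
      have hj : ((j : ℕ) : ℤ) - (j' : ℕ) ≠ 0 := fun e => hpq (by rw [show j = j' by omega])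
      have h3 : (1 : ℝ) ≤ |((j : ℕ) : ℝ) - (j' : ℕ)| := by exact_mod_cast Int.one_le_abs hj
      rw [← sub_smul, norm_smul, hb _ i.2, mul_one, add_sub_add_left_eq_sub, ← sub_mul,
        Real.norm_eq_abs, abs_mul, abs_of_pos hh]
      exact le_mul_of_one_le_left hh.le h3
    · exact hhT.trans (waves_sep (hb _ i.2) (hb _ i'.2) hT0.le
        (le_add_of_nonneg_right (by positivity)) hδ.le
        (hsep _ i.2 _ i'.2 fun e => hi (Subtype.ext e)))
  have hsec := (second v h hh.le hsv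
    ((mul_le_mul_of_nonneg_right hcard (Real.exp_pos _).le).trans h1)).trans hcard
  have hd := dual_le (fun y => ∑ p, Real.sign ⟪y, w p⟫) (fun y => ∑ q, Real.sin ⟪y, v q⟫)
    (Finset.measurable_sum _ fun p _ => measurable_sign.comp (by fun_prop))
    (Finset.measurable_sum _ fun p _ => by fun_prop) (∑ _q : Γ × Fin M, 1)
    (fun y => (Finset.abs_sum_le_sum_abs _ _).trans
      (Finset.sum_le_sum fun q _ => Real.abs_sin_le_one _))
    (fun y => by simp only [inner_neg_left, Real.sign_neg, Finset.sum_neg_distrib]) _ _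
    (fun y => (hcon y).le) hsec
  have e1 : ∫ y, (∑ p, Real.sign ⟪y, w p⟫) * (∑ q, Real.sin ⟪y, v q⟫) ∂(stdGaussian V) =
      ∑ p, ∑ i ∈ Γ, ∑ j : Fin M, Kr (w p) ((T + (j : ℕ) * h) • b i) := by
    simp only [Finset.sum_mul_sum]
    rw [integral_finsetSum _ fun p _ => integrable_finsetSum _ fun q _ => Kr_integrable _ _]
    refine Finset.sum_congr rfl fun p _ => ?_
    rw [integral_finsetSum _ fun q _ => Kr_integrable _ _, Fintype.sum_prod_type,
      ← Finset.sum_coe_sort Γ]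
    simp only [hv, Kr]
  have e2 : (N : ℝ) * M * Real.exp (-T ^ 2 * δ ^ 2 / 32) ≤ M / T * (1 / 200) := by
    refine le_trans (le_of_eq ?_) (mul_le_mul_of_nonneg_left h2 (by positivity))
    field_simp
  obtain ⟨c, hc⟩ : ∃ c : Fin N → ℝ, ∀ i, c i = if i ∈ Γᶜ then 1 else 0 := ⟨_, fun _ => rfl⟩
  have hcs : ∑ i, c i = Γᶜ.card := by
    simp only [hc]
    rw [Finset.sum_boole, Finset.filter_mem_eq_inter, Finset.univ_inter]
  have e3 : ∀ p : Fin N × Fin t, M / T * (19 / 200 - 41 / 10 * c p.1) ≤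
      ∑ i ∈ Γ, ∑ j : Fin M, Kr (w p) ((T + (j : ℕ) * h) • b i) := by
    intro p
    by_cases hp : p.1 ∈ Γ
    · refine le_trans ?_ (point_good Γ b hb δ hδ hδ1 hsep M T h hT hh.le hM hTδ (w p) (hw p hp).1
        p.1 hp (hw p hp).2)
      rw [hc, if_neg (by simpa using hp)]
      have : (M : ℝ) / (10 * T) = M / T * (1 / 10) := by field_simp
      linarith
    · refine le_trans ?_ (point_any Γ b hb δ hδ hδ1 hsep M T h hT hh.le (w p))
      rw [hc, if_pos (by simpa using hp)]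
      have : 4 * (M : ℝ) / T = M / T * 4 := by field_simp
      linarith
  have e4 := Finset.sum_le_sum fun p (_ : p ∈ Finset.univ) => e3 p
  have e5 : ∑ p : Fin N × Fin t, (M : ℝ) / T * (19 / 200 - 41 / 10 * c p.1) =
      t * (M / T) * (19 / 200 * N - 41 / 10 * Γᶜ.card) := by
    rw [Fintype.sum_prod_type]
    simp only [Finset.sum_const, Finset.card_univ, Fintype.card_fin, nsmul_eq_mul]
    rw [← Finset.mul_sum, ← Finset.mul_sum, Finset.sum_sub_distrib, ← Finset.mul_sum, hcs,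
      Finset.sum_const, Finset.card_univ, Fintype.card_fin, nsmul_eq_mul]
    ring
  have e6 : t * √((N : ℝ) * M) / (20 * T) * √((N : ℝ) * M) = t * (M / T) * (1 / 20 * N) := by
    rw [div_mul_eq_mul_div, mul_assoc, Real.mul_self_sqrt (by positivity)]
    field_simp
  have e7 : 100 * (Γᶜ.card : ℝ) ≤ N := by exact_mod_cast hΓ
  rw [e1, e6] at hd
  rw [e5] at e4
  have e8 := le_of_mul_le_mul_left (e4.trans hd) (by positivity)
  linarith

end Pool.Agent.P.MP_83f3dc_co.KT
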