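import Pool.Agent.P.MP_83f3dc_co.KTConf1
import Pool.Agent.P.MP_83f3dc_co.KTConfN
import Pool.Agent.P.MP_83f3dc_co.KTTest

set_option autoImplicit false
set_option linter.unusedSectionVars false
set_option linter.unusedVariables false

open MeasureTheory ProbabilityTheory Module Set Filter Topology
open scoped RealInnerProductSpace ENNReal

noncomputable section

namespace Pool.Agent.P.MP_83f3dc_co.KT

/-- the vector configuration with large discrepancy for every frame -/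
theorem conf {c D n : ℕ} {H Y : ℝ} (P : Par c D n H Y) :
    ∃ u : Fin (100 * n) → E D, ∃ r : ℝ, 0 < r ∧ ∀ t : ℕ, 1 ≤ t → ∀ s : Fin (100 * n) → ℝ,
      (∀ i, s i = 1 ∨ s i = -1) → ∀ U : Fin (100 * n) × Fin t → E D,
        (∀ p, ‖U p - s p.1 • u p.1‖ ≤ r) → ∀ g : Fin c → E D, Orthonormal ℝ g →
          ∃ y : E c, t * gain n H Y ≤ ∑ p, Real.sign ⟪∑ a, y a • g a, U p⟫ := by
  obtain ⟨n1, m1, t12, d1, mh, f1, f2, hρ, hg1, -⟩ := P.num
  have H0 : 0 < H := by linarith [P.h12]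
  have Y0 : 0 < Y := by linarith [P.Y1]
  have c0 : (0 : ℝ) < c := by exact_mod_cast (by linarith [P.c2] : 0 < c)
  have n0 : (0 : ℝ) < n := by exact_mod_cast n1
  obtain ⟨u, hu⟩ := exists_u P _ (by positivity) hρ
  refine ⟨u, 1 / (8 * H * (H ^ 3 * Y)), by positivity, fun t ht s hs U hU g hg => ?_⟩
  obtain ⟨g', -, hd, hbad⟩ := hu g hg
  have ns : ∀ (i) (v : E c), ‖s i • v‖ = ‖v‖ := fun i v => by
    rcases hs i with h | h <;> simp [h]
  have good : ∀ i ∈ (badSet (Aset g' H (100 * (n : ℝ))) (Cset g' (1 / (H * Y))) u)ᶜ,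
      1 / H < ‖Gm g' (u i)‖ ∧ ‖Gm g' (u i)‖ < H ∧ ‖u i‖ < 100 * (n : ℝ) ∧
        ∀ j, i < j → 1 / (H * Y) < ‖pr (Gm g' (u j)) (Gm g' (u i))‖ := fun i hi => by
    rw [Finset.mem_compl, mem_badSet, not_or] at hi
    refine ⟨not_le.1 fun h => hi.1 (Or.inl h), not_le.1 fun h => hi.1 (Or.inr (Or.inl h)),
      not_le.1 fun h => hi.1 (Or.inr (Or.inr h)), fun j hj => not_le.1 fun h => hi.2 ⟨j, hj, h⟩⟩
  have ne : ∀ i ∈ (badSet (Aset g' H (100 * (n : ℝ))) (Cset g' (1 / (H * Y))) u)ᶜ,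
      Gm g' (u i) ≠ 0 := fun i hi =>
    norm_pos_iff.1 ((by positivity : (0 : ℝ) < 1 / H).trans (good i hi).1)
  have e1 : 1 / (H * Y) / H = 1 / (H ^ 2 * Y) := by field_simp
  have e2 : H ^ 3 * Y * (1 / (H ^ 2 * Y)) = H := by field_simp
  obtain ⟨y, hy⟩ := l2test (V := E c) (N := 100 * n) (by omega) ht m1
    (badSet (Aset g' H (100 * (n : ℝ))) (Cset g' (1 / (H * Y))) u)ᶜ
    (by rw [compl_compl]; omega) (fun i => ‖s i • Gm g' (u i)‖⁻¹ • s i • Gm g' (u i))
    (fun i hi => by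
      rw [norm_smul, norm_inv, norm_norm, ns, inv_mul_cancel₀ (norm_ne_zero_iff.2 (ne i hi))])
    (1 / (H ^ 2 * Y)) (by positivity) d1
    (fun i hi j hj hij => by
      rw [← e1]
      rcases lt_or_gt_of_ne hij with h | h
      · exact (dir_sep H0 (by positivity) (ne i hi) (ne j hj) (good i hi).2.1
          ((good i hi).2.2.2 j h) (hs i) (hs j)).1
      · exact (dir_sep H0 (by positivity) (ne j hj) (ne i hi) (good j hj).2.1
          ((good j hj).2.2.2 i h) (hs j) (hs i)).2)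
    (H ^ 3 * Y) H t12 H0 mh e2.ge (by rw [e2]; linarith [P.h12]) f1 f2 (fun p => Gm g (U p))
    fun p hp => by
      have e3 : 2 * H * (1 / (4 * H * (H ^ 3 * Y))) = 1 / (2 * (H ^ 3 * Y)) := by
        field_simp
        norm_num
      rw [← e3]
      refine dir_close H0 (by rw [ns]; exact (good _ hp).1)
        (one_div_lt_one_div_of_lt H0 (by nlinarith)) ?_
      have e4 : Gm g (U p) - s p.1 • Gm g' (u p.1) =
          Gm g (U p - s p.1 • u p.1) + s p.1 • (Gm g (u p.1) - Gm g' (u p.1)) := by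
        rw [Gm_sub, Gm_smul, smul_sub, sub_add_sub_cancel]
      have h1 := (norm_Gm_le hg _).trans (hU p)
      have h2 := (norm_Gm_sub g g' _ (by positivity) hd (u p.1)).trans
        (mul_le_mul_of_nonneg_left (good _ hp).2.2.1.le (by positivity))
      rw [e4]
      refine (norm_add_le _ _).trans ?_
      rw [ns]
      refine (add_le_add h1 h2).trans_eq ?_
      field_simp
      norm_num
  refine ⟨y, ?_⟩
  simp only [inner_Gm] at hy
  refine le_trans ?_ hy
  rw [mul_div_assoc]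
  exact mul_le_mul_of_nonneg_left hg1 t.cast_nonneg

end Pool.Agent.P.MP_83f3dc_co.KT
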