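import Mathlib

set_option autoImplicit false
set_option linter.unusedSectionVars false
set_option linter.unusedVariables false

open MeasureTheory ProbabilityTheory Module Set Filter Topology
open scoped RealInnerProductSpace ENNReal

noncomputable section

namespace Pool.Agent.P.MP_83f3dc_co.KT

theorem net_card {X : Type} [NormedAddCommGroup X] [NormedSpace ℝ X] [FiniteDimensional ℝ X]
    (s : Finset X) (hs : ∀ c ∈ s, ‖c‖ ≤ 1) {ρ : ℝ} (hρ : 0 < ρ)
    (h : ∀ c ∈ s, ∀ d ∈ s, c ≠ d → ρ < ‖c - d‖) : (s.card : ℝ) ≤ (1 + 2 / ρ) ^ finrank ℝ X := by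
  borelize X
  let μ : Measure X := Measure.addHaar
  have hδ : 0 < ρ / 2 := by positivity
  have hR : 0 < 1 + ρ / 2 := by positivity
  have D : Set.Pairwise (s : Set X) (Function.onFun Disjoint fun c => Metric.ball c (ρ / 2)) := by
    rintro c hc d hd hcd
    apply Metric.ball_disjoint_ball
    rw [dist_eq_norm, add_halves]
    exact (h c hc d hd hcd).le
  have hsub : (⋃ c ∈ s, Metric.ball c (ρ / 2)) ⊆ Metric.ball (0 : X) (1 + ρ / 2) := by
    refine iUnion₂_subset fun x hx => Metric.ball_subset_ball' ?_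
    rw [dist_zero_right]
    linarith [hs x hx]
  have I : (s.card : ℝ≥0∞) * ENNReal.ofReal ((ρ / 2) ^ finrank ℝ X) * μ (Metric.ball 0 1) ≤
      ENNReal.ofReal ((1 + ρ / 2) ^ finrank ℝ X) * μ (Metric.ball 0 1) :=
    calc (s.card : ℝ≥0∞) * ENNReal.ofReal ((ρ / 2) ^ finrank ℝ X) * μ (Metric.ball 0 1)
        = μ (⋃ c ∈ s, Metric.ball c (ρ / 2)) := by
          rw [measure_biUnion_finset D fun c _ => measurableSet_ball]
          simp only [μ.addHaar_ball_of_pos _ hδ, Finset.sum_const, nsmul_eq_mul, mul_assoc]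
      _ ≤ μ (Metric.ball (0 : X) (1 + ρ / 2)) := measure_mono hsub
      _ = _ := μ.addHaar_ball_of_pos _ hR
  have J := (ENNReal.mul_le_mul_iff_left (Metric.measure_ball_pos μ (0 : X) zero_lt_one).ne'
    measure_ball_lt_top.ne).1 I
  rw [← ENNReal.ofReal_natCast, ← ENNReal.ofReal_mul (Nat.cast_nonneg _),
    ENNReal.ofReal_le_ofReal_iff (by positivity)] at J
  have e : 1 + 2 / ρ = (1 + ρ / 2) / (ρ / 2) := by
    field_simp
    ring
  rw [e, div_pow, le_div_iff₀ (by positivity)]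
  exact J

/-- volumetric net inside a subset of the unit ball -/
theorem net {X : Type} [NormedAddCommGroup X] [NormedSpace ℝ X] [FiniteDimensional ℝ X]
    (S : Set X) (hS : ∀ x ∈ S, ‖x‖ ≤ 1) (ρ : ℝ) (hρ : 0 < ρ) :
    ∃ F : Finset X, (∀ y ∈ F, y ∈ S) ∧ (F.card : ℝ) ≤ (1 + 2 / ρ) ^ finrank ℝ X ∧
      ∀ x ∈ S, ∃ y ∈ F, ‖x - y‖ ≤ ρ := by
  classical
  let P : ℕ → Prop := fun k => ∃ F : Finset X, (∀ y ∈ F, y ∈ S) ∧
    (∀ c ∈ F, ∀ d ∈ F, c ≠ d → ρ < ‖c - d‖) ∧ F.card = k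
  have hb : BddAbove {k | P k} := by
    refine ⟨⌈(1 + 2 / ρ) ^ finrank ℝ X⌉₊, ?_⟩
    rintro _ ⟨F, h1, h2, rfl⟩
    exact_mod_cast (net_card F (fun c hc => hS c (h1 c hc)) hρ h2).trans (Nat.le_ceil _)
  obtain ⟨F, h1, h2, h3⟩ := Nat.sSup_mem (s := {k | P k}) ⟨0, ∅, by simp, by simp, rfl⟩ hb
  refine ⟨F, h1, net_card F (fun c hc => hS c (h1 c hc)) hρ h2, fun x hx => ?_⟩
  by_contra hn
  have h4 : ∀ y ∈ F, ρ < ‖x - y‖ := fun y hy => lt_of_not_ge fun h' => hn ⟨y, hy, h'⟩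
  have h5 : x ∉ F := fun h' => by simpa [hρ.not_gt] using h4 x h'
  have h6 : P (F.card + 1) := by
    refine ⟨insert x F, fun y hy => ?_, fun c hc d hd hcd => ?_, Finset.card_insert_of_notMem h5⟩
    · rcases Finset.mem_insert.1 hy with rfl | hy
      exacts [hx, h1 y hy]
    · rcases Finset.mem_insert.1 hc with rfl | hc' <;> rcases Finset.mem_insert.1 hd with rfl | hd'
      · exact absurd rfl hcd
      · exact h4 d hd'
      · rw [norm_sub_rev]
        exact h4 c hc'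
      · exact h2 c hc' d hd' hcd
  have h7 := le_csSup hb h6
  omega

end Pool.Agent.P.MP_83f3dc_co.KT
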