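import Mathlib

set_option autoImplicit false
set_option linter.unusedSectionVars false
set_option linter.unusedVariables false

open MeasureTheory ProbabilityTheory Module Set Filter Topology
open scoped RealInnerProductSpace ENNReal

noncomputable section

namespace Pool.Agent.P.MP_83f3dc_co.KT

/-- admissible parameters of the random construction, with `N = 100 n` vectors -/
structure Par (c D n : ℕ) (H Y : ℝ) : Prop where
  c2 : 2 ≤ c
  h12 : 12 ≤ H
  cH : (c : ℝ) ≤ H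
  HN : H ≤ 100 * (n : ℝ)
  Y1 : 1 ≤ Y
  YN : Y ≤ 100 * (n : ℝ)
  NY : 100 * (n : ℝ) ≤ Y ^ (c - 1)
  DN : (D : ℝ) ≤ 100 * (n : ℝ)
  far : 200 * (100 * (n : ℝ)) ^ 5 * Real.exp (-H ^ 2 / 32) ≤ 1
  un : (100 * (n : ℝ)) ^ (8 * c * D) * (2 ^ 102 / H) ^ n < 1

/-- the discrepancy of the construction -/
def gain (n : ℕ) (H Y : ℝ) : ℝ := √(100 * (n : ℝ) / (2 * Y)) / (20 * H ^ 2)

end Pool.Agent.P.MP_83f3dc_co.KT
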