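import Pool.Agent.P.MP_83f3dc_co.KTG

set_option autoImplicit false
set_option linter.unusedSectionVars false
set_option linter.unusedVariables false

open MeasureTheory ProbabilityTheory Module Set Filter Topology
open scoped RealInnerProductSpace ENNReal

noncomputable section

namespace Pool.Agent.P.MP_83f3dc_co.KT

open Classical in
/-- indices that are bad alone or close to a later index -/
def badSet {Ω : Type} (A : Set Ω) (C : Set (Ω × Ω)) {N : ℕ} (x : Fin N → Ω) : Finset (Fin N) :=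
  Finset.univ.filter fun i => x i ∈ A ∨ ∃ j, i < j ∧ (x j, x i) ∈ C

theorem mem_badSet {Ω : Type} (A : Set Ω) (C : Set (Ω × Ω)) {N : ℕ} (x : Fin N → Ω) (i : Fin N) :
    i ∈ badSet A C x ↔ x i ∈ A ∨ ∃ j, i < j ∧ (x j, x i) ∈ C := by
  simp [badSet]

theorem ktseq_meas {Ω : Type} [MeasurableSpace Ω] (A : Set Ω) (hA : MeasurableSet A)
    (C : Set (Ω × Ω)) (hC : MeasurableSet C) {N : ℕ} (i : Fin N) :
    MeasurableSet {x : Fin N → Ω | x i ∈ A ∨ ∃ j, i < j ∧ (x j, x i) ∈ C} := by
  have h : {x : Fin N → Ω | x i ∈ A ∨ ∃ j, i < j ∧ (x j, x i) ∈ C} =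
      (fun x : Fin N → Ω => x i) ⁻¹' A ∪
        ⋃ j ∈ {j : Fin N | i < j}, (fun x : Fin N → Ω => (x j, x i)) ⁻¹' C := by
    ext x; simp
  rw [h]
  exact (measurable_pi_apply i hA).union (MeasurableSet.biUnion (Set.to_countable _) fun j _ =>
    ((measurable_pi_apply j).prodMk (measurable_pi_apply i)) hC)

theorem ktseq_meas_all {Ω : Type} [MeasurableSpace Ω] (A : Set Ω) (hA : MeasurableSet A)
    (C : Set (Ω × Ω)) (hC : MeasurableSet C) {N : ℕ} (S : Finset (Fin N)) :
    MeasurableSet {x : Fin N → Ω | ∀ i ∈ S, x i ∈ A ∨ ∃ j, i < j ∧ (x j, x i) ∈ C} := by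
  have h : {x : Fin N → Ω | ∀ i ∈ S, x i ∈ A ∨ ∃ j, i < j ∧ (x j, x i) ∈ C} =
      ⋂ i ∈ (S : Set (Fin N)), {x : Fin N → Ω | x i ∈ A ∨ ∃ j, i < j ∧ (x j, x i) ∈ C} := by
    ext x; simp
  rw [h]
  exact MeasurableSet.biInter (Set.to_countable _) fun i _ => ktseq_meas A hA C hC i

theorem ktseq_all {Ω : Type} [MeasurableSpace Ω] (μ : Measure Ω) [IsProbabilityMeasure μ]
    (A : Set Ω) (hA : MeasurableSet A) (C : Set (Ω × Ω)) (hC : MeasurableSet C) (q₁ q₂ q : ℝ≥0∞)
    (h1 : μ A ≤ q₁) (h2 : ∀ x, μ {u | (x, u) ∈ C} ≤ q₂) (N : ℕ) (hq : q₁ + N * q₂ ≤ q)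
    (S : Finset (Fin N)) :
    (Measure.pi fun _ : Fin N => μ) {x | ∀ i ∈ S, x i ∈ A ∨ ∃ j, i < j ∧ (x j, x i) ∈ C} ≤
      q ^ S.card := by
  classical
  induction N with
  | zero =>
    have : S = ∅ := Subsingleton.elim _ _
    subst this
    simp
  | succ N ih =>
    have hq' : q₁ + N * q₂ ≤ q := by
      refine le_trans ?_ hq
      gcongr
      exact_mod_cast Nat.le_succ N
    set S' : Finset (Fin N) := Finset.univ.filter fun i => i.succ ∈ S with hS'
    have ih' := ih hq' S'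
    set B : Set (Fin N → Ω) := {x | ∀ i ∈ S', x i ∈ A ∨ ∃ j, i < j ∧ (x j, x i) ∈ C} with hB
    have hBm : MeasurableSet B := ktseq_meas_all A hA C hC S'
    have hm := ktseq_meas_all A hA C hC S
    rw [← (mp_cons (k := N) μ).measure_preimage hm.nullMeasurableSet]
    have hcard : S.card = (if (0 : Fin (N + 1)) ∈ S then 1 else 0) + S'.card := by
      have := Fin.card_filter_univ_succ' (fun i : Fin (N + 1) => i ∈ S)
      simpa [hS'] using this
    have hstep : ∀ (u : Ω) (x : Fin N → Ω),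
        (∀ i ∈ S, (Fin.cons u x : Fin (N + 1) → Ω) i ∈ A ∨ ∃ j, i < j ∧
          ((Fin.cons u x : Fin (N + 1) → Ω) j, (Fin.cons u x : Fin (N + 1) → Ω) i) ∈ C) →
        x ∈ B ∧ ((0 : Fin (N + 1)) ∈ S → u ∈ A ∨ ∃ j, (x j, u) ∈ C) := by
      intro u x h
      refine ⟨fun i hi => ?_, fun h0 => ?_⟩
      · have hi' : i.succ ∈ S := by simpa [hS'] using hi
        rcases h _ hi' with h | ⟨j, hj, h⟩
        · left; simpa using h
        · right
          obtain ⟨j, rfl⟩ := Fin.exists_succ_eq.2 (Fin.ne_zero_of_lt hj)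
          exact ⟨j, by simpa using hj, by simpa using h⟩
      · rcases h _ h0 with h | ⟨j, hj, h⟩
        · left; simpa using h
        · right
          obtain ⟨j, rfl⟩ := Fin.exists_succ_eq.2 (Fin.ne_zero_of_lt hj)
          exact ⟨j, by simpa using h⟩
    have hpm := (mp_cons (k := N) μ).measurable hm
    rw [Measure.prod_apply_symm hpm]
    have hone : ∀ x : Fin N → Ω, μ {u | u ∈ A ∨ ∃ j, (x j, u) ∈ C} ≤ q := by
      intro x
      have : {u | u ∈ A ∨ ∃ j, (x j, u) ∈ C} = A ∪ ⋃ j, {u | (x j, u) ∈ C} := by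
        ext u; simp
      rw [this]
      refine (measure_union_le _ _).trans (le_trans ?_ hq')
      refine add_le_add h1 ((measure_iUnion_fintype_le _ _).trans ?_)
      refine (Finset.sum_le_sum fun j _ => h2 (x j)).trans ?_
      simp
    set c : ℝ≥0∞ := if (0 : Fin (N + 1)) ∈ S then q else 1 with hc
    calc _ ≤ ∫⁻ x, B.indicator (fun _ => c) x ∂(Measure.pi fun _ : Fin N => μ) := by
          refine lintegral_mono fun x => ?_
          by_cases hx : x ∈ B
          · rw [Set.indicator_of_mem hx]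
            by_cases h0 : (0 : Fin (N + 1)) ∈ S
            · rw [hc, if_pos h0]
              exact (measure_mono fun u hu => (hstep u x hu).2 h0).trans (hone x)
            · rw [hc, if_neg h0]
              exact prob_le_one
          · rw [Set.indicator_of_notMem hx]
            refine le_of_eq (measure_mono_null (fun u hu => hx (hstep u x hu).1) measure_empty)
      _ = c * (Measure.pi fun _ : Fin N => μ) B := by
          rw [lintegral_indicator hBm, setLIntegral_const]
      _ ≤ c * q ^ S'.card := by gcongr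
      _ = q ^ S.card := by
          rw [hcard, hc]
          split_ifs
          · rw [pow_add, pow_one]
          · simp

theorem seq_bad {Ω : Type} [MeasurableSpace Ω] (μ : Measure Ω) [IsProbabilityMeasure μ]
    (A : Set Ω) (hA : MeasurableSet A) (C : Set (Ω × Ω)) (hC : MeasurableSet C) (q₁ q₂ q : ℝ≥0∞)
    (h1 : μ A ≤ q₁) (h2 : ∀ x, μ {u | (x, u) ∈ C} ≤ q₂) (N m : ℕ) (hq : q₁ + N * q₂ ≤ q) :
    (Measure.pi fun _ : Fin N => μ) {x | m ≤ (badSet A C x).card} ≤ 2 ^ N * q ^ m := by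
  classical
  have hsub : {x : Fin N → Ω | m ≤ (badSet A C x).card} ⊆
      ⋃ S ∈ Finset.powersetCard m (Finset.univ : Finset (Fin N)),
        {x | ∀ i ∈ S, x i ∈ A ∨ ∃ j, i < j ∧ (x j, x i) ∈ C} := by
    intro x hx
    obtain ⟨S, hS, hc⟩ := Finset.exists_subset_card_eq hx
    simp only [Set.mem_iUnion]
    exact ⟨S, Finset.mem_powersetCard.2 ⟨Finset.subset_univ _, hc⟩,
      fun i hi => (mem_badSet A C x i).1 (hS hi)⟩
  refine (measure_mono hsub).trans ((measure_biUnion_finset_le _ _).trans ?_)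
  refine (Finset.sum_le_sum fun S hS => (ktseq_all μ A hA C hC q₁ q₂ q h1 h2 N hq S).trans
    (le_of_eq (by rw [(Finset.mem_powersetCard.1 hS).2] : q ^ S.card = q ^ m))).trans ?_
  rw [Finset.sum_const, nsmul_eq_mul, Finset.card_powersetCard, Finset.card_univ, Fintype.card_fin]
  gcongr
  exact_mod_cast Nat.choose_le_two_pow N m

end Pool.Agent.P.MP_83f3dc_co.KT
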