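import Pool.Agent.P.MP_83f3dc_co.KTProb
import Pool.Agent.P.MP_83f3dc_co.KTSeq
import Pool.Agent.P.MP_83f3dc_co.KTNet
import Pool.Agent.P.MP_83f3dc_co.KTParD

set_option autoImplicit false
set_option linter.unusedSectionVars false
set_option linter.unusedVariables false

open MeasureTheory ProbabilityTheory Module Set Filter Topology
open scoped RealInnerProductSpace ENNReal

noncomputable section

namespace Pool.Agent.P.MP_83f3dc_co.KT

theorem exists_u {c D n : ℕ} {H Y : ℝ} (P : Par c D n H Y) (ρ : ℝ) (hρ : 0 < ρ)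
    (hρ' : 1 + 2 / ρ ≤ (100 * (n : ℝ)) ^ 8) :
    ∃ u : Fin (100 * n) → E D, ∀ g : Fin c → E D, Orthonormal ℝ g →
      ∃ g' : Fin c → E D, Orthonormal ℝ g' ∧ (∀ a, ‖g a - g' a‖ ≤ ρ) ∧
        (badSet (Aset g' H (100 * (n : ℝ))) (Cset g' (1 / (H * Y))) u).card < n := by
  obtain ⟨F, hF1, hF2, hF3⟩ := net (X := Fin c → E D) {g | Orthonormal ℝ g}
    (fun g hg => (pi_norm_le_iff_of_nonneg zero_le_one).2 fun a => (hg.1 a).le) ρ hρ
  have hr : finrank ℝ (Fin c → E D) = c * D := by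
    rw [Module.finrank_pi_fintype]
    simp [E]
  have h12 := P.h12
  have hY := P.Y1
  have hc := P.c2
  have hH : (0 : ℝ) < H := by linarith
  have hHY : (1 : ℝ) ≤ H * Y := by nlinarith
  have hβ0 : (0 : ℝ) ≤ 1 / (H * Y) := by positivity
  have hβ1 : 1 / (H * Y) ≤ 1 := (div_le_one (by linarith)).2 hHY
  have hq : ((100 * n : ℕ) : ℝ) * (1 / (H * Y)) ^ (c - 1) ≤ 1 / H := by
    have h1 : H ≤ H ^ (c - 1) := le_self_pow₀ (by linarith) (by omega)
    have h2 : (0 : ℝ) < Y ^ (c - 1) := by positivity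
    have h3 : (0 : ℝ) < H ^ (c - 1) := by positivity
    rw [div_pow, one_pow, mul_pow, mul_one_div, div_le_div_iff₀ (by positivity) hH]
    push_cast
    have h4 := P.NY
    nlinarith [mul_le_mul h4 h1 hH.le h2.le]
  let μ : Measure (Fin (100 * n) → E D) := Measure.pi fun _ => stdGaussian (E D)
  let B : (Fin c → E D) → Set (Fin (100 * n) → E D) := fun g =>
    {x | n ≤ (badSet (Aset g H (100 * (n : ℝ))) (Cset g (1 / (H * Y))) x).card}
  have hB : ∀ g ∈ F, μ (B g) ≤ ENNReal.ofReal ((2 ^ 102 / H) ^ n) := fun g hg => by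
    have h1 := seq_bad (stdGaussian (E D)) _ (measurable_Aset g H (100 * (n : ℝ))) _
      (measurable_Cset g (1 / (H * Y))) _ _ (ENNReal.ofReal (4 / H))
      (Aset_le (hF1 g hg) (by omega) (by linarith) P.cH P.HN P.DN)
      (Cset_le (hF1 g hg) hβ0 hβ1) (100 * n) n (by
        rw [← ENNReal.ofReal_natCast, ← ENNReal.ofReal_mul (Nat.cast_nonneg _),
          ← ENNReal.ofReal_add (by positivity) (by positivity)]
        refine ENNReal.ofReal_le_ofReal ?_
        have : 4 / H = 3 / H + 1 / H := by ring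
        linarith)
    refine h1.trans (le_of_eq ?_)
    have e : (2 ^ 102 / H) ^ n = (2 : ℝ) ^ (100 * n) * (4 / H) ^ n := by
      have e1 : (2 : ℝ) ^ 102 / H = 2 ^ 100 * (4 / H) := by ring
      rw [pow_mul, ← mul_pow, e1]
    rw [e, ENNReal.ofReal_mul (by positivity), ENNReal.ofReal_pow (by norm_num),
      ENNReal.ofReal_pow (by positivity), ENNReal.ofReal_ofNat]
  have hU : μ (⋃ g ∈ F, B g) < 1 := by
    refine (measure_biUnion_finset_le F B).trans_lt ((Finset.sum_le_card_nsmul _ _ _ hB).trans_lt ?_)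
    rw [nsmul_eq_mul, ← ENNReal.ofReal_natCast, ← ENNReal.ofReal_mul (Nat.cast_nonneg _),
      ENNReal.ofReal_lt_one]
    refine lt_of_le_of_lt (mul_le_mul_of_nonneg_right (hF2.trans ?_) (by positivity)) P.un
    rw [hr, mul_assoc 8, pow_mul _ 8]
    exact pow_le_pow_left₀ (by positivity) hρ' _
  have hex : ∃ u, u ∉ ⋃ g ∈ F, B g := by
    by_contra h
    push Not at h
    rw [Set.eq_univ_of_forall h, measure_univ] at hU
    exact lt_irrefl _ hU
  obtain ⟨u, hu⟩ := hex
  refine ⟨u, fun g hg => ?_⟩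
  obtain ⟨g', h1, h2⟩ := hF3 g hg
  exact ⟨g', hF1 g' h1, fun a => (norm_le_pi_norm (g - g') a).trans h2,
    not_le.1 fun h => hu (Set.mem_biUnion h1 h)⟩

end Pool.Agent.P.MP_83f3dc_co.KT
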