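import Mathlib

set_option autoImplicit false
set_option linter.unusedSectionVars false
set_option linter.unusedVariables false

open MeasureTheory ProbabilityTheory Module Set Filter Topology
open scoped RealInnerProductSpace ENNReal

noncomputable section

namespace Pool.Agent.P.MP_83f3dc_co.KT

/-- the deficiency in the lower bound -/
def eta (D c : ℕ) : ℝ := 40 * √((c : ℝ) / D) * Real.log (2 * (D : ℝ) / c)

theorem eta_nonneg {D c : ℕ} (hc : 1 ≤ c) (hcD : c ≤ D) : 0 ≤ eta D c := by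
  have hc' : (1 : ℝ) ≤ c := by exact_mod_cast hc
  have hD : (c : ℝ) ≤ D := by exact_mod_cast hcD
  refine mul_nonneg (by positivity) (Real.log_nonneg ?_)
  rw [le_div_iff₀ (by linarith)]
  linarith

theorem core_num {D c : ℕ} (hc : 1 ≤ c) (hcD : c ≤ D) :
    ∃ (L : ℕ) (τ W : ℝ), 0 < τ ∧ τ * √2 ^ L = 1 ∧ c * Real.log (1 + 4 / τ ^ 2) + 2 ≤ W ∧
      τ + √(12 * ((L : ℝ) + 1) * W / D) + √3 * τ * (1 + 2 * √(W / D)) ≤ eta D c := by
  have hc' : (1 : ℝ) ≤ c := by exact_mod_cast hc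
  have hD : (c : ℝ) ≤ D := by exact_mod_cast hcD
  have hc0 : (0 : ℝ) < c := by linarith
  have hD0 : (0 : ℝ) < D := by linarith
  obtain ⟨x, hx⟩ : ∃ x : ℝ, x = D / c := ⟨_, rfl⟩
  have hx1 : 1 ≤ x := by rw [hx, le_div_iff₀ hc0]; linarith
  have hx0 : 0 < x := by linarith
  obtain ⟨n, hn1, hn2⟩ := exists_nat_pow_near hx1 (show (1 : ℝ) < 2 by norm_num)
  obtain ⟨l, hl⟩ : ∃ l : ℝ, l = Real.log (2 * x) := ⟨_, rfl⟩
  obtain ⟨s, hs⟩ : ∃ s : ℝ, s = √((c : ℝ) / D) := ⟨_, rfl⟩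
  have hs0 : 0 ≤ s := hs ▸ Real.sqrt_nonneg _
  have hs2 : s ^ 2 = 1 / x := by
    rw [hs, Real.sq_sqrt (by positivity), hx]; field_simp
  have hlog2 := Real.log_two_gt_d9
  have hlog2' := Real.log_two_lt_d9
  have hlx : l = Real.log 2 + Real.log x := by rw [hl, Real.log_mul (by norm_num) hx0.ne']
  have hlx0 : 0 ≤ Real.log x := Real.log_nonneg hx1
  have hlx1 : Real.log x ≤ x - 1 := Real.log_le_sub_one_of_pos hx0
  have hl0 : 0.69 ≤ l := by linarith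
  have hl1 : l ≤ x := by linarith
  have heta : eta D c = 40 * s * l := by
    rw [eta, hs, hl, hx, mul_div_assoc 2]
  have hq : (0 : ℝ) < √2 ^ (n + 1) := by positivity
  have hq2 : (√2 ^ (n + 1) : ℝ) ^ 2 = 2 ^ (n + 1) := by
    rw [← pow_mul, mul_comm, pow_mul, Real.sq_sqrt (by norm_num)]
  have hτ2 : ((√2 ^ (n + 1) : ℝ)⁻¹) ^ 2 = 1 / 2 ^ (n + 1) := by rw [inv_pow, hq2, one_div]
  have hτs : (√2 ^ (n + 1) : ℝ)⁻¹ ≤ s := by
    refine (pow_le_pow_iff_left₀ (by positivity) hs0 two_ne_zero).1 ?_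
    rw [hτ2, hs2]
    exact one_div_le_one_div_of_le hx0 hn2.le
  have hp2 : (2 : ℝ) ^ (n + 1) ≤ 2 * x := by rw [pow_succ]; linarith
  have hL : ((n + 1 : ℕ) : ℝ) + 1 ≤ 3 * l := by
    have h1 : ((n + 1 : ℕ) : ℝ) * Real.log 2 ≤ l := by
      rw [← Real.log_pow, hl]
      exact Real.log_le_log (by positivity) hp2
    have h2 : (0 : ℝ) ≤ ((n + 1 : ℕ) : ℝ) := by positivity
    nlinarith
  have hWD : 7 * c * l / D = 7 * l * s ^ 2 := by
    rw [hs2, hx]; field_simp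
  refine ⟨n + 1, (√2 ^ (n + 1) : ℝ)⁻¹, 7 * c * l, by positivity, inv_mul_cancel₀ hq.ne', ?_, ?_⟩
  · have h1 : 1 + 4 / ((√2 ^ (n + 1) : ℝ)⁻¹) ^ 2 ≤ 2 ^ 4 * x := by
      rw [hτ2, div_div_eq_mul_div, div_one]; nlinarith
    have h2 : Real.log (1 + 4 / ((√2 ^ (n + 1) : ℝ)⁻¹) ^ 2) ≤ 4 * l := by
      refine (Real.log_le_log (by positivity) h1).trans ?_
      rw [Real.log_mul (by norm_num) hx0.ne', Real.log_pow]
      push_cast
      linarith
    have h3 := mul_le_mul_of_nonneg_left h2 hc0.le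
    nlinarith
  · have h1 : √(12 * (((n + 1 : ℕ) : ℝ) + 1) * (7 * c * l) / D) ≤ 16 * l * s := by
      refine Real.sqrt_le_iff.2 ⟨by positivity, ?_⟩
      rw [mul_div_assoc, hWD]
      have h2 : 0 ≤ 7 * l * s ^ 2 := by positivity
      have h3 := mul_le_mul_of_nonneg_right hL h2
      have h4 : 0 ≤ l ^ 2 * s ^ 2 := by positivity
      nlinarith
    have h2 : √(7 * c * l / D) ≤ 2.65 := by
      refine Real.sqrt_le_iff.2 ⟨by norm_num, ?_⟩
      rw [hWD, hs2, mul_one_div, div_le_iff₀ hx0]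
      nlinarith
    have h3 : √3 ≤ (1.74 : ℝ) := Real.sqrt_le_iff.2 ⟨by norm_num, by norm_num⟩
    have h4 : √3 * (√2 ^ (n + 1) : ℝ)⁻¹ * (1 + 2 * √(7 * c * l / D)) ≤ 1.74 * s * (1 + 2 * 2.65) := by
      gcongr
    have h5 : 0.69 * s ≤ l * s := mul_le_mul_of_nonneg_right hl0 hs0
    rw [heta]
    nlinarith

theorem eta_small (ε : ℝ) (hε : 0 < ε) :
    ∃ A : ℕ, 1 ≤ A ∧ ∀ c : ℕ, 1 ≤ c → eta (A * c) c ≤ ε := by
  obtain ⟨A, hA⟩ := exists_nat_ge (max 1 ((320 / ε) ^ 4))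
  have hA1 : (1 : ℝ) ≤ A := (le_max_left _ _).trans hA
  have hA2 : (320 / ε) ^ 4 ≤ (A : ℝ) := (le_max_right _ _).trans hA
  refine ⟨A, by exact_mod_cast hA1, fun c hc => ?_⟩
  have hc0 : (0 : ℝ) < c := by exact_mod_cast hc
  have hA0 : (0 : ℝ) < A := by linarith
  obtain ⟨u, hu⟩ : ∃ u : ℝ, u = √(√(A : ℝ)) := ⟨_, rfl⟩
  have hu0 : 0 < u := by rw [hu]; positivity
  have hu2 : u ^ 2 = √(A : ℝ) := by rw [hu, Real.sq_sqrt (Real.sqrt_nonneg _)]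
  have hu4 : u ^ 4 = A := by
    rw [show u ^ 4 = (u ^ 2) ^ 2 by ring, hu2, Real.sq_sqrt hA0.le]
  have hu5 : 320 / ε ≤ u :=
    (pow_le_pow_iff_left₀ (by positivity) hu0.le (by norm_num : 4 ≠ 0)).1 (hu4 ▸ hA2)
  have h1 : √((c : ℝ) / ((A * c : ℕ) : ℝ)) = 1 / u ^ 2 := by
    rw [hu2, show (c : ℝ) / ((A * c : ℕ) : ℝ) = (A : ℝ)⁻¹ by push_cast; field_simp,
      Real.sqrt_inv, one_div]
  have h2 : Real.log (2 * ((A * c : ℕ) : ℝ) / c) ≤ 8 * u := by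
    rw [show 2 * ((A * c : ℕ) : ℝ) / c = 2 * u ^ 4 by rw [hu4]; push_cast; field_simp]
    have h3 : Real.log (2 * u ^ 4) ≤ Real.log ((2 * u) ^ 4) :=
      Real.log_le_log (by positivity) (by nlinarith [pow_pos hu0 4])
    have h4 := Real.log_le_sub_one_of_pos (show 0 < 2 * u by positivity)
    rw [Real.log_pow] at h3
    push_cast at h3
    linarith
  rw [eta, h1]
  rw [div_le_iff₀ hε] at hu5
  calc 40 * (1 / u ^ 2) * Real.log (2 * ((A * c : ℕ) : ℝ) / c) ≤ 40 * (1 / u ^ 2) * (8 * u) := by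
        gcongr
    _ = 320 / u := by field_simp; norm_num
    _ ≤ ε := by rw [div_le_iff₀ hu0]; linarith

end Pool.Agent.P.MP_83f3dc_co.KT
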