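import Pool.Agent.P.MP_83f3dc_co.KTCoreP
import Pool.Agent.P.MP_83f3dc_co.KTCoreN

set_option autoImplicit false
set_option linter.unusedSectionVars false
set_option linter.unusedVariables false

open MeasureTheory ProbabilityTheory Module Set Filter Topology
open scoped RealInnerProductSpace ENNReal

noncomputable section

namespace Pool.Agent.P.MP_83f3dc_co.KT

theorem core {D c : ℕ} (hc : 1 ≤ c) (hcD : c ≤ D) {ι : Type} [Fintype ι] (e : ι → E D)
    (he1 : ∀ p, ‖e p‖ = 1)
    (he : ∀ z, ∑ p, ⟪z, e p⟫ ^ 2 ≤ 3 * (Fintype.card ι : ℝ) / D * ‖z‖ ^ 2) :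
    ∃ G : Fin c → E D, LinearIndependent ℝ G ∧ ∀ y : Fin c → ℝ,
      ((Finset.univ.filter fun p => 0 < ⟪∑ a, y a • G a, e p⟫).card : ℝ) ≤
        (Fintype.card ι : ℝ) * (1 / 2 + eta D c) := by
  classical
  by_cases h0 : 1 / 2 ≤ eta D c ∨ Fintype.card ι = 0
  · refine ⟨fun a => EuclideanSpace.basisFun (Fin D) ℝ (Fin.castLE hcD a),
      (EuclideanSpace.basisFun (Fin D) ℝ).orthonormal.linearIndependent.comp _
        (Fin.castLE_injective hcD), fun y => ?_⟩
    have h1 : ((Finset.univ.filter fun p => 0 < ⟪∑ a, y a •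
        EuclideanSpace.basisFun (Fin D) ℝ (Fin.castLE hcD a), e p⟫).card : ℝ) ≤
        Fintype.card ι := by
      exact_mod_cast Finset.card_le_univ _
    refine h1.trans ?_
    rcases h0 with h0 | h0
    · have : (0 : ℝ) ≤ Fintype.card ι := Nat.cast_nonneg _
      nlinarith
    · simp [h0]
  · push Not at h0
    obtain ⟨hη, hn⟩ := h0
    have hn' : 0 < Fintype.card ι := Nat.pos_of_ne_zero hn
    have hnr : (0 : ℝ) < Fintype.card ι := by exact_mod_cast hn'
    obtain ⟨L, τ, W, hτ0, hτ, hW, hle⟩ := core_num hc hcD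
    obtain ⟨G, hG⟩ := coreP (c := c) (by omega) hn' e he1 he L τ W hτ hW
    have key : ∀ y : Fin c → ℝ, y ≠ 0 →
        ((Finset.univ.filter fun p => 0 ≤ ⟪∑ a, y a • G a, e p⟫).card : ℝ) ≤
          (Fintype.card ι : ℝ) * (1 / 2 + eta D c) := by
      intro y hy
      have hy' : (WithLp.toLp 2 y : E c) ≠ 0 := by simpa using hy
      have hpos : 0 < ‖(WithLp.toLp 2 y : E c)‖ := norm_pos_iff.2 hy'
      have h1 := hG (‖(WithLp.toLp 2 y : E c)‖⁻¹ • WithLp.toLp 2 y) (by
        rw [norm_smul, norm_inv, norm_norm, inv_mul_cancel₀ hpos.ne'])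
      have h2 : ∑ a, (‖(WithLp.toLp 2 y : E c)‖⁻¹ • (WithLp.toLp 2 y : E c)) a • G a =
          ‖(WithLp.toLp 2 y : E c)‖⁻¹ • ∑ a, y a • G a := by
        rw [Finset.smul_sum]
        refine Finset.sum_congr rfl fun a _ => ?_
        simp [smul_smul]
      rw [h2] at h1
      refine le_trans ?_ (h1.trans (by gcongr))
      rw [Finset.card_filter, Nat.cast_sum]
      refine Finset.sum_le_sum fun p _ => ?_
      split_ifs with hp
      · rw [ramp_of_nonneg hτ0]
        · simp
        · rw [real_inner_smul_left]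
          exact mul_nonneg (inv_nonneg.2 hpos.le) hp
      · simpa using ramp_nonneg _ _
    refine ⟨G, Fintype.linearIndependent_iff.2 fun y hy => ?_, fun y => ?_⟩
    · by_contra hne
      have hy0 : y ≠ 0 := fun h => hne fun i => by simp [h]
      have h1 := key y hy0
      rw [hy] at h1
      simp only [inner_zero_left, le_refl, Finset.filter_true, Finset.card_univ] at h1
      nlinarith
    · by_cases hy : y = 0
      · have h2 := eta_nonneg hc hcD
        simp only [hy, Pi.zero_apply, zero_smul, Finset.sum_const_zero, inner_zero_left,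
          lt_self_iff_false, Finset.filter_false, Finset.card_empty, Nat.cast_zero]
        positivity
      · refine le_trans ?_ (key y hy)
        exact_mod_cast Finset.card_le_card fun p hp => by
          simp only [Finset.mem_filter, Finset.mem_univ, true_and] at hp ⊢
          exact hp.le

end Pool.Agent.P.MP_83f3dc_co.KT
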