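import Pool.Agent.P.MP_83f3dc_co.KTConc

set_option autoImplicit false
set_option linter.unusedSectionVars false
set_option linter.unusedVariables false

open MeasureTheory ProbabilityTheory Module Set Filter Topology
open scoped RealInnerProductSpace ENNReal

noncomputable section

namespace Pool.Agent.P.MP_83f3dc_co.KT

theorem tail {Ω : Type} [MeasurableSpace Ω] (μ : Measure Ω) (f : Ω → ℝ) (hf : Measurable f)
    (m v s : ℝ) (hv : 0 < v) (hs : 0 ≤ s)
    (h : ∀ θ : ℝ, 0 ≤ θ → ∫⁻ x, ENNReal.ofReal (Real.exp (θ * f x)) ∂μ ≤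
      ENNReal.ofReal (Real.exp (θ * m + θ ^ 2 * v))) :
    μ {x | m + s ≤ f x} ≤ ENNReal.ofReal (Real.exp (-s ^ 2 / (4 * v))) := by
  set θ : ℝ := s / (2 * v) with hθ
  have hθ0 : 0 ≤ θ := by positivity
  have hmeas : Measurable fun x => ENNReal.ofReal (Real.exp (θ * f x)) := by fun_prop
  have h1 := mul_meas_ge_le_lintegral (μ := μ) hmeas (ENNReal.ofReal (Real.exp (θ * (m + s))))
  have h2 : {x | m + s ≤ f x} ⊆
      {x | ENNReal.ofReal (Real.exp (θ * (m + s))) ≤ ENNReal.ofReal (Real.exp (θ * f x))} := by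
    intro x hx
    exact ENNReal.ofReal_le_ofReal (Real.exp_le_exp.2 (mul_le_mul_of_nonneg_left hx hθ0))
  have h3 : ENNReal.ofReal (Real.exp (θ * (m + s))) * μ {x | m + s ≤ f x} ≤
      ENNReal.ofReal (Real.exp (θ * m + θ ^ 2 * v)) :=
    ((mul_le_mul_right (measure_mono h2) _).trans h1).trans (h θ hθ0)
  have h4 : ENNReal.ofReal (Real.exp (θ * m + θ ^ 2 * v)) =
      ENNReal.ofReal (Real.exp (θ * (m + s))) * ENNReal.ofReal (Real.exp (-s ^ 2 / (4 * v))) := by
    rw [← ENNReal.ofReal_mul (Real.exp_pos _).le, ← Real.exp_add]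
    congr 2
    rw [hθ]
    field_simp
    ring
  rw [h4] at h3
  exact (ENNReal.mul_le_mul_iff_right (by simp [Real.exp_pos]) ENNReal.ofReal_ne_top).1 h3

theorem norm_tail (n : ℕ) (s : ℝ) (hs : 0 ≤ s) :
    stdGaussian (E n) {x | √(n : ℝ) + s ≤ ‖x‖} ≤ ENNReal.ofReal (Real.exp (-s ^ 2 / 4)) := by
  have hint : ∫ x, ‖x‖ ∂(stdGaussian (E n)) ≤ √(n : ℝ) := by
    have h1 : Integrable (fun x : E n => ‖x‖) (stdGaussian (E n)) := by
      simpa using integrable_norm_pow (V := E n) 1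
    have h2 : Integrable (fun x : E n => ‖x‖ ^ 2) (stdGaussian (E n)) := integrable_norm_pow 2
    have h3 : ∫ x, ‖x‖ ^ 2 ∂(stdGaussian (E n)) = n := by
      rw [integral_norm_sq]; simp
    set A : ℝ := ∫ x, ‖x‖ ∂(stdGaussian (E n)) with hA
    have h4 : ∫ x, (2 * A * ‖x‖ - A ^ 2) ∂(stdGaussian (E n)) ≤
        ∫ x, ‖x‖ ^ 2 ∂(stdGaussian (E n)) := by
      refine integral_mono ((h1.const_mul _).sub (integrable_const _)) h2 fun x => ?_
      nlinarith [sq_nonneg (‖x‖ - A)]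
    rw [integral_sub (h1.const_mul _) (integrable_const _), integral_const_mul, h3] at h4
    simp only [integral_const, probReal_univ, smul_eq_mul, one_mul] at h4
    refine Real.le_sqrt_of_sq_le ?_
    rw [← hA] at h4
    nlinarith
  have := tail (stdGaussian (E n)) (fun x : E n => ‖x‖) measurable_norm (√(n : ℝ)) 1 s one_pos hs
    (fun θ hθ => by
      refine (conc (fun x : E n => ‖x‖) 1 zero_le_one
        (fun x y => by simpa using abs_norm_sub_norm_le x y) θ).trans ?_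
      refine ENNReal.ofReal_le_ofReal (Real.exp_le_exp.2 ?_)
      have := mul_le_mul_of_nonneg_left hint hθ
      linarith)
  simpa using this

/-- a bound on a net of the unit sphere bounds the operator norm -/
theorem op_of_net {c D : ℕ} (G : Fin c → E D) (F : Finset (E c)) (ρ R : ℝ) (hρ : ρ ≤ 1 / 2)
    (hR : 0 ≤ R) (hF : ∀ y : E c, ‖y‖ = 1 → ∃ y' ∈ F, ‖y - y'‖ ≤ ρ)
    (hG : ∀ y ∈ F, ‖∑ a, y a • G a‖ ≤ R) (y : E c) : ‖∑ a, y a • G a‖ ≤ 2 * R * ‖y‖ := by
  let T0 : E c →ₗ[ℝ] E D :=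
    { toFun := fun y => ∑ a, y a • G a
      map_add' := fun x y => by
        simp only [PiLp.add_apply, add_smul, Finset.sum_add_distrib]
      map_smul' := fun t x => by
        simp only [PiLp.smul_apply, smul_eq_mul, RingHom.id_apply, Finset.smul_sum, mul_smul] }
  let T : E c →L[ℝ] E D := LinearMap.toContinuousLinearMap T0
  have hT : ∀ y : E c, T y = ∑ a, y a • G a := fun _ => rfl
  have h1 : ‖T‖ ≤ R + ‖T‖ / 2 := by
    refine ContinuousLinearMap.opNorm_le_of_unit_norm (by positivity) fun x hx => ?_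
    obtain ⟨y', hy', hd⟩ := hF x hx
    have h2 : T x = T y' + T (x - y') := by rw [map_sub]; abel
    have h3 : ‖T y'‖ ≤ R := by rw [hT]; exact hG y' hy'
    have h4 : ‖T (x - y')‖ ≤ ‖T‖ * (1 / 2) :=
      (T.le_opNorm _).trans (mul_le_mul_of_nonneg_left (hd.trans hρ) (norm_nonneg _))
    rw [h2]
    linarith [norm_add_le (T y') (T (x - y'))]
  rw [← hT]
  exact (T.le_opNorm y).trans (mul_le_mul_of_nonneg_right (by linarith) (norm_nonneg _))

end Pool.Agent.P.MP_83f3dc_co.KT
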