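import Pool.Agent.P.MP_83f3dc_co.KTMulti
import Pool.Agent.P.MP_83f3dc_co.KTTail
import Pool.Agent.P.MP_83f3dc_co.KTNet

set_option autoImplicit false
set_option linter.unusedSectionVars false
set_option linter.unusedVariables false

open MeasureTheory ProbabilityTheory Module Set Filter Topology
open scoped RealInnerProductSpace ENNReal

noncomputable section

namespace Pool.Agent.P.MP_83f3dc_co.KT

theorem coreP_lam {D : ℕ} (hD : 0 < D) {ι : Type} [Fintype ι] (e : ι → E D)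
    (he : ∀ z, ∑ p, ⟪z, e p⟫ ^ 2 ≤ 3 * (Fintype.card ι : ℝ) / D * ‖z‖ ^ 2) (z : E D) :
    (Fintype.card ι : ℝ) * ∑ p, ⟪z, e p⟫ ^ 2 ≤ ((Fintype.card ι : ℝ) * √(3 / D)) ^ 2 * ‖z‖ ^ 2 := by
  have hD' : (0 : ℝ) < D := by exact_mod_cast hD
  rw [mul_pow, Real.sq_sqrt (by positivity)]
  refine (mul_le_mul_of_nonneg_left (he z) (Nat.cast_nonneg _)).trans (le_of_eq ?_)
  ring

theorem coreP_tau {L : ℕ} {τ : ℝ} (hτ : τ * √2 ^ L = 1) : 0 < τ ∧ τ ≤ 1 := by
  have h1 : (1 : ℝ) ≤ √2 ^ L := one_le_pow₀ (Real.one_le_sqrt.2 (by norm_num))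
  have h2 : 0 < τ := by
    by_contra h
    nlinarith
  exact ⟨h2, by nlinarith⟩

theorem coreP_cont {D : ℕ} {ι : Type} [Fintype ι] (e : ι → E D) (τ : ℝ) :
    Continuous fun z : E D => ∑ p, ramp τ ⟪z, e p⟫ := by
  unfold ramp
  fun_prop

theorem psi_tail {D : ℕ} (hD : 0 < D) {ι : Type} [Fintype ι] (hn : 0 < Fintype.card ι)
    (e : ι → E D) (he1 : ∀ p, ‖e p‖ = 1)
    (he : ∀ z, ∑ p, ⟪z, e p⟫ ^ 2 ≤ 3 * (Fintype.card ι : ℝ) / D * ‖z‖ ^ 2)
    (L : ℕ) (τ W : ℝ) (hτ : τ * √2 ^ L = 1) (hW : 0 ≤ W) :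
    stdGaussian (E D) {z | (Fintype.card ι : ℝ) * (1 / 2 + τ + √(12 * ((L : ℝ) + 1) * W / D))
      ≤ ∑ p, ramp τ ⟪z, e p⟫} ≤ ENNReal.ofReal (Real.exp (-W)) := by
  have hD' : (0 : ℝ) < D := by exact_mod_cast hD
  have hn' : (0 : ℝ) < Fintype.card ι := by exact_mod_cast hn
  obtain ⟨t0, -⟩ := coreP_tau hτ
  have h := tail (stdGaussian (E D)) (fun z => ∑ p, ramp τ ⟪z, e p⟫) (coreP_cont e τ).measurable
    ((Fintype.card ι : ℝ) * (1 / 2 + τ)) (((L : ℝ) + 1) * ((Fintype.card ι : ℝ) * √(3 / D)) ^ 2)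
    ((Fintype.card ι : ℝ) * √(12 * ((L : ℝ) + 1) * W / D)) (by positivity) (by positivity)
    fun θ hθ => by
      have h1 := multi e he1 _ (by positivity) (coreP_lam hD e he) (ramp τ) (ramp_nonneg τ)
        (ramp_le_one τ) τ t0 (ramp_lip t0) θ L 0
      simp only [hτ, one_smul, zero_add, inner_zero_left, one_mul] at h1
      refine h1.trans (ENNReal.ofReal_le_ofReal (Real.exp_le_exp.2 ?_))
      rw [Finset.sum_const, Finset.card_univ, nsmul_eq_mul]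
      have h2 := mul_le_mul_of_nonneg_left (mul_le_mul_of_nonneg_left (ramp_int t0) hn'.le) hθ
      linarith
  have e1 : -((Fintype.card ι : ℝ) * √(12 * ((L : ℝ) + 1) * W / D)) ^ 2 /
      (4 * (((L : ℝ) + 1) * ((Fintype.card ι : ℝ) * √(3 / D)) ^ 2)) = -W := by
    rw [mul_pow, mul_pow, Real.sq_sqrt (by positivity), Real.sq_sqrt (by positivity)]
    field_simp
    ring
  rw [e1, ← mul_add] at h
  exact h

theorem coreP {D c : ℕ} (hD : 0 < D) {ι : Type} [Fintype ι] (hn : 0 < Fintype.card ι)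
    (e : ι → E D) (he1 : ∀ p, ‖e p‖ = 1)
    (he : ∀ z, ∑ p, ⟪z, e p⟫ ^ 2 ≤ 3 * (Fintype.card ι : ℝ) / D * ‖z‖ ^ 2)
    (L : ℕ) (τ W : ℝ) (hτ : τ * √2 ^ L = 1) (hW : c * Real.log (1 + 4 / τ ^ 2) + 2 ≤ W) :
    ∃ G : Fin c → E D, ∀ y : E c, ‖y‖ = 1 → ∑ p, ramp τ ⟪∑ a, y a • G a, e p⟫ ≤
      (Fintype.card ι : ℝ) *
        (1 / 2 + (τ + √(12 * ((L : ℝ) + 1) * W / D) + √3 * τ * (1 + 2 * √(W / D)))) := by
  have hD' : (0 : ℝ) < D := by exact_mod_cast hD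
  have hn' : (0 : ℝ) < Fintype.card ι := by exact_mod_cast hn
  obtain ⟨t0, t1⟩ := coreP_tau hτ
  have hb : (1 : ℝ) ≤ 1 + 4 / τ ^ 2 := le_add_of_nonneg_right (by positivity)
  have hl : 0 ≤ c * Real.log (1 + 4 / τ ^ 2) := mul_nonneg (Nat.cast_nonneg _) (Real.log_nonneg hb)
  have hW0 : 0 ≤ W := by linarith
  obtain ⟨F, F1, F2, F3⟩ := net {y : E c | ‖y‖ = 1} (fun x hx => le_of_eq hx) (τ ^ 2 / 2)
    (by positivity)
  rw [finrank_euclideanSpace_fin, show 2 / (τ ^ 2 / 2) = 4 / τ ^ 2 by field_simp; norm_num] at F2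
  let A1 : Set (E D) := {z | (Fintype.card ι : ℝ) * (1 / 2 + τ + √(12 * ((L : ℝ) + 1) * W / D))
      ≤ ∑ p, ramp τ ⟪z, e p⟫}
  let A2 : Set (E D) := {z | √(D : ℝ) + 2 * √W ≤ ‖z‖}
  have m1 : MeasurableSet A1 := measurableSet_le measurable_const (coreP_cont e τ).measurable
  have m2 : MeasurableSet A2 := measurableSet_le measurable_const measurable_norm
  have a1 : stdGaussian (E D) A1 ≤ ENNReal.ofReal (Real.exp (-W)) :=
    psi_tail hD hn e he1 he L τ W hτ hW0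
  have a2 : stdGaussian (E D) A2 ≤ ENNReal.ofReal (Real.exp (-W)) := by
    have := norm_tail D (2 * √W) (by positivity)
    rwa [mul_pow, Real.sq_sqrt hW0, show -(2 ^ 2 * W) / 4 = -W by ring] at this
  have a3 : stdGaussian (E D) (A1 ∪ A2) ≤ ENNReal.ofReal (2 * Real.exp (-W)) := by
    rw [two_mul, ENNReal.ofReal_add (Real.exp_pos _).le (Real.exp_pos _).le]
    exact (measure_union_le _ _).trans (add_le_add a1 a2)
  let μ : Measure (Fin c → E D) := Measure.pi fun _ : Fin c => stdGaussian (E D)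
  let B : Set (Fin c → E D) := ⋃ y ∈ F, (fun G : Fin c → E D => ∑ a, y a • G a) ⁻¹' (A1 ∪ A2)
  have hB : μ B < 1 := by
    refine (measure_biUnion_finset_le _ _).trans_lt ?_
    refine (Finset.sum_le_card_nsmul F _ (ENNReal.ofReal (2 * Real.exp (-W))) fun y hy => ?_).trans_lt ?_
    · rw [(mp_comb y (F1 y hy)).measure_preimage (m1.union m2).nullMeasurableSet]
      exact a3
    · rw [nsmul_eq_mul, ← ENNReal.ofReal_natCast, ← ENNReal.ofReal_mul (Nat.cast_nonneg _),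
        ENNReal.ofReal_lt_one]
      have b1 : (1 + 4 / τ ^ 2) ^ c = Real.exp (c * Real.log (1 + 4 / τ ^ 2)) := by
        rw [Real.exp_nat_mul, Real.exp_log (by linarith)]
      have b2 : (F.card : ℝ) * Real.exp (-W) ≤ Real.exp (-2) := by
        refine (mul_le_mul_of_nonneg_right F2 (Real.exp_pos _).le).trans ?_
        rw [b1, ← Real.exp_add]
        exact Real.exp_le_exp.2 (by linarith)
      have b3 : Real.exp (-2) < 1 / 2 := by
        have b4 := Real.add_one_le_exp (2 : ℝ)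
        have b5 : Real.exp (-2) * Real.exp 2 = 1 := by rw [← Real.exp_add]; simp
        nlinarith [Real.exp_pos (-2)]
      linarith
  obtain ⟨G, hG⟩ : ∃ G, G ∉ B := by
    by_contra hc
    have : B = univ := eq_univ_of_forall fun G => by_contra fun h => hc ⟨G, h⟩
    rw [this, measure_univ] at hB
    exact lt_irrefl _ hB
  have hG' : ∀ y ∈ F, ∑ a, y a • G a ∉ A1 ∧ ∑ a, y a • G a ∉ A2 := fun y hy =>
    ⟨fun h => hG (mem_iUnion₂.2 ⟨y, hy, Or.inl h⟩), fun h => hG (mem_iUnion₂.2 ⟨y, hy, Or.inr h⟩)⟩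
  have hop := op_of_net G F (τ ^ 2 / 2) (√(D : ℝ) + 2 * √W) (by nlinarith) (by positivity)
    (fun y hy => F3 y hy) fun y hy => (not_le.1 (hG' y hy).2).le
  refine ⟨G, fun y hy => ?_⟩
  obtain ⟨y', h1, h2⟩ := F3 y hy
  have c1 : ∑ p, ramp τ ⟪∑ a, y' a • G a, e p⟫ ≤ _ := (not_le.1 (hG' y' h1).1).le
  have c2 := sum_lip e _ (by positivity) (coreP_lam hD e he) (ramp τ) τ⁻¹ (by positivity)
    (ramp_lip t0) (∑ a, y a • G a) (∑ a, y' a • G a)
  have c3 : ∑ a, y a • G a - ∑ a, y' a • G a = ∑ a, (y - y') a • G a := by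
    rw [← Finset.sum_sub_distrib]
    exact Finset.sum_congr rfl fun a _ => by rw [PiLp.sub_apply, sub_smul]
  have c4 : ‖∑ a, y a • G a - ∑ a, y' a • G a‖ ≤ 2 * (√(D : ℝ) + 2 * √W) * (τ ^ 2 / 2) := by
    rw [c3]
    exact (hop _).trans (mul_le_mul_of_nonneg_left h2 (by positivity))
  have c5 : τ⁻¹ * ((Fintype.card ι : ℝ) * √(3 / D)) * (2 * (√(D : ℝ) + 2 * √W) * (τ ^ 2 / 2)) =
      (Fintype.card ι : ℝ) * (√3 * τ * (1 + 2 * √(W / D))) := by
    have := Real.sqrt_pos.2 hD'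
    rw [Real.sqrt_div (by norm_num), Real.sqrt_div hW0]
    field_simp
  have c6 := (le_abs_self _).trans (c2.trans (mul_le_mul_of_nonneg_left c4 (by positivity)))
  rw [c5] at c6
  linarith

end Pool.Agent.P.MP_83f3dc_co.KT
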