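import Pool.Agent.P.MP_83f3dc_co.KTG

set_option autoImplicit false
set_option linter.unusedSectionVars false
set_option linter.unusedVariables false

open MeasureTheory ProbabilityTheory Module Set Filter Topology
open scoped RealInnerProductSpace ENNReal

noncomputable section

namespace Pool.Agent.P.MP_83f3dc_co.KT

theorem measurable_sign : Measurable Real.sign := by
  unfold Real.sign
  refine Measurable.ite (measurableSet_lt measurable_id measurable_const) measurable_const ?_
  exact Measurable.ite (measurableSet_lt measurable_const measurable_id) measurable_const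
    measurable_const

theorem abs_sign_le (x : ℝ) : |Real.sign x| ≤ 1 := by
  rcases Real.sign_apply_eq x with h | h | h <;> rw [h] <;> norm_num

/-- a multiple of the Dawson function -/
def Dw (s : ℝ) : ℝ := ∫ x, Real.sign x * Real.sin (s * x) ∂(gaussianReal 0 1)

theorem Dw_le_one (s : ℝ) : |Dw s| ≤ 1 := by
  have h := norm_integral_le_of_norm_le_const (μ := gaussianReal 0 1)
    (f := fun x => Real.sign x * Real.sin (s * x)) (C := 1) (Eventually.of_forall fun x => by
      rw [Real.norm_eq_abs, abs_mul]
      exact mul_le_one₀ (abs_sign_le x) (abs_nonneg _) (Real.abs_sin_le_one _))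
  simpa [Dw, Real.norm_eq_abs] using h

theorem daw_sign_sin (s x : ℝ) : Real.sign x * Real.sin (s * x) = Real.sin (s * |x|) := by
  rcases lt_trichotomy x 0 with h | h | h
  · rw [Real.sign_of_neg h, abs_of_neg h, mul_neg, Real.sin_neg]; ring
  · subst h; simp
  · rw [Real.sign_of_pos h, abs_of_pos h, one_mul]

theorem Dw_eq (s : ℝ) :
    Dw s = 2 * (√(2 * Real.pi))⁻¹ * ∫ x in Ioi (0 : ℝ), Real.sin (s * x) * Real.exp (-x ^ 2 / 2) := by
  unfold Dw
  rw [integral_gaussianReal_eq_integral_smul one_ne_zero]
  have e : ∀ x : ℝ, gaussianPDFReal 0 1 x • (Real.sign x * Real.sin (s * x)) =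
      (√(2 * Real.pi))⁻¹ * (fun y : ℝ => Real.sin (s * y) * Real.exp (-y ^ 2 / 2)) |x| := by
    intro x
    rw [daw_sign_sin, smul_eq_mul, gaussianPDFReal]
    simp only [NNReal.coe_one, mul_one, sub_zero, sq_abs]
    ring
  simp_rw [e]
  rw [integral_const_mul,
    integral_comp_abs (f := fun y : ℝ => Real.sin (s * y) * Real.exp (-y ^ 2 / 2))]
  ring

end Pool.Agent.P.MP_83f3dc_co.KT
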