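import Pool.Agent.P.MP_83f3dc_co.KTDaw

set_option autoImplicit false
set_option linter.unusedSectionVars false
set_option linter.unusedVariables false

open MeasureTheory ProbabilityTheory Module Set Filter Topology
open scoped RealInnerProductSpace ENNReal

noncomputable section

namespace Pool.Agent.P.MP_83f3dc_co.KT

theorem daw2_int (k : ℕ) :
    IntegrableOn (fun x : ℝ => x ^ k * Real.exp (-x ^ 2 / 2)) (Ioi 0) := by
  have h := integrableOn_rpow_mul_exp_neg_mul_sq (b := 1 / 2) (by norm_num) (s := k)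
    (by linarith [Nat.cast_nonneg (α := ℝ) k])
  refine h.congr_fun (fun x _ => ?_) measurableSet_Ioi
  simp only [Real.rpow_natCast]
  rw [show -(1 / 2) * x ^ 2 = -x ^ 2 / 2 by ring]

theorem daw2_bd (k : ℕ) {a : ℝ → ℝ} (ha : Continuous a) (hb : ∀ x, |a x| ≤ 1) :
    IntegrableOn (fun x : ℝ => a x * (x ^ k * Real.exp (-x ^ 2 / 2))) (Ioi 0) :=
  (daw2_int k).bdd_mul ha.aestronglyMeasurable (Eventually.of_forall hb)

theorem daw2_ftc {f f' : ℝ → ℝ} (h : ∀ x, HasDerivAt f (f' x) x) (h1 : IntegrableOn f' (Ioi 0))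
    (h2 : IntegrableOn f (Ioi 0)) : ∫ x in Ioi 0, f' x = -f 0 := by
  rw [integral_Ioi_of_hasDerivAt_of_tendsto' (fun x _ => h x) h1
    (tendsto_zero_of_hasDerivAt_of_integrableOn_Ioi (fun x _ => h x) h1 h2), zero_sub]

theorem daw2_der (x : ℝ) : HasDerivAt (fun x : ℝ => Real.exp (-x ^ 2 / 2))
    (Real.exp (-x ^ 2 / 2) * (-(2 * x) / 2)) x := by
  simpa using (((hasDerivAt_pow 2 x).fun_neg).div_const 2).exp

theorem daw2_sin (s : ℝ) (k : ℕ) :
    IntegrableOn (fun x : ℝ => Real.sin (s * x) * (x ^ k * Real.exp (-x ^ 2 / 2))) (Ioi 0) :=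
  daw2_bd k (by fun_prop) fun _ => Real.abs_sin_le_one _

theorem daw2_cos (s : ℝ) (k : ℕ) :
    IntegrableOn (fun x : ℝ => Real.cos (s * x) * (x ^ k * Real.exp (-x ^ 2 / 2))) (Ioi 0) :=
  daw2_bd k (by fun_prop) fun _ => Real.abs_cos_le_one _

theorem daw2_one (s : ℝ) :
    s * (∫ x in Ioi (0 : ℝ), Real.sin (s * x) * (x ^ 0 * Real.exp (-x ^ 2 / 2))) +
      ∫ x in Ioi (0 : ℝ), Real.cos (s * x) * (x ^ 1 * Real.exp (-x ^ 2 / 2)) = 1 := by
  rw [← integral_const_mul, ← integral_add ((daw2_sin s 0).const_mul s) (daw2_cos s 1)]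
  refine (daw2_ftc (f := fun x => -(Real.cos (s * x) * (x ^ 0 * Real.exp (-x ^ 2 / 2))))
    (fun x => ?_) (((daw2_sin s 0).const_mul s).add (daw2_cos s 1)) (daw2_cos s 0).neg).trans
    (by simp)
  simp only [pow_zero, one_mul]
  exact (((hasDerivAt_id' x).const_mul s).cos.fun_mul (daw2_der x)).fun_neg.congr_deriv
    (by rw [Pi.add_apply]; ring)

theorem daw2_two (s : ℝ) {a a' : ℝ → ℝ} (ha : ∀ x, HasDerivAt a (s * a' x) x) (h0 : Continuous a)
    (h0' : Continuous a') (h1 : ∀ x, |a x| ≤ 1) (h1' : ∀ x, |a' x| ≤ 1) :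
    s * (∫ x in Ioi (0 : ℝ), a' x * (x ^ 1 * Real.exp (-x ^ 2 / 2))) +
      ((∫ x in Ioi (0 : ℝ), a x * (x ^ 0 * Real.exp (-x ^ 2 / 2))) -
        ∫ x in Ioi (0 : ℝ), a x * (x ^ 2 * Real.exp (-x ^ 2 / 2))) = 0 := by
  have i1 := (daw2_bd 1 h0' h1').const_mul s
  have i2 := (daw2_bd 0 h0 h1).sub (daw2_bd 2 h0 h1)
  rw [← integral_const_mul, ← integral_sub (daw2_bd 0 h0 h1) (daw2_bd 2 h0 h1)]
  refine (integral_add i1 i2).symm.trans ((daw2_ftc
    (f := fun x => a x * (x ^ 1 * Real.exp (-x ^ 2 / 2))) (fun x => ?_) (i1.add i2)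
    (daw2_bd 1 h0 h1)).trans (by simp))
  simp only [pow_one]
  exact ((ha x).fun_mul ((hasDerivAt_id' x).fun_mul (daw2_der x))).congr_deriv (by simp; ring)

theorem daw2_abs (k : ℕ) {a : ℝ → ℝ} (hb : ∀ x, |a x| ≤ 1) :
    |∫ x in Ioi (0 : ℝ), a x * (x ^ k * Real.exp (-x ^ 2 / 2))| ≤
      ∫ x in Ioi (0 : ℝ), x ^ k * Real.exp (-x ^ 2 / 2) := by
  rw [← Real.norm_eq_abs]
  refine norm_integral_le_of_norm_le (daw2_int k)
    ((ae_restrict_mem measurableSet_Ioi).mono fun x (hx : 0 < x) => ?_)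
  rw [norm_mul, Real.norm_of_nonneg (show 0 ≤ x ^ k * Real.exp (-x ^ 2 / 2) by positivity)]
  exact mul_le_of_le_one_left (by positivity) (hb x)

theorem daw2_eq (s : ℝ) : Dw s = 2 * (√(2 * Real.pi))⁻¹ *
    ∫ x in Ioi (0 : ℝ), Real.sin (s * x) * (x ^ 0 * Real.exp (-x ^ 2 / 2)) := by
  simp only [pow_zero, one_mul, Dw_eq]

theorem daw2_c : 2 ≤ √(2 * Real.pi) ∧ √(2 * Real.pi) ≤ 3 :=
  ⟨Real.le_sqrt_of_sq_le (by linarith [Real.pi_gt_three]),
    Real.sqrt_le_iff.2 ⟨by norm_num, by linarith [Real.pi_lt_four]⟩⟩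

theorem Dw_le (s : ℝ) (hs : s ≠ 0) : |Dw s| ≤ 2 / |s| := by
  have h1 := daw2_one s
  have h2 := daw2_one 0
  have h3 := daw2_abs 1 (a := fun x => Real.cos (s * x)) fun _ => Real.abs_cos_le_one _
  simp only [zero_mul, Real.cos_zero, one_mul, zero_add] at h2
  rw [h2] at h3
  have h4 : 2 * (√(2 * Real.pi))⁻¹ ≤ 1 := by
    rw [← div_eq_mul_inv, div_le_one (by positivity)]; exact daw2_c.1
  rw [le_div_iff₀ (abs_pos.2 hs), daw2_eq, abs_mul, mul_assoc, ← abs_mul, mul_comm _ s,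
    eq_sub_of_add_eq h1, abs_of_nonneg (by positivity)]
  refine (mul_le_of_le_one_left (abs_nonneg _) h4).trans ((abs_sub _ _).trans ?_)
  rw [abs_one]
  linarith

theorem le_Dw (s : ℝ) (hs : 6 ≤ s) : 1 / (3 * s) ≤ Dw s := by
  have h1 := daw2_one s
  have h2 := daw2_two s (a := fun x => Real.sin (s * x)) (a' := fun x => Real.cos (s * x))
    (fun x => ((hasDerivAt_id' x).const_mul s).sin.congr_deriv (by ring)) (by fun_prop)
    (by fun_prop) (fun _ => Real.abs_sin_le_one _) fun _ => Real.abs_cos_le_one _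
  have h3 := daw2_two 0 (a := fun _ => 1) (a' := fun _ => 0)
    (fun x => (hasDerivAt_const x _).congr_deriv (by ring)) continuous_const continuous_const
    (by simp) (by simp)
  have h4 := abs_le.1 (daw2_abs 0 (a := fun x => Real.sin (s * x)) fun _ => Real.abs_sin_le_one _)
  have h5 := abs_le.1 (daw2_abs 2 (a := fun x => Real.sin (s * x)) fun _ => Real.abs_sin_le_one _)
  have h6 : ∫ x in Ioi (0 : ℝ), x ^ 0 * Real.exp (-x ^ 2 / 2) = √(2 * Real.pi) / 2 := by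
    rw [show 2 * Real.pi = Real.pi / (1 / 2) by ring, ← integral_gaussian_Ioi]
    refine setIntegral_congr_fun measurableSet_Ioi fun x _ => ?_
    simp only [pow_zero, one_mul]
    rw [show -(1 / 2) * x ^ 2 = -x ^ 2 / 2 by ring]
  simp only [one_mul, zero_mul, zero_add] at h3
  obtain ⟨c1, c2⟩ := daw2_c
  rw [daw2_eq, mul_right_comm, ← div_eq_mul_inv, div_le_div_iff₀ (by positivity) (by positivity)]
  generalize √(2 * Real.pi) = c at *
  generalize ∫ x in Ioi (0 : ℝ), Real.sin (s * x) * (x ^ 0 * Real.exp (-x ^ 2 / 2)) = I at *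
  have h7 : s - c ≤ s * (s * I) := by rw [eq_sub_of_add_eq h1, mul_sub]; linarith
  refine le_of_mul_le_mul_left ?_ (show 0 < s by linarith)
  nlinarith

end Pool.Agent.P.MP_83f3dc_co.KT
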