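import Pool.Agent.P.MP_83f3dc_co.Defs
import Pool.Agent.P.MP_83f3dc_co.Gale

set_option autoImplicit false

open Module Submodule

namespace Pool.Agent.P.MP_83f3dc_co

lemma exists_sub {W : Type} [AddCommGroup W] [Module ℝ W] (V : Submodule ℝ W) {m : ℕ}
    (h : m ≤ finrank ℝ V) : ∃ V' ≤ V, finrank ℝ V' = m := by
  obtain ⟨f, hf⟩ := exists_linearIndependent_of_le_finrank h
  have hf' : LinearIndependent ℝ (V.subtype ∘ f) := hf.map' V.subtype (ker_subtype V)
  refine ⟨span ℝ (Set.range (V.subtype ∘ f)), span_le.2 ?_, ?_⟩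
  · rintro _ ⟨i, rfl⟩
    exact (f i).2
  · rw [finrank_span_eq_card hf', Fintype.card_fin]

lemma flat_of_subspace {E : Type} [NormedAddCommGroup E] [NormedSpace ℝ E] [FiniteDimensional ℝ E]
    (X : Finset E) (k : ℕ) (hk : k ≤ X.card) (V : Submodule ℝ (Dual ℝ E × ℝ))
    (hV : ∀ w ∈ V, ∀ Y ⊆ X, Y.card = k → ∃ y ∈ Y, w.1 y + w.2 ≤ 0) :
    ∃ L : AffineSubspace ℝ E, (L : Set E).Nonempty ∧
      finrank ℝ V + finrank ℝ L.direction = finrank ℝ E ∧
        ∀ Y ⊆ X, Y.card = k → ((L : Set E) ∩ convexHull ℝ (Y : Set E)).Nonempty := by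
  obtain ⟨Y₀, hY₀X, hY₀⟩ := Finset.exists_subset_card_eq hk
  have hconst : ∀ w ∈ V, w.1 = 0 → w = 0 := by
    intro w hw h0
    obtain ⟨y, -, hy⟩ := hV w hw Y₀ hY₀X hY₀
    obtain ⟨y', -, hy'⟩ := hV (-w) (V.neg_mem hw) Y₀ hY₀X hY₀
    simp only [h0, LinearMap.zero_apply, zero_add, Prod.fst_neg, neg_zero, Prod.snd_neg] at hy hy'
    exact Prod.ext h0 (by change w.2 = 0; linarith)
  let π : V →ₗ[ℝ] Dual ℝ E := (LinearMap.fst ℝ _ _).domRestrict V
  have hπ : Function.Injective π := by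
    rw [injective_iff_map_eq_zero]
    intro w hw
    exact Subtype.ext (hconst w.1 w.2 hw)
  let U : Submodule ℝ (Dual ℝ E) := LinearMap.range π
  have hU : finrank ℝ U = finrank ℝ V := LinearMap.finrank_range_of_inj hπ
  have hker : LinearMap.ker π = ⊥ := LinearMap.ker_eq_bot_of_injective hπ
  obtain ⟨ρ, hρ⟩ : ∃ ρ : Dual ℝ E →ₗ[ℝ] V, ρ.comp π = LinearMap.id :=
    LinearMap.exists_leftInverse_of_injective (K := ℝ) (V := V) (V' := Dual ℝ E) π hker
  obtain ⟨x₀, hx₀⟩ := (Module.evalEquiv ℝ E).surjective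
    (-((LinearMap.snd ℝ _ _).comp (V.subtype.comp ρ)))
  have hx : ∀ w ∈ V, w.1 x₀ + w.2 = 0 := by
    intro w hw
    have h1 := LinearMap.congr_fun hx₀ w.1
    have h2 : ρ w.1 = ⟨w, hw⟩ := LinearMap.congr_fun hρ ⟨w, hw⟩
    simp only [evalEquiv_apply, Dual.eval_apply, LinearMap.neg_apply, LinearMap.comp_apply,
      h2, subtype_apply, LinearMap.snd_apply] at h1
    linarith
  refine ⟨AffineSubspace.mk' x₀ U.dualCoannihilator, AffineSubspace.mk'_nonempty _ _, ?_, ?_⟩
  · rw [AffineSubspace.direction_mk', ← hU]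
    exact Subspace.finrank_add_finrank_dualCoannihilator_eq U
  · intro Y hYX hY
    by_contra hcon
    rw [Set.not_nonempty_iff_eq_empty, Set.inter_comm, ← Set.disjoint_iff_inter_eq_empty] at hcon
    obtain ⟨f, u, v, h1, huv, h2⟩ := geometric_hahn_banach_compact_closed (convex_convexHull ℝ _)
      (Y.finite_toSet.isCompact_convexHull ℝ) (AffineSubspace.convex _)
      (AffineSubspace.closed_of_finiteDimensional _) hcon
    have hf : (f : Dual ℝ E) ∈ U := by
      rw [← Subspace.dualCoannihilator_dualAnnihilator_eq (W := U), mem_dualAnnihilator]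
      intro z hz
      by_contra hne
      have hne' : f z ≠ 0 := hne
      have := h2 (((v - f x₀) / f z) • z + x₀) (by
        rw [SetLike.mem_coe, AffineSubspace.mem_mk', vsub_eq_sub, add_sub_cancel_right]
        exact U.dualCoannihilator.smul_mem _ hz)
      rw [map_add, map_smul, smul_eq_mul, div_mul_cancel₀ _ hne'] at this
      linarith
    obtain ⟨w, hw⟩ := hf
    have hw1 : w.1.1 = (f : Dual ℝ E) := hw
    obtain ⟨y, hyY, hy⟩ := hV (-w.1) (V.neg_mem w.2) Y hYX hY
    have h3 := hx w.1 w.2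
    have h4 := h1 y (subset_convexHull ℝ _ hyY)
    have h5 := h2 x₀ (AffineSubspace.self_mem_mk' _ _)
    simp only [Prod.fst_neg, Prod.snd_neg, LinearMap.neg_apply, hw1,
      ContinuousLinearMap.coe_coe] at hy h3
    linarith

lemma finrank_comap_eq {W Z : Type} [AddCommGroup W] [Module ℝ W] [FiniteDimensional ℝ W]
    [AddCommGroup Z] [Module ℝ Z] (ev : W →ₗ[ℝ] Z) (V' : Submodule ℝ Z)
    (hle : V' ≤ LinearMap.range ev) :
    finrank ℝ V' + finrank ℝ (LinearMap.ker ev) = finrank ℝ (V'.comap ev) := by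
  have h3 := LinearMap.finrank_range_add_finrank_ker (ev.domRestrict (V'.comap ev))
  rwa [LinearMap.range_domRestrict, Submodule.map_comap_eq_of_le hle,
    LinearMap.ker_domRestrict,
    (Submodule.comapSubtypeEquivOfLe (LinearMap.ker_le_comap ev)).finrank_eq] at h3

lemma key (lam q : ℕ) (hlam : 1 ≤ lam) : ∃ N : ℕ, ∀ (W : Type) [AddCommGroup W] [Module ℝ W]
    [FiniteDimensional ℝ W] (ι : Type) [Fintype ι] (ev : W →ₗ[ℝ] (ι → ℝ)),
    N ≤ Fintype.card ι → Fintype.card ι + 1 = finrank ℝ W + 2 * q →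
    ∃ V : Submodule ℝ W, lam ≤ finrank ℝ V ∧
      ∀ w ∈ V, (Finset.univ.filter fun i : ι => 0 < ev w i).card < lam + q := by
  classical
  choose Nf hNf using fun r => gale (lam - r) (2 * q + r - 1)
  refine ⟨(Finset.range lam).sup Nf, fun W _ _ _ ι _ ev hN hc => ?_⟩
  let _ : LinearOrder ι := LinearOrder.lift' (Fintype.equivFin ι) (Fintype.equivFin ι).injective
  have hrk := LinearMap.finrank_range_add_finrank_ker ev
  obtain ⟨r, hr⟩ : ∃ r, finrank ℝ (LinearMap.ker ev) = r := ⟨_, rfl⟩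
  by_cases hrl : lam ≤ r
  · refine ⟨LinearMap.ker ev, hr ▸ hrl, fun w hw => ?_⟩
    have : ev w = 0 := hw
    simp only [this, Pi.zero_apply, lt_self_iff_false, Finset.filter_false, Finset.card_empty]
    omega
  · push Not at hrl
    have hq := Submodule.finrank_quotient_add_finrank (LinearMap.range ev)
    simp only [Module.finrank_fintype_fun_eq_card] at hq
    obtain ⟨V', hV', hV''⟩ := hNf r ι ((ι → ℝ) ⧸ LinearMap.range ev)
      (fun i => (LinearMap.range ev).mkQ (Pi.single i 1)) Finset.univ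
      ((Finset.le_sup (f := Nf) (Finset.mem_range.2 hrl)).trans hN)
      ((Submodule.finrank_le _).trans (by omega))
    have hle : V' ≤ LinearMap.range ev := by
      intro v hv
      have h1 := (hV'' v hv).1
      simp only [← map_smul, ← map_sum] at h1
      have h2 : ∑ i, v i • (Pi.single i 1 : ι → ℝ) = v := by
        funext i
        simp [Finset.sum_apply, Pi.single_apply]
      rw [h2] at h1
      exact (Submodule.Quotient.mk_eq_zero _).1 h1
    have h3 := finrank_comap_eq ev V' hle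
    refine ⟨V'.comap ev, by omega, fun w hw => ?_⟩
    have h4 := (hV'' _ hw).2
    have h5 : lam - r + (2 * q + r - 1) / 2 < lam + q := by omega
    convert h4.trans_lt h5

theorem lower_gen (lam q : ℕ) (hlam : 1 ≤ lam) : ∃ N : ℕ, ∀ (E : Type) [NormedAddCommGroup E]
    [NormedSpace ℝ E] [FiniteDimensional ℝ E] (X : Finset E), N ≤ X.card → lam ≤ finrank ℝ E →
    X.card = finrank ℝ E + 2 * q → ∃ L : AffineSubspace ℝ E, (L : Set E).Nonempty ∧
      lam + finrank ℝ L.direction = finrank ℝ E ∧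
        ∀ Y ⊆ X, Y.card = lam + q → ((L : Set E) ∩ convexHull ℝ (Y : Set E)).Nonempty := by
  classical
  obtain ⟨N, hN⟩ := key lam q hlam
  refine ⟨N, fun E _ _ _ X hNX hlE hX => ?_⟩
  let ev : (Dual ℝ E × ℝ) →ₗ[ℝ] (X → ℝ) :=
    { toFun := fun w i => w.1 i + w.2
      map_add' := by
        intro w w'
        funext i
        simp only [Prod.fst_add, Prod.snd_add, LinearMap.add_apply, Pi.add_apply]
        ring
      map_smul' := by
        intro c w
        funext i
        simp only [Prod.smul_fst, Prod.smul_snd, LinearMap.smul_apply, smul_eq_mul,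
          RingHom.id_apply, Pi.smul_apply]
        ring }
  have hW : finrank ℝ (Dual ℝ E × ℝ) = finrank ℝ E + 1 := by
    simp [Module.finrank_prod]
  obtain ⟨V, hV, hV'⟩ := hN (Dual ℝ E × ℝ) X ev (by simpa using hNX)
    (by rw [hW, Fintype.card_coe]; omega)
  obtain ⟨V₁, hV₁, hV₁'⟩ := exists_sub V hV
  obtain ⟨L, hL1, hL2, hL3⟩ := flat_of_subspace X (lam + q) (by omega) V₁ (by
    intro w hw Y hYX hY
    by_contra hcon
    push Not at hcon
    have h1 : Y ⊆ (Finset.univ.filter fun i : X => 0 < ev w i).image Subtype.val := by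
      intro y hy
      exact Finset.mem_image.2 ⟨⟨y, hYX hy⟩, Finset.mem_filter.2 ⟨Finset.mem_univ _, hcon y hy⟩, rfl⟩
    have h2 := (Finset.card_le_card h1).trans Finset.card_image_le
    have h3 := hV' w (hV₁ hw)
    omega)
  exact ⟨L, hL1, hV₁' ▸ hL2, hL3⟩

theorem lower (lam q : ℕ) (hlam : 1 ≤ lam) : ∃ j₀ : ℕ, ∀ j, j₀ ≤ j →
    HasTransversal (j + lam) j (lam + q) (j + lam + 2 * q) := by
  obtain ⟨N, hN⟩ := lower_gen lam q hlam
  refine ⟨N, fun j hj X hX => ?_⟩
  obtain ⟨L, h1, h2, h3⟩ := hN _ X (by omega) (by simp) (by simpa using hX)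
  refine ⟨L, h1, ?_, h3⟩
  rw [finrank_euclideanSpace_fin] at h2
  omega

end Pool.Agent.P.MP_83f3dc_co
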