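import Pool.Agent.P.MP_83f3dc_co.KTVec
import Pool.Agent.P.MP_83f3dc_co.Lower

set_option autoImplicit false
set_option linter.unusedSectionVars false
set_option linter.unusedVariables false

open MeasureTheory ProbabilityTheory Module Set Filter Topology
open scoped RealInnerProductSpace ENNReal

noncomputable section

namespace Pool.Agent.P.MP_83f3dc_co.KT

theorem flat_sub {W : Type} [AddCommGroup W] [Module ℝ W] {a c : ℕ} (hc : 1 ≤ c) (hca : c ≤ a)
    {f : Fin a → W} (hf : LinearIndependent ℝ f) {ι : Type} [Fintype ι] (ev : ι → W →ₗ[ℝ] ℝ) :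
    ∃ V : Submodule ℝ W, V ≤ Submodule.span ℝ (Set.range f) ∧ finrank ℝ V = c ∧ ∀ w ∈ V,
      ((Finset.univ.filter fun i => 0 < ev i w).card : ℝ) ≤
        (Fintype.card ι : ℝ) * (1 / 2 + eta a c) := by
  obtain ⟨g, hg, h⟩ := vec hc hca fun i => (WithLp.toLp 2 fun b => ev i (f b) : E a)
  let T : E a →ₗ[ℝ] W :=
    (Fintype.linearCombination ℝ f).comp (WithLp.linearEquiv 2 ℝ (Fin a → ℝ)).toLinearMap
  have hT : ∀ z : E a, T z = ∑ b, z b • f b := fun z => rfl
  have hinj : LinearMap.ker T = ⊥ := LinearMap.ker_eq_bot_of_injective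
    (hf.fintypeLinearCombination_injective.comp (WithLp.linearEquiv 2 ℝ _).injective)
  refine ⟨Submodule.span ℝ (Set.range (T ∘ g)), Submodule.span_le.2 ?_, ?_, fun w hw => ?_⟩
  · rintro _ ⟨i, rfl⟩
    rw [Function.comp_apply, hT]
    exact Submodule.sum_mem _ fun b _ => Submodule.smul_mem _ _ (Submodule.subset_span ⟨b, rfl⟩)
  · rw [finrank_span_eq_card (hg.linearIndependent.map' T hinj), Fintype.card_fin]
  · obtain ⟨y, rfl⟩ := (Submodule.mem_span_range_iff_exists_fun ℝ).1 hw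
    have e : ∀ (z : E a) (i : ι), ⟪z, (WithLp.toLp 2 fun b => ev i (f b) : E a)⟫ = ev i (T z) :=
      fun z i => by
        rw [hT, map_sum, PiLp.inner_apply]
        refine Finset.sum_congr rfl fun b _ => ?_
        rw [map_smul, smul_eq_mul, real_inner_comm]
        simp
    have e' : ∑ i, y i • (T ∘ g) i = T (∑ i, y i • g i) := by
      simp only [map_sum, map_smul, Function.comp_apply]
    rw [e']
    simpa only [e] using h y

theorem flat_ker {W : Type} [AddCommGroup W] [Module ℝ W] [FiniteDimensional ℝ W] {a c : ℕ}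
    (hc : 1 ≤ c) (hca : c ≤ a) {κ : Type} [Fintype κ] (ev₀ : κ → W →ₗ[ℝ] ℝ)
    (h : Fintype.card κ + a ≤ finrank ℝ W) {ι : Type} [Fintype ι] (ev : ι → W →ₗ[ℝ] ℝ) :
    ∃ V : Submodule ℝ W, finrank ℝ V = c ∧ ∀ w ∈ V, (∀ x, ev₀ x w = 0) ∧
      ((Finset.univ.filter fun i => 0 < ev i w).card : ℝ) ≤
        (Fintype.card ι : ℝ) * (1 / 2 + eta a c) := by
  have h1 := LinearMap.finrank_range_add_finrank_ker (LinearMap.pi ev₀)
  have h2 := Submodule.finrank_le (LinearMap.range (LinearMap.pi ev₀))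
  rw [Module.finrank_fintype_fun_eq_card] at h2
  obtain ⟨f, hf⟩ := exists_linearIndependent_of_le_finrank (R := ℝ)
    (M := LinearMap.ker (LinearMap.pi ev₀)) (n := a) (by omega)
  obtain ⟨V, hV1, hV2, hV3⟩ := flat_sub hc hca (hf.map' _ (Submodule.ker_subtype _)) ev
  have hV0 : V ≤ LinearMap.ker (LinearMap.pi ev₀) :=
    hV1.trans (Submodule.span_le.2 (by
      rintro _ ⟨i, rfl⟩
      exact (f i).2))
  exact ⟨V, hV2, fun w hw => ⟨congrFun (hV0 hw), hV3 w hw⟩⟩

theorem flat_gen {F : Type} [NormedAddCommGroup F] [NormedSpace ℝ F] [FiniteDimensional ℝ F]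
    {d c k a m : ℕ} (hd : finrank ℝ F = d) (hc : 1 ≤ c) (hca : c ≤ a) (had : a ≤ d + 1)
    (hcd : c ≤ d) (hm : (m : ℝ) * (1 / 2 + eta a c) < k) (X : Finset F)
    (hX : X.card = d + 1 - a + m) : ∃ L : AffineSubspace ℝ F, (L : Set F).Nonempty ∧
      finrank ℝ L.direction = d - c ∧
        ∀ Y ⊆ X, Y.card = k → ((L : Set F) ∩ convexHull ℝ (Y : Set F)).Nonempty := by
  classical
  by_cases hk : X.card < k
  · obtain ⟨U, -, hU⟩ := exists_sub (⊤ : Submodule ℝ F) (m := d - c)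
      (by rw [finrank_top, hd]; omega)
    refine ⟨AffineSubspace.mk' 0 U, AffineSubspace.mk'_nonempty _ _,
      by rw [AffineSubspace.direction_mk', hU], fun Y hY hYk => ?_⟩
    have := Finset.card_le_card hY
    omega
  obtain ⟨S, hSX, hS⟩ := Finset.exists_subset_card_eq (s := X) (n := d + 1 - a) (by omega)
  let ev : F → (Dual ℝ F × ℝ) →ₗ[ℝ] ℝ := fun x =>
    (Dual.eval ℝ F x).comp (LinearMap.fst ℝ _ _) + LinearMap.snd ℝ _ _
  have hW : finrank ℝ (Dual ℝ F × ℝ) = d + 1 := by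
    simp [Module.finrank_prod, hd]
  obtain ⟨V, hV2, hV3⟩ := flat_ker hc hca (fun x : S => ev x)
    (by rw [Fintype.card_coe, hS, hW]; omega) fun x : (X \ S : Finset F) => ev x
  obtain ⟨L, hL1, hL2, hL3⟩ := flat_of_subspace X k (by omega) V (by
    intro w hw Y hYX hY
    by_contra hcon
    push Not at hcon
    have h3 : Y ⊆ (Finset.univ.filter fun i : (X \ S : Finset F) => 0 < ev i w).image
        Subtype.val := fun y hy => Finset.mem_image.2 ⟨⟨y, Finset.mem_sdiff.2 ⟨hYX hy, fun hyS =>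
          (hcon y hy).ne' ((hV3 w hw).1 ⟨y, hyS⟩)⟩⟩,
        Finset.mem_filter.2 ⟨Finset.mem_univ _, hcon y hy⟩, rfl⟩
    have h4 := (Finset.card_le_card h3).trans Finset.card_image_le
    have h5 := (hV3 w hw).2
    rw [Fintype.card_coe, Finset.card_sdiff_of_subset hSX, hX, hS, Nat.add_sub_cancel_left] at h5
    rw [hY] at h4
    exact absurd ((Nat.cast_le.2 h4).trans h5) hm.not_ge)
  exact ⟨L, hL1, by omega, hL3⟩

theorem has_of (d c k a m : ℕ) (hc : 1 ≤ c) (hca : c ≤ a) (had : a ≤ d + 1) (hcd : c ≤ d)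
    (hm : (m : ℝ) * (1 / 2 + eta a c) < k) : HasTransversal d (d - c) k (d + 1 - a + m) :=
  fun X hX => flat_gen finrank_euclideanSpace_fin hc hca had hcd hm X hX

end Pool.Agent.P.MP_83f3dc_co.KT
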