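import Pool.Agent.P.MP_83f3dc_co.KTG

set_option autoImplicit false
set_option linter.unusedSectionVars false
set_option linter.unusedVariables false

open MeasureTheory ProbabilityTheory Module Set Filter Topology
open scoped RealInnerProductSpace ENNReal

noncomputable section

namespace Pool.Agent.P.MP_83f3dc_co.KT

theorem forster_had {D : ℕ} (w : Fin D → E D) :
    (EuclideanSpace.basisFun (Fin D) ℝ).toBasis.det w ^ 2 ≤ ∏ b, ‖w b‖ ^ 2 := by
  have : Fact (finrank ℝ (E D) = D) := ⟨by simp⟩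
  have h := (EuclideanSpace.basisFun (Fin D) ℝ).toBasis.orientation.abs_volumeForm_apply_le w
  rw [Orientation.volumeForm_robust' _ (EuclideanSpace.basisFun (Fin D) ℝ)] at h
  rw [Finset.prod_pow, ← sq_abs]
  exact pow_le_pow_left₀ (abs_nonneg _) h 2

theorem forster_det_ne {D : ℕ} {w : Fin D → E D} (hw : LinearIndependent ℝ w) :
    (EuclideanSpace.basisFun (Fin D) ℝ).toBasis.det w ≠ 0 :=
  ((EuclideanSpace.basisFun (Fin D) ℝ).toBasis.is_basis_iff_det.1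
    ⟨hw, hw.span_eq_top_of_card_eq_finrank' (by simp)⟩).ne_zero

theorem forster_low {D : ℕ} {ι : Type} [Fintype ι] (v : ι → Fin D → E D) (B : E D →ₗ[ℝ] E D) :
    (LinearMap.det B ^ 2) ^ Fintype.card ι *
      ∏ i, (EuclideanSpace.basisFun (Fin D) ℝ).toBasis.det (v i) ^ 2 ≤
      ∏ i, ∏ b, ‖B (v i b)‖ ^ 2 := by
  rw [← Finset.card_univ, ← Finset.prod_const, ← Finset.prod_mul_distrib]
  refine Finset.prod_le_prod (fun i _ => by positivity) fun i _ => ?_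
  rw [← mul_pow, ← Basis.det_comp]
  exact forster_had _

theorem forster_norm {D : ℕ} {z : E D} (hz : ‖z‖ = 1) (w : E D) (hw : w ≠ 0) :
    ‖LinearMap.transvection (innerₗ (E D) z) (-(1 / 2 : ℝ) • z) w‖ ^ 2 ≤
      ‖w‖ ^ 2 * Real.exp (-(3 / 4 * ⟪z, ‖w‖⁻¹ • w⟫ ^ 2)) := by
  have h0 : ‖w‖ ≠ 0 := norm_ne_zero_iff.2 hw
  have h1 : ‖LinearMap.transvection (innerₗ (E D) z) (-(1 / 2 : ℝ) • z) w‖ ^ 2 =
      ‖w‖ ^ 2 * (-(3 / 4 * ⟪z, ‖w‖⁻¹ • w⟫ ^ 2) + 1) := by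
    rw [LinearMap.transvection.apply, innerₗ_apply_apply, smul_smul, norm_add_sq_real,
      real_inner_smul_right, real_inner_smul_right, norm_smul, hz, mul_one, Real.norm_eq_abs,
      sq_abs, real_inner_comm z w]
    field_simp
    ring
  rw [h1]
  exact mul_le_mul_of_nonneg_left (Real.add_one_le_exp _) (sq_nonneg _)

/-- cheap Forster position -/
theorem forster {D : ℕ} {ι : Type} [Fintype ι] (v : ι → Fin D → E D)
    (hv : ∀ i, LinearIndependent ℝ (v i)) :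
    ∃ B : E D ≃ₗ[ℝ] E D, ∀ z : E D,
      ∑ i, ∑ b, ⟪z, ‖B (v i b)‖⁻¹ • B (v i b)⟫ ^ 2 ≤ 3 * (Fintype.card ι : ℝ) * ‖z‖ ^ 2 := by
  rcases isEmpty_or_nonempty ι with hι | hι
  · exact ⟨LinearEquiv.refl _ _, fun z => by simp⟩
  have hN : (1 : ℝ) ≤ Fintype.card ι := by exact_mod_cast Fintype.card_pos
  set N := Fintype.card ι with hNd
  set m : ℝ := ∏ i, (EuclideanSpace.basisFun (Fin D) ℝ).toBasis.det (v i) ^ 2 with hm
  have hm0 : 0 < m :=
    Finset.prod_pos fun i _ => sq_pos_of_ne_zero (forster_det_ne (hv i))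
  set S : Set ℝ := {x | ∃ B : E D →ₗ[ℝ] E D, LinearMap.det B ≠ 0 ∧
    x = (∏ i, ∏ b, ‖B (v i b)‖ ^ 2) / (LinearMap.det B ^ 2) ^ N} with hS
  have hlow : ∀ x ∈ S, m ≤ x := by
    rintro _ ⟨B, hB, rfl⟩
    rw [le_div_iff₀ (by positivity), mul_comm]
    exact forster_low v B
  have hne : S.Nonempty := ⟨_, LinearMap.id, by simp, rfl⟩
  have hμ : 0 < sInf S := hm0.trans_le (le_csInf hne hlow)
  obtain ⟨_, ⟨B, hB, rfl⟩, h2⟩ := exists_lt_of_csInf_lt hne (show sInf S < 2 * sInf S by linarith)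
  have hBv : ∀ i b, B (v i b) ≠ 0 := fun i b h =>
    (hv i).ne_zero b ((B.equivOfDetNeZero hB).map_eq_zero_iff.1 h)
  have unit : ∀ z : E D, ‖z‖ = 1 →
      ∑ i, ∑ b, ⟪z, ‖B (v i b)‖⁻¹ • B (v i b)⟫ ^ 2 ≤ 3 * (N : ℝ) := by
    intro z hz
    set R := LinearMap.transvection (innerₗ (E D) z) (-(1 / 2 : ℝ) • z) with hR
    have hdet : LinearMap.det R = 1 / 2 := by
      rw [hR, LinearMap.transvection.det, innerₗ_apply_apply, real_inner_smul_right,
        real_inner_self_eq_norm_sq, hz]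
      norm_num
    have hd : LinearMap.det (R ∘ₗ B) = 1 / 2 * LinearMap.det B := by
      rw [LinearMap.det_comp, hdet]
    have h3 : sInf S ≤ (∏ i, ∏ b, ‖(R ∘ₗ B) (v i b)‖ ^ 2) / (LinearMap.det (R ∘ₗ B) ^ 2) ^ N :=
      csInf_le ⟨m, hlow⟩ ⟨R ∘ₗ B, by rw [hd]; positivity, rfl⟩
    set T : ℝ := ∑ i, ∑ b, ⟪z, ‖B (v i b)‖⁻¹ • B (v i b)⟫ ^ 2 with hT
    have h4 : ∏ i, ∏ b, ‖(R ∘ₗ B) (v i b)‖ ^ 2 ≤
        (∏ i, ∏ b, ‖B (v i b)‖ ^ 2) * Real.exp (-(3 / 4 * T)) := by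
      rw [hT, Finset.mul_sum, ← Finset.sum_neg_distrib, Real.exp_sum, ← Finset.prod_mul_distrib]
      refine Finset.prod_le_prod (fun i _ => Finset.prod_nonneg fun b _ => sq_nonneg _)
        fun i _ => ?_
      rw [Finset.mul_sum, ← Finset.sum_neg_distrib, Real.exp_sum, ← Finset.prod_mul_distrib]
      exact Finset.prod_le_prod (fun b _ => sq_nonneg _) fun b _ => forster_norm hz _ (hBv i b)
    have h5 : sInf S ≤ 2 * sInf S * (4 ^ N * Real.exp (-(3 / 4 * T))) := by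
      refine h3.trans ?_
      calc _ ≤ (∏ i, ∏ b, ‖B (v i b)‖ ^ 2) * Real.exp (-(3 / 4 * T)) /
            (LinearMap.det (R ∘ₗ B) ^ 2) ^ N := 
            div_le_div_of_nonneg_right h4 (pow_nonneg (sq_nonneg _) _)
        _ = (∏ i, ∏ b, ‖B (v i b)‖ ^ 2) / (LinearMap.det B ^ 2) ^ N *
            (4 ^ N * Real.exp (-(3 / 4 * T))) := by
            rw [hd, show (1 / 2 * LinearMap.det B) ^ 2 = LinearMap.det B ^ 2 / 4 by ring, div_pow]
            field_simp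
        _ ≤ _ := mul_le_mul_of_nonneg_right h2.le (by positivity)
    have h6 : 1 ≤ 2 * (4 ^ N * Real.exp (-(3 / 4 * T))) := by
      by_contra h
      nlinarith
    have h7 : (2 : ℝ) * (4 ^ N * Real.exp (-(3 / 4 * T))) =
        Real.exp (Real.log 2 + (N * (2 * Real.log 2) - 3 / 4 * T)) := by
      have e4 : Real.exp (2 * Real.log 2) = 4 := by
        rw [two_mul, Real.exp_add, Real.exp_log two_pos]; norm_num
      rw [Real.exp_add, Real.exp_log two_pos, sub_eq_add_neg, Real.exp_add, Real.exp_nat_mul, e4]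
    rw [h7, Real.one_le_exp_iff] at h6
    have h8 := Real.log_two_lt_d9
    nlinarith
  refine ⟨B.equivOfDetNeZero hB, fun z => ?_⟩
  change ∑ i, ∑ b, ⟪z, ‖B (v i b)‖⁻¹ • B (v i b)⟫ ^ 2 ≤ _
  rcases eq_or_ne z 0 with rfl | hz
  · simp
  have h0 : ‖z‖ ≠ 0 := norm_ne_zero_iff.2 hz
  have h1 := unit (‖z‖⁻¹ • z) (by rw [norm_smul, norm_inv, norm_norm, inv_mul_cancel₀ h0])
  have h3 : ∑ i, ∑ b, ⟪z, ‖B (v i b)‖⁻¹ • B (v i b)⟫ ^ 2 =
      (∑ i, ∑ b, ⟪‖z‖⁻¹ • z, ‖B (v i b)‖⁻¹ • B (v i b)⟫ ^ 2) * ‖z‖ ^ 2 := by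
    rw [Finset.sum_mul]
    refine Finset.sum_congr rfl fun i _ => ?_
    rw [Finset.sum_mul]
    refine Finset.sum_congr rfl fun b _ => ?_
    rw [real_inner_smul_left]
    field_simp
  rw [h3]
  exact mul_le_mul_of_nonneg_right h1 (sq_nonneg _)

end Pool.Agent.P.MP_83f3dc_co.KT
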