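import Mathlib

/-! Gaussian toolkit (copied from the landed files of MP_181257_gt and MP_467638_an). -/

set_option autoImplicit false
set_option linter.unusedSectionVars false

open MeasureTheory ProbabilityTheory Module Set Filter Topology
open scoped RealInnerProductSpace ENNReal

noncomputable section

namespace Pool.Agent.P.MP_83f3dc_co.KT

/-- Euclidean space -/
abbrev E (n : ℕ) : Type := EuclideanSpace ℝ (Fin n)

section alg

variable {V : Type} [NormedAddCommGroup V] [InnerProductSpace ℝ V]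

/-- orthogonal projection onto the complement of `a` (the identity for `a = 0`) -/
def pr (a v : V) : V := v - (⟪a, v⟫ / ‖a‖ ^ 2) • a

/-- `pr a` as a continuous linear map -/
def prL (a : V) : V →L[ℝ] V :=
  ContinuousLinearMap.id ℝ V - (‖a‖ ^ 2)⁻¹ • (innerSL ℝ a).smulRight a

@[simp] theorem prL_apply (a v : V) : prL a v = pr a v := by
  simp [prL, pr, smul_smul, div_eq_inv_mul]

theorem pr_add (a v w : V) : pr a (v + w) = pr a v + pr a w := by
  simpa using (prL a).map_add v w

theorem pr_sub (a v w : V) : pr a (v - w) = pr a v - pr a w := by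
  simpa using (prL a).map_sub v w

theorem pr_smul (a : V) (c : ℝ) (v : V) : pr a (c • v) = c • pr a v := by
  rw [← prL_apply, ← prL_apply, map_smul]

@[simp] theorem pr_zero_left (v : V) : pr (0 : V) v = v := by simp [pr]

@[simp] theorem pr_zero_right (a : V) : pr a 0 = 0 := by simp [pr]

theorem inner_pr_self (a v : V) : ⟪a, pr a v⟫ = 0 := by
  by_cases ha : a = 0
  · simp [ha]
  · have : ‖a‖ ≠ 0 := norm_ne_zero_iff.2 ha
    simp only [pr, inner_sub_right, real_inner_smul_right, real_inner_self_eq_norm_sq]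
    field_simp
    ring

theorem pr_of_inner_eq_zero {a v : V} (h : ⟪a, v⟫ = 0) : pr a v = v := by simp [pr, h]

@[simp] theorem pr_self (a : V) : pr a a = 0 := by
  by_cases ha : a = 0
  · simp [ha]
  · have : ‖a‖ ≠ 0 := norm_ne_zero_iff.2 ha
    simp only [pr, real_inner_self_eq_norm_sq]
    rw [div_self (pow_ne_zero 2 this), one_smul, sub_self]

@[simp] theorem pr_pr (a v : V) : pr a (pr a v) = pr a v := pr_of_inner_eq_zero (inner_pr_self a v)

theorem inner_pr_comm (a v w : V) : ⟪pr a v, w⟫ = ⟪v, pr a w⟫ := by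
  simp only [pr, inner_sub_left, inner_sub_right, real_inner_smul_left, real_inner_smul_right,
    real_inner_comm a v]
  ring

theorem pr_smul_left {t : ℝ} (ht : t ≠ 0) (a v : V) : pr (t • a) v = pr a v := by
  by_cases ha : a = 0
  · simp [ha]
  · have : ‖a‖ ≠ 0 := norm_ne_zero_iff.2 ha
    simp only [pr, real_inner_smul_left, norm_smul, smul_smul, mul_pow, Real.norm_eq_abs, sq_abs]
    congr 2
    field_simp

theorem norm_sq_pr (a v : V) : ‖pr a v‖ ^ 2 = ‖v‖ ^ 2 - ⟪a, v⟫ ^ 2 / ‖a‖ ^ 2 := by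
  rw [← real_inner_self_eq_norm_sq, inner_pr_comm, pr_pr]
  simp only [pr, inner_sub_right, real_inner_smul_right, real_inner_self_eq_norm_sq,
    real_inner_comm a v]
  ring

theorem norm_pr_le (a v : V) : ‖pr a v‖ ≤ ‖v‖ := by
  refine abs_le_of_sq_le_sq' ?_ (norm_nonneg _) |>.2
  rw [norm_sq_pr]
  have : 0 ≤ ⟪a, v⟫ ^ 2 / ‖a‖ ^ 2 := by positivity
  linarith

/-- volume of the parallelepiped spanned by a family of vectors -/
def gv {k : ℕ} (v : Fin k → V) : ℝ := √((Matrix.gram ℝ v).det)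

theorem gv_nonneg {k : ℕ} (v : Fin k → V) : 0 ≤ gv v := Real.sqrt_nonneg _

theorem gv_sq {k : ℕ} (v : Fin k → V) : gv v ^ 2 = (Matrix.gram ℝ v).det :=
  Real.sq_sqrt (Matrix.posSemidef_gram ℝ v).det_nonneg

@[simp] theorem gv_fin_zero (v : Fin 0 → V) : gv v = 1 := by simp [gv]

theorem gv_cons {k : ℕ} (a : V) (v : Fin k → V) :
    gv (Fin.cons a v : Fin (k + 1) → V) = ‖a‖ * gv (fun j => pr a (v j)) := by
  set w : Fin (k + 1) → V := Fin.cons a fun j => pr a (v j) with hw
  set c : Fin (k + 1) → ℝ := Fin.cons 0 fun j => ⟪a, v j⟫ / ‖a‖ ^ 2 with hc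
  have hv : ∀ i, (Fin.cons a v : Fin (k + 1) → V) i = w i + c i • w 0 := by
    intro i
    refine Fin.cases ?_ (fun j => ?_) i
    · simp [hw, hc]
    · simp [hw, hc, pr]
  set M : Matrix (Fin (k + 1)) (Fin (k + 1)) ℝ :=
    Matrix.of fun i j => ⟪w i, (Fin.cons a v : Fin (k + 1) → V) j⟫ with hM
  have h1 : (Matrix.gram ℝ (Fin.cons a v : Fin (k + 1) → V)).det = M.det := by
    refine Matrix.det_eq_of_forall_row_eq_smul_add_const c 0 (by simp [hc]) fun i j => ?_
    rw [Matrix.gram_apply, hv i, inner_add_left, real_inner_smul_left]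
    simp [hM]
  have h2 : M.det = (Matrix.gram ℝ w).det := by
    rw [← Matrix.det_transpose M, ← Matrix.det_transpose (Matrix.gram ℝ w)]
    refine Matrix.det_eq_of_forall_row_eq_smul_add_const c 0 (by simp [hc]) fun i j => ?_
    simp only [Matrix.transpose_apply, hM, Matrix.of_apply, Matrix.gram_apply]
    rw [hv i, inner_add_right, real_inner_smul_right]
  have h3 : (Matrix.gram ℝ w).det = ‖a‖ ^ 2 * (Matrix.gram ℝ fun j => pr a (v j)).det := by
    rw [Matrix.det_succ_row_zero, Fin.sum_univ_succ]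
    have : ∀ j : Fin k, Matrix.gram ℝ w 0 j.succ = 0 := fun j => by
      simp [hw, inner_pr_self]
    simp only [this, mul_zero, zero_mul, Finset.sum_const_zero, add_zero]
    have e : (Matrix.gram ℝ w).submatrix Fin.succ (Fin.succAbove 0)
        = Matrix.gram ℝ fun j => pr a (v j) := by
      ext i j
      simp [hw]
    rw [e]
    simp [hw]
  unfold gv
  rw [h1, h2, h3, Real.sqrt_mul (by positivity), Real.sqrt_sq (norm_nonneg _)]

theorem gv_succ {k : ℕ} (v : Fin (k + 1) → V) :
    gv v = ‖v 0‖ * gv (fun j : Fin k => pr (v 0) (v j.succ)) := by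
  conv_lhs => rw [← Fin.cons_self_tail v]
  exact gv_cons _ _

theorem gv_le_prod : ∀ {k : ℕ} (v : Fin k → V), gv v ≤ ∏ j, ‖v j‖
  | 0, v => by simp
  | k + 1, v => by
    rw [gv_succ, Fin.prod_univ_succ]
    refine mul_le_mul_of_nonneg_left ((gv_le_prod _).trans ?_) (norm_nonneg _)
    exact Finset.prod_le_prod (fun _ _ => norm_nonneg _) fun j _ => norm_pr_le _ _

end alg

variable {V : Type} [NormedAddCommGroup V] [InnerProductSpace ℝ V] [FiniteDimensional ℝ V]
  [MeasurableSpace V] [BorelSpace V]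

@[fun_prop] theorem measurable_pr {X : Type*} [MeasurableSpace X] {a v : X → V}
    (ha : Measurable a) (hv : Measurable v) : Measurable fun x => pr (a x) (v x) := by
  unfold pr
  fun_prop

theorem integrable_norm_pow (p : ℕ) : Integrable (fun x : V => ‖x‖ ^ p) (stdGaussian V) := by
  rcases Nat.eq_zero_or_pos p with rfl | hp
  · simp
  · exact (IsGaussian.memLp_id (stdGaussian V) p (by simp)).integrable_norm_pow hp.ne'

section two
variable {H₁ H₂ : Type} [NormedAddCommGroup H₁] [InnerProductSpace ℝ H₁] [FiniteDimensional ℝ H₁]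
  [MeasurableSpace H₁] [BorelSpace H₁] [NormedAddCommGroup H₂] [InnerProductSpace ℝ H₂]
  [FiniteDimensional ℝ H₂] [MeasurableSpace H₂] [BorelSpace H₂]

/-- image of the standard Gaussian under a map with isometric adjoint -/
theorem mp_coiso (T : H₁ → V) (hT : Measurable T) (S : V → H₁)
    (hS : ∀ z t, ⟪T z, t⟫ = ⟪z, S t⟫) (hc : ∀ t, ‖S t‖ = ‖t‖) :
    MeasurePreserving T (stdGaussian H₁) (stdGaussian V) := by
  refine ⟨hT, ?_⟩
  have : IsProbabilityMeasure ((stdGaussian H₁).map T) :=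
    Measure.isProbabilityMeasure_map hT.aemeasurable
  apply Measure.ext_of_charFun
  ext t
  rw [charFun_stdGaussian, charFun_apply, integral_map hT.aemeasurable (by fun_prop)]
  simp_rw [hS]
  rw [← charFun_apply, charFun_stdGaussian, hc]

theorem mp_split (T₁ : H₁ → V) (T₂ : H₂ → V) (h₁ : Measurable T₁) (h₂ : Measurable T₂)
    (S₁ : V → H₁) (S₂ : V → H₂)
    (hs₁ : ∀ z t, ⟪T₁ z, t⟫ = ⟪z, S₁ t⟫) (hs₂ : ∀ z t, ⟪T₂ z, t⟫ = ⟪z, S₂ t⟫)
    (hn : ∀ t, ‖S₁ t‖ ^ 2 + ‖S₂ t‖ ^ 2 = ‖t‖ ^ 2) :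
    MeasurePreserving (fun q : H₁ × H₂ => T₁ q.1 + T₂ q.2)
      ((stdGaussian H₁).prod (stdGaussian H₂)) (stdGaussian V) := by
  have hm : Measurable (fun q : H₁ × H₂ => T₁ q.1 + T₂ q.2) := by fun_prop
  refine ⟨hm, ?_⟩
  have : IsProbabilityMeasure (((stdGaussian H₁).prod (stdGaussian H₂)).map
      (fun q => T₁ q.1 + T₂ q.2)) := Measure.isProbabilityMeasure_map hm.aemeasurable
  apply Measure.ext_of_charFun
  ext t
  rw [charFun_stdGaussian, charFun_apply, integral_map hm.aemeasurable (by fun_prop)]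
  simp_rw [inner_add_left, hs₁, hs₂, Complex.ofReal_add, add_mul, Complex.exp_add]
  rw [integral_prod_mul (fun z : H₁ => Complex.exp ((⟪z, S₁ t⟫ : ℝ) * Complex.I))
    (fun z : H₂ => Complex.exp ((⟪z, S₂ t⟫ : ℝ) * Complex.I)), ← charFun_apply, ← charFun_apply,
    charFun_stdGaussian, charFun_stdGaussian, ← Complex.exp_add]
  congr 1
  have := hn t
  have h2 : ((‖t‖ : ℂ)) ^ 2 = (‖S₁ t‖ : ℂ) ^ 2 + (‖S₂ t‖ : ℂ) ^ 2 := by
    exact_mod_cast this.symm
  rw [h2]; ring

end two

theorem stdGaussian_real : stdGaussian ℝ = gaussianReal 0 1 := by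
  apply Measure.ext_of_charFun
  ext t
  rw [charFun_stdGaussian, charFun_gaussianReal]
  congr 1
  have : ((‖t‖ : ℝ) : ℂ) ^ 2 = (t : ℂ) ^ 2 := by
    rw [← Complex.ofReal_pow, Real.norm_eq_abs, sq_abs, Complex.ofReal_pow]
  rw [this]; simp; ring

/-- splitting along a unit vector, ambient form -/
theorem mp_pr_split {u : V} (hu : ‖u‖ = 1) :
    MeasurePreserving (fun q : V × ℝ => pr u q.1 + q.2 • u)
      ((stdGaussian V).prod (gaussianReal 0 1)) (stdGaussian V) := by
  rw [← stdGaussian_real]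
  refine mp_split (pr u) (fun t : ℝ => t • u) (by fun_prop) (by fun_prop) (pr u)
    (fun t => ⟪u, t⟫) (inner_pr_comm u) (fun z t => ?_) (fun t => ?_)
  · rw [real_inner_smul_left]; simp [mul_comm]
  · rw [norm_sq_pr, hu, Real.norm_eq_abs, sq_abs]; ring

/-- the projection to a hyperplane, as an element of the hyperplane -/
def prS (a v : V) : (ℝ ∙ a)ᗮ :=
  ⟨pr a v, Submodule.mem_orthogonal_singleton_iff_inner_right.2 (inner_pr_self a v)⟩

@[simp] theorem coe_prS (a v : V) : (prS a v : V) = pr a v := rfl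

theorem mp_prS (a : V) : MeasurePreserving (prS a) (stdGaussian V) (stdGaussian (ℝ ∙ a)ᗮ) := by
  refine mp_coiso (prS a) (Measurable.subtype_mk (by fun_prop)) (fun z => (z : V))
    (fun z t => ?_) (fun t => rfl)
  have ht : ⟪a, (t : V)⟫ = 0 := Submodule.mem_orthogonal_singleton_iff_inner_right.1 t.2
  rw [Submodule.coe_inner, coe_prS, inner_pr_comm, pr_of_inner_eq_zero ht]

theorem finrank_orth {a : V} (ha : a ≠ 0) : finrank ℝ (ℝ ∙ a)ᗮ + 1 = finrank ℝ V := by
  have h := Submodule.finrank_add_finrank_orthogonal (ℝ ∙ a)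
  rw [finrank_span_singleton ha] at h
  omega

/-- `Fin.cons` as a measure preserving map -/
theorem mp_cons {k : ℕ} {A : Type} [MeasurableSpace A] (μ : Measure A) [SigmaFinite μ] :
    MeasurePreserving (fun q : A × (Fin k → A) => (Fin.cons q.1 q.2 : Fin (k + 1) → A))
      (μ.prod (Measure.pi fun _ => μ)) (Measure.pi fun _ => μ) := by
  have h1 := (measurePreserving_piFinSuccAbove (fun _ : Fin (k + 1) => μ) 0).symm
  have h2 : (fun q : A × (Fin k → A) => (Fin.cons q.1 q.2 : Fin (k + 1) → A))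
      = ⇑(MeasurableEquiv.piFinSuccAbove (fun _ : Fin (k + 1) => A) 0).symm := by
    funext q
    simp [MeasurableEquiv.piFinSuccAbove, Fin.insertNthEquiv]
  rw [h2]
  exact h1

theorem stdGaussian_eq_withDensity : stdGaussian V = (volume : Measure V).withDensity fun x =>
    ENNReal.ofReal ((2 * Real.pi) ^ (-(finrank ℝ V : ℝ) / 2) * Real.exp (-‖x‖ ^ 2 / 2)) := by
  set c : ℝ := (2 * Real.pi) ^ (-(finrank ℝ V : ℝ) / 2) with hc
  have hpi := Real.pi_pos
  have hc0 : 0 < c := Real.rpow_pos_of_pos (by positivity) _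
  have hb : 0 < ((1 / 2 : ℂ)).re := by norm_num
  have hint : Integrable (fun x : V => c * Real.exp (-‖x‖ ^ 2 / 2)) volume := by
    have h := (GaussianFourier.integrable_cexp_neg_mul_sq_norm_add hb 0 (0 : V)).norm
    refine (h.congr (ae_of_all _ fun x => ?_)).const_mul c
    simp only [zero_mul, add_zero, Complex.norm_exp]
    congr 1
    have : -(1 / 2 : ℂ) * (‖x‖ : ℂ) ^ 2 = ((-‖x‖ ^ 2 / 2 : ℝ) : ℂ) := by push_cast; ring
    rw [this, Complex.ofReal_re]
  have : IsFiniteMeasure ((volume : Measure V).withDensity fun x =>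
      ENNReal.ofReal (c * Real.exp (-‖x‖ ^ 2 / 2))) :=
    isFiniteMeasure_withDensity_ofReal hint.2
  apply Measure.ext_of_charFun
  ext t
  rw [charFun_stdGaussian, charFun_apply, integral_withDensity_eq_integral_toReal_smul
    (by fun_prop) (ae_of_all _ fun x => ENNReal.ofReal_lt_top)]
  have h1 : ∀ x : V, (ENNReal.ofReal (c * Real.exp (-‖x‖ ^ 2 / 2))).toReal •
      Complex.exp ((⟪x, t⟫ : ℝ) * Complex.I)
      = (c : ℂ) * Complex.exp (-(1 / 2 : ℂ) * (‖x‖ : ℂ) ^ 2 + Complex.I * (⟪t, x⟫ : ℝ)) := by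
    intro x
    rw [ENNReal.toReal_ofReal (by positivity), Complex.real_smul, Complex.exp_add,
      real_inner_comm x t]
    push_cast
    rw [mul_assoc]
    congr 3 <;> ring
  simp_rw [h1]
  rw [integral_const_mul, GaussianFourier.integral_cexp_neg_mul_sq_norm_add hb, ← mul_assoc]
  have h2 : (c : ℂ) * ((Real.pi : ℂ) / (1 / 2)) ^ ((finrank ℝ V : ℂ) / 2) = 1 := by
    have e1 : ((Real.pi : ℂ) / (1 / 2)) = ((2 * Real.pi : ℝ) : ℂ) := by push_cast; ring
    have e2 : ((finrank ℝ V : ℂ) / 2) = (((finrank ℝ V : ℝ) / 2 : ℝ) : ℂ) := by push_cast; ring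
    rw [e1, e2, ← Complex.ofReal_cpow (by positivity), ← Complex.ofReal_mul, hc,
      ← Real.rpow_add (by positivity)]
    have : -(finrank ℝ V : ℝ) / 2 + (finrank ℝ V : ℝ) / 2 = 0 := by ring
    rw [this]; simp
  rw [h2, one_mul, Complex.I_sq]
  congr 1
  ring

theorem integral_norm_sq : ∫ x, ‖x‖ ^ 2 ∂(stdGaussian V) = finrank ℝ V := by
  set b := stdOrthonormalBasis ℝ V
  have h0 : ∫ x, x ^ 2 ∂(gaussianReal 0 1) = 1 := by
    have h := variance_id_gaussianReal (μ := 0) (v := 1)
    rw [variance_eq_integral (by fun_prop)] at h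
    simpa using h
  have hi : Integrable (fun x : ℝ => x ^ 2) (gaussianReal 0 1) := by
    have := (memLp_id_gaussianReal (μ := 0) (v := 1) 2).integrable_sq
    simpa using this
  have hm : ∀ i, MeasurePreserving (fun x : V => ⟪x, b i⟫) (stdGaussian V) (gaussianReal 0 1) := by
    intro i
    rw [← stdGaussian_real]
    exact mp_coiso (fun x : V => ⟪x, b i⟫) (by fun_prop) (fun t : ℝ => t • b i)
      (by intro z t; simp [inner_smul_right])
      (by intro t; simp [norm_smul, b.orthonormal.1 i])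
  have h1 : ∀ x : V, ‖x‖ ^ 2 = ∑ i, ⟪x, b i⟫ ^ 2 := fun x => (b.sum_sq_inner_left x).symm
  simp_rw [h1]
  have h3 : ∀ i, Integrable (fun x : V => ⟪x, b i⟫ ^ 2) (stdGaussian V) := fun i =>
    (hm i).integrable_comp_of_integrable hi
  rw [integral_finsetSum _ (fun i _ => h3 i)]
  have h2 : ∀ i, ∫ x, ⟪x, b i⟫ ^ 2 ∂(stdGaussian V) = 1 := by
    intro i
    rw [← h0, ← (hm i).map_eq, integral_map (hm i).measurable.aemeasurable (by fun_prop)]
  simp [h2]

theorem map_pi_sum {ι : Type*} [Fintype ι] (T : ι → V → V) (hT : ∀ i, Measurable (T i))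
    (S : ι → V → V) (c : ℝ) (hS : ∀ i z t, ⟪T i z, t⟫ = ⟪z, S i t⟫)
    (hc : ∀ t, ∑ i, ‖S i t‖ ^ 2 = c ^ 2 * ‖t‖ ^ 2) :
    (Measure.pi (fun _ : ι => stdGaussian V)).map (fun a => ∑ i, T i (a i))
      = (stdGaussian V).map (c • ·) := by
  have hm : Measurable (fun a : ι → V => ∑ i, T i (a i)) :=
    Finset.measurable_sum _ (fun i _ => (hT i).comp (measurable_pi_apply i))
  have : IsProbabilityMeasure ((Measure.pi (fun _ : ι => stdGaussian V)).map
      (fun a => ∑ i, T i (a i))) := Measure.isProbabilityMeasure_map hm.aemeasurable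
  have : IsProbabilityMeasure ((stdGaussian V).map (c • ·)) :=
    Measure.isProbabilityMeasure_map (by fun_prop)
  apply Measure.ext_of_charFun
  ext t
  rw [charFun_map_smul, charFun_stdGaussian, charFun_apply, integral_map hm.aemeasurable
    (by fun_prop)]
  simp_rw [sum_inner, hS, Complex.ofReal_sum, Finset.sum_mul, Complex.exp_sum]
  rw [integral_fintype_prod_eq_prod (f := fun i (z : V) =>
    Complex.exp ((⟪z, S i t⟫ : ℝ) * Complex.I))]
  simp_rw [← charFun_apply, charFun_stdGaussian, ← Complex.exp_sum]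
  congr 1
  have h1 : ((‖c • t‖ : ℝ) : ℂ) ^ 2 = ∑ i, ((‖S i t‖ : ℝ) : ℂ) ^ 2 := by
    have := hc t
    rw [← Complex.ofReal_pow, norm_smul, mul_pow, Real.norm_eq_abs, sq_abs, ← this]
    push_cast; rfl
  rw [h1, ← Finset.sum_div, Finset.sum_neg_distrib]

/-- inner product with a unit vector is a standard real Gaussian -/
theorem mp_inner {a : V} (ha : ‖a‖ = 1) :
    MeasurePreserving (fun x : V => ⟪x, a⟫) (stdGaussian V) (gaussianReal 0 1) := by
  rw [← stdGaussian_real]
  exact mp_coiso (fun x : V => ⟪x, a⟫) (by fun_prop) (fun t : ℝ => t • a)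
    (by intro z t; simp [inner_smul_right]) (by intro t; simp [norm_smul, ha])

/-- `a x + b y` is standard when `a ^ 2 + b ^ 2 = 1` -/
theorem mp_two {a b : ℝ} (h : a ^ 2 + b ^ 2 = 1) :
    MeasurePreserving (fun q : V × V => a • q.1 + b • q.2)
      ((stdGaussian V).prod (stdGaussian V)) (stdGaussian V) := by
  refine mp_split (fun x => a • x) (fun x => b • x) (by fun_prop) (by fun_prop) (fun x => a • x)
    (fun x => b • x) (fun z t => ?_) (fun z t => ?_) (fun t => ?_)
  · rw [real_inner_smul_left, real_inner_smul_right]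
  · rw [real_inner_smul_left, real_inner_smul_right]
  · rw [norm_smul, norm_smul, mul_pow, mul_pow, Real.norm_eq_abs, Real.norm_eq_abs, sq_abs, sq_abs,
      ← add_mul, h, one_mul]

/-- a unit combination of independent standard Gaussian vectors is standard -/
theorem mp_comb {c : ℕ} (y : E c) (hy : ‖y‖ = 1) :
    MeasurePreserving (fun G : Fin c → V => ∑ a, y a • G a)
      (Measure.pi fun _ : Fin c => stdGaussian V) (stdGaussian V) := by
  refine ⟨by fun_prop, ?_⟩
  have h := map_pi_sum (V := V) (fun (a : Fin c) (x : V) => y a • x) (fun a => by fun_prop)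
    (fun a x => y a • x) 1
    (fun a z t => by rw [real_inner_smul_left, real_inner_smul_right]) (fun t => by
      have h1 : ∑ a, y a ^ 2 = 1 := by
        have := EuclideanSpace.real_norm_sq_eq y
        rw [hy] at this
        linarith
      simp_rw [norm_smul, mul_pow, Real.norm_eq_abs, sq_abs]
      rw [← Finset.sum_mul, h1]
      simp)
  rw [h]
  simp

end Pool.Agent.P.MP_83f3dc_co.KT
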