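import Pool.Agent.P.MP_83f3dc_co.KTPts
import Pool.Agent.P.MP_83f3dc_co.Defs

set_option autoImplicit false
set_option linter.unusedSectionVars false
set_option linter.unusedVariables false

open MeasureTheory ProbabilityTheory Module Set Filter Topology
open scoped RealInnerProductSpace ENNReal

noncomputable section

namespace Pool.Agent.P.MP_83f3dc_co.KT

theorem geo_sign (z : ℝ) :
    Real.sign z ≤ 2 * (if 0 < z then (1 : ℝ) else 0) + (if z = 0 then (1 : ℝ) else 0) - 1 := by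
  rcases lt_trichotomy z 0 with h | h | h
  · rw [Real.sign_of_neg h, if_neg (not_lt.2 h.le), if_neg h.ne]
    norm_num
  · subst h
    simp
  · rw [Real.sign_of_pos h, if_pos h, if_neg h.ne']
    norm_num

theorem geo_sign_mul (l z : ℝ) (hl : 0 < l) : Real.sign (l * z) = Real.sign z := by
  rcases lt_trichotomy z 0 with h | h | h
  · rw [Real.sign_of_neg h, Real.sign_of_neg (mul_neg_of_pos_of_neg hl h)]
  · subst h
    simp
  · rw [Real.sign_of_pos h, Real.sign_of_pos (mul_pos hl h)]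

theorem not_has {d c j N t k : ℕ} (hd : 0 < d) (hj : j + c ≤ d) (ht : 1 ≤ t)
    (u : Fin N → E (d + 1)) (r S : ℝ) (hr : 0 < r) (hS : 0 < S)
    (hu : ∀ s : Fin N → ℝ, (∀ i, s i = 1 ∨ s i = -1) → ∀ U : Fin N × Fin t → E (d + 1),
      (∀ p, ‖U p - s p.1 • u p.1‖ ≤ r) → ∀ g : Fin c → E (d + 1), Orthonormal ℝ g →
        ∃ y : E c, t * S ≤ ∑ p, Real.sign ⟪∑ a, y a • g a, U p⟫)
    (hk : 2 * (k : ℝ) + N * d ≤ t * (N + S)) : ¬ HasTransversal d j k (N * t) := by
  classical
  intro H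
  obtain ⟨s, lam, x, hs, hlam, hinj, hnear, hzero⟩ := clusters hd u r hr t
  obtain ⟨L, hL, hdim, hmeet⟩ := H (Finset.univ.image x) (by
    rw [Finset.card_image_of_injective _ hinj]
    simp)
  obtain ⟨g, hg, hgL⟩ := frame_of_flat L hL hdim hj
  obtain ⟨y, hy⟩ := hu s hs (fun p => lam p.1 • hom (x p)) hnear g hg
  set f : E (d + 1) := ∑ a, y a • g a with hf
  have hfL : ∀ z ∈ L, ⟪f, hom z⟫ = 0 := by
    intro z hz
    rw [hf, sum_inner]
    refine Finset.sum_eq_zero fun a _ => ?_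
    rw [real_inner_smul_left, hgL a z hz, mul_zero]
  have hy' : (t : ℝ) * S ≤ ∑ p, Real.sign ⟪f, hom (x p)⟫ := by
    refine hy.trans (le_of_eq (Finset.sum_congr rfl fun p _ => ?_))
    rw [real_inner_smul_right, geo_sign_mul _ _ (hlam p.1)]
  have htS : (0 : ℝ) < t * S := mul_pos (by exact_mod_cast ht) hS
  have hne : ∃ a : Fin d, f a.succ ≠ 0 := by
    by_contra hcon
    have hall : ∀ a : Fin d, f a.succ = 0 := fun a => by
      by_contra h
      exact hcon ⟨a, h⟩
    obtain ⟨z, hz⟩ := hL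
    have h0 : f 0 = 0 := by
      have h1 := hfL z hz
      rw [inner_hom] at h1
      simpa [hall] using h1
    have h2 : ∀ p, ⟪f, hom (x p)⟫ = 0 := fun p => by
      rw [inner_hom]
      simp [hall, h0]
    simp [h2] at hy'
    linarith
  have hz : (∑ p : Fin N × Fin t, if ⟪f, hom (x p)⟫ = 0 then (1 : ℝ) else 0) ≤ N * d := by
    rw [Fintype.sum_prod_type]
    calc _ ≤ ∑ _i : Fin N, (d : ℝ) := by
          refine Finset.sum_le_sum fun i _ => ?_
          rw [Finset.sum_boole]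
          exact_mod_cast hzero f hne i
      _ = N * d := by simp
  have hsum : ∑ p, Real.sign ⟪f, hom (x p)⟫ ≤
      2 * ((Finset.univ.filter fun p => 0 < ⟪f, hom (x p)⟫).card : ℝ) +
        (∑ p : Fin N × Fin t, if ⟪f, hom (x p)⟫ = 0 then (1 : ℝ) else 0) - N * t := by
    refine (Finset.sum_le_sum fun p _ => geo_sign _).trans (le_of_eq ?_)
    rw [Finset.sum_sub_distrib, Finset.sum_add_distrib, ← Finset.mul_sum, Finset.sum_boole]
    simp
  have hk' : k ≤ (Finset.univ.filter fun p => 0 < ⟪f, hom (x p)⟫).card := by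
    have h1 : (k : ℝ) ≤ ((Finset.univ.filter fun p => 0 < ⟪f, hom (x p)⟫).card : ℝ) := by
      nlinarith
    exact_mod_cast h1
  obtain ⟨Z, hZ, hZc⟩ := Finset.exists_subset_card_eq hk'
  obtain ⟨z, hzL, hzY⟩ := hmeet (Z.image x) (Finset.image_subset_image (Finset.subset_univ _))
    (by rw [Finset.card_image_of_injective _ hinj, hZc])
  have hpos : z ∈ {w : E d | 0 < ⟪f, hom w⟫} := by
    refine convexHull_min ?_ (convex_pos f) hzY
    intro w hw
    obtain ⟨p, hp, rfl⟩ := Finset.mem_image.1 (Finset.mem_coe.1 hw)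
    exact (Finset.mem_filter.1 (hZ hp)).2
  have h3 : 0 < ⟪f, hom z⟫ := hpos
  rw [hfL z hzL] at h3
  exact lt_irrefl _ h3

end Pool.Agent.P.MP_83f3dc_co.KT
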