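import Pool.Agent.P.MP_83f3dc_co.KTG

set_option autoImplicit false
set_option linter.unusedSectionVars false
set_option linter.unusedVariables false

open MeasureTheory ProbabilityTheory Module Set Filter Topology
open scoped RealInnerProductSpace ENNReal

noncomputable section

namespace Pool.Agent.P.MP_83f3dc_co.KT

variable {V : Type} [NormedAddCommGroup V] [InnerProductSpace ℝ V] [FiniteDimensional ℝ V]
  [MeasurableSpace V] [BorelSpace V]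

/-- coordinates along a family of vectors -/
def Gm {c D : ℕ} (g : Fin c → E D) (u : E D) : E c := WithLp.toLp 2 fun a => ⟪g a, u⟫

theorem Gm_apply {c D : ℕ} (g : Fin c → E D) (u : E D) (a : Fin c) : Gm g u a = ⟪g a, u⟫ := rfl

theorem inner_Gm {c D : ℕ} (g : Fin c → E D) (y : E c) (u : E D) :
    ⟪y, Gm g u⟫ = ⟪∑ a, y a • g a, u⟫ := by
  rw [sum_inner, PiLp.inner_apply]
  refine Finset.sum_congr rfl fun a _ => ?_
  rw [real_inner_smul_left, Gm_apply]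
  simp [mul_comm]

theorem Gm_sub {c D : ℕ} (g : Fin c → E D) (u v : E D) : Gm g (u - v) = Gm g u - Gm g v := by
  ext a
  simp [Gm_apply, inner_sub_right]

theorem Gm_smul {c D : ℕ} (g : Fin c → E D) (r : ℝ) (u : E D) : Gm g (r • u) = r • Gm g u := by
  ext a
  simp [Gm_apply, real_inner_smul_right]

theorem continuous_Gm {c D : ℕ} (g : Fin c → E D) : Continuous (Gm g) := by
  unfold Gm
  fun_prop

theorem norm_Gm_le {c D : ℕ} {g : Fin c → E D} (hg : Orthonormal ℝ g) (u : E D) :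
    ‖Gm g u‖ ≤ ‖u‖ := by
  refine abs_le_of_sq_le_sq' ?_ (norm_nonneg _) |>.2
  rw [EuclideanSpace.real_norm_sq_eq]
  have h := hg.sum_inner_products_le u (s := Finset.univ)
  simpa [Gm_apply] using h

theorem norm_Gm_sub {c D : ℕ} (g g' : Fin c → E D) (ρ : ℝ) (hρ : 0 ≤ ρ)
    (h : ∀ a, ‖g a - g' a‖ ≤ ρ) (u : E D) : ‖Gm g u - Gm g' u‖ ≤ c * ρ * ‖u‖ := by
  refine abs_le_of_sq_le_sq' ?_ (by positivity) |>.2
  rw [EuclideanSpace.real_norm_sq_eq]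
  have h1 : ∀ a, (Gm g u - Gm g' u) a ^ 2 ≤ (ρ * ‖u‖) ^ 2 := fun a => by
    rw [PiLp.sub_apply, Gm_apply, Gm_apply, ← inner_sub_left, ← sq_abs]
    exact pow_le_pow_left₀ (abs_nonneg _) ((abs_real_inner_le_norm _ _).trans
      (mul_le_mul_of_nonneg_right (h a) (norm_nonneg _))) 2
  refine (Finset.sum_le_sum fun a _ => h1 a).trans ?_
  rw [Finset.sum_const, Finset.card_univ, Fintype.card_fin, nsmul_eq_mul, mul_assoc,
    mul_pow (c : ℝ)]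
  refine mul_le_mul_of_nonneg_right ?_ (sq_nonneg _)
  exact_mod_cast Nat.le_self_pow two_ne_zero c

theorem mp_Gm {c D : ℕ} {g : Fin c → E D} (hg : Orthonormal ℝ g) :
    MeasurePreserving (Gm g) (stdGaussian (E D)) (stdGaussian (E c)) := by
  refine mp_coiso (Gm g) (continuous_Gm g).measurable (fun y => ∑ a, y a • g a)
    (fun z t => ?_) fun t => ?_
  · rw [real_inner_comm, inner_Gm, real_inner_comm]
  · refine (pow_left_inj₀ (norm_nonneg _) (norm_nonneg _) two_ne_zero).1 ?_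
    rw [← real_inner_self_eq_norm_sq, hg.inner_sum, EuclideanSpace.real_norm_sq_eq]
    simp [sq]

theorem dir_close {w w' : V} {H x : ℝ} (hH : 0 < H) (hw : 1 / H < ‖w'‖) (hx : x < 1 / H)
    (h : ‖w - w'‖ ≤ x) : w ≠ 0 ∧ ‖‖w‖⁻¹ • w - ‖w'‖⁻¹ • w'‖ ≤ 2 * H * x := by
  have h0 : 0 < ‖w'‖ := (one_div_pos.2 hH).trans hw
  have hx0 : 0 ≤ x := (norm_nonneg _).trans h
  have hw0 : w ≠ 0 := by
    rintro rfl
    rw [zero_sub, norm_neg] at h
    linarith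
  have h1 : 0 < ‖w‖ := norm_pos_iff.2 hw0
  refine ⟨hw0, ?_⟩
  have e : ‖w‖⁻¹ • w - ‖w'‖⁻¹ • w' =
      ‖w'‖⁻¹ • (w - w') + (‖w'‖⁻¹ * ((‖w'‖ - ‖w‖) * ‖w‖⁻¹)) • w := by
    have : ‖w'‖⁻¹ * ((‖w'‖ - ‖w‖) * ‖w‖⁻¹) = ‖w‖⁻¹ - ‖w'‖⁻¹ := by field_simp
    rw [this, smul_sub, sub_smul]
    abel
  have h2 : ‖w'‖⁻¹ ≤ H := by
    rw [inv_le_comm₀ h0 hH, ← one_div]
    exact hw.le
  have h3 : |‖w'‖ - ‖w‖| ≤ x := by
    rw [abs_sub_comm]
    exact (abs_norm_sub_norm_le _ _).trans h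
  have h4 : ‖‖w'‖⁻¹ • (w - w')‖ ≤ H * x := by
    rw [norm_smul, norm_inv, norm_norm]
    exact mul_le_mul h2 h (norm_nonneg _) hH.le
  have h5 : ‖(‖w'‖⁻¹ * ((‖w'‖ - ‖w‖) * ‖w‖⁻¹)) • w‖ ≤ H * x := by
    rw [norm_smul, norm_mul, norm_mul, norm_inv, norm_inv, norm_norm, norm_norm, mul_assoc,
      mul_assoc, inv_mul_cancel₀ h1.ne', mul_one, Real.norm_eq_abs]
    exact mul_le_mul h2 h3 (abs_nonneg _) hH.le
  rw [e]
  exact (norm_add_le _ _).trans (by linarith)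

theorem gm_symm {a b : V} (ha : ‖a‖ = 1) (hb : ‖b‖ = 1) : ‖pr a b‖ = ‖pr b a‖ := by
  refine (pow_left_inj₀ (norm_nonneg _) (norm_nonneg _) two_ne_zero).1 ?_
  rw [norm_sq_pr, norm_sq_pr, ha, hb, real_inner_comm]

theorem dir_sep {w w' : V} {H β s s' : ℝ} (hH : 0 < H) (hβ : 0 ≤ β) (hw : w ≠ 0) (hw' : w' ≠ 0)
    (hwH : ‖w‖ < H) (h : β < ‖pr w' w‖) (hs : s = 1 ∨ s = -1) (hs' : s' = 1 ∨ s' = -1) :
    β / H ≤ ‖pr (‖s' • w'‖⁻¹ • s' • w') (‖s • w‖⁻¹ • s • w)‖ ∧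
      β / H ≤ ‖pr (‖s • w‖⁻¹ • s • w) (‖s' • w'‖⁻¹ • s' • w')‖ := by
  have h1 : 0 < ‖w‖ := norm_pos_iff.2 hw
  have h1' : 0 < ‖w'‖ := norm_pos_iff.2 hw'
  have a1 : |s| = 1 := by rcases hs with rfl | rfl <;> simp
  have a2 : |s'| = 1 := by rcases hs' with rfl | rfl <;> simp
  have s0' : s' ≠ 0 := by rcases hs' with rfl | rfl <;> simp
  have n1 : ‖s • w‖ = ‖w‖ := by rw [norm_smul, Real.norm_eq_abs, a1, one_mul]
  have n2 : ‖s' • w'‖ = ‖w'‖ := by rw [norm_smul, Real.norm_eq_abs, a2, one_mul]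
  have k : β / H ≤ ‖pr (‖s' • w'‖⁻¹ • s' • w') (‖s • w‖⁻¹ • s • w)‖ := by
    rw [n1, n2, pr_smul_left (inv_ne_zero h1'.ne'), pr_smul_left s0', pr_smul, pr_smul, norm_smul,
      norm_smul, norm_inv, norm_norm, Real.norm_eq_abs, a1, one_mul, ← div_eq_inv_mul]
    exact div_le_div₀ (norm_nonneg _) h.le h1 hwH.le
  refine ⟨k, k.trans (le_of_eq (gm_symm ?_ ?_))⟩
  · rw [norm_smul, norm_inv, norm_norm, n2, inv_mul_cancel₀ h1'.ne']
  · rw [norm_smul, norm_inv, norm_norm, n1, inv_mul_cancel₀ h1.ne']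

end Pool.Agent.P.MP_83f3dc_co.KT
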