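import Pool.Agent.P.MP_83f3dc_co.KTG

set_option autoImplicit false
set_option linter.unusedSectionVars false
set_option linter.unusedVariables false

open MeasureTheory ProbabilityTheory Module Set Filter Topology
open scoped RealInnerProductSpace ENNReal

noncomputable section

namespace Pool.Agent.P.MP_83f3dc_co.KT

/-- homogeneous coordinates -/
def hom {d : ℕ} (x : E d) : E (d + 1) := WithLp.toLp 2 (Fin.cons 1 (fun a => x a) : Fin (d + 1) → ℝ)

theorem inner_hom {d : ℕ} (f : E (d + 1)) (x : E d) :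
    ⟪f, hom x⟫ = f 0 + ∑ a : Fin d, f a.succ * x a := by
  simp only [hom, PiLp.inner_apply, Fin.sum_univ_succ, Fin.cons_zero, Fin.cons_succ]
  simp [mul_comm]

theorem norm_hom_sub {d : ℕ} (x x' : E d) : ‖hom x - hom x'‖ = ‖x - x'‖ := by
  simp only [EuclideanSpace.norm_eq, Fin.sum_univ_succ, hom, PiLp.sub_apply, Fin.cons_zero,
    Fin.cons_succ]
  simp

theorem convex_pos {d : ℕ} (f : E (d + 1)) : Convex ℝ {x : E d | 0 < ⟪f, hom x⟫} := by
  intro x hx y hy a b ha hb hab
  simp only [Set.mem_ofPred_eq, inner_hom] at hx hy ⊢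
  have h : f 0 + ∑ i : Fin d, f i.succ * (a • x + b • y) i =
      a * (f 0 + ∑ i : Fin d, f i.succ * x i) + b * (f 0 + ∑ i : Fin d, f i.succ * y i) := by
    have h1 : ∑ i : Fin d, f i.succ * (a • x + b • y) i =
        a * ∑ i : Fin d, f i.succ * x i + b * ∑ i : Fin d, f i.succ * y i := by
      rw [Finset.mul_sum, Finset.mul_sum, ← Finset.sum_add_distrib]
      refine Finset.sum_congr rfl fun i _ => ?_
      simp only [PiLp.add_apply, PiLp.smul_apply, smul_eq_mul]
      ring
    rw [h1]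
    linear_combination (-(f 0)) * hab
  rw [h]
  rcases ha.eq_or_lt with h0 | h0
  · have hb1 : b = 1 := by linarith
    rw [← h0, hb1]
    linarith
  · have h2 := mul_pos h0 hx
    have h3 := mul_nonneg hb hy.le
    linarith

theorem near_chart {d : ℕ} (u : E (d + 1)) (r : ℝ) (hr : 0 < r) :
    ∃ (s lam : ℝ) (x : E d), (s = 1 ∨ s = -1) ∧ 0 < lam ∧ ‖lam • hom x - s • u‖ ≤ r := by
  obtain ⟨s, hs, hsu⟩ : ∃ s : ℝ, (s = 1 ∨ s = -1) ∧ s * u 0 = |u 0| := by
    rcases le_total 0 (u 0) with h | h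
    · exact ⟨1, Or.inl rfl, by rw [abs_of_nonneg h, one_mul]⟩
    · exact ⟨-1, Or.inr rfl, by rw [abs_of_nonpos h]; ring⟩
  have hl : 0 < |u 0| + r := by positivity
  refine ⟨s, |u 0| + r, WithLp.toLp 2 (fun a => s * u a.succ / (|u 0| + r)), hs, hl, ?_⟩
  have h : ∀ a : Fin d, (|u 0| + r) * (s * u a.succ / (|u 0| + r)) - s * u a.succ = 0 := by
    intro a
    field_simp
    ring
  simp only [EuclideanSpace.norm_eq, Fin.sum_univ_succ, hom, PiLp.sub_apply, PiLp.smul_apply,
    Fin.cons_zero, Fin.cons_succ, smul_eq_mul, h, hsu]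
  simp [Real.sqrt_sq hr.le, abs_of_pos hr]

/-- the linear part of the homogeneous coordinates -/
def hom_lin (d : ℕ) : E d →ₗ[ℝ] E (d + 1) where
  toFun v := WithLp.toLp 2 (Fin.cons 0 (fun a => v a) : Fin (d + 1) → ℝ)
  map_add' v w := by
    ext i
    refine Fin.cases ?_ (fun a => ?_) i <;> simp
  map_smul' t v := by
    ext i
    refine Fin.cases ?_ (fun a => ?_) i <;> simp

theorem hom_eq {d : ℕ} (x x0 : E d) : hom x = hom x0 + hom_lin d (x - x0) := by
  ext i
  refine Fin.cases ?_ (fun a => ?_) i <;> simp [hom, hom_lin]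

theorem frame_of_flat {d c j : ℕ} (L : AffineSubspace ℝ (E d)) (hL : (L : Set (E d)).Nonempty)
    (hj : finrank ℝ L.direction = j) (hc : j + c ≤ d) :
    ∃ g : Fin c → E (d + 1), Orthonormal ℝ g ∧ ∀ a, ∀ x ∈ L, ⟪g a, hom x⟫ = 0 := by
  obtain ⟨x0, hx0⟩ := hL
  let W : Submodule ℝ (E (d + 1)) := (ℝ ∙ hom x0) ⊔ L.direction.map (hom_lin d)
  have hW : finrank ℝ W ≤ 1 + j := by
    refine (Submodule.finrank_add_le_finrank_add_finrank _ _).trans ?_
    refine add_le_add ?_ ?_
    · exact (finrank_span_le_card ({hom x0} : Set (E (d + 1)))).trans (by simp)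
    · exact (Submodule.finrank_map_le _ _).trans hj.le
  have hO := Submodule.finrank_add_finrank_orthogonal W
  have hE : finrank ℝ (E (d + 1)) = d + 1 := by simp [E]
  have hc' : c ≤ finrank ℝ Wᗮ := by omega
  refine ⟨fun a => (stdOrthonormalBasis ℝ Wᗮ (Fin.castLE hc' a) : E (d + 1)), ?_, ?_⟩
  · have h1 := (stdOrthonormalBasis ℝ Wᗮ).orthonormal.comp _ (Fin.castLE_injective hc')
    exact h1.comp_linearIsometry (Wᗮ).subtypeₗᵢ
  · intro a x hx
    have hm : hom x ∈ W := by
      rw [hom_eq x x0]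
      exact Submodule.add_mem_sup (Submodule.mem_span_singleton_self _)
        (Submodule.mem_map_of_mem (AffineSubspace.vsub_mem_direction hx hx0))
    exact Submodule.inner_left_of_mem_orthogonal hm (stdOrthonormalBasis ℝ Wᗮ _).2

end Pool.Agent.P.MP_83f3dc_co.KT
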