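import Pool.Agent.P.MP_83f3dc_co.KTKer0
import Pool.Agent.P.MP_83f3dc_co.KTDaw2

set_option autoImplicit false
set_option linter.unusedSectionVars false
set_option linter.unusedVariables false

open MeasureTheory ProbabilityTheory Module Set Filter Topology
open scoped RealInnerProductSpace ENNReal

noncomputable section

namespace Pool.Agent.P.MP_83f3dc_co.KT

variable {V : Type} [NormedAddCommGroup V] [InnerProductSpace ℝ V] [FiniteDimensional ℝ V]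
  [MeasurableSpace V] [BorelSpace V]

theorem ker_pr {a b : V} (ha : ‖a‖ = 1) (hb : ‖b‖ = 1) : ‖pr a b‖ ^ 2 = 1 - ⟪a, b⟫ ^ 2 := by
  rw [norm_sq_pr, ha, hb]; ring

theorem ker_form {a b : V} (ha : ‖a‖ = 1) (hb : ‖b‖ = 1) (t : ℝ) :
    Kr a (t • b) = Dw (t * ⟪a, b⟫) * Real.exp (-(t ^ 2 * (1 - ⟪a, b⟫ ^ 2)) / 2) := by
  rw [Kr_eq ha, real_inner_smul_right, pr_smul, norm_smul, mul_pow, ker_pr ha hb,
    Real.norm_eq_abs, sq_abs]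

theorem ker_exp : (3 / 5 : ℝ) ≤ Real.exp (-1 / 2) := by
  have h1 : Real.exp (-1 / 2) * Real.exp (-1 / 2) * Real.exp 1 = 1 := by
    rw [← Real.exp_add, ← Real.exp_add]; norm_num
  have h2 := Real.exp_one_lt_d9
  have h3 := Real.exp_pos (-1 / 2)
  have h4 := Real.exp_pos 1
  by_contra hc
  have h5 : Real.exp (-1 / 2) * Real.exp (-1 / 2) ≤ 3 / 5 * (3 / 5) := by nlinarith
  nlinarith

theorem Kr_any {a b : V} (ha : ‖a‖ = 1) (hb : ‖b‖ = 1) {T t : ℝ} (hT : 12 ≤ T) (ht : T ≤ t) :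
    |Kr a (t • b)| ≤ 4 / T := by
  have hT0 : 0 < T := by linarith
  have ht0 : 0 < t := by linarith
  have h0 : 0 ≤ 1 - ⟪a, b⟫ ^ 2 := by rw [← ker_pr ha hb]; positivity
  rw [ker_form ha hb, abs_mul, abs_of_pos (Real.exp_pos _)]
  set ρ := ⟪a, b⟫
  by_cases hρ : 1 / 2 ≤ |ρ|
  · have h1 : T / 2 ≤ |t * ρ| := by
      rw [abs_mul, abs_of_pos ht0]; nlinarith
    have h2 : t * ρ ≠ 0 := abs_pos.1 (by linarith)
    have h3 : Real.exp (-(t ^ 2 * (1 - ρ ^ 2)) / 2) ≤ 1 :=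
      Real.exp_le_one_iff.2 (by have := mul_nonneg (sq_nonneg t) h0; linarith)
    calc _ ≤ 2 / |t * ρ| * 1 := mul_le_mul (Dw_le _ h2) h3 (Real.exp_pos _).le (by positivity)
      _ ≤ 4 / T := by
        rw [mul_one, div_le_div_iff₀ (by linarith) hT0]; linarith
  · have h1 : ρ ^ 2 ≤ 1 / 4 := by
      rw [← sq_abs]; nlinarith [abs_nonneg ρ]
    have h2 : T ≤ t ^ 2 * (1 - ρ ^ 2) / 2 := by
      have : 12 * T ≤ t ^ 2 := by nlinarith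
      nlinarith
    have h3 : Real.exp (-(t ^ 2 * (1 - ρ ^ 2)) / 2) ≤ Real.exp (-T) :=
      Real.exp_le_exp.2 (by linarith)
    have h4 : Real.exp (-T) ≤ 4 / T := by
      have := Real.add_one_le_exp T
      rw [Real.exp_neg, inv_eq_one_div, div_le_div_iff₀ (Real.exp_pos _) hT0]
      linarith
    calc _ ≤ 1 * Real.exp (-T) := mul_le_mul (Dw_le_one _) h3 (Real.exp_pos _).le zero_le_one
      _ ≤ 4 / T := by rwa [one_mul]

theorem Kr_near {a b : V} (ha : ‖a‖ = 1) (hb : ‖b‖ = 1) {T t : ℝ} (hT : 12 ≤ T) (ht : T ≤ t)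
    (ht2 : t ≤ 2 * T) (hab : ‖a - b‖ ≤ 1 / (2 * T)) : 1 / (10 * T) ≤ Kr a (t • b) := by
  have hT0 : 0 < T := by linarith
  have ht0 : 0 < t := by linarith
  have h0 : ‖a - b‖ ^ 2 = 2 - 2 * ⟪a, b⟫ := by rw [norm_sub_sq_real, ha, hb]; ring
  rw [ker_form ha hb]
  set ρ := ⟪a, b⟫
  have h1 : ‖a - b‖ * (2 * T) ≤ 1 := (le_div_iff₀ (by positivity)).1 hab
  have h2 : (2 - 2 * ρ) * (4 * T ^ 2) ≤ 1 := by
    rw [← h0]
    have h := mul_nonneg (norm_nonneg (a - b)) (by positivity : 0 ≤ 2 * T)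
    nlinarith
  have h3 : ρ ≤ 1 := by nlinarith [sq_nonneg ‖a - b‖]
  have h4 : 1 / 2 ≤ ρ := by
    by_contra hc
    have : 144 ≤ T ^ 2 := by nlinarith
    nlinarith
  have h5 : 6 ≤ t * ρ := by nlinarith
  have h6 : t * ρ ≤ 2 * T := by nlinarith
  have h7 : t ^ 2 * (1 - ρ ^ 2) ≤ 1 := by
    have e1 : t ^ 2 ≤ 4 * T ^ 2 := by nlinarith
    have e2 : 1 - ρ ^ 2 ≤ 2 - 2 * ρ := by nlinarith [sq_nonneg (1 - ρ)]
    have e3 : 0 ≤ 1 - ρ ^ 2 := by nlinarith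
    calc t ^ 2 * (1 - ρ ^ 2) ≤ 4 * T ^ 2 * (2 - 2 * ρ) := mul_le_mul e1 e2 e3 (by positivity)
      _ ≤ 1 := by linarith
  have h8 : (3 / 5 : ℝ) ≤ Real.exp (-(t ^ 2 * (1 - ρ ^ 2)) / 2) :=
    ker_exp.trans (Real.exp_le_exp.2 (by linarith))
  have h9 : 1 / (6 * T) ≤ Dw (t * ρ) :=
    (one_div_le_one_div_of_le (by linarith) (by linarith)).trans (le_Dw _ h5)
  calc 1 / (10 * T) = 1 / (6 * T) * (3 / 5) := by field_simp; ring
    _ ≤ _ := mul_le_mul h9 h8 (by norm_num) (le_trans (by positivity) h9)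

theorem Kr_far {a b : V} (ha : ‖a‖ = 1) (hb : ‖b‖ = 1) {T t δ : ℝ} (hT : 0 ≤ T) (ht : T ≤ t)
    (hδ : 0 ≤ δ) (hab : δ ≤ ‖pr b a‖) : |Kr a (t • b)| ≤ Real.exp (-T ^ 2 * δ ^ 2 / 2) := by
  have h0 : δ ^ 2 ≤ 1 - ⟪a, b⟫ ^ 2 := by
    rw [real_inner_comm, ← ker_pr hb ha]
    exact pow_le_pow_left₀ hδ hab 2
  have h1 : T ^ 2 * δ ^ 2 ≤ t ^ 2 * (1 - ⟪a, b⟫ ^ 2) :=
    mul_le_mul (pow_le_pow_left₀ hT ht 2) h0 (sq_nonneg _) (sq_nonneg _)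
  rw [ker_form ha hb, abs_mul, abs_of_pos (Real.exp_pos _)]
  calc _ ≤ 1 * Real.exp (-T ^ 2 * δ ^ 2 / 2) :=
        mul_le_mul (Dw_le_one _) (Real.exp_le_exp.2 (by linarith)) (Real.exp_pos _).le zero_le_one
    _ = _ := one_mul _

theorem one_close {a b b' : V} (ha : ‖a‖ = 1) (hb : ‖b‖ = 1) (hb' : ‖b'‖ = 1) {δ : ℝ}
    (hδ : δ ≤ 1) (h : ‖pr b a‖ < δ / 4) (h' : ‖pr b' a‖ < δ / 4) : ‖pr b' b‖ < δ := by
  have h0 := ker_pr hb ha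
  have h1 : ⟪b, a⟫ • b = a - pr b a := by
    rw [pr, hb]; simp
  have h2 : |⟪b, a⟫| * ‖pr b' b‖ ≤ ‖pr b' a‖ + ‖pr b a‖ := by
    rw [← Real.norm_eq_abs, ← norm_smul, ← pr_smul, h1, pr_sub]
    exact (norm_sub_le _ _).trans (add_le_add le_rfl (norm_pr_le _ _))
  have h3 : 1 / 2 ≤ |⟪b, a⟫| := by
    by_contra hc
    have e1 := sq_abs ⟪b, a⟫
    have e2 := abs_nonneg ⟪b, a⟫
    have e3 := norm_nonneg (pr b a)
    nlinarith
  have h4 := mul_le_mul_of_nonneg_right h3 (norm_nonneg (pr b' b))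
  linarith

end Pool.Agent.P.MP_83f3dc_co.KT
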