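import Pool.Agent.P.MP_83f3dc_co.KTDaw

set_option autoImplicit false
set_option linter.unusedSectionVars false
set_option linter.unusedVariables false

open MeasureTheory ProbabilityTheory Module Set Filter Topology
open scoped RealInnerProductSpace ENNReal

noncomputable section

namespace Pool.Agent.P.MP_83f3dc_co.KT

variable {V : Type} [NormedAddCommGroup V] [InnerProductSpace ℝ V] [FiniteDimensional ℝ V]
  [MeasurableSpace V] [BorelSpace V]

theorem ker0_bdd {A : Type} [MeasurableSpace A] {μ : Measure A} [IsFiniteMeasure μ] {f : A → ℝ}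
    (hf : Measurable f) (h : ∀ x, |f x| ≤ 1) : Integrable f μ :=
  (integrable_const (1 : ℝ)).mono' hf.aestronglyMeasurable (Eventually.of_forall h)

theorem ker0_sign {r : ℝ} (hr : 0 < r) (x : ℝ) : Real.sign (r * x) = Real.sign x := by
  rcases lt_trichotomy x 0 with h | h | h
  · rw [Real.sign_of_neg h, Real.sign_of_neg (mul_neg_of_pos_of_neg hr h)]
  · rw [h, mul_zero]
  · rw [Real.sign_of_pos h, Real.sign_of_pos (mul_pos hr h)]

theorem ker0_both (v : V) : ((∫ y, Real.cos ⟪y, v⟫ ∂(stdGaussian V) : ℝ) : ℂ) +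
    ((∫ y, Real.sin ⟪y, v⟫ ∂(stdGaussian V) : ℝ) : ℂ) * Complex.I =
      ((Real.exp (-‖v‖ ^ 2 / 2) : ℝ) : ℂ) := by
  have i1 : Integrable (fun z : V => Real.cos ⟪z, v⟫) (stdGaussian V) :=
    ker0_bdd (by fun_prop) fun _ => Real.abs_cos_le_one _
  have i2 : Integrable (fun z : V => Real.sin ⟪z, v⟫) (stdGaussian V) :=
    ker0_bdd (by fun_prop) fun _ => Real.abs_sin_le_one _
  have h := charFun_stdGaussian v
  rw [charFun_apply] at h
  have j1 : Integrable (fun z : V => ((Real.cos ⟪z, v⟫ : ℝ) : ℂ)) (stdGaussian V) := i1.ofReal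
  have j2 : Integrable (fun z : V => ((Real.sin ⟪z, v⟫ : ℝ) : ℂ)) (stdGaussian V) := i2.ofReal
  rw [← integral_complex_ofReal, ← integral_complex_ofReal, ← integral_mul_const,
    ← integral_add j1 (j2.mul_const _)]
  refine Eq.trans (integral_congr_ae (Eventually.of_forall fun y => ?_)) (h.trans ?_)
  · change ((Real.cos ⟪y, v⟫ : ℝ) : ℂ) + ((Real.sin ⟪y, v⟫ : ℝ) : ℂ) * Complex.I = _
    rw [Complex.exp_mul_I, Complex.ofReal_cos, Complex.ofReal_sin]
  · push_cast
    rfl

theorem int_cos (v : V) : ∫ y, Real.cos ⟪y, v⟫ ∂(stdGaussian V) = Real.exp (-‖v‖ ^ 2 / 2) := by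
  have h := congrArg Complex.re (ker0_both v)
  simpa only [Complex.add_re, Complex.ofReal_re, Complex.mul_re, Complex.I_re, Complex.ofReal_im,
    Complex.I_im, mul_zero, zero_mul, sub_zero, add_zero] using h

theorem int_sin (v : V) : ∫ y, Real.sin ⟪y, v⟫ ∂(stdGaussian V) = 0 := by
  have h := congrArg Complex.im (ker0_both v)
  simpa only [Complex.add_im, Complex.ofReal_re, Complex.mul_im, Complex.I_re, Complex.ofReal_im,
    Complex.I_im, mul_zero, zero_mul, mul_one, zero_add, add_zero] using h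

/-- the correlation of a half-space with a sine wave -/
def Kr (a v : V) : ℝ := ∫ y, Real.sign ⟪y, a⟫ * Real.sin ⟪y, v⟫ ∂(stdGaussian V)

theorem Kr_integrable (a v : V) :
    Integrable (fun y : V => Real.sign ⟪y, a⟫ * Real.sin ⟪y, v⟫) (stdGaussian V) := by
  refine ker0_bdd ((measurable_sign.comp (by fun_prop)).mul (by fun_prop)) fun y => ?_
  rw [abs_mul]
  exact mul_le_one₀ (abs_sign_le _) (abs_nonneg _) (Real.abs_sin_le_one _)

theorem Kr_zero (v : V) : Kr 0 v = 0 := by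
  simp [Kr]

theorem Kr_smul (a v : V) (r : ℝ) (hr : 0 < r) : Kr (r • a) v = Kr a v := by
  unfold Kr
  refine integral_congr_ae (Eventually.of_forall fun y => ?_)
  change Real.sign ⟪y, r • a⟫ * _ = Real.sign ⟪y, a⟫ * _
  rw [real_inner_smul_right, ker0_sign hr]

theorem Kr_eq {a : V} (ha : ‖a‖ = 1) (v : V) :
    Kr a v = Dw ⟪a, v⟫ * Real.exp (-‖pr a v‖ ^ 2 / 2) := by
  have hm : Measurable fun y : V => Real.sign ⟪y, a⟫ * Real.sin ⟪y, v⟫ :=
    (measurable_sign.comp (by fun_prop)).mul (by fun_prop)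
  have hp := mp_pr_split ha
  have e : Kr a v = ∫ q : V × ℝ, Real.sign ⟪pr a q.1 + q.2 • a, a⟫ * Real.sin ⟪pr a q.1 + q.2 • a, v⟫
      ∂((stdGaussian V).prod (gaussianReal 0 1)) := by
    unfold Kr
    rw [← hp.map_eq, integral_map hp.measurable.aemeasurable hm.aestronglyMeasurable, hp.map_eq]
  have e1 : ∀ q : V × ℝ, Real.sign ⟪pr a q.1 + q.2 • a, a⟫ * Real.sin ⟪pr a q.1 + q.2 • a, v⟫ =
      Real.sin ⟪q.1, pr a v⟫ * (Real.sign q.2 * Real.cos (⟪a, v⟫ * q.2)) +
        Real.cos ⟪q.1, pr a v⟫ * (Real.sign q.2 * Real.sin (⟪a, v⟫ * q.2)) := fun q => by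
    have h1 : ⟪pr a q.1 + q.2 • a, a⟫ = q.2 := by
      rw [inner_add_left, real_inner_comm, inner_pr_self, real_inner_smul_left,
        real_inner_self_eq_norm_sq, ha]
      ring
    have h2 : ⟪pr a q.1 + q.2 • a, v⟫ = ⟪q.1, pr a v⟫ + ⟪a, v⟫ * q.2 := by
      rw [inner_add_left, inner_pr_comm, real_inner_smul_left, mul_comm]
    rw [h1, h2, Real.sin_add]
    ring
  have i1 : Integrable (fun z : V => Real.sin ⟪z, pr a v⟫) (stdGaussian V) :=
    ker0_bdd (by fun_prop) fun _ => Real.abs_sin_le_one _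
  have i2 : Integrable (fun z : V => Real.cos ⟪z, pr a v⟫) (stdGaussian V) :=
    ker0_bdd (by fun_prop) fun _ => Real.abs_cos_le_one _
  have i3 : Integrable (fun t : ℝ => Real.sign t * Real.cos (⟪a, v⟫ * t)) (gaussianReal 0 1) := by
    refine ker0_bdd (measurable_sign.mul (by fun_prop)) fun t => ?_
    rw [abs_mul]
    exact mul_le_one₀ (abs_sign_le _) (abs_nonneg _) (Real.abs_cos_le_one _)
  have i4 : Integrable (fun t : ℝ => Real.sign t * Real.sin (⟪a, v⟫ * t)) (gaussianReal 0 1) := by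
    refine ker0_bdd (measurable_sign.mul (by fun_prop)) fun t => ?_
    rw [abs_mul]
    exact mul_le_one₀ (abs_sign_le _) (abs_nonneg _) (Real.abs_sin_le_one _)
  rw [e, integral_congr_ae (Eventually.of_forall e1), integral_add (i1.mul_prod i3) (i2.mul_prod i4),
    integral_prod_mul (fun z : V => Real.sin ⟪z, pr a v⟫)
      (fun t : ℝ => Real.sign t * Real.cos (⟪a, v⟫ * t)),
    integral_prod_mul (fun z : V => Real.cos ⟪z, pr a v⟫)
      (fun t : ℝ => Real.sign t * Real.sin (⟪a, v⟫ * t)), int_sin, int_cos, zero_mul, zero_add,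
    mul_comm]
  rfl

end Pool.Agent.P.MP_83f3dc_co.KT
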