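import Pool.Agent.P.MP_83f3dc_co.KTG

set_option autoImplicit false
set_option linter.unusedSectionVars false
set_option linter.unusedVariables false

open MeasureTheory ProbabilityTheory Module Set Filter Topology
open scoped RealInnerProductSpace ENNReal

noncomputable section

namespace Pool.Agent.P.MP_83f3dc_co.KT

theorem smooth_pdf_le (x : ℝ) : gaussianPDFReal 0 1 x ≤ 1 := by
  rw [gaussianPDFReal]
  have h1 : (1 : ℝ) ≤ √(2 * Real.pi * ((1 : NNReal) : ℝ)) := by
    rw [Real.one_le_sqrt]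
    have := Real.pi_gt_three
    simp only [NNReal.coe_one]
    linarith
  have h2 : Real.exp (-(x - 0) ^ 2 / (2 * ((1 : NNReal) : ℝ))) ≤ 1 := by
    rw [Real.exp_le_one_iff]
    simp only [NNReal.coe_one]
    nlinarith [sq_nonneg (x - 0)]
  exact mul_le_one₀ (inv_le_one_of_one_le₀ h1) (Real.exp_pos _).le h2

theorem smooth_Ioc {a b : ℝ} (h : a ≤ b) : (gaussianReal 0 1).real (Ioc a b) ≤ b - a := by
  rw [Measure.real, gaussianReal_apply_eq_integral 0 one_ne_zero,
    ENNReal.toReal_ofReal (integral_nonneg fun x => gaussianPDFReal_nonneg _ _ x)]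
  calc ∫ x in Ioc a b, gaussianPDFReal 0 1 x ≤ ∫ _ in Ioc a b, (1 : ℝ) :=
        integral_mono (integrable_gaussianPDFReal _ _).integrableOn (by simp) smooth_pdf_le
    _ = b - a := by simp [h]

theorem smooth_shift_eq (g : ℝ → ℝ) (D : ℝ) :
    ∫ t, g (t + D) ∂(gaussianReal 0 1) = ∫ v, gaussianPDFReal 0 1 (v - D) * g v := by
  rw [integral_gaussianReal_eq_integral_smul one_ne_zero,
    ← integral_add_right_eq_self (fun v => gaussianPDFReal 0 1 (v - D) * g v) D]
  simp

theorem smooth_int (g : ℝ → ℝ) (hm : Measurable g) (h0 : ∀ s, 0 ≤ g s) (h1 : ∀ s, g s ≤ 1)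
    (D : ℝ) : Integrable fun v => gaussianPDFReal 0 1 (v - D) * g v :=
  ((integrable_gaussianPDFReal 0 1).comp_sub_right D).mul_bdd (c := 1) hm.aestronglyMeasurable
    (ae_of_all _ fun v => by rw [Real.norm_of_nonneg (h0 v)]; exact h1 v)

theorem smooth_pdf_mono {x y : ℝ} (h : x ^ 2 ≤ y ^ 2) :
    gaussianPDFReal 0 1 y ≤ gaussianPDFReal 0 1 x := by
  rw [gaussianPDFReal, gaussianPDFReal]
  refine mul_le_mul_of_nonneg_left (Real.exp_le_exp.2 ?_) (by positivity)
  simp only [NNReal.coe_one]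
  linarith

theorem smooth_Ioi_sub {a b : ℝ} (h : a ≤ b) :
    (gaussianReal 0 1).real (Ioi a) - (gaussianReal 0 1).real (Ioi b) ≤ b - a := by
  have := measureReal_union_le (μ := gaussianReal 0 1) (Ioc a b) (Ioi b)
  rw [Ioc_union_Ioi_eq_Ioi h] at this
  linarith [smooth_Ioc h]

theorem smooth_shift_le (g : ℝ → ℝ) (hm : Measurable g) (h0 : ∀ s, 0 ≤ g s) (h1 : ∀ s, g s ≤ 1)
    {D : ℝ} (hD : 0 ≤ D) :
    ∫ t, g (t + D) ∂(gaussianReal 0 1) - ∫ t, g t ∂(gaussianReal 0 1) ≤ D := by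
  set χ : ℝ → ℝ := (Ioi (D / 2)).indicator 1 with hχ
  have cm : Measurable χ := measurable_one.indicator measurableSet_Ioi
  have c0 : ∀ s, 0 ≤ χ s := fun s => indicator_nonneg (fun _ _ => zero_le_one) s
  have c1 : ∀ s, χ s ≤ 1 := fun s => indicator_le_self' (fun _ _ => zero_le_one) s
  have key : ∫ t, g (t + D) ∂(gaussianReal 0 1) - ∫ t, g (t + 0) ∂(gaussianReal 0 1) ≤
      ∫ t, χ (t + D) ∂(gaussianReal 0 1) - ∫ t, χ (t + 0) ∂(gaussianReal 0 1) := by
    rw [smooth_shift_eq, smooth_shift_eq, smooth_shift_eq, smooth_shift_eq,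
      ← integral_sub (smooth_int g hm h0 h1 D) (smooth_int g hm h0 h1 0),
      ← integral_sub (smooth_int χ cm c0 c1 D) (smooth_int χ cm c0 c1 0)]
    refine integral_mono ((smooth_int g hm h0 h1 D).sub (smooth_int g hm h0 h1 0))
      ((smooth_int χ cm c0 c1 D).sub (smooth_int χ cm c0 c1 0)) fun v => ?_
    by_cases hv : D / 2 < v
    · have e : χ v = 1 := indicator_of_mem (show v ∈ Ioi (D / 2) from hv) _
      have := smooth_pdf_mono (x := v - D) (y := v - 0) (by nlinarith)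
      simp only [e]
      nlinarith [h1 v]
    · have e : χ v = 0 := indicator_of_notMem (show v ∉ Ioi (D / 2) from hv) _
      have := smooth_pdf_mono (x := v - 0) (y := v - D) (by nlinarith [not_lt.1 hv])
      simp only [e]
      nlinarith [h0 v]
  have e1 : (fun t => χ (t + D)) = (Ioi (-(D / 2))).indicator 1 := by
    funext t
    simp only [hχ, indicator, mem_Ioi, Pi.one_apply]
    exact if_congr ⟨fun h => by linarith, fun h => by linarith⟩ rfl rfl
  simp only [add_zero] at key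
  rw [e1, hχ, integral_indicator_one measurableSet_Ioi, integral_indicator_one measurableSet_Ioi]
    at key
  linarith [smooth_Ioi_sub (a := -(D / 2)) (b := D / 2) (by linarith)]

theorem smooth_bint (g : ℝ → ℝ) (hm : Measurable g) (h0 : ∀ s, 0 ≤ g s) (h1 : ∀ s, g s ≤ 1) :
    Integrable g (gaussianReal 0 1) :=
  (integrable_const (1 : ℝ)).mono' hm.aestronglyMeasurable
    (ae_of_all _ fun v => by rw [Real.norm_of_nonneg (h0 v)]; exact h1 v)

theorem smooth_shift_abs (g : ℝ → ℝ) (hm : Measurable g) (h0 : ∀ s, 0 ≤ g s) (h1 : ∀ s, g s ≤ 1)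
    {D : ℝ} (hD : 0 ≤ D) :
    |∫ t, g (t + D) ∂(gaussianReal 0 1) - ∫ t, g t ∂(gaussianReal 0 1)| ≤ D := by
  have a := smooth_shift_le g hm h0 h1 hD
  have b := smooth_shift_le (fun t => 1 - g t) (measurable_const.sub hm)
    (fun s => sub_nonneg.2 (h1 s)) (fun s => sub_le_self _ (h0 s)) hD
  rw [integral_sub (integrable_const _) (smooth_bint (fun t => g (t + D))
      (hm.comp (measurable_add_const D)) (fun _ => h0 _) fun _ => h1 _),
    integral_sub (integrable_const _) (smooth_bint g hm h0 h1)] at b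
  exact abs_le.2 ⟨by linarith, a⟩

/-- Gaussian smoothing of a function with values in the unit interval is Lipschitz -/
theorem smooth_lip (ψ : ℝ → ℝ) (hm : Measurable ψ) (h0 : ∀ s, 0 ≤ ψ s) (h1 : ∀ s, ψ s ≤ 1)
    (σ : ℝ) (hσ : 0 < σ) (s s' : ℝ) :
    |∫ t, ψ (s + σ * t) ∂(gaussianReal 0 1) - ∫ t, ψ (s' + σ * t) ∂(gaussianReal 0 1)|
      ≤ σ⁻¹ * |s - s'| := by
  wlog h : s' ≤ s generalizing s s'
  · rw [abs_sub_comm, abs_sub_comm s]
    exact this s' s (le_of_not_ge h)
  have := smooth_shift_abs (fun t => ψ (s' + σ * t)) (hm.comp (by fun_prop)) (fun _ => h0 _)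
    (fun _ => h1 _) (D := σ⁻¹ * (s - s')) (mul_nonneg (inv_nonneg.2 hσ.le) (sub_nonneg.2 h))
  have e : ∀ t, s' + σ * (t + σ⁻¹ * (s - s')) = s + σ * t := fun t => by
    field_simp
    ring
  simp only [e] at this
  rwa [abs_of_nonneg (sub_nonneg.2 h)]

/-- the ramp from `0` at `-τ` to `1` at `0` -/
def ramp (τ s : ℝ) : ℝ := max 0 (min 1 (1 + s / τ))

theorem ramp_nonneg (τ s : ℝ) : 0 ≤ ramp τ s := le_max_left _ _

theorem ramp_le_one (τ s : ℝ) : ramp τ s ≤ 1 := max_le zero_le_one (min_le_left _ _)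

theorem ramp_of_nonneg {τ s : ℝ} (hτ : 0 < τ) (hs : 0 ≤ s) : ramp τ s = 1 := by
  have : 0 ≤ s / τ := div_nonneg hs hτ.le
  rw [ramp, min_eq_left (by linarith), max_eq_right zero_le_one]

theorem ramp_lip {τ : ℝ} (hτ : 0 < τ) (s s' : ℝ) : |ramp τ s - ramp τ s'| ≤ τ⁻¹ * |s - s'| := by
  have h1 := abs_max_sub_max_le_max 0 (min 1 (1 + s / τ)) 0 (min 1 (1 + s' / τ))
  have h2 := abs_min_sub_min_le_max 1 (1 + s / τ) 1 (1 + s' / τ)
  have h3 : |1 + s / τ - (1 + s' / τ)| = τ⁻¹ * |s - s'| := by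
    rw [← abs_of_pos (inv_pos.2 hτ), ← abs_mul]
    congr 1
    ring
  rw [sub_self, abs_zero] at h1 h2
  rw [← h3]
  exact (h1.trans (max_le (abs_nonneg _) le_rfl)).trans (h2.trans (max_le (abs_nonneg _) le_rfl))

theorem ramp_int {τ : ℝ} (hτ : 0 < τ) : ∫ t, ramp τ t ∂(gaussianReal 0 1) ≤ 1 / 2 + τ := by
  have hm : Measurable (ramp τ) := by
    unfold ramp
    fun_prop
  have h1 : ∫ t, ramp τ t ∂(gaussianReal 0 1) ≤ (gaussianReal 0 1).real (Ioi (-τ)) := by
    rw [← integral_indicator_one measurableSet_Ioi]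
    refine integral_mono (smooth_bint _ hm (ramp_nonneg τ) (ramp_le_one τ))
      ((integrable_const (1 : ℝ)).indicator measurableSet_Ioi) fun t => ?_
    by_cases ht : -τ < t
    · rw [indicator_of_mem (show t ∈ Ioi (-τ) from ht)]
      exact ramp_le_one τ t
    · rw [indicator_of_notMem (show t ∉ Ioi (-τ) from ht)]
      have : t / τ ≤ -1 := by
        rw [div_le_iff₀ hτ]
        linarith [not_lt.1 ht]
      exact max_le le_rfl ((min_le_right _ _).trans (by linarith))
  have h2 : (gaussianReal 0 1).real (Ioi 0) = (gaussianReal 0 1).real (Iio 0) := by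
    have := gaussianReal_map_neg (μ := 0) (v := 1)
    rw [neg_zero] at this
    conv_lhs => rw [← this]
    rw [map_measureReal_apply measurable_neg measurableSet_Ioi]
    congr 1
    ext x
    simp
  have h3 : (gaussianReal 0 1).real (Ioi 0) + (gaussianReal 0 1).real (Iio 0) ≤ 1 := by
    rw [← measureReal_union (Iio_disjoint_Ioi_of_not_lt (lt_irrefl (0 : ℝ))).symm measurableSet_Iio]
    exact measureReal_le_one
  linarith [smooth_Ioi_sub (a := -τ) (b := 0) (by linarith)]

end Pool.Agent.P.MP_83f3dc_co.KT
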