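import Pool.Agent.P.MP_83f3dc_co.KTConc
import Pool.Agent.P.MP_83f3dc_co.KTSmooth

set_option autoImplicit false
set_option linter.unusedSectionVars false
set_option linter.unusedVariables false

open MeasureTheory ProbabilityTheory Module Set Filter Topology
open scoped RealInnerProductSpace ENNReal

noncomputable section

namespace Pool.Agent.P.MP_83f3dc_co.KT

theorem sum_lip {D : ℕ} {ι : Type} [Fintype ι] (e : ι → E D) (Λ : ℝ) (hΛ : 0 ≤ Λ)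
    (he : ∀ z, (Fintype.card ι : ℝ) * ∑ p, ⟪z, e p⟫ ^ 2 ≤ Λ ^ 2 * ‖z‖ ^ 2)
    (g : ℝ → ℝ) (K : ℝ) (hK : 0 ≤ K) (hg : ∀ s s', |g s - g s'| ≤ K * |s - s'|) (x x' : E D) :
    |∑ p, g ⟪x, e p⟫ - ∑ p, g ⟪x', e p⟫| ≤ K * Λ * ‖x - x'‖ := by
  have h1 : |∑ p, g ⟪x, e p⟫ - ∑ p, g ⟪x', e p⟫| ≤ K * ∑ p, |⟪x - x', e p⟫| := by
    rw [← Finset.sum_sub_distrib, Finset.mul_sum]
    refine (Finset.abs_sum_le_sum_abs _ _).trans (Finset.sum_le_sum fun p _ => ?_)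
    rw [inner_sub_left]
    exact hg _ _
  have h2 : (∑ p, |⟪x - x', e p⟫|) ^ 2 ≤ (Λ * ‖x - x'‖) ^ 2 := by
    have h3 := sq_sum_le_card_mul_sum_sq (s := (Finset.univ : Finset ι))
      (f := fun p => |⟪x - x', e p⟫|)
    simp only [sq_abs, Finset.card_univ] at h3
    rw [mul_pow]
    exact h3.trans (he _)
  have h4 : ∑ p, |⟪x - x', e p⟫| ≤ Λ * ‖x - x'‖ :=
    (abs_le_of_sq_le_sq' h2 (by positivity)).2
  rw [mul_assoc]
  exact h1.trans (mul_le_mul_of_nonneg_left h4 hK)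

theorem multi_cont {g : ℝ → ℝ} {K : ℝ} (hK : 0 ≤ K)
    (hg : ∀ s s', |g s - g s'| ≤ K * |s - s'|) : Continuous g := by
  have h : LipschitzWith ⟨K, hK⟩ g := LipschitzWith.of_dist_le_mul fun s s' => by
    rw [Real.dist_eq, Real.dist_eq]
    exact hg s s'
  exact h.continuous

theorem multi_int {α : Type} [MeasurableSpace α] (μ : Measure α) [IsProbabilityMeasure μ]
    {g : ℝ → ℝ} (hc : Continuous g) (h0 : ∀ s, 0 ≤ g s) (h1 : ∀ s, g s ≤ 1) {u : α → ℝ}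
    (hu : Measurable u) : Integrable (fun a => g (u a)) μ :=
  Integrable.of_bound (hc.measurable.comp hu).aestronglyMeasurable 1
    (Eventually.of_forall fun a => by
      rw [Real.norm_eq_abs, abs_of_nonneg (h0 _)]
      exact h1 _)

theorem multi_one {D : ℕ} {ι : Type} [Fintype ι] (e : ι → E D) (he1 : ∀ p, ‖e p‖ = 1) (Λ : ℝ)
    (hΛ : 0 ≤ Λ) (he : ∀ z, (Fintype.card ι : ℝ) * ∑ p, ⟪z, e p⟫ ^ 2 ≤ Λ ^ 2 * ‖z‖ ^ 2)
    (g : ℝ → ℝ) (h0 : ∀ s, 0 ≤ g s) (h1 : ∀ s, g s ≤ 1) (σ : ℝ) (hσ : 0 < σ)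
    (hg : ∀ s s', |g s - g s'| ≤ σ⁻¹ * |s - s'|) (θ : ℝ) (x : E D) :
    ∫⁻ ξ, ENNReal.ofReal (Real.exp (θ * ∑ p, g ⟪x + σ • ξ, e p⟫)) ∂(stdGaussian (E D)) ≤
      ENNReal.ofReal (Real.exp
        (θ * ∑ p, ∫ t, g (⟪x, e p⟫ + σ * t) ∂(gaussianReal 0 1) + θ ^ 2 * Λ ^ 2)) := by
  have hK : 0 ≤ σ⁻¹ := by positivity
  have hc := multi_cont hK hg
  have hl : ∀ ξ ξ' : E D, |∑ p, g ⟪x + σ • ξ, e p⟫ - ∑ p, g ⟪x + σ • ξ', e p⟫| ≤ Λ * ‖ξ - ξ'‖ := by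
    intro ξ ξ'
    refine (sum_lip e Λ hΛ he g σ⁻¹ hK hg _ _).trans (le_of_eq ?_)
    rw [add_sub_add_left_eq_sub, ← smul_sub, norm_smul, Real.norm_eq_abs, abs_of_pos hσ]
    field_simp
  have hm : ∫ ξ, ∑ p, g ⟪x + σ • ξ, e p⟫ ∂(stdGaussian (E D)) =
      ∑ p, ∫ t, g (⟪x, e p⟫ + σ * t) ∂(gaussianReal 0 1) := by
    rw [integral_finsetSum _ fun p _ => multi_int _ hc h0 h1 (by fun_prop)]
    refine Finset.sum_congr rfl fun p _ => ?_
    have hp := mp_inner (he1 p)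
    have hcc : Continuous fun t : ℝ => g (⟪x, e p⟫ + σ * t) := hc.comp (by fun_prop)
    rw [← hp.map_eq, integral_map hp.measurable.aemeasurable hcc.aestronglyMeasurable]
    refine integral_congr_ae (Eventually.of_forall fun ξ => ?_)
    simp only [inner_add_left, real_inner_smul_left]
  have h := conc (fun ξ => ∑ p, g ⟪x + σ • ξ, e p⟫) Λ hΛ hl θ
  rw [hm] at h
  exact h

theorem multi_sq : ((√2 : ℝ)⁻¹) ^ 2 + ((√2 : ℝ)⁻¹) ^ 2 = 1 := by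
  rw [inv_pow, Real.sq_sqrt (by norm_num)]
  norm_num

theorem multi_conv {ψ : ℝ → ℝ} (hc : Continuous ψ) (h0 : ∀ s, 0 ≤ ψ s) (h1 : ∀ s, ψ s ≤ 1)
    (σ s : ℝ) :
    ∫ u, ∫ t, ψ (s + σ * u + σ * t) ∂(gaussianReal 0 1) ∂(gaussianReal 0 1) =
      ∫ t, ψ (s + σ * √2 * t) ∂(gaussianReal 0 1) := by
  have hp := mp_two (V := ℝ) multi_sq
  rw [stdGaussian_real] at hp
  have h2 : (√2 : ℝ) ≠ 0 := by positivity
  have hcc : Continuous fun t : ℝ => ψ (s + σ * √2 * t) := hc.comp (by fun_prop)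
  have hi : Integrable (fun q : ℝ × ℝ => ψ (s + σ * q.1 + σ * q.2))
      ((gaussianReal 0 1).prod (gaussianReal 0 1)) := multi_int _ hc h0 h1 (by fun_prop)
  rw [← integral_prod _ hi]
  conv_rhs => rw [← hp.map_eq]
  rw [integral_map hp.measurable.aemeasurable hcc.aestronglyMeasurable]
  refine integral_congr_ae (Eventually.of_forall fun q => ?_)
  have e1 : s + σ * √2 * ((√2 : ℝ)⁻¹ • q.1 + (√2 : ℝ)⁻¹ • q.2) = s + σ * q.1 + σ * q.2 := by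
    rw [smul_eq_mul, smul_eq_mul]
    field_simp
    ring
  simp only [e1]

/-- the multiscale bound for the moment generating function -/
theorem multi {D : ℕ} {ι : Type} [Fintype ι] (e : ι → E D) (he1 : ∀ p, ‖e p‖ = 1) (Λ : ℝ)
    (hΛ : 0 ≤ Λ) (he : ∀ z, (Fintype.card ι : ℝ) * ∑ p, ⟪z, e p⟫ ^ 2 ≤ Λ ^ 2 * ‖z‖ ^ 2)
    (ψ : ℝ → ℝ) (h0 : ∀ s, 0 ≤ ψ s) (h1 : ∀ s, ψ s ≤ 1) (τ : ℝ) (hτ : 0 < τ)
    (hψ : ∀ s s', |ψ s - ψ s'| ≤ τ⁻¹ * |s - s'|) (θ : ℝ) (l : ℕ) (x : E D) :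
    ∫⁻ ξ, ENNReal.ofReal (Real.exp (θ * ∑ p, ψ ⟪x + (τ * √2 ^ l) • ξ, e p⟫)) ∂(stdGaussian (E D)) ≤
      ENNReal.ofReal (Real.exp
        (θ * ∑ p, ∫ t, ψ (⟪x, e p⟫ + τ * √2 ^ l * t) ∂(gaussianReal 0 1)
          + ((l : ℝ) + 1) * θ ^ 2 * Λ ^ 2)) := by
  have hc : Continuous ψ := multi_cont (by positivity) hψ
  induction l generalizing x with
  | zero =>
    have h := multi_one e he1 Λ hΛ he ψ h0 h1 τ hτ hψ θ x
    simpa only [pow_zero, mul_one, Nat.cast_zero, zero_add, one_mul] using h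
  | succ l ih =>
    have h2 : (√2 : ℝ) ≠ 0 := by positivity
    obtain ⟨σ, hσ⟩ : ∃ σ, σ = τ * √2 ^ l := ⟨_, rfl⟩
    have hσ0 : 0 < σ := by rw [hσ]; positivity
    have hs : τ * √2 ^ (l + 1) = σ * √2 := by rw [hσ, pow_succ, mul_assoc]
    rw [← hσ] at ih
    rw [hs]
    obtain ⟨g, hg⟩ : ∃ g : ℝ → ℝ, g = fun s => ∫ t, ψ (s + σ * t) ∂(gaussianReal 0 1) := ⟨_, rfl⟩
    have g0 : ∀ s, 0 ≤ g s := fun s => by
      rw [hg]
      exact integral_nonneg fun t => h0 _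
    have g1 : ∀ s, g s ≤ 1 := fun s => by
      rw [hg]
      have h := integral_mono (μ := gaussianReal 0 1)
        (multi_int _ hc h0 h1 (u := fun t => s + σ * t) (by fun_prop)) (integrable_const (1 : ℝ))
        fun t => h1 _
      simpa using h
    have gl : ∀ s s', |g s - g s'| ≤ σ⁻¹ * |s - s'| := fun s s' => by
      rw [hg]
      exact smooth_lip ψ hc.measurable h0 h1 σ hσ0 s s'
    have gc : Continuous g := multi_cont (by positivity) gl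
    have hp := mp_two (V := E D) multi_sq
    have hF : Measurable fun ξ : E D =>
        ENNReal.ofReal (Real.exp (θ * ∑ p, ψ ⟪x + (σ * √2) • ξ, e p⟫)) := by
      have : Continuous fun ξ : E D => Real.exp (θ * ∑ p, ψ ⟪x + (σ * √2) • ξ, e p⟫) := by
        fun_prop
      exact this.measurable.ennreal_ofReal
    have hG : Measurable fun ζ : E D =>
        ENNReal.ofReal (Real.exp (θ * ∑ p, g ⟪x + σ • ζ, e p⟫)) := by
      have : Continuous fun ζ : E D => Real.exp (θ * ∑ p, g ⟪x + σ • ζ, e p⟫) := by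
        fun_prop
      exact this.measurable.ennreal_ofReal
    have e1 : ∀ ζ ξ : E D, x + (σ * √2) • ((√2 : ℝ)⁻¹ • ζ + (√2 : ℝ)⁻¹ • ξ) =
        x + σ • ζ + σ • ξ := fun ζ ξ => by
      rw [smul_add, smul_smul, smul_smul, mul_assoc, mul_inv_cancel₀ h2, mul_one, add_assoc]
    have e2 : ∑ p, ∫ t, g (⟪x, e p⟫ + σ * t) ∂(gaussianReal 0 1) =
        ∑ p, ∫ t, ψ (⟪x, e p⟫ + σ * √2 * t) ∂(gaussianReal 0 1) := by
      refine Finset.sum_congr rfl fun p _ => ?_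
      rw [hg]
      exact multi_conv hc h0 h1 σ _
    rw [← hp.lintegral_comp hF]
    refine (lintegral_prod _ (hF.comp hp.measurable).aemeasurable).le.trans ?_
    calc ∫⁻ ζ, ∫⁻ ξ, ENNReal.ofReal (Real.exp (θ * ∑ p,
            ψ ⟪x + (σ * √2) • ((√2 : ℝ)⁻¹ • ζ + (√2 : ℝ)⁻¹ • ξ), e p⟫))
            ∂(stdGaussian (E D)) ∂(stdGaussian (E D))
        ≤ ∫⁻ ζ, ENNReal.ofReal (Real.exp (θ * ∑ p, g ⟪x + σ • ζ, e p⟫)) *
            ENNReal.ofReal (Real.exp (((l : ℝ) + 1) * θ ^ 2 * Λ ^ 2)) ∂(stdGaussian (E D)) := by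
          refine lintegral_mono fun ζ => ?_
          have h := ih (x + σ • ζ)
          rw [Real.exp_add, ENNReal.ofReal_mul (Real.exp_pos _).le] at h
          simp only [e1, hg]
          exact h
      _ ≤ ENNReal.ofReal (Real.exp
            (θ * ∑ p, ∫ t, g (⟪x, e p⟫ + σ * t) ∂(gaussianReal 0 1) + θ ^ 2 * Λ ^ 2)) *
            ENNReal.ofReal (Real.exp (((l : ℝ) + 1) * θ ^ 2 * Λ ^ 2)) := by
          rw [lintegral_mul_const _ hG]
          exact mul_le_mul_left (multi_one e he1 Λ hΛ he g g0 g1 σ hσ0 gl θ x) _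
      _ = _ := by
          rw [← ENNReal.ofReal_mul (Real.exp_pos _).le, ← Real.exp_add, e2]
          congr 2
          push_cast
          ring

end Pool.Agent.P.MP_83f3dc_co.KT
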