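import Pool.Agent.P.MP_83f3dc_co.KTParD

set_option autoImplicit false
set_option linter.unusedSectionVars false
set_option linter.unusedVariables false

open MeasureTheory ProbabilityTheory Module Set Filter Topology
open scoped RealInnerProductSpace ENNReal

noncomputable section

namespace Pool.Agent.P.MP_83f3dc_co.KT

theorem par1_far (a : ℝ) (ha : 0 < a) :
    ∀ᶠ N : ℝ in atTop, 200 * N ^ 5 * Real.exp (-(N ^ a) ^ 2 / 32) ≤ 1 := by
  have h1 := tendsto_rpow_mul_exp_neg_mul_atTop_nhds_zero (5 / a) (1 / 32) (by norm_num)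
  have h2 := (h1.comp (tendsto_rpow_atTop ha)).eventually
    (gt_mem_nhds (show (0 : ℝ) < 1 / 200 by norm_num))
  filter_upwards [h2, eventually_ge_atTop (1 : ℝ)] with N hN hN1
  have hN0 : 0 ≤ N := by linarith
  have hx : 1 ≤ N ^ a := Real.one_le_rpow hN1 ha.le
  have e1 : (N ^ a) ^ (5 / a) = N ^ 5 := by
    rw [← Real.rpow_mul hN0, mul_div_cancel₀ _ ha.ne']
    exact_mod_cast Real.rpow_natCast N 5
  simp only [Function.comp] at hN
  rw [e1] at hN
  have h3 : Real.exp (-(N ^ a) ^ 2 / 32) ≤ Real.exp (-(1 / 32) * N ^ a) :=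
    Real.exp_le_exp.2 (by nlinarith)
  have h4 : N ^ 5 * Real.exp (-(N ^ a) ^ 2 / 32) ≤ N ^ 5 * Real.exp (-(1 / 32) * N ^ a) :=
    mul_le_mul_of_nonneg_left h3 (by positivity)
  linarith

theorem par1_un (c K : ℕ) (hc : 1 ≤ c) (a : ℝ) (ha : 0 < a) (hK : 16 * (c : ℝ) / a < K) :
    ∀ᶠ N : ℝ in atTop, N ^ (8 * c) * (2 ^ 102 / N ^ a) ^ K < 1 := by
  filter_upwards [eventually_gt_atTop ((2 ^ 102 : ℝ) ^ K), eventually_ge_atTop (1 : ℝ)]
    with N hN hN1
  have hN0 : 0 < N := by linarith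
  have hc1 : (1 : ℝ) ≤ c := by exact_mod_cast hc
  have h1 : 16 * (c : ℝ) < a * K := by
    rw [div_lt_iff₀ ha] at hK
    linarith
  have h2 : N ^ (8 * c + 1) ≤ (N ^ a) ^ K := by
    rw [← Real.rpow_natCast (N ^ a) K, ← Real.rpow_mul hN0.le, ← Real.rpow_natCast N]
    refine Real.rpow_le_rpow_of_exponent_le hN1 ?_
    push_cast
    linarith
  have h3 : 0 < (N ^ a) ^ K := by positivity
  rw [div_pow, ← mul_div_assoc, div_lt_one h3]
  refine lt_of_lt_of_le ?_ h2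
  rw [pow_succ]
  exact mul_lt_mul_of_pos_left hN (by positivity)

/-- the hypotheses of the construction hold for large `d` -/
theorem par_ev (c : ℕ) (hc : 2 ≤ c) (a : ℝ) (ha : 0 < a) (ha1 : a ≤ 1) (K : ℕ)
    (hK : 16 * (c : ℝ) / a < K) : ∀ᶠ d : ℕ in atTop,
      Par c (d + 1) (K * (d + 1)) ((100 * ((K * (d + 1) : ℕ) : ℝ)) ^ a)
        ((100 * ((K * (d + 1) : ℕ) : ℝ)) ^ (1 / ((c : ℝ) - 1))) := by
  have hc2 : (2 : ℝ) ≤ c := by exact_mod_cast hc
  have hK0 : (0 : ℝ) < K := lt_trans (by positivity) hK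
  have hK1 : 1 ≤ K := by exact_mod_cast hK0
  have hle : ∀ d : ℕ, ((d + 1 : ℕ) : ℝ) ≤ 100 * ((K * (d + 1) : ℕ) : ℝ) := fun d => by
    have h : d + 1 ≤ 100 * (K * (d + 1)) := by
      have := Nat.le_mul_of_pos_left (d + 1) hK1
      omega
    exact_mod_cast h
  have hT : Tendsto (fun d : ℕ => 100 * ((K * (d + 1) : ℕ) : ℝ)) atTop atTop :=
    tendsto_atTop_mono hle (tendsto_natCast_atTop_atTop.comp (tendsto_add_atTop_nat 1))
  have hH := (tendsto_rpow_atTop ha).eventually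
    ((eventually_ge_atTop (12 : ℝ)).and (eventually_ge_atTop (c : ℝ)))
  filter_upwards [hT.eventually ((par1_far a ha).and ((par1_un c K (by omega) a ha hK).and
    (hH.and (eventually_ge_atTop (1 : ℝ)))))] with d hd
  obtain ⟨h1, h2, ⟨h3, h4⟩, h5⟩ := hd
  set N : ℝ := 100 * ((K * (d + 1) : ℕ) : ℝ) with hN
  have hN0 : 0 < N := by linarith
  have he : 0 < (c : ℝ) - 1 := by linarith
  refine ⟨hc, h3, h4, ?_, Real.one_le_rpow h5 (by positivity), ?_, ?_, hle d, h1, ?_⟩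
  · calc N ^ a ≤ N ^ (1 : ℝ) := Real.rpow_le_rpow_of_exponent_le h5 ha1
      _ = N := Real.rpow_one N
  · calc N ^ (1 / ((c : ℝ) - 1)) ≤ N ^ (1 : ℝ) :=
        Real.rpow_le_rpow_of_exponent_le h5 (by rw [div_le_one he]; linarith)
      _ = N := Real.rpow_one N
  · rw [← Real.rpow_natCast, ← Real.rpow_mul hN0.le, Nat.cast_sub (by omega), Nat.cast_one,
      one_div_mul_cancel he.ne', Real.rpow_one]
  · have e : N ^ (8 * c * (d + 1)) * (2 ^ 102 / N ^ a) ^ (K * (d + 1))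
        = (N ^ (8 * c) * (2 ^ 102 / N ^ a) ^ K) ^ (d + 1) := by
      rw [mul_pow (N ^ (8 * c)), ← pow_mul, ← pow_mul]
    rw [e]
    exact pow_lt_one₀ (by positivity) h2 (by omega)

end Pool.Agent.P.MP_83f3dc_co.KT
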