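import Pool.Agent.P.MP_83f3dc_co.KTParD

set_option autoImplicit false
set_option linter.unusedSectionVars false
set_option linter.unusedVariables false

open MeasureTheory ProbabilityTheory Module Set Filter Topology
open scoped RealInnerProductSpace ENNReal

noncomputable section

namespace Pool.Agent.P.MP_83f3dc_co.KT

theorem par2_real (u a N d C : ℝ) (hu : 0 ≤ u) (ha : 0 < a) (hN : 0 < N) (hd : 0 < d) (hC : 0 < C)
    (h1 : N ≤ C * d) (h2 : 160 * C ^ (1 / 2 + u / 2 + 2 * a) ≤ d ^ a) :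
    4 * d ^ (-(1 / 2 + u / 2 + 3 * a)) * N ≤ √(N / (2 * N ^ u)) / (20 * (N ^ a) ^ 2) := by
  set e := 1 / 2 + u / 2 + 2 * a with he
  have he0 : 0 ≤ e := by positivity
  have h3 : N ^ ((1 - u) / 2) / 2 ≤ √(N / (2 * N ^ u)) := by
    apply Real.le_sqrt_of_sq_le
    have e1 : (N ^ ((1 - u) / 2)) ^ 2 = N / N ^ u := by
      rw [← Real.rpow_natCast, ← Real.rpow_mul hN.le]
      have : (1 - u) / 2 * ((2 : ℕ) : ℝ) = 1 - u := by push_cast; ring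
      rw [this, Real.rpow_sub hN, Real.rpow_one]
    have hp : 0 < N / N ^ u := div_pos hN (Real.rpow_pos_of_pos hN u)
    have e2 : N / (2 * N ^ u) = N / N ^ u / 2 := by ring
    rw [div_pow, e1, e2]
    linarith
  have h4 : (N ^ a) ^ 2 = N ^ (2 * a) := by
    rw [← Real.rpow_natCast, ← Real.rpow_mul hN.le]
    congr 1
    push_cast
    ring
  have h5 : 0 < N ^ (2 * a) := Real.rpow_pos_of_pos hN _
  have h6 : N * N ^ (2 * a) = N ^ e * N ^ ((1 - u) / 2) := by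
    rw [← Real.rpow_add hN]
    nth_rewrite 1 [← Real.rpow_one N]
    rw [← Real.rpow_add hN]
    congr 1
    rw [he]
    ring
  have h7 : N ^ e ≤ C ^ e * d ^ e := by
    rw [← Real.mul_rpow hC.le hd.le]
    exact Real.rpow_le_rpow hN.le h1 he0
  have h8 : d ^ (-(1 / 2 + u / 2 + 3 * a)) * (d ^ a * d ^ e) = 1 := by
    rw [← Real.rpow_add hd, ← Real.rpow_add hd]
    have : -(1 / 2 + u / 2 + 3 * a) + (a + e) = 0 := by rw [he]; ring
    rw [this, Real.rpow_zero]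
  have h9 : 0 < d ^ (-(1 / 2 + u / 2 + 3 * a)) := Real.rpow_pos_of_pos hd _
  have h10 : 0 < d ^ e := Real.rpow_pos_of_pos hd _
  have h11 : 0 < N ^ ((1 - u) / 2) := Real.rpow_pos_of_pos hN _
  have h12 : 160 * N ^ e ≤ d ^ a * d ^ e := by nlinarith
  have h13 : d ^ (-(1 / 2 + u / 2 + 3 * a)) * (160 * N ^ e) ≤ 1 :=
    (mul_le_mul_of_nonneg_left h12 h9.le).trans h8.le
  rw [h4, le_div_iff₀ (by positivity)]
  refine le_trans ?_ h3
  calc 4 * d ^ (-(1 / 2 + u / 2 + 3 * a)) * N * (20 * N ^ (2 * a))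
      = d ^ (-(1 / 2 + u / 2 + 3 * a)) * 80 * (N * N ^ (2 * a)) := by ring
    _ = d ^ (-(1 / 2 + u / 2 + 3 * a)) * (160 * N ^ e) * (N ^ ((1 - u) / 2) / 2) := by
      rw [h6]; ring
    _ ≤ 1 * (N ^ ((1 - u) / 2) / 2) := mul_le_mul_of_nonneg_right h13 (by positivity)
    _ = _ := one_mul _

theorem gain_ev (c : ℕ) (hc : 2 ≤ c) (a : ℝ) (ha : 0 < a) (ha1 : a ≤ 1) (K : ℕ) (hK : 1 ≤ K) :
    ∀ᶠ d : ℕ in atTop,
      4 * (d : ℝ) ^ (-(1 / 2 + 1 / (2 * ((c : ℝ) - 1)) + 3 * a)) * (100 * ((K * (d + 1) : ℕ) : ℝ)) ≤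
        gain (K * (d + 1)) ((100 * ((K * (d + 1) : ℕ) : ℝ)) ^ a)
          ((100 * ((K * (d + 1) : ℕ) : ℝ)) ^ (1 / ((c : ℝ) - 1))) := by
  have hc1 : (1 : ℝ) ≤ (c : ℝ) - 1 := by
    have : (2 : ℝ) ≤ c := by exact_mod_cast hc
    linarith
  have hK' : (1 : ℝ) ≤ K := by exact_mod_cast hK
  have ht : Tendsto (fun d : ℕ => (d : ℝ) ^ a) atTop atTop :=
    (tendsto_rpow_atTop ha).comp tendsto_natCast_atTop_atTop
  filter_upwards [ht.eventually_ge_atTop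
    (160 * (200 * (K : ℝ)) ^ (1 / 2 + 1 / ((c : ℝ) - 1) / 2 + 2 * a)), eventually_ge_atTop 1]
    with d h2 hd
  have hd' : (1 : ℝ) ≤ d := by exact_mod_cast hd
  have e : 1 / (2 * ((c : ℝ) - 1)) = 1 / ((c : ℝ) - 1) / 2 := by
    rw [div_div, mul_comm]
  rw [e, gain]
  refine par2_real _ a _ d (200 * K) (by positivity) ha ?_ (by linarith) (by positivity) ?_ h2
  · push_cast
    positivity
  · push_cast
    nlinarith

theorem size_ev (K : ℕ) : ∀ᶠ d : ℕ in atTop,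
    100 * ((K * (d + 1) : ℕ) : ℝ) * (d + 1) ≤ 3 * (d : ℝ) ^ (-(3 / 2 : ℝ)) * (d : ℝ) ^ 4 := by
  have ht : Tendsto (fun d : ℕ => (d : ℝ) ^ (1 / 2 : ℝ)) atTop atTop :=
    (tendsto_rpow_atTop (by norm_num)).comp tendsto_natCast_atTop_atTop
  filter_upwards [ht.eventually_ge_atTop (200 * (K : ℝ)), eventually_ge_atTop 1] with d h2 hd
  have hd' : (1 : ℝ) ≤ d := by exact_mod_cast hd
  have hd0 : (0 : ℝ) < d := by linarith
  have e : (d : ℝ) ^ (-(3 / 2 : ℝ)) * (d : ℝ) ^ 4 = (d : ℝ) ^ (1 / 2 : ℝ) * (d : ℝ) ^ 2 := by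
    rw [← Real.rpow_natCast, ← Real.rpow_natCast, ← Real.rpow_add hd0, ← Real.rpow_add hd0]
    congr 1
    push_cast
    norm_num
  have hK : (0 : ℝ) ≤ K := Nat.cast_nonneg K
  have h3 : ((d : ℝ) + 1) ^ 2 ≤ 4 * (d : ℝ) ^ 2 := by nlinarith
  have h4 : 200 * (K : ℝ) * (d : ℝ) ^ 2 ≤ (d : ℝ) ^ (1 / 2 : ℝ) * (d : ℝ) ^ 2 :=
    mul_le_mul_of_nonneg_right h2 (by positivity)
  have h5 : (K : ℝ) * ((d : ℝ) + 1) ^ 2 ≤ K * (4 * (d : ℝ) ^ 2) := mul_le_mul_of_nonneg_left h3 hK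
  have h6 : 0 ≤ (K : ℝ) * (d : ℝ) ^ 2 := by positivity
  rw [mul_assoc 3, e]
  push_cast
  nlinarith

/-- choice of the cluster size -/
theorem exists_t (N d k : ℕ) (g : ℝ) (hN : 1 ≤ N) (hk : 1 ≤ k) (hg : 0 < g) (hg4 : 4 * g ≤ 1)
    (h : (N : ℝ) * (d + 1) ≤ 3 * g * k) :
    ∃ t : ℕ, 1 ≤ t ∧ 2 * (k : ℝ) + N * d ≤ t * (N + 4 * g * N) ∧
      ((N * t : ℕ) : ℝ) ≤ (2 - g) * k := by
  have hN' : (1 : ℝ) ≤ N := by exact_mod_cast hN
  have hk' : (1 : ℝ) ≤ k := by exact_mod_cast hk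
  have hd : (0 : ℝ) ≤ d := Nat.cast_nonneg d
  have hq : 0 < (N : ℝ) + 4 * g * N := by positivity
  have hx : 0 < (2 * (k : ℝ) + N * d) / (N + 4 * g * N) := by positivity
  refine ⟨⌈(2 * (k : ℝ) + N * d) / (N + 4 * g * N)⌉₊, Nat.ceil_pos.2 hx, ?_, ?_⟩
  · exact (div_le_iff₀ hq).1 (Nat.le_ceil _)
  · have h1 := (Nat.ceil_lt_add_one hx.le).le
    generalize ⌈(2 * (k : ℝ) + N * d) / (N + 4 * g * N)⌉₊ = t at h1
    have h2 : ((t : ℝ) - 1) * (N + 4 * g * N) ≤ 2 * (k : ℝ) + N * d :=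
      (le_div_iff₀ hq).1 (by linarith)
    have h3 : 0 < 1 + 4 * g := by linarith
    push_cast
    refine le_of_mul_le_mul_right ?_ h3
    have h4 : 0 ≤ (N : ℝ) * d * g := by positivity
    have h5 : (N : ℝ) * (d + 1) * (1 + 4 * g) ≤ 3 * g * k * (1 + 4 * g) :=
      mul_le_mul_of_nonneg_right h h3.le
    have h6 : 0 ≤ g * k * (1 - 4 * g) := mul_nonneg (by positivity) (by linarith)
    nlinarith

end Pool.Agent.P.MP_83f3dc_co.KT
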