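import Pool.Agent.P.MP_83f3dc_co.KTGm

set_option autoImplicit false
set_option linter.unusedSectionVars false
set_option linter.unusedVariables false

open MeasureTheory ProbabilityTheory Module Set Filter Topology
open scoped RealInnerProductSpace ENNReal

noncomputable section

namespace Pool.Agent.P.MP_83f3dc_co.KT

variable {V : Type} [NormedAddCommGroup V] [InnerProductSpace ℝ V] [FiniteDimensional ℝ V]
  [MeasurableSpace V] [BorelSpace V]

theorem prob_icc (r : ℝ) (hr : 0 ≤ r) : gaussianReal 0 1 (Icc (-r) r) ≤ ENNReal.ofReal r := by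
  rw [gaussianReal_apply _ one_ne_zero]
  have h1 : ∀ x, gaussianPDF 0 1 x ≤ ENNReal.ofReal (1 / 2) := fun x => by
    refine ENNReal.ofReal_le_ofReal ?_
    rw [gaussianPDFReal_def]
    have h2 : (2 : ℝ) ≤ √(2 * Real.pi * ((1 : NNReal) : ℝ)) := by
      refine Real.le_sqrt_of_sq_le ?_
      have := Real.pi_gt_three
      simp only [NNReal.coe_one]
      linarith
    have h3 : Real.exp (-(x - 0) ^ 2 / (2 * ((1 : NNReal) : ℝ))) ≤ 1 := by
      refine Real.exp_le_one_iff.2 ?_
      simp only [NNReal.coe_one]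
      have := sq_nonneg (x - 0)
      linarith
    have h4 : (√(2 * Real.pi * ((1 : NNReal) : ℝ)))⁻¹ ≤ 1 / 2 := by
      rw [one_div]
      exact inv_anti₀ two_pos h2
    exact (mul_le_mul h4 h3 (Real.exp_pos _).le (by norm_num)).trans (le_of_eq (mul_one _))
  refine (lintegral_mono h1).trans (le_of_eq ?_)
  rw [setLIntegral_const, Real.volume_Icc, ← ENNReal.ofReal_mul (by norm_num)]
  exact congrArg _ (by ring)

theorem ball_le (r : ℝ) (hr : 0 ≤ r) :
    stdGaussian V {x | ‖x‖ ≤ r} ≤ ENNReal.ofReal (r ^ finrank ℝ V) := by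
  rw [stdGaussian_eq_map_pi_orthonormalBasis (stdOrthonormalBasis ℝ V),
    Measure.map_apply (by fun_prop) (isClosed_le continuous_norm continuous_const).measurableSet]
  have h1 : (fun x : Fin (finrank ℝ V) → ℝ => ∑ i, x i • stdOrthonormalBasis ℝ V i) ⁻¹'
      {x | ‖x‖ ≤ r} ⊆ Set.pi univ fun _ => Icc (-r) r := by
    intro x hx i _
    have h2 := (stdOrthonormalBasis ℝ V).orthonormal.inner_right_fintype x i
    have h3 := abs_real_inner_le_norm (stdOrthonormalBasis ℝ V i)
      (∑ i, x i • stdOrthonormalBasis ℝ V i)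
    rw [h2, (stdOrthonormalBasis ℝ V).orthonormal.1 i, one_mul] at h3
    exact abs_le.1 (h3.trans hx)
  refine (measure_mono h1).trans ?_
  rw [Measure.pi_pi, Finset.prod_const, Finset.card_univ, Fintype.card_fin,
    ENNReal.ofReal_pow hr]
  exact pow_le_pow_left' (prob_icc r hr) _

theorem norm_ge (R : ℝ) (hR : 0 < R) :
    stdGaussian V {x | R ≤ ‖x‖} ≤ ENNReal.ofReal ((finrank ℝ V : ℝ) / R ^ 2) := by
  have h1 := mul_meas_ge_le_integral_of_nonneg (μ := stdGaussian V) (f := fun x : V => ‖x‖ ^ 2)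
    (ae_of_all _ fun x => sq_nonneg _) (integrable_norm_pow 2) (R ^ 2)
  rw [integral_norm_sq] at h1
  have h2 : {x : V | R ≤ ‖x‖} ⊆ {x | R ^ 2 ≤ ‖x‖ ^ 2} := fun x hx =>
    pow_le_pow_left₀ hR.le hx 2
  refine (measure_mono h2).trans ?_
  rw [← ofReal_measureReal]
  refine ENNReal.ofReal_le_ofReal ?_
  rw [le_div_iff₀ (by positivity), mul_comm]
  exact h1

/-- vectors with a short or long image, or long vectors -/
def Aset {c D : ℕ} (g : Fin c → E D) (H R : ℝ) : Set (E D) :=
  {u | ‖Gm g u‖ ≤ 1 / H ∨ H ≤ ‖Gm g u‖ ∨ R ≤ ‖u‖}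

/-- pairs whose second image is close to the line of the first image -/
def Cset {c D : ℕ} (g : Fin c → E D) (β : ℝ) : Set (E D × E D) :=
  {q | ‖pr (Gm g q.1) (Gm g q.2)‖ ≤ β}

theorem measurable_Aset {c D : ℕ} (g : Fin c → E D) (H R : ℝ) : MeasurableSet (Aset g H R) := by
  have h := (continuous_Gm g).norm
  exact (isClosed_le h continuous_const).measurableSet.union
    ((isClosed_le continuous_const h).measurableSet.union
      (isClosed_le continuous_const continuous_norm).measurableSet)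

theorem measurable_Cset {c D : ℕ} (g : Fin c → E D) (β : ℝ) : MeasurableSet (Cset g β) := by
  have h := (continuous_Gm g).measurable
  exact measurableSet_le
    (measurable_pr (h.comp measurable_fst) (h.comp measurable_snd)).norm measurable_const

theorem Aset_le {c D : ℕ} {g : Fin c → E D} (hg : Orthonormal ℝ g) (hc : 1 ≤ c) {H R : ℝ}
    (hH : 1 ≤ H) (hcH : (c : ℝ) ≤ H) (hHR : H ≤ R) (hDR : (D : ℝ) ≤ R) :
    stdGaussian (E D) (Aset g H R) ≤ ENNReal.ofReal (3 / H) := by
  have h0 : 0 < H := by linarith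
  have h0' : 0 < R := by linarith
  have e : Aset g H R = Gm g ⁻¹' {w | ‖w‖ ≤ 1 / H} ∪ (Gm g ⁻¹' {w | H ≤ ‖w‖} ∪ {u | R ≤ ‖u‖}) :=
    rfl
  have a1 := ball_le (V := E c) (1 / H) (by positivity)
  have a2 := norm_ge (V := E c) H h0
  have a3 := norm_ge (V := E D) R h0'
  rw [finrank_euclideanSpace_fin] at a1 a2 a3
  rw [← (mp_Gm hg).measure_preimage
    (isClosed_le continuous_norm continuous_const).measurableSet.nullMeasurableSet] at a1
  rw [← (mp_Gm hg).measure_preimage
    (isClosed_le continuous_const continuous_norm).measurableSet.nullMeasurableSet] at a2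
  have b1 : (1 / H) ^ c ≤ 1 / H :=
    pow_le_of_le_one (by positivity) ((div_le_one h0).2 hH) (by omega)
  have b2 : (c : ℝ) / H ^ 2 ≤ 1 / H := by
    rw [div_le_div_iff₀ (by positivity) h0]
    nlinarith
  have b3 : (D : ℝ) / R ^ 2 ≤ 1 / H := by
    rw [div_le_div_iff₀ (by positivity) h0]
    nlinarith [mul_le_mul hDR hHR h0.le h0'.le]
  have hp : (0 : ℝ) ≤ 1 / H := by positivity
  rw [e]
  refine (measure_union_le _ _).trans ?_
  refine (add_le_add (a1.trans (ENNReal.ofReal_le_ofReal b1)) ((measure_union_le _ _).trans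
    (add_le_add (a2.trans (ENNReal.ofReal_le_ofReal b2))
      (a3.trans (ENNReal.ofReal_le_ofReal b3))))).trans (le_of_eq ?_)
  rw [← ENNReal.ofReal_add hp hp, ← ENNReal.ofReal_add hp (add_nonneg hp hp)]
  exact congrArg _ (by ring)

theorem Cset_le {c D : ℕ} {g : Fin c → E D} (hg : Orthonormal ℝ g) {β : ℝ} (h0 : 0 ≤ β)
    (h1 : β ≤ 1) (x : E D) :
    stdGaussian (E D) {u | (x, u) ∈ Cset g β} ≤ ENNReal.ofReal (β ^ (c - 1)) := by
  have e : {u | (x, u) ∈ Cset g β} = Gm g ⁻¹' {w | ‖pr (Gm g x) w‖ ≤ β} := rfl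
  have hm : MeasurableSet {w : E c | ‖pr (Gm g x) w‖ ≤ β} :=
    measurableSet_le (measurable_pr measurable_const measurable_id).norm measurable_const
  rw [e, (mp_Gm hg).measure_preimage hm.nullMeasurableSet]
  generalize Gm g x = a
  by_cases ha : a = 0
  · have e2 : {w : E c | ‖pr a w‖ ≤ β} = {w | ‖w‖ ≤ β} := by
      ext w
      rw [mem_ofPred_eq, mem_ofPred_eq, pr_of_inner_eq_zero (by rw [ha, inner_zero_left])]
    rw [e2]
    refine (ball_le β h0).trans (ENNReal.ofReal_le_ofReal ?_)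
    rw [finrank_euclideanSpace_fin]
    exact pow_le_pow_of_le_one h0 h1 (Nat.sub_le c 1)
  · have e2 : {w : E c | ‖pr a w‖ ≤ β} = prS a ⁻¹' {z | ‖z‖ ≤ β} := rfl
    have h2 := finrank_orth ha
    rw [finrank_euclideanSpace_fin] at h2
    rw [e2, (mp_prS a).measure_preimage
      (isClosed_le continuous_norm continuous_const).measurableSet.nullMeasurableSet,
      show c - 1 = finrank ℝ (ℝ ∙ a)ᗮ by omega]
    exact ball_le β h0

end Pool.Agent.P.MP_83f3dc_co.KT
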