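import Pool.Agent.P.MP_83f3dc_co.KTHom

set_option autoImplicit false
set_option linter.unusedSectionVars false
set_option linter.unusedVariables false

open MeasureTheory ProbabilityTheory Module Set Filter Topology
open scoped RealInnerProductSpace ENNReal

noncomputable section

namespace Pool.Agent.P.MP_83f3dc_co.KT

theorem pts_choice {ι : Type} (A : ι → Set ℝ) (hA : ∀ p, (A p).Infinite) (S : Finset ι) :
    ∃ v : ι → ℝ, (∀ p, v p ∈ A p) ∧ Set.InjOn v S := by
  classical
  induction S using Finset.induction_on with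
  | empty => exact ⟨fun p => (hA p).nonempty.some, fun p => (hA p).nonempty.some_mem, by simp⟩
  | insert a S ha ih =>
    obtain ⟨v, h1, h2⟩ := ih
    obtain ⟨y, hy, hyS⟩ := (hA a).exists_notMem_finset (S.image v)
    have e : ∀ p ∈ S, Function.update v a y p = v p := fun p hp =>
      Function.update_of_ne (fun h : p = a => ha (h ▸ hp)) _ _
    refine ⟨Function.update v a y, fun p => ?_, fun p hp q hq h => ?_⟩
    · rcases eq_or_ne p a with rfl | h
      · rwa [Function.update_self]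
      · rw [Function.update_of_ne h]
        exact h1 p
    · rw [Finset.coe_insert, Set.mem_insert_iff, Finset.mem_coe] at hp hq
      rcases hp with rfl | hp <;> rcases hq with rfl | hq
      · rfl
      · rw [Function.update_self, e q hq] at h
        exact absurd (Finset.mem_image.2 ⟨q, hq, h.symm⟩) hyS
      · rw [Function.update_self, e p hp] at h
        exact absurd (Finset.mem_image.2 ⟨p, hp, h⟩) hyS
      · rw [e p hp, e q hq] at h
        exact h2 hp hq h

theorem pts_zeros {d t : ℕ} (c : ℝ) (g : Fin d → ℝ) (hg : ∃ a, g a ≠ 0) (sg : Fin t → ℝ)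
    (hs : Function.Injective sg) :
    (Finset.univ.filter fun j : Fin t =>
      c + ∑ a : Fin d, g a * sg j ^ ((a : ℕ) + 1) = 0).card ≤ d := by
  classical
  let P : Polynomial ℝ := Polynomial.C c + ∑ i : Fin d, Polynomial.monomial ((i : ℕ) + 1) (g i)
  have hP : ∀ y : ℝ, P.eval y = c + ∑ a : Fin d, g a * y ^ ((a : ℕ) + 1) := by
    intro y
    simp only [P, Polynomial.eval_add, Polynomial.eval_C, Polynomial.eval_finsetSum,
      Polynomial.eval_monomial]
  have hP0 : P ≠ 0 := by
    intro h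
    obtain ⟨i, hi⟩ := hg
    apply hi
    have := congrArg (fun Q : Polynomial ℝ => Q.coeff ((i : ℕ) + 1)) h
    simpa [P, Polynomial.coeff_monomial, Polynomial.coeff_C, Fin.val_inj] using this
  have hdeg : P.natDegree ≤ d := by
    refine (Polynomial.natDegree_add_le _ _).trans (max_le (by simp) ?_)
    refine Polynomial.natDegree_sum_le_of_forall_le _ _ fun i _ => ?_
    exact (Polynomial.natDegree_monomial_le _).trans i.2
  refine le_trans ?_ ((Multiset.toFinset_card_le P.roots).trans (P.card_roots'.trans hdeg))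
  refine Finset.card_le_card_of_injOn sg ?_ hs.injOn
  intro j hj
  have hj' := (Finset.mem_filter.1 (Finset.mem_coe.1 hj)).2
  simp only [Finset.mem_coe, Multiset.mem_toFinset, Polynomial.mem_roots hP0, Polynomial.IsRoot]
  rw [hP, hj']

theorem pts_norm {d : ℕ} (hd : 0 < d) {y : ℝ} (h0 : 0 < y) (h1 : y < 1) :
    ‖(WithLp.toLp 2 (fun a : Fin d => y ^ ((a : ℕ) + 1)) : E d)‖ ≤ d := by
  have hd' : (1 : ℝ) ≤ d := by exact_mod_cast hd
  refine (pow_le_pow_iff_left₀ (norm_nonneg _) (by linarith) two_ne_zero).1 ?_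
  rw [EuclideanSpace.real_norm_sq_eq]
  calc ∑ a : Fin d, (y ^ ((a : ℕ) + 1)) ^ 2 ≤ ∑ a : Fin d, (1 : ℝ) :=
        Finset.sum_le_sum fun a _ => pow_le_one₀ (by positivity) (pow_le_one₀ h0.le h1.le)
    _ = d := by simp
    _ ≤ (d : ℝ) ^ 2 := by nlinarith

theorem clusters {d N : ℕ} (hd : 0 < d) (u : Fin N → E (d + 1)) (r : ℝ) (hr : 0 < r) (t : ℕ) :
    ∃ (s lam : Fin N → ℝ) (x : Fin N × Fin t → E d), (∀ i, s i = 1 ∨ s i = -1) ∧
      (∀ i, 0 < lam i) ∧ Function.Injective x ∧
      (∀ p, ‖lam p.1 • hom (x p) - s p.1 • u p.1‖ ≤ r) ∧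
      ∀ f : E (d + 1), (∃ a : Fin d, f a.succ ≠ 0) → ∀ i,
        (Finset.univ.filter fun j : Fin t => ⟪f, hom (x (i, j))⟫ = 0).card ≤ d := by
  classical
  choose s lam x0 hs hl hx using fun i => near_chart (u i) (r / 2) (by positivity)
  have hd' : (0 : ℝ) < d := by exact_mod_cast hd
  obtain ⟨eta, he0, he⟩ : ∃ eta : Fin N → ℝ, (∀ i, 0 < eta i) ∧ ∀ i, lam i * (eta i * d) = r / 2 :=
    ⟨fun i => r / 2 / (lam i * d), fun i => by have := hl i; positivity, fun i => by
      have := hl i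
      field_simp⟩
  obtain ⟨v, hv, hinj⟩ := pts_choice
    (fun p : Fin N × Fin t => Set.Ioo (x0 p.1 ⟨0, hd⟩) (x0 p.1 ⟨0, hd⟩ + eta p.1))
    (fun p => Set.Ioo_infinite (by linarith [he0 p.1])) Finset.univ
  obtain ⟨sg, s0, s1, hsg⟩ : ∃ sg : Fin N × Fin t → ℝ, (∀ p, 0 < sg p) ∧ (∀ p, sg p < 1) ∧
      ∀ p, x0 p.1 ⟨0, hd⟩ + eta p.1 * sg p = v p := by
    refine ⟨fun p => (v p - x0 p.1 ⟨0, hd⟩) / eta p.1, fun p => ?_, fun p => ?_, fun p => ?_⟩
    · exact div_pos (sub_pos.2 (hv p).1) (he0 _)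
    · rw [div_lt_one (he0 _)]
      linarith [(hv p).2]
    · rw [mul_div_cancel₀ _ (he0 _).ne']
      ring
  have hi : ∀ p q, v p = v q → p = q := fun p q h =>
    hinj (Finset.mem_coe.2 (Finset.mem_univ p)) (Finset.mem_coe.2 (Finset.mem_univ q)) h
  refine ⟨s, lam, fun p => x0 p.1 + eta p.1 •
    (WithLp.toLp 2 (fun a : Fin d => sg p ^ ((a : ℕ) + 1)) : E d), hs, hl, fun p q h => ?_,
    fun p => ?_, fun f hf i => ?_⟩
  · refine hi p q ?_
    have := congrArg (fun z : E d => z ⟨0, hd⟩) h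
    rw [← hsg, ← hsg]
    simpa using this
  · have e : ∀ z : E d, lam p.1 • hom z - s p.1 • u p.1 =
        lam p.1 • (hom z - hom (x0 p.1)) + (lam p.1 • hom (x0 p.1) - s p.1 • u p.1) := by
      intro z
      rw [smul_sub]
      abel
    rw [e]
    refine (norm_add_le _ _).trans ?_
    rw [norm_smul, norm_hom_sub, add_sub_cancel_left, norm_smul, Real.norm_eq_abs,
      Real.norm_eq_abs, abs_of_pos (hl _), abs_of_pos (he0 _)]
    have h1 := mul_le_mul_of_nonneg_left
      (mul_le_mul_of_nonneg_left (pts_norm hd (s0 p) (s1 p)) (he0 p.1).le) (hl p.1).le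
    linarith [he p.1, hx p.1]
  · obtain ⟨a, ha⟩ := hf
    refine le_trans (le_of_eq ?_) (pts_zeros (f 0 + ∑ b : Fin d, f b.succ * x0 i b)
      (fun b => f b.succ * eta i) ⟨a, mul_ne_zero ha (he0 i).ne'⟩ (fun j => sg (i, j))
      fun j j' h => ?_)
    · refine congrArg Finset.card (Finset.filter_congr fun j _ => ?_)
      rw [inner_hom, add_assoc, ← Finset.sum_add_distrib]
      refine Eq.congr_left (congrArg _ (Finset.sum_congr rfl fun b _ => ?_))
      simp only [PiLp.add_apply, PiLp.smul_apply, smul_eq_mul]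
      ring
    · have h' : sg (i, j) = sg (i, j') := h
      have := hi (i, j) (i, j') (by rw [← hsg, ← hsg, h'])
      exact (Prod.ext_iff.1 this).2

end Pool.Agent.P.MP_83f3dc_co.KT
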