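import Pool.Agent.P.MP_83f3dc_co.KTKer

set_option autoImplicit false
set_option linter.unusedSectionVars false
set_option linter.unusedVariables false

open MeasureTheory ProbabilityTheory Module Set Filter Topology
open scoped RealInnerProductSpace ENNReal

noncomputable section

namespace Pool.Agent.P.MP_83f3dc_co.KT

variable {V : Type} [NormedAddCommGroup V] [InnerProductSpace ℝ V] [FiniteDimensional ℝ V]
  [MeasurableSpace V] [BorelSpace V]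

theorem test1_far {N : ℕ} (S : Finset (Fin N)) (b : Fin N → V) (hb : ∀ i ∈ S, ‖b i‖ = 1) {δ : ℝ}
    (hδ : 0 < δ) (M : ℕ) {T h : ℝ} (hT : 12 ≤ T) (hh : 0 ≤ h) {a : V} (ha : ‖a‖ = 1)
    (hf : ∀ i ∈ S, δ / 4 ≤ ‖pr (b i) a‖) :
    -(N * M * Real.exp (-T ^ 2 * δ ^ 2 / 32)) ≤
      ∑ i ∈ S, ∑ j : Fin M, Kr a ((T + (j : ℕ) * h) • b i) := by
  have e : -T ^ 2 * (δ / 4) ^ 2 / 2 = -T ^ 2 * δ ^ 2 / 32 := by ring
  have h1 : ∀ i ∈ S, -(M * Real.exp (-T ^ 2 * δ ^ 2 / 32)) ≤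
      ∑ j : Fin M, Kr a ((T + (j : ℕ) * h) • b i) := fun i hi => by
    have := Finset.card_nsmul_le_sum Finset.univ (fun j : Fin M => Kr a ((T + (j : ℕ) * h) • b i))
      (-Real.exp (-T ^ 2 * δ ^ 2 / 32)) fun j _ => by
        have h2 := Kr_far ha (hb i hi) (T := T) (t := T + (j : ℕ) * h) (by linarith)
          (le_add_of_nonneg_right (by positivity)) (by positivity) (hf i hi)
        rw [e] at h2
        exact (abs_le.1 h2).1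
    simpa using this
  have h2 := Finset.card_nsmul_le_sum S _ _ h1
  have h3 : (S.card : ℝ) ≤ N := by
    exact_mod_cast (Finset.card_le_univ S).trans_eq (Fintype.card_fin N)
  rw [nsmul_eq_mul] at h2
  have h4 : 0 ≤ M * Real.exp (-T ^ 2 * δ ^ 2 / 32) := by positivity
  nlinarith

theorem test1_near {N : ℕ} (Γ : Finset (Fin N)) (b : Fin N → V) (hb : ∀ i ∈ Γ, ‖b i‖ = 1) {δ : ℝ}
    (hδ : 0 < δ) (hδ1 : δ ≤ 1) (hsep : ∀ i ∈ Γ, ∀ j ∈ Γ, i ≠ j → δ ≤ ‖pr (b j) (b i)‖)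
    (M : ℕ) {T h : ℝ} (hT : 12 ≤ T) (hh : 0 ≤ h) {a : V} (ha : ‖a‖ = 1) {i₀ : Fin N} (hi : i₀ ∈ Γ)
    (hn : ‖pr (b i₀) a‖ < δ / 4) {c : ℝ} (hc : ∀ j : Fin M, c ≤ Kr a ((T + (j : ℕ) * h) • b i₀)) :
    M * c - N * M * Real.exp (-T ^ 2 * δ ^ 2 / 32) ≤
      ∑ i ∈ Γ, ∑ j : Fin M, Kr a ((T + (j : ℕ) * h) • b i) := by
  rw [← Finset.add_sum_erase _ _ hi]
  have h1 := test1_far (Γ.erase i₀) b (fun i hi => hb i (Finset.mem_of_mem_erase hi)) hδ M hT hh ha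
    fun i hi' => by
      by_contra! hlt
      obtain ⟨h2, h3⟩ := Finset.mem_erase.1 hi'
      exact (one_close ha (hb _ hi) (hb _ h3) hδ1 hn hlt).not_ge (hsep _ hi _ h3 h2.symm)
  have h2 := Finset.card_nsmul_le_sum Finset.univ _ c fun j _ => hc j
  rw [nsmul_eq_mul, Finset.card_univ, Fintype.card_fin] at h2
  linarith

theorem test1_unit {w : V} (hw : w ≠ 0) : ‖‖w‖⁻¹ • w‖ = 1 := by
  rw [norm_smul, norm_inv, norm_norm, inv_mul_cancel₀ (norm_ne_zero_iff.2 hw)]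

theorem point_any {N : ℕ} (Γ : Finset (Fin N)) (b : Fin N → V) (hb : ∀ i ∈ Γ, ‖b i‖ = 1) (δ : ℝ)
    (hδ : 0 < δ) (hδ1 : δ ≤ 1) (hsep : ∀ i ∈ Γ, ∀ j ∈ Γ, i ≠ j → δ ≤ ‖pr (b j) (b i)‖)
    (M : ℕ) (T h : ℝ) (hT : 12 ≤ T) (hh : 0 ≤ h) (w : V) :
    -(4 * M / T) - N * M * Real.exp (-T ^ 2 * δ ^ 2 / 32) ≤
      ∑ i ∈ Γ, ∑ j : Fin M, Kr w ((T + (j : ℕ) * h) • b i) := by
  have h0 : 0 ≤ 4 * M / T := by positivity
  by_cases hw : w = 0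
  · have : 0 ≤ N * M * Real.exp (-T ^ 2 * δ ^ 2 / 32) := by positivity
    simp only [hw, Kr_zero, Finset.sum_const_zero]
    linarith
  have ha := test1_unit hw
  simp only [← Kr_smul w _ _ (inv_pos.2 (norm_pos_iff.2 hw))]
  by_cases hn : ∃ i ∈ Γ, ‖pr (b i) (‖w‖⁻¹ • w)‖ < δ / 4
  · obtain ⟨i, hi, hn⟩ := hn
    have := test1_near Γ b hb hδ hδ1 hsep M hT hh ha hi hn (c := -(4 / T)) fun j =>
      (abs_le.1 (Kr_any ha (hb i hi) hT (le_add_of_nonneg_right (by positivity)))).1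
    have e : (M : ℝ) * -(4 / T) = -(4 * M / T) := by ring
    rwa [e] at this
  · push Not at hn
    have := test1_far Γ b hb hδ M hT hh ha hn
    linarith

theorem point_good {N : ℕ} (Γ : Finset (Fin N)) (b : Fin N → V) (hb : ∀ i ∈ Γ, ‖b i‖ = 1) (δ : ℝ)
    (hδ : 0 < δ) (hδ1 : δ ≤ 1) (hsep : ∀ i ∈ Γ, ∀ j ∈ Γ, i ≠ j → δ ≤ ‖pr (b j) (b i)‖)
    (M : ℕ) (T h : ℝ) (hT : 12 ≤ T) (hh : 0 ≤ h) (hM : M * h ≤ T) (hTδ : 2 < T * δ)
    (w : V) (hw : w ≠ 0) (i₀ : Fin N) (hi : i₀ ∈ Γ) (hwb : ‖‖w‖⁻¹ • w - b i₀‖ ≤ 1 / (2 * T)) :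
    M / (10 * T) - N * M * Real.exp (-T ^ 2 * δ ^ 2 / 32) ≤
      ∑ i ∈ Γ, ∑ j : Fin M, Kr w ((T + (j : ℕ) * h) • b i) := by
  have ha := test1_unit hw
  have hT0 : 0 < T := by linarith
  simp only [← Kr_smul w _ _ (inv_pos.2 (norm_pos_iff.2 hw))]
  have hn : ‖pr (b i₀) (‖w‖⁻¹ • w)‖ < δ / 4 := by
    have e : pr (b i₀) (‖w‖⁻¹ • w) = pr (b i₀) (‖w‖⁻¹ • w - b i₀) := by
      rw [pr_sub, pr_self, sub_zero]
    rw [e]
    refine ((norm_pr_le _ _).trans hwb).trans_lt ?_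
    rw [div_lt_div_iff₀ (by positivity) (by norm_num)]
    linarith
  have := test1_near Γ b hb hδ hδ1 hsep M hT hh ha hi hn (c := 1 / (10 * T)) fun j =>
    Kr_near ha (hb _ hi) hT (le_add_of_nonneg_right (by positivity)) (by
      have h1 : ((j : ℕ) : ℝ) ≤ M := by exact_mod_cast j.2.le
      nlinarith) hwb
  rwa [mul_one_div] at this

end Pool.Agent.P.MP_83f3dc_co.KT
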