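import Pool.Agent.P.MP_83f3dc_co.KTVec1

set_option autoImplicit false
set_option linter.unusedSectionVars false
set_option linter.unusedVariables false

open MeasureTheory ProbabilityTheory Module Set Filter Topology
open scoped RealInnerProductSpace ENNReal

noncomputable section

namespace Pool.Agent.P.MP_83f3dc_co.KT

theorem perturb {D : ℕ} (u : E D) (r : ℝ) (hr : 0 < r) :
    ∃ v : Fin D → E D, LinearIndependent ℝ v ∧ ∀ b, ‖v b - u‖ ≤ r := by
  obtain ⟨t, ht, hne⟩ : ∃ t : ℝ, |t| = r ∧ ∑ j, u j + t ≠ 0 := by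
    by_cases h : 0 ≤ ∑ j, u j
    · exact ⟨r, abs_of_pos hr, by linarith⟩
    · exact ⟨-r, by rw [abs_neg, abs_of_pos hr], by linarith⟩
  have ht0 : t ≠ 0 := fun h => by rw [h, abs_zero] at ht; exact hr.ne ht
  refine ⟨fun b => u + EuclideanSpace.single b t, ?_, fun b => ?_⟩
  · rw [Fintype.linearIndependent_iff]
    intro g hg
    have h1 : ∀ j, (∑ b, g b) * u j + g j * t = 0 := fun j => by
      have h2 := congrArg (fun w : E D => w j) hg
      simp only [WithLp.ofLp_sum, Finset.sum_apply, PiLp.smul_apply, PiLp.add_apply,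
        smul_eq_mul, mul_add, Finset.sum_add_distrib, PiLp.zero_apply, PiLp.single_apply,
        mul_ite, mul_zero, Finset.sum_ite_eq,
        Finset.mem_univ, if_true] at h2
      rw [Finset.sum_mul]
      exact h2
    have h3 : (∑ b, g b) * (∑ j, u j + t) = 0 := by
      have h4 := Finset.sum_eq_zero (s := Finset.univ) fun j _ => h1 j
      rw [Finset.sum_add_distrib, ← Finset.mul_sum, ← Finset.sum_mul] at h4
      rw [mul_add]
      exact h4
    have h5 : ∑ b, g b = 0 := (mul_eq_zero.1 h3).resolve_right hne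
    intro j
    have h6 := h1 j
    rw [h5, zero_mul, zero_add] at h6
    exact (mul_eq_zero.1 h6).resolve_right ht0
  · rw [add_sub_cancel_left, PiLp.norm_single, Real.norm_eq_abs, ht]

/-- every finite family of vectors has a nearly balanced `c`-dimensional space of functionals -/
theorem vec {D c : ℕ} (hc : 1 ≤ c) (hcD : c ≤ D) {ι : Type} [Fintype ι] (u : ι → E D) :
    ∃ g : Fin c → E D, Orthonormal ℝ g ∧ ∀ y : Fin c → ℝ,
      ((Finset.univ.filter fun i => 0 < ⟪∑ a, y a • g a, u i⟫).card : ℝ) ≤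
        (Fintype.card ι : ℝ) * (1 / 2 + eta D c) := by
  classical
  have hr : ∀ j : ℕ, (0 : ℝ) < 1 / ((j : ℝ) + 1) := fun j => Nat.one_div_pos_of_nat
  choose v hv hvu using fun (j : ℕ) (i : ι) => perturb (u i) _ (hr j)
  choose g hg hgy using fun j : ℕ => vec_blocks hc hcD (v j) (hv j)
  have hmem : ∀ j, g j ∈ Metric.closedBall (0 : Fin c → E D) 1 := fun j => by
    rw [mem_closedBall_zero_iff, pi_norm_le_iff_of_nonneg zero_le_one]
    exact fun a => ((hg j).1 a).le
  obtain ⟨G, -, φ, hφ, hG⟩ := (isCompact_closedBall (0 : Fin c → E D) 1).tendsto_subseq hmem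
  have hGa : ∀ a, Tendsto (fun j => g (φ j) a) atTop (𝓝 (G a)) := fun a =>
    tendsto_pi_nhds.1 hG a
  refine ⟨G, ?_, fun y => ?_⟩
  · rw [orthonormal_iff_ite]
    intro a b
    have h1 : Tendsto (fun j => ⟪g (φ j) a, g (φ j) b⟫) atTop (𝓝 ⟪G a, G b⟫) :=
      (hGa a).inner (hGa b)
    simp only [orthonormal_iff_ite.1 (hg _)] at h1
    exact tendsto_nhds_unique h1 tendsto_const_nhds
  · have hvt : ∀ i b, Tendsto (fun j => v (φ j) i b) atTop (𝓝 (u i)) := fun i b => by
      rw [tendsto_iff_norm_sub_tendsto_zero]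
      exact squeeze_zero (fun j => norm_nonneg _) (fun j => hvu (φ j) i b)
        (tendsto_one_div_add_atTop_nhds_zero_nat.comp hφ.tendsto_atTop)
    have hy : Tendsto (fun j => ∑ a, y a • g (φ j) a) atTop (𝓝 (∑ a, y a • G a)) :=
      tendsto_finsetSum _ fun a _ => (hGa a).const_smul _
    have hev : ∀ᶠ j in atTop, ∀ p : ι × Fin D, 0 < ⟪∑ a, y a • G a, u p.1⟫ →
        0 < ⟪∑ a, y a • g (φ j) a, v (φ j) p.1 p.2⟫ := by
      refine Filter.eventually_all.2 fun p => ?_
      by_cases h : 0 < ⟪∑ a, y a • G a, u p.1⟫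
      · exact ((hy.inner (hvt p.1 p.2)).eventually (lt_mem_nhds h)).mono fun j hj _ => hj
      · exact Eventually.of_forall fun j hj => absurd hj h
    obtain ⟨j, hj⟩ := hev.exists
    have h1 : (Finset.univ.filter fun i => 0 < ⟪∑ a, y a • G a, u i⟫) ×ˢ
        (Finset.univ : Finset (Fin D)) ⊆ Finset.univ.filter fun p : ι × Fin D =>
          0 < ⟪∑ a, y a • g (φ j) a, v (φ j) p.1 p.2⟫ := fun p hp => by
      rw [Finset.mem_product, Finset.mem_filter] at hp
      exact Finset.mem_filter.2 ⟨Finset.mem_univ _, hj p hp.1.2⟩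
    have h2 := Finset.card_le_card h1
    rw [Finset.card_product, Finset.card_univ, Fintype.card_fin] at h2
    have h3 : (((Finset.univ.filter fun i => 0 < ⟪∑ a, y a • G a, u i⟫).card : ℝ)) * D ≤
        (Fintype.card ι : ℝ) * D * (1 / 2 + eta D c) :=
      le_trans (by exact_mod_cast h2) (hgy (φ j) y)
    have hD : (0 : ℝ) < D := by exact_mod_cast lt_of_lt_of_le (Nat.succ_le_iff.1 hc) hcD
    refine le_of_mul_le_mul_right ?_ hD
    linarith

end Pool.Agent.P.MP_83f3dc_co.KT
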