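import Pool.Agent.P.MP_83f3dc_co.KTCore
import Pool.Agent.P.MP_83f3dc_co.KTForster

set_option autoImplicit false
set_option linter.unusedSectionVars false
set_option linter.unusedVariables false

open MeasureTheory ProbabilityTheory Module Set Filter Topology
open scoped RealInnerProductSpace ENNReal

noncomputable section

namespace Pool.Agent.P.MP_83f3dc_co.KT

/-- an independent family has an orthonormal family in its span -/
theorem exists_on {D c : ℕ} (G : Fin c → E D) (hG : LinearIndependent ℝ G) :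
    ∃ g : Fin c → E D, Orthonormal ℝ g ∧
      ∀ y : Fin c → ℝ, ∃ y' : Fin c → ℝ, ∑ a, y a • g a = ∑ a, y' a • G a := by
  have hr : finrank ℝ (Submodule.span ℝ (range G)) = c := by
    rw [finrank_span_eq_card hG, Fintype.card_fin]
  let b := (stdOrthonormalBasis ℝ (Submodule.span ℝ (range G))).reindex (finCongr hr)
  refine ⟨fun a => (b a : E D), ?_, fun y => ?_⟩
  · exact b.orthonormal.comp_linearIsometry (Submodule.span ℝ (range G)).subtypeₗᵢ
  · have hm : ∑ a, y a • (b a : E D) ∈ Submodule.span ℝ (range G) :=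
      Submodule.sum_mem _ fun a _ => Submodule.smul_mem _ _ (b a).2
    obtain ⟨y', hy'⟩ := (Submodule.mem_span_range_iff_exists_fun ℝ).1 hm
    exact ⟨y', hy'.symm⟩

theorem vec_blocks {D c : ℕ} (hc : 1 ≤ c) (hcD : c ≤ D) {ι : Type} [Fintype ι]
    (v : ι → Fin D → E D) (hv : ∀ i, LinearIndependent ℝ (v i)) :
    ∃ g : Fin c → E D, Orthonormal ℝ g ∧ ∀ y : Fin c → ℝ,
      ((Finset.univ.filter fun p : ι × Fin D => 0 < ⟪∑ a, y a • g a, v p.1 p.2⟫).card : ℝ) ≤
        (Fintype.card ι : ℝ) * D * (1 / 2 + eta D c) := by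
  obtain ⟨B, hB⟩ := forster v hv
  have hD : (0 : ℝ) < D := by exact_mod_cast lt_of_lt_of_le (by omega : 0 < c) hcD
  have hne : ∀ p : ι × Fin D, B (v p.1 p.2) ≠ 0 := fun p h =>
    (hv p.1).ne_zero p.2 (B.map_eq_zero_iff.1 h)
  have hcard : (Fintype.card (ι × Fin D) : ℝ) = (Fintype.card ι : ℝ) * D := by
    rw [Fintype.card_prod, Fintype.card_fin, Nat.cast_mul]
  obtain ⟨G, hG, hcount⟩ := core hc hcD
    (fun p : ι × Fin D => ‖B (v p.1 p.2)‖⁻¹ • B (v p.1 p.2))
    (fun p => norm_smul_inv_norm (hne p)) (fun z => by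
      rw [Fintype.sum_prod_type, hcard]
      refine (hB z).trans (le_of_eq ?_)
      field_simp)
  set T : E D →ₗ[ℝ] E D := LinearMap.adjoint (B : E D →ₗ[ℝ] E D) with hT
  have hTi : ∀ w x : E D, ⟪T w, x⟫ = ⟪w, B x⟫ := fun w x => by
    rw [hT, LinearMap.adjoint_inner_left]; rfl
  have hker : LinearMap.ker T = ⊥ := by
    refine LinearMap.ker_eq_bot'.2 fun w hw => ?_
    have h := hTi w (B.symm w)
    rw [hw, inner_zero_left, B.apply_symm_apply] at h
    exact inner_self_eq_zero.1 h.symm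
  obtain ⟨g, hg, hspan⟩ := exists_on (T ∘ G) (hG.map' T hker)
  refine ⟨g, hg, fun y => ?_⟩
  obtain ⟨y', hy'⟩ := hspan y
  have hsum : ∑ a, y a • g a = T (∑ a, y' a • G a) := by
    rw [hy', map_sum]
    exact Finset.sum_congr rfl fun a _ => by rw [map_smul]; rfl
  rw [← hcard]
  refine le_trans (le_of_eq ?_) (hcount y')
  refine congrArg _ (congrArg _ (Finset.filter_congr fun p _ => ?_))
  rw [hsum, hTi, real_inner_smul_right]
  exact (mul_pos_iff_of_pos_left (inv_pos.2 (norm_pos_iff.2 (hne p)))).symm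

end Pool.Agent.P.MP_83f3dc_co.KT
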