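import Pool.Agent.P.MP_83f3dc_co.KTG

set_option autoImplicit false
set_option linter.unusedSectionVars false
set_option linter.unusedVariables false

open MeasureTheory ProbabilityTheory Module Set Filter Topology
open scoped RealInnerProductSpace ENNReal

noncomputable section

namespace Pool.Agent.P.MP_83f3dc_co.KT

variable {V : Type} [NormedAddCommGroup V] [InnerProductSpace ℝ V] [FiniteDimensional ℝ V]
  [MeasurableSpace V] [BorelSpace V]

theorem KUBall_one {s : ℝ} (hs : 0 ≤ s) :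
    ∫ x, Real.exp (-s * x ^ 2) ∂(gaussianReal 0 1) = (1 + 2 * s) ^ (-(1 / 2 : ℝ)) := by
  rw [integral_gaussianReal_eq_integral_smul (by norm_num)]
  have h1 : ∀ x : ℝ, gaussianPDFReal 0 1 x • Real.exp (-s * x ^ 2)
      = (√(2 * Real.pi))⁻¹ * Real.exp (-(s + 1 / 2) * x ^ 2) := by
    intro x
    simp only [gaussianPDFReal, NNReal.coe_one, mul_one, sub_zero, smul_eq_mul]
    rw [mul_assoc, ← Real.exp_add]
    congr 2
    ring
  simp_rw [h1]
  rw [integral_const_mul, integral_gaussian]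
  have hpi := Real.pi_pos
  have hs1 : 0 < 1 + 2 * s := by linarith
  rw [Real.rpow_neg hs1.le, ← Real.sqrt_eq_rpow, ← Real.sqrt_inv, ← Real.sqrt_inv,
    ← Real.sqrt_mul (by positivity)]
  congr 1
  field_simp
  ring

theorem lint_exp_neg {s : ℝ} (hs : 0 ≤ s) :
    ∫⁻ x, ENNReal.ofReal (Real.exp (-s * ‖x‖ ^ 2)) ∂(stdGaussian V)
      = ENNReal.ofReal ((1 + 2 * s) ^ (-(finrank ℝ V : ℝ) / 2)) := by
  have hi : Integrable (fun x : V => Real.exp (-s * ‖x‖ ^ 2)) (stdGaussian V) := by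
    refine (integrable_const (1 : ℝ)).mono' (by fun_prop) (ae_of_all _ fun x => ?_)
    rw [Real.norm_eq_abs, abs_of_pos (Real.exp_pos _)]
    apply Real.exp_le_one_iff.2
    have := sq_nonneg ‖x‖
    nlinarith
  rw [← ofReal_integral_eq_lintegral_ofReal hi (ae_of_all _ fun x => (Real.exp_pos _).le)]
  congr 1
  set b := stdOrthonormalBasis ℝ V
  rw [stdGaussian_eq_map_pi_orthonormalBasis b,
    integral_map (Measurable.aemeasurable (by fun_prop)) (by fun_prop)]
  have h1 : ∀ x : Fin (finrank ℝ V) → ℝ, Real.exp (-s * ‖∑ i, x i • b i‖ ^ 2)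
      = ∏ i, Real.exp (-s * x i ^ 2) := by
    intro x
    rw [← Real.exp_sum, ← Finset.mul_sum]
    congr 2
    rw [← b.sum_sq_inner_right]
    refine Finset.sum_congr rfl fun i _ => ?_
    rw [b.orthonormal.inner_right_fintype]
  simp_rw [h1]
  rw [integral_fintype_prod_eq_prod (f := fun (_ : Fin (finrank ℝ V)) (x : ℝ) =>
    Real.exp (-s * x ^ 2))]
  simp only [KUBall_one hs, Finset.prod_const, Finset.card_univ, Fintype.card_fin]
  rw [← Real.rpow_natCast, ← Real.rpow_mul (by linarith)]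
  congr 1
  ring

theorem KUBall_num (r : ℝ) (hr : 0 < r) (n : ℕ) :
    Real.exp n * (1 + 2 * (1 / (2 * r ^ 2))) ^ (-(n : ℝ) / 2) ≤ (3 * r) ^ n := by
  have h1 : Real.exp n ≤ 3 ^ n := by
    rw [← Real.exp_one_pow]
    exact pow_le_pow_left₀ (Real.exp_pos _).le (Real.exp_one_lt_d9.le.trans (by norm_num)) n
  have h2 : (1 + 2 * (1 / (2 * r ^ 2))) ^ (-(n : ℝ) / 2) ≤ r ^ n := by
    have e : (r ^ (-2 : ℝ)) ^ (-(n : ℝ) / 2) = r ^ n := by
      rw [← Real.rpow_mul hr.le, ← Real.rpow_natCast]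
      congr 1
      ring
    rw [← e]
    refine Real.rpow_le_rpow_of_nonpos (Real.rpow_pos_of_pos hr _) ?_ ?_
    · rw [Real.rpow_neg hr.le, Real.rpow_two]
      have : 2 * (1 / (2 * r ^ 2)) = (r ^ 2)⁻¹ := by field_simp
      linarith
    · have : (0 : ℝ) ≤ n := Nat.cast_nonneg n
      linarith
  rw [mul_pow]
  exact mul_le_mul h1 h2 (Real.rpow_nonneg (by positivity) _) (by positivity)

theorem ball_le2 (r m : ℝ) (hr : 0 < r) (hm0 : 0 ≤ m) (hm : m ≤ 2 * (finrank ℝ V : ℝ)) :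
    stdGaussian V {x | ‖x‖ ≤ r * √m} ≤ ENNReal.ofReal ((3 * r) ^ finrank ℝ V) := by
  have hs : (0 : ℝ) ≤ 1 / (2 * r ^ 2) := by positivity
  have hA : MeasurableSet {x : V | ‖x‖ ≤ r * √m} :=
    measurableSet_le (by fun_prop) measurable_const
  calc stdGaussian V {x | ‖x‖ ≤ r * √m}
      = ∫⁻ x, indicator {x : V | ‖x‖ ≤ r * √m} 1 x ∂(stdGaussian V) :=
        (lintegral_indicator_one hA).symm
    _ ≤ ∫⁻ x, ENNReal.ofReal (Real.exp (finrank ℝ V)) *
          ENNReal.ofReal (Real.exp (-(1 / (2 * r ^ 2)) * ‖x‖ ^ 2)) ∂(stdGaussian V) := by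
        refine lintegral_mono fun x => ?_
        by_cases hx : x ∈ {x : V | ‖x‖ ≤ r * √m}
        · rw [indicator_of_mem hx, ← ENNReal.ofReal_mul (Real.exp_pos _).le, ← Real.exp_add,
            Pi.one_apply, ENNReal.one_le_ofReal]
          refine Real.one_le_exp ?_
          have h1 : ‖x‖ ^ 2 ≤ r ^ 2 * m := by
            have := pow_le_pow_left₀ (norm_nonneg x) (show ‖x‖ ≤ r * √m from hx) 2
            rwa [mul_pow, Real.sq_sqrt hm0] at this
          have h2 : 1 / (2 * r ^ 2) * ‖x‖ ^ 2 ≤ 1 / (2 * r ^ 2) * (r ^ 2 * m) :=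
            mul_le_mul_of_nonneg_left h1 hs
          have h3 : 1 / (2 * r ^ 2) * (r ^ 2 * m) = m / 2 := by field_simp
          linarith
        · rw [indicator_of_notMem hx]
          exact zero_le
    _ = ENNReal.ofReal (Real.exp (finrank ℝ V) *
          (1 + 2 * (1 / (2 * r ^ 2))) ^ (-(finrank ℝ V : ℝ) / 2)) := by
        rw [lintegral_const_mul _ (by fun_prop), lint_exp_neg hs,
          ENNReal.ofReal_mul (Real.exp_pos _).le]
    _ ≤ _ := ENNReal.ofReal_le_ofReal (KUBall_num r hr _)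

end Pool.Agent.P.MP_83f3dc_co.KT
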