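import Pool.Agent.P.MP_83f3dc_co.KTPar1
import Pool.Agent.P.MP_83f3dc_co.KTPar2

set_option autoImplicit false
set_option linter.unusedSectionVars false
set_option linter.unusedVariables false

open MeasureTheory ProbabilityTheory Module Set Filter Topology
open scoped RealInnerProductSpace ENNReal

noncomputable section

namespace Pool.Agent.P.MP_83f3dc_co.KT

theorem par_ev' (c : ℕ) (hc : 2 ≤ c) (a : ℝ) (ha : 0 < a) (ha1 : a ≤ 1) (K : ℕ)
    (hK : 16 * (c : ℝ) / a < K) : ∀ᶠ d : ℕ in atTop, ∀ n : ℕ, K * (d + 1) ≤ n →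
      Par c (d + 1) n ((100 * (n : ℝ)) ^ a) ((100 * (n : ℝ)) ^ (1 / ((c : ℝ) - 1))) := by
  have hc2 : (2 : ℝ) ≤ c := by exact_mod_cast hc
  have hK0 : (0 : ℝ) < K := lt_trans (by positivity) hK
  have hK1 : 1 ≤ K := by exact_mod_cast hK0
  have hH := (tendsto_rpow_atTop ha).eventually
    ((eventually_ge_atTop (2 ^ 102 : ℝ)).and (eventually_ge_atTop (c : ℝ)))
  obtain ⟨N₀, hN₀⟩ := eventually_atTop.1 ((par1_far a ha).and
    ((par1_un c K (by omega) a ha hK).and (hH.and (eventually_ge_atTop (1 : ℝ)))))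
  filter_upwards [(tendsto_natCast_atTop_atTop (R := ℝ)).eventually_ge_atTop N₀] with d hd n hn
  have hle : ((d + 1 : ℕ) : ℝ) ≤ 100 * (n : ℝ) := by
    have h : d + 1 ≤ 100 * n := by
      have := Nat.le_mul_of_pos_left (d + 1) hK1
      omega
    exact_mod_cast h
  obtain ⟨h1, h2, ⟨h3, h4⟩, h5⟩ := hN₀ (100 * (n : ℝ)) (by
    refine le_trans (hd.trans ?_) hle
    push_cast
    linarith)
  set N : ℝ := 100 * (n : ℝ) with hN
  have hN0 : 0 < N := by linarith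
  have he : 0 < (c : ℝ) - 1 := by linarith
  refine ⟨hc, le_trans (by norm_num) h3, h4, ?_, Real.one_le_rpow h5 (by positivity), ?_, ?_, hle,
    h1, ?_⟩
  · calc N ^ a ≤ N ^ (1 : ℝ) := Real.rpow_le_rpow_of_exponent_le h5 ha1
      _ = N := Real.rpow_one N
  · calc N ^ (1 / ((c : ℝ) - 1)) ≤ N ^ (1 : ℝ) :=
        Real.rpow_le_rpow_of_exponent_le h5 (by rw [div_le_one he]; linarith)
      _ = N := Real.rpow_one N
  · rw [← Real.rpow_natCast, ← Real.rpow_mul hN0.le, Nat.cast_sub (by omega), Nat.cast_one,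
      one_div_mul_cancel he.ne', Real.rpow_one]
  · have hp : 0 < N ^ a := Real.rpow_pos_of_pos hN0 a
    have h6 : (2 ^ 102 / N ^ a) ^ n ≤ (2 ^ 102 / N ^ a) ^ (K * (d + 1)) :=
      pow_le_pow_of_le_one (by positivity) ((div_le_one hp).2 h3) hn
    have e : N ^ (8 * c * (d + 1)) * (2 ^ 102 / N ^ a) ^ (K * (d + 1))
        = (N ^ (8 * c) * (2 ^ 102 / N ^ a) ^ K) ^ (d + 1) := by
      rw [mul_pow (N ^ (8 * c)), ← pow_mul, ← pow_mul]
    refine lt_of_le_of_lt (mul_le_mul_of_nonneg_left h6 (by positivity)) ?_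
    rw [e]
    exact pow_lt_one₀ (by positivity) h2 (by omega)

theorem gain_ev' (c : ℕ) (hc : 2 ≤ c) (a : ℝ) (ha : 0 < a) (ha1 : a ≤ 1) (K : ℕ) (hK : 1 ≤ K) :
    ∀ᶠ d : ℕ in atTop, ∀ n : ℕ, K * (d + 1) ≤ n → n ≤ 3 * (K * (d + 1)) →
      4 * (d : ℝ) ^ (-(1 / 2 + 1 / (2 * ((c : ℝ) - 1)) + 3 * a)) * (100 * (n : ℝ)) ≤
        gain n ((100 * (n : ℝ)) ^ a) ((100 * (n : ℝ)) ^ (1 / ((c : ℝ) - 1))) := by
  have hc1 : (1 : ℝ) ≤ (c : ℝ) - 1 := by
    have : (2 : ℝ) ≤ c := by exact_mod_cast hc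
    linarith
  have hK' : (1 : ℝ) ≤ K := by exact_mod_cast hK
  have ht : Tendsto (fun d : ℕ => (d : ℝ) ^ a) atTop atTop :=
    (tendsto_rpow_atTop ha).comp tendsto_natCast_atTop_atTop
  filter_upwards [ht.eventually_ge_atTop
    (160 * (600 * (K : ℝ)) ^ (1 / 2 + 1 / ((c : ℝ) - 1) / 2 + 2 * a)), eventually_ge_atTop 1]
    with d h2 hd n hn1 hn2
  have hd' : (1 : ℝ) ≤ d := by exact_mod_cast hd
  have e : 1 / (2 * ((c : ℝ) - 1)) = 1 / ((c : ℝ) - 1) / 2 := by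
    rw [div_div, mul_comm]
  have hn1' : (K : ℝ) * (d + 1) ≤ n := by exact_mod_cast hn1
  have hn2' : (n : ℝ) ≤ 3 * (K * (d + 1)) := by exact_mod_cast hn2
  rw [e, gain]
  refine par2_real _ a _ d (600 * K) (by positivity) ha ?_ (by linarith) (by positivity) ?_ h2
  · nlinarith
  · nlinarith

end Pool.Agent.P.MP_83f3dc_co.KT
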