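import Pool.Agent.P.MP_83f3dc_co.KUUp
import Pool.Agent.P.MP_83f3dc_co.KUParC
import Pool.Agent.P.MP_83f3dc_co.KTConf

set_option autoImplicit false
set_option linter.unusedSectionVars false
set_option linter.unusedVariables false

open MeasureTheory ProbabilityTheory Module Set Filter Topology
open scoped RealInnerProductSpace ENNReal

noncomputable section

namespace Pool.Agent.P.MP_83f3dc_co.KT

theorem partC' (c₀ : ℕ) (hc : 3 ≤ c₀) (ε : ℝ) (hε : 0 < ε) :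
    ∃ K d₀ : ℕ, ∀ d c k m : ℕ, d₀ ≤ d → c₀ ≤ c → c < d → K * d ≤ k →
      IsGreatest {n : ℕ | 0 < n ∧ HasTransversal d (d - c) k n} m →
        (m : ℝ) ≤ d + (2 - (d : ℝ) ^ (-(1 / 2 + 1 / (2 * ((c₀ : ℝ) - 1)) + ε))) * k := by
  set a : ℝ := min ε (1 / 4) / 3 with ha
  have ha0 : 0 < a := by
    have : 0 < min ε (1 / 4) := lt_min hε (by norm_num)
    positivity
  have ha6 : 3 * a ≤ 1 / 4 := by
    have := min_le_right ε (1 / 4)
    linarith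
  have haε : 3 * a ≤ ε := by
    have := min_le_left ε (1 / 4)
    linarith
  set K : ℕ := ⌈16 * (c₀ : ℝ) / a⌉₊ + 1 with hKdef
  have hK : 16 * (c₀ : ℝ) / a < K := by
    have := Nat.le_ceil (16 * (c₀ : ℝ) / a)
    rw [hKdef]
    push_cast
    linarith
  have hK1 : 1 ≤ K := by omega
  obtain ⟨d₀, hd₀⟩ := eventually_atTop.1 ((par_ev' c₀ (by omega) a ha0 (by linarith) K hK).and
    ((gain_ev' c₀ (by omega) a ha0 (by linarith) K hK1).and (eventually_ge_atTop 16)))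
  refine ⟨200 * K, d₀, fun d c k m hd hcc hcd hk hm => ?_⟩
  obtain ⟨hP, hG, h16⟩ := hd₀ d hd
  have hc3 : (3 : ℝ) ≤ c₀ := by exact_mod_cast hc
  have hd16 : (16 : ℝ) ≤ d := by exact_mod_cast h16
  have hd1 : (1 : ℝ) ≤ d := by linarith
  have hb0 : 0 < 1 / (2 * ((c₀ : ℝ) - 1)) := by
    have : 0 < (c₀ : ℝ) - 1 := by linarith
    positivity
  have hb1 : 1 / (2 * ((c₀ : ℝ) - 1)) ≤ 1 / 4 := by
    apply one_div_le_one_div_of_le <;> linarith
  set g : ℝ := (d : ℝ) ^ (-(1 / 2 + 1 / (2 * ((c₀ : ℝ) - 1)) + 3 * a)) with hg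
  have hg0 : 0 < g := Real.rpow_pos_of_pos (by linarith) _
  have hg1 : (d : ℝ)⁻¹ ≤ g := by
    rw [← Real.rpow_neg_one]
    exact Real.rpow_le_rpow_of_exponent_le hd1 (by linarith)
  have hg2 : (d : ℝ) ^ (-(1 / 2 + 1 / (2 * ((c₀ : ℝ) - 1)) + ε)) ≤ g :=
    Real.rpow_le_rpow_of_exponent_le hd1 (by linarith)
  have hg4 : 4 * g ≤ 1 := by
    have h1 : g ≤ (d : ℝ) ^ (-(1 / 2 : ℝ)) :=
      Real.rpow_le_rpow_of_exponent_le hd1 (by linarith)
    have h2 : (d : ℝ) ^ (-(1 / 2 : ℝ)) ≤ (16 : ℝ) ^ (-(1 / 2 : ℝ)) :=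
      Real.rpow_le_rpow_of_nonpos (by norm_num) hd16 (by norm_num)
    have h3 : (16 : ℝ) ^ (-(1 / 2 : ℝ)) = 1 / 4 := by
      rw [show (16 : ℝ) = 4 ^ (2 : ℝ) by norm_num, ← Real.rpow_mul (by norm_num)]
      norm_num
    linarith
  have hn1 : d + 1 ≤ K * (d + 1) := Nat.le_mul_of_pos_left _ hK1
  have hng : 1 ≤ ((K * (d + 1) : ℕ) : ℝ) * g := by
    have h1 : (d : ℝ) ≤ ((K * (d + 1) : ℕ) : ℝ) := by exact_mod_cast (by omega)
    calc (1 : ℝ) = d * (d : ℝ)⁻¹ := (mul_inv_cancel₀ (by linarith)).symm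
      _ ≤ _ := mul_le_mul h1 hg1 (by positivity) (by positivity)
  have hKd : K * (d + 1) ≤ K * (2 * d) := Nat.mul_le_mul_left _ (by omega)
  have hk2 : 100 * (K * (d + 1)) ≤ k := by nlinarith
  have h := upper_of_conf (c' := c₀) (n₀ := K * (d + 1)) g (by omega) hcc hcd.le (by omega) hg0 hg4
    hng (by omega) hk2 (fun n h1 h2 => ConfP.mono (hG n h1 h2) (conf (hP n h1))) hm
  have hk0 : (0 : ℝ) ≤ k := Nat.cast_nonneg _
  have h5 : (2 - g) * k ≤ (2 - (d : ℝ) ^ (-(1 / 2 + 1 / (2 * ((c₀ : ℝ) - 1)) + ε))) * k :=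
    mul_le_mul_of_nonneg_right (by linarith) hk0
  linarith

end Pool.Agent.P.MP_83f3dc_co.KT
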