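import Pool.Agent.P.MP_83f3dc_co.KTConc
import Pool.Agent.P.MP_83f3dc_co.KTKer0

set_option autoImplicit false
set_option linter.unusedSectionVars false
set_option linter.unusedVariables false

open MeasureTheory ProbabilityTheory Module Set Filter Topology
open scoped RealInnerProductSpace ENNReal

noncomputable section

namespace Pool.Agent.P.MP_83f3dc_co.KT

theorem kumom2_pow {J : ℕ} (hJ : Even J) (x : ℝ) :
    x ^ J ≤ (J.factorial : ℝ) * (Real.exp x + Real.exp (-x)) := by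
  have h1 := Real.pow_div_factorial_le_exp |x| (abs_nonneg x) J
  rw [div_le_iff₀' (by positivity), hJ.pow_abs] at h1
  refine h1.trans (mul_le_mul_of_nonneg_left ?_ (by positivity))
  rcases abs_choice x with h | h <;> rw [h]
  · exact le_add_of_nonneg_right (Real.exp_pos _).le
  · exact le_add_of_nonneg_left (Real.exp_pos _).le

theorem kumom2_exp {n : ℕ} (f : E n → ℝ) (Λ : ℝ) (hΛ : 1 ≤ Λ)
    (hf : ∀ x y, |f x - f y| ≤ Λ * ‖x - y‖) (hm : |∫ x, f x ∂(stdGaussian (E n))| ≤ 1) {θ : ℝ}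
    (hθ : |θ| = Λ⁻¹) : Integrable (fun x => Real.exp (θ * f x)) (stdGaussian (E n)) ∧
      ∫ x, Real.exp (θ * f x) ∂(stdGaussian (E n)) ≤ 15 / 2 := by
  have hΛ0 : 0 < Λ := one_pos.trans_le hΛ
  have hc := (lip_integrable f Λ hΛ0.le hf).1
  have h1 : θ * ∫ x, f x ∂(stdGaussian (E n)) ≤ 1 := by
    refine (le_abs_self _).trans ?_
    rw [abs_mul, hθ]
    exact mul_le_one₀ (inv_le_one_of_one_le₀ hΛ) (abs_nonneg _) hm
  have h2 : θ ^ 2 * Λ ^ 2 = 1 := by
    rw [← sq_abs θ, hθ, ← mul_pow, inv_mul_cancel₀ hΛ0.ne', one_pow]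
  have h3 : Real.exp (θ * ∫ x, f x ∂(stdGaussian (E n)) + θ ^ 2 * Λ ^ 2) ≤ 15 / 2 := by
    rw [h2]
    refine (Real.exp_le_exp.2 (add_le_add h1 le_rfl)).trans ?_
    rw [Real.exp_add]
    nlinarith [Real.exp_one_lt_d9, Real.exp_pos 1]
  have h4 := (conc f Λ hΛ0.le hf θ).trans (ENNReal.ofReal_le_ofReal h3)
  have h5 : AEStronglyMeasurable (fun x => Real.exp (θ * f x)) (stdGaussian (E n)) :=
    Continuous.aestronglyMeasurable (by fun_prop)
  have h6 : 0 ≤ᵐ[stdGaussian (E n)] fun x => Real.exp (θ * f x) :=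
    ae_of_all _ fun x => (Real.exp_pos _).le
  refine ⟨⟨h5, (hasFiniteIntegral_iff_ofReal h6).2 (h4.trans_lt ENNReal.ofReal_lt_top)⟩, ?_⟩
  rw [integral_eq_lintegral_of_nonneg_ae h6 h5]
  exact ENNReal.toReal_le_of_le_ofReal (by norm_num) h4

theorem mom_indep {N : ℕ} (Γ : Finset (Fin N)) (α : Fin N → ℝ) (J : ℕ) (hJ : Even J) (T A : ℝ)
    (hT : 1 ≤ T) (hA : 1 ≤ A) (hα1 : ∀ j ∈ Γ, |α j| ≤ 1) (hα : ∑ j ∈ Γ, α j ^ 2 ≤ A)
    (hN : (N : ℝ) * Real.exp (-T ^ 2 / 2) ≤ 1) :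
    ∫ y, (∑ j ∈ Γ, α j * Real.cos (T * y j)) ^ J ∂(stdGaussian (E N))
      ≤ 15 * (J.factorial : ℝ) * (T * √A) ^ J := by
  obtain ⟨Λ, hΛ⟩ : ∃ Λ, Λ = T * √A := ⟨_, rfl⟩
  have hΛ1 : 1 ≤ Λ := hΛ ▸ one_le_mul_of_one_le_of_one_le hT (Real.one_le_sqrt.2 hA)
  have hΛ0 : 0 < Λ := one_pos.trans_le hΛ1
  obtain ⟨f, hf⟩ : ∃ f : E N → ℝ, ∀ y, f y = ∑ j ∈ Γ, α j * Real.cos (T * y j) := ⟨_, fun _ => rfl⟩
  have lip : ∀ x y, |f x - f y| ≤ Λ * ‖x - y‖ := by
    intro x y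
    refine abs_le_of_sq_le_sq' ?_ (by positivity) |> abs_le.2
    have e1 : ∑ j ∈ Γ, (Real.cos (T * x j) - Real.cos (T * y j)) ^ 2 ≤ T ^ 2 * ‖x - y‖ ^ 2 := by
      rw [EuclideanSpace.real_norm_sq_eq, Finset.mul_sum]
      refine (Finset.sum_le_sum fun j _ => ?_).trans
        (Finset.sum_le_univ_sum_of_nonneg fun j => by positivity)
      rw [← mul_pow, PiLp.sub_apply, mul_sub]
      exact sq_le_sq.2 (Real.abs_cos_sub_cos_le _ _)
    rw [hf, hf, ← Finset.sum_sub_distrib, hΛ, mul_pow, mul_pow, Real.sq_sqrt (by linarith)]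
    simp only [← mul_sub]
    refine (Finset.sum_mul_sq_le_sq_mul_sq _ _ _).trans
      ((mul_le_mul hα e1 (by positivity) (by linarith)).trans_eq ?_)
    ring
  have mean : |∫ x, f x ∂(stdGaussian (E N))| ≤ 1 := by
    have e1 : ∀ j, ∫ y, Real.cos (T * y j) ∂(stdGaussian (E N)) = Real.exp (-T ^ 2 / 2) := by
      intro j
      have := int_cos (V := E N) (EuclideanSpace.single j T)
      simpa [EuclideanSpace.inner_single_right] using this
    simp only [hf]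
    rw [integral_finsetSum _ fun j _ => (ker0_bdd (by fun_prop)
      fun _ => Real.abs_cos_le_one _).const_mul _]
    simp only [integral_const_mul, e1]
    refine (Finset.abs_sum_le_sum_abs _ _).trans ((Finset.sum_le_card_nsmul _ _
      (Real.exp (-T ^ 2 / 2)) fun j hj => ?_).trans (le_trans ?_ hN))
    · rw [abs_mul, abs_of_pos (Real.exp_pos _)]
      exact mul_le_of_le_one_left (Real.exp_pos _).le (hα1 j hj)
    · rw [nsmul_eq_mul]
      refine mul_le_mul_of_nonneg_right ?_ (Real.exp_pos _).le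
      exact_mod_cast (Finset.card_le_univ Γ).trans_eq (Fintype.card_fin N)
  obtain ⟨i1, b1⟩ := kumom2_exp f Λ hΛ1 lip mean (θ := Λ⁻¹) (abs_of_pos (inv_pos.2 hΛ0))
  obtain ⟨i2, b2⟩ := kumom2_exp f Λ hΛ1 lip mean (θ := -Λ⁻¹)
    (by rw [abs_neg, abs_of_pos (inv_pos.2 hΛ0)])
  simp only [← hf, ← hΛ]
  refine (integral_mono_of_nonneg (ae_of_all _ fun y => hJ.pow_nonneg _)
    ((i1.add i2).const_mul (J.factorial * Λ ^ J)) (ae_of_all _ fun y => ?_)).trans ?_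
  · have := mul_le_mul_of_nonneg_left (kumom2_pow hJ (Λ⁻¹ * f y)) (pow_pos hΛ0 J).le
    rw [← mul_pow, mul_inv_cancel_left₀ hΛ0.ne', ← neg_mul] at this
    exact this.trans_eq (by simp only [Pi.add_apply]; ring)
  · simp only [Pi.add_apply]
    rw [integral_const_mul, integral_add i1 i2]
    refine (mul_le_mul_of_nonneg_left (add_le_add b1 b2) (by positivity)).trans_eq ?_
    ring

end Pool.Agent.P.MP_83f3dc_co.KT
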