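import Pool.Agent.P.MP_83f3dc_co.KUCos
import Pool.Agent.P.MP_83f3dc_co.KUMom2

set_option autoImplicit false
set_option linter.unusedSectionVars false
set_option linter.unusedVariables false

open MeasureTheory ProbabilityTheory Module Set Filter Topology
open scoped RealInnerProductSpace ENNReal

noncomputable section

namespace Pool.Agent.P.MP_83f3dc_co.KT

variable {V : Type} [NormedAddCommGroup V] [InnerProductSpace ℝ V] [FiniteDimensional ℝ V]
  [MeasurableSpace V] [BorelSpace V]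

theorem KUMom_expand {X : Type} [MeasurableSpace X] (μ : Measure X) [IsProbabilityMeasure μ]
    {N : ℕ} (J : ℕ) (Γ : Finset (Fin N)) (α : Fin N → ℝ) (θ : Fin N → X → ℝ)
    (hθ : ∀ j, Measurable (θ j)) :
    ∫ y, (∑ j ∈ Γ, α j * Real.cos (θ j y)) ^ J ∂μ =
      ∑ p ∈ Fintype.piFinset fun _ : Fin J => Γ,
        (∏ r, α (p r)) * ∫ y, ∏ r, Real.cos (θ (p r) y) ∂μ := by
  have hi : ∀ p : Fin J → Fin N, Integrable (fun y => ∏ r, Real.cos (θ (p r) y)) μ := by
    intro p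
    refine Integrable.of_bound (C := 1) ?_ (Eventually.of_forall fun y => ?_)
    · exact (Finset.measurable_prod _ fun r _ =>
        Real.measurable_cos.comp (hθ (p r))).aestronglyMeasurable
    · rw [Real.norm_eq_abs, Finset.abs_prod]
      exact Finset.prod_le_one (fun r _ => abs_nonneg _) fun r _ => Real.abs_cos_le_one _
  simp_rw [Finset.sum_pow', Finset.prod_mul_distrib]
  rw [integral_finsetSum _ fun p _ => (hi p).const_mul _]
  exact Finset.sum_congr rfl fun p _ => integral_const_mul _ _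

theorem mom {N J : ℕ} (hJ : Even J) (hJ1 : 1 ≤ J) (Γ : Finset (Fin N)) (b : Fin N → V)
    (δ T A : ℝ) (hδ : 0 ≤ δ) (hδ1 : δ ≤ 1) (hT : 1 ≤ T) (hA : 1 ≤ A)
    (hdis : ∀ n : Fin N → ℤ, (∀ i, n i ≠ 0 → i ∈ Γ) → ∑ i, |n i| ≤ J → n ≠ 0 →
      δ ≤ ‖∑ i, (n i : ℝ) • b i‖)
    (hfar : (N : ℝ) ^ J * Real.exp (-T ^ 2 * δ ^ 2 / 2) ≤ 1) (α : Fin N → ℝ)
    (hα1 : ∀ j ∈ Γ, |α j| ≤ 1) (hα : ∑ j ∈ Γ, α j ^ 2 ≤ A) :
    ∫ y, (∑ j ∈ Γ, α j * Real.cos (T * ⟪y, b j⟫)) ^ J ∂(stdGaussian V)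
      ≤ 16 * (J.factorial : ℝ) * (T * √A) ^ J := by
  have hN : (N : ℝ) * Real.exp (-T ^ 2 / 2) ≤ 1 := by
    refine le_trans (mul_le_mul ?_ (Real.exp_le_exp.2 ?_) (Real.exp_pos _).le (by positivity)) hfar
    · exact_mod_cast Nat.le_self_pow (by omega) N
    · have h1 : δ ^ 2 ≤ 1 := pow_le_one₀ hδ hδ1
      nlinarith [sq_nonneg T]
  have h0 := mom_indep Γ α J hJ T A hT hA hα1 hα hN
  rw [KUMom_expand (stdGaussian (E N)) J Γ α (fun j y => T * y j) (fun j => by fun_prop)] at h0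
  rw [KUMom_expand (stdGaussian V) J Γ α (fun j y => T * ⟪y, b j⟫) (fun j => by fun_prop)]
  have h1 : ∑ p ∈ Fintype.piFinset fun _ : Fin J => Γ,
        (∏ r, α (p r)) * ∫ y, ∏ r, Real.cos (T * ⟪y, b (p r)⟫) ∂(stdGaussian V) ≤
      ∑ p ∈ Fintype.piFinset fun _ : Fin J => Γ,
        ((∏ r, α (p r)) * ∫ y, ∏ r, Real.cos (T * y (p r)) ∂(stdGaussian (E N)) +
          Real.exp (-T ^ 2 * δ ^ 2 / 2)) := by
    refine Finset.sum_le_sum fun p hp => ?_
    have hp' := Fintype.mem_piFinset.1 hp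
    have h2 := tuple_cmp Γ b δ T hδ hδ1 hdis p hp'
    have h3 : |∏ r, α (p r)| ≤ 1 := by
      rw [Finset.abs_prod]
      exact Finset.prod_le_one (fun r _ => abs_nonneg _) fun r _ => hα1 _ (hp' r)
    rw [← sub_le_iff_le_add', ← mul_sub]
    refine (le_abs_self _).trans ?_
    rw [abs_mul]
    exact (mul_le_mul h3 h2 (abs_nonneg _) zero_le_one).trans (one_mul _).le
  rw [Finset.sum_add_distrib, Finset.sum_const, nsmul_eq_mul] at h1
  have h4 : ((Fintype.piFinset fun _ : Fin J => Γ).card : ℝ) ≤ (N : ℝ) ^ J := by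
    have := Finset.card_le_univ (Fintype.piFinset fun _ : Fin J => Γ)
    rw [Fintype.card_fun, Fintype.card_fin, Fintype.card_fin] at this
    exact_mod_cast this
  have h5 := (mul_le_mul_of_nonneg_right h4 (Real.exp_pos (-T ^ 2 * δ ^ 2 / 2)).le).trans hfar
  have h6 : 1 ≤ (J.factorial : ℝ) * (T * √A) ^ J :=
    one_le_mul_of_one_le_of_one_le (by exact_mod_cast J.factorial_pos)
      (one_le_pow₀ (one_le_mul_of_one_le_of_one_le hT (Real.one_le_sqrt.2 hA)))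
  linarith

end Pool.Agent.P.MP_83f3dc_co.KT
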