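import Pool.Agent.P.MP_83f3dc_co.KUK2
import Pool.Agent.P.MP_83f3dc_co.KTKer

set_option autoImplicit false
set_option linter.unusedSectionVars false
set_option linter.unusedVariables false

open MeasureTheory ProbabilityTheory Module Set Filter Topology
open scoped RealInnerProductSpace ENNReal

noncomputable section

namespace Pool.Agent.P.MP_83f3dc_co.KT

variable {V : Type} [NormedAddCommGroup V] [InnerProductSpace ℝ V] [FiniteDimensional ℝ V]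
  [MeasurableSpace V] [BorelSpace V]

theorem K2_abs {T : ℝ} (hT : 0 ≤ T) {a b : V} (ha : ‖a‖ = 1) (hb : ‖b‖ = 1) :
    |K2 T a b * ⟪b, a⟫| ≤ Real.exp (-T ^ 2 * ‖pr b a‖ ^ 2 / 2) := by
  have hp : ‖pr a b‖ ^ 2 = ‖pr b a‖ ^ 2 := by rw [ker_pr ha hb, ker_pr hb ha, real_inner_comm]
  have h1 : |T / √(1 + T ^ 2)| ≤ 1 := by
    rw [abs_of_nonneg (by positivity)]
    refine div_le_one_of_le₀ (Real.le_sqrt_of_sq_le (by linarith)) (Real.sqrt_nonneg _)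
  have h2 : |Real.exp (-(T * ⟪a, b⟫) ^ 2 / (2 * (1 + T ^ 2)))| ≤ 1 := by
    rw [abs_of_pos (Real.exp_pos _), Real.exp_le_one_iff]
    exact div_nonpos_of_nonpos_of_nonneg (neg_nonpos.2 (sq_nonneg _)) (by positivity)
  have h3 : |⟪b, a⟫| ≤ 1 := by
    have := abs_real_inner_le_norm b a
    rwa [ha, hb, one_mul] at this
  rw [K2_eq T ha, hp, abs_mul, abs_mul, abs_mul, abs_of_pos (Real.exp_pos (-T ^ 2 * _ / 2))]
  have h4 := mul_le_one₀ h1 (abs_nonneg _) h2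
  have h5 := Real.exp_pos (-T ^ 2 * ‖pr b a‖ ^ 2 / 2)
  calc _ ≤ 1 * Real.exp (-T ^ 2 * ‖pr b a‖ ^ 2 / 2) * 1 :=
        mul_le_mul (mul_le_mul_of_nonneg_right h4 h5.le) h3 (abs_nonneg _) (by positivity)
    _ = _ := by ring

theorem K2_near {T : ℝ} (hT : 1 ≤ T) {a b : V} (ha : ‖a‖ = 1) (hb : ‖b‖ = 1)
    (hab : ‖a - b‖ ≤ 1 / (2 * T)) : 3 / 10 ≤ K2 T a b * ⟪b, a⟫ := by
  have hT0 : 0 < T := by linarith
  have h0 : ‖a - b‖ ^ 2 = 2 - 2 * ⟪a, b⟫ := by rw [norm_sub_sq_real, ha, hb]; ring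
  rw [K2_eq T ha, ker_pr ha hb, real_inner_comm a b]
  set ρ := ⟪a, b⟫
  have h1 : ‖a - b‖ * (2 * T) ≤ 1 := (le_div_iff₀ (by positivity)).1 hab
  have h2 : (2 - 2 * ρ) * (4 * T ^ 2) ≤ 1 := by
    rw [← h0]
    have h := mul_nonneg (norm_nonneg (a - b)) (by positivity : 0 ≤ 2 * T)
    nlinarith
  have h3 : ρ ≤ 1 := by nlinarith [sq_nonneg ‖a - b‖]
  have hT2 : 1 ≤ T ^ 2 := by nlinarith
  have h4 : 7 / 8 ≤ ρ := by nlinarith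
  have h5 : 7 / 10 ≤ T / √(1 + T ^ 2) := by
    rw [le_div_iff₀ (Real.sqrt_pos.2 (by positivity))]
    have : √(1 + T ^ 2) ≤ 10 / 7 * T := Real.sqrt_le_iff.2 ⟨by positivity, by nlinarith⟩
    linarith
  have h6 : (3 / 5 : ℝ) ≤ Real.exp (-(T * ρ) ^ 2 / (2 * (1 + T ^ 2))) := by
    refine ker_exp.trans (Real.exp_le_exp.2 ?_)
    rw [le_div_iff₀ (by positivity)]
    have e1 : ρ ^ 2 ≤ 1 := by nlinarith
    have e2 : T ^ 2 * ρ ^ 2 ≤ T ^ 2 * 1 := mul_le_mul_of_nonneg_left e1 (sq_nonneg T)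
    rw [mul_pow]
    linarith
  have h7 : (7 / 8 : ℝ) ≤ Real.exp (-T ^ 2 * (1 - ρ ^ 2) / 2) := by
    refine le_trans ?_ (Real.add_one_le_exp _)
    have e2 : 1 - ρ ^ 2 ≤ 2 - 2 * ρ := by nlinarith [sq_nonneg (1 - ρ)]
    have e3 := mul_le_mul_of_nonneg_left e2 (sq_nonneg T)
    linarith
  calc (3 / 10 : ℝ) ≤ 7 / 10 * (3 / 5) * (7 / 8) * (7 / 8) := by norm_num
    _ ≤ _ := mul_le_mul (mul_le_mul (mul_le_mul h5 h6 (by norm_num) (by linarith)) h7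
        (by norm_num) (by positivity)) h4 (by norm_num) (by positivity)

theorem kupt_far {N : ℕ} (S : Finset (Fin N)) (b : Fin N → V) (hb : ∀ i ∈ S, ‖b i‖ = 1) {δ : ℝ}
    (hδ : 0 < δ) {T : ℝ} (hT : 0 ≤ T)
    (hfar : 200 * (N : ℝ) * Real.exp (-T ^ 2 * δ ^ 2 / 32) ≤ 1) {a : V} (ha : ‖a‖ = 1)
    (hf : ∀ i ∈ S, δ / 4 ≤ ‖pr (b i) a‖) :
    -(1 / 200) ≤ ∑ j ∈ S, K2 T a (b j) * ⟪b j, a⟫ := by
  have h1 : ∀ i ∈ S, -Real.exp (-T ^ 2 * δ ^ 2 / 32) ≤ K2 T a (b i) * ⟪b i, a⟫ := fun i hi => by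
    refine le_trans (neg_le_neg (Real.exp_le_exp.2 ?_)) (abs_le.1 (K2_abs hT ha (hb i hi))).1
    have h2 := mul_le_mul_of_nonneg_left
      (pow_le_pow_left₀ (by positivity) (hf i hi) 2) (sq_nonneg T)
    linarith
  have h2 := Finset.card_nsmul_le_sum S _ _ h1
  have h3 : (S.card : ℝ) ≤ N := by
    exact_mod_cast (Finset.card_le_univ S).trans_eq (Fintype.card_fin N)
  rw [nsmul_eq_mul] at h2
  have h4 := mul_le_mul_of_nonneg_right h3 (Real.exp_pos (-T ^ 2 * δ ^ 2 / 32)).le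
  linarith

theorem kupt_near {N : ℕ} (Γ : Finset (Fin N)) (b : Fin N → V) (hb : ∀ i ∈ Γ, ‖b i‖ = 1) {δ : ℝ}
    (hδ : 0 < δ) (hδ1 : δ ≤ 1) (hsep : ∀ i ∈ Γ, ∀ j ∈ Γ, i ≠ j → δ ≤ ‖pr (b j) (b i)‖)
    {T : ℝ} (hT : 0 ≤ T) (hfar : 200 * (N : ℝ) * Real.exp (-T ^ 2 * δ ^ 2 / 32) ≤ 1) {a : V}
    (ha : ‖a‖ = 1) {i₀ : Fin N} (hi : i₀ ∈ Γ) (hn : ‖pr (b i₀) a‖ < δ / 4) {c : ℝ}
    (hc : c ≤ K2 T a (b i₀) * ⟪b i₀, a⟫) :
    c - 1 / 200 ≤ ∑ j ∈ Γ, K2 T a (b j) * ⟪b j, a⟫ := by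
  rw [← Finset.add_sum_erase _ _ hi]
  have h1 := kupt_far (Γ.erase i₀) b (fun i hi => hb i (Finset.mem_of_mem_erase hi)) hδ hT hfar ha
    fun i hi' => by
      by_contra! hlt
      obtain ⟨h2, h3⟩ := Finset.mem_erase.1 hi'
      exact (one_close ha (hb _ hi) (hb _ h3) hδ1 hn hlt).not_ge (hsep _ hi _ h3 h2.symm)
  linarith

theorem kupt_unit {w : V} (hw : w ≠ 0) : ‖‖w‖⁻¹ • w‖ = 1 := by
  rw [norm_smul, norm_inv, norm_norm, inv_mul_cancel₀ (norm_ne_zero_iff.2 hw)]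

theorem kupt_any {N : ℕ} (Γ : Finset (Fin N)) (b : Fin N → V) (hb : ∀ i ∈ Γ, ‖b i‖ = 1) {δ : ℝ}
    (hδ : 0 < δ) (hδ1 : δ ≤ 1) (hsep : ∀ i ∈ Γ, ∀ j ∈ Γ, i ≠ j → δ ≤ ‖pr (b j) (b i)‖)
    {T : ℝ} (hT : 0 ≤ T) (hfar : 200 * (N : ℝ) * Real.exp (-T ^ 2 * δ ^ 2 / 32) ≤ 1) (w : V) :
    -1 - 1 / 200 ≤ ∑ j ∈ Γ, K2 T (‖w‖⁻¹ • w) (b j) * ⟪b j, ‖w‖⁻¹ • w⟫ := by
  by_cases hw : w = 0
  · simp only [hw, smul_zero, inner_zero_right, mul_zero, Finset.sum_const_zero]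
    norm_num
  have ha := kupt_unit hw
  by_cases hn : ∃ i ∈ Γ, ‖pr (b i) (‖w‖⁻¹ • w)‖ < δ / 4
  · obtain ⟨i, hi, hn⟩ := hn
    refine kupt_near Γ b hb hδ hδ1 hsep hT hfar ha hi hn
      (le_trans (neg_le_neg ?_) (abs_le.1 (K2_abs hT ha (hb i hi))).1)
    rw [Real.exp_le_one_iff]
    have := mul_nonneg (sq_nonneg T) (sq_nonneg ‖pr (b i) (‖w‖⁻¹ • w)‖)
    linarith
  · push Not at hn
    have := kupt_far Γ b hb hδ hT hfar ha hn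
    linarith

theorem pt_sum {N t : ℕ} (Γ : Finset (Fin N)) (hΓ : 100 * Γᶜ.card ≤ N) (b : Fin N → V)
    (hb : ∀ i ∈ Γ, ‖b i‖ = 1) (δ : ℝ) (hδ : 0 < δ) (hδ1 : δ ≤ 1)
    (hsep : ∀ i ∈ Γ, ∀ j ∈ Γ, i ≠ j → δ ≤ ‖pr (b j) (b i)‖) (T : ℝ) (hT : 1 ≤ T)
    (hTδ : 2 < T * δ) (hfar : 200 * (N : ℝ) * Real.exp (-T ^ 2 * δ ^ 2 / 32) ≤ 1)
    (w : Fin N × Fin t → V)
    (hw : ∀ p, p.1 ∈ Γ → w p ≠ 0 ∧ ‖‖w p‖⁻¹ • w p - b p.1‖ ≤ 1 / (2 * T)) :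
    28 / 100 * ((t : ℝ) * N) ≤
      ∑ p, ∑ j ∈ Γ, K2 T (‖w p‖⁻¹ • w p) (b j) * ⟪b j, ‖w p‖⁻¹ • w p⟫ := by
  have hT0 : 0 < T := by linarith
  obtain ⟨c, hc⟩ : ∃ c : Fin N → ℝ, ∀ i, c i = if i ∈ Γᶜ then 1 else 0 := ⟨_, fun _ => rfl⟩
  have hcs : ∑ i, c i = Γᶜ.card := by
    simp only [hc]
    rw [Finset.sum_boole, Finset.filter_mem_eq_inter, Finset.univ_inter]
  have e3 : ∀ p : Fin N × Fin t, 59 / 200 - 13 / 10 * c p.1 ≤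
      ∑ j ∈ Γ, K2 T (‖w p‖⁻¹ • w p) (b j) * ⟪b j, ‖w p‖⁻¹ • w p⟫ := by
    intro p
    by_cases hp : p.1 ∈ Γ
    · have ha := kupt_unit (hw p hp).1
      have hn : ‖pr (b p.1) (‖w p‖⁻¹ • w p)‖ < δ / 4 := by
        have e : pr (b p.1) (‖w p‖⁻¹ • w p) = pr (b p.1) (‖w p‖⁻¹ • w p - b p.1) := by
          rw [pr_sub, pr_self, sub_zero]
        rw [e]
        refine ((norm_pr_le _ _).trans (hw p hp).2).trans_lt ?_
        rw [div_lt_div_iff₀ (by positivity) (by norm_num)]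
        linarith
      refine le_trans ?_ (kupt_near Γ b hb hδ hδ1 hsep hT0.le hfar ha hp hn
        (K2_near hT ha (hb _ hp) (hw p hp).2))
      rw [hc, if_neg (by simpa using hp)]
      norm_num
    · refine le_trans ?_ (kupt_any Γ b hb hδ hδ1 hsep hT0.le hfar (w p))
      rw [hc, if_pos (by simpa using hp)]
      norm_num
  have e4 := Finset.sum_le_sum fun p (_ : p ∈ Finset.univ) => e3 p
  have e5 : ∑ p : Fin N × Fin t, (59 / 200 - 13 / 10 * c p.1) =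
      t * (59 / 200 * N - 13 / 10 * Γᶜ.card) := by
    rw [Fintype.sum_prod_type]
    simp only [Finset.sum_const, Finset.card_univ, Fintype.card_fin, nsmul_eq_mul]
    rw [← Finset.mul_sum, Finset.sum_sub_distrib, ← Finset.mul_sum, hcs,
      Finset.sum_const, Finset.card_univ, Fintype.card_fin, nsmul_eq_mul]
    ring
  have e7 : 100 * (Γᶜ.card : ℝ) ≤ N := by exact_mod_cast hΓ
  have e8 : 28 / 100 * (N : ℝ) ≤ 59 / 200 * N - 13 / 10 * Γᶜ.card := by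
    have : (0 : ℝ) ≤ N := Nat.cast_nonneg N
    linarith
  have e9 := mul_le_mul_of_nonneg_left e8 (Nat.cast_nonneg t : (0 : ℝ) ≤ t)
  rw [e5] at e4
  linarith

end Pool.Agent.P.MP_83f3dc_co.KT
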