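import Pool.Agent.P.MP_83f3dc_co.KUF0

set_option autoImplicit false
set_option linter.unusedSectionVars false
set_option linter.unusedVariables false

open MeasureTheory ProbabilityTheory Module Set Filter Topology
open scoped RealInnerProductSpace ENNReal

noncomputable section

namespace Pool.Agent.P.MP_83f3dc_co.KT

theorem coeff_one_le (J : ℕ) (hJ : 2 ≤ J) : ∃ C : ℝ, 0 < C ∧ ∀ (c : ℕ → ℝ) (A η : ℝ), 0 < η →
    (∀ s, 0 ≤ s → s ≤ η → |∑ k ∈ Finset.range J, c k * s ^ k| ≤ A) → |c 1| * η ≤ C * A := by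
  have hJ0 : (0 : ℝ) < J := by exact_mod_cast (by omega : 0 < J)
  obtain ⟨V, hV⟩ : ∃ V : Matrix (Fin J) (Fin J) ℝ,
      V = Matrix.vandermonde fun j : Fin J => ((j : ℕ) : ℝ) / J := ⟨_, rfl⟩
  have hdet : V.det ≠ 0 := by
    rw [hV, Matrix.det_vandermonde_ne_zero_iff]
    intro i j h
    have h1 : ((i : ℕ) : ℝ) = ((j : ℕ) : ℝ) := (div_left_inj' hJ0.ne').1 h
    exact Fin.ext (by exact_mod_cast h1)
  have h1J : 1 < J := by omega
  refine ⟨1 + ∑ j, |V⁻¹ ⟨1, h1J⟩ j|, by positivity, fun c A η hη h => ?_⟩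
  have hA : 0 ≤ A := (abs_nonneg _).trans (h 0 le_rfl hη.le)
  obtain ⟨a, ha⟩ : ∃ a : Fin J → ℝ, a = fun k : Fin J => c k * η ^ (k : ℕ) := ⟨_, rfl⟩
  have h2 : ∀ j, |V.mulVec a j| ≤ A := fun j => by
    have hj : ((j : ℕ) : ℝ) ≤ J := by exact_mod_cast j.2.le
    have h3 := h (η * (((j : ℕ) : ℝ) / J)) (by positivity)
      (mul_le_of_le_one_right hη.le ((div_le_one hJ0).2 hj))
    rw [Finset.sum_range] at h3
    have e : V.mulVec a j = ∑ k : Fin J, c k * (η * (((j : ℕ) : ℝ) / J)) ^ (k : ℕ) := by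
      rw [hV, ha, Matrix.mulVec, dotProduct]
      refine Finset.sum_congr rfl fun k _ => ?_
      rw [Matrix.vandermonde_apply, mul_pow]
      ring
    rwa [e]
  have h4 : V⁻¹.mulVec (V.mulVec a) = a := by
    rw [Matrix.mulVec_mulVec, Matrix.nonsing_inv_mul V (Ne.isUnit hdet), Matrix.one_mulVec]
  have h5 : c 1 * η = ∑ j, V⁻¹ ⟨1, h1J⟩ j * V.mulVec a j := by
    have h6 := congrFun h4 ⟨1, h1J⟩
    rw [Matrix.mulVec, dotProduct] at h6
    rw [h6, ha]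
    simp only [pow_one]
  have h7 : |c 1| * η = |c 1 * η| := by rw [abs_mul, abs_of_pos hη]
  rw [h7, h5, add_mul, one_mul, Finset.sum_mul]
  refine (Finset.abs_sum_le_sum_abs _ _).trans (le_add_of_nonneg_of_le hA ?_)
  refine Finset.sum_le_sum fun j _ => ?_
  rw [abs_mul]
  exact mul_le_mul_of_nonneg_left (h2 j) (abs_nonneg _)

theorem psi_taylor {Ω : Type} [MeasurableSpace Ω] (μ : Measure Ω) [IsProbabilityMeasure μ]
    {κ : Type} [Fintype κ] (x ζ : κ → Ω → ℝ) (hx : ∀ p, Measurable (x p))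
    (hζ : ∀ p, Measurable (ζ p)) (R : ℝ) (hR : ∀ p ω, |ζ p ω| ≤ R) (J : ℕ) (hJ : Even J)
    (f : ℕ → ℝ → ℝ) (B : ℝ) (hB : 0 ≤ B) (hf : ∀ k, Continuous (f k))
    (hfB : ∀ k x, k ≤ J → |f k x| ≤ B)
    (hT : ∀ x v, |f0 (x + v) - ∑ k ∈ Finset.range J, f k x * v ^ k| ≤ B * |v| ^ J)
    (Mo : ℝ) (hM0 : 0 ≤ Mo) (hM : ∀ p, ∫ ω, ζ p ω ^ J ∂μ ≤ Mo) (S η s : ℝ)
    (hS : ∀ ω, |∑ p, f0 (x p ω + s * ζ p ω)| ≤ S) (hs0 : 0 ≤ s) (hs : s ≤ η) :
    |∑ k ∈ Finset.range J, (∑ p, ∫ ω, f k (x p ω) * ζ p ω ^ k ∂μ) * s ^ k|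
      ≤ S + B * η ^ J * (Fintype.card κ) * Mo := by
  have hζk : ∀ p k ω, |ζ p ω ^ k| ≤ R ^ k := fun p k ω => by
    rw [abs_pow]
    exact pow_le_pow_left₀ (abs_nonneg _) (hR p ω) k
  have i1 : ∀ p k, Integrable (fun ω => ζ p ω ^ k) μ := fun p k =>
    Integrable.of_bound ((hζ p).pow_const k).aestronglyMeasurable (R ^ k)
      (Eventually.of_forall fun ω => hζk p k ω)
  have i2 : ∀ p, ∀ k ∈ Finset.range J, Integrable (fun ω => f k (x p ω) * ζ p ω ^ k) μ :=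
    fun p k hk => Integrable.of_bound
      (((hf k).measurable.comp (hx p)).mul ((hζ p).pow_const k)).aestronglyMeasurable (B * R ^ k)
      (Eventually.of_forall fun ω => by
        rw [Real.norm_eq_abs, abs_mul]
        exact mul_le_mul (hfB k _ (Finset.mem_range.1 hk).le) (hζk p k ω) (abs_nonneg _) hB)
  have e1 : ∑ k ∈ Finset.range J, (∑ p, ∫ ω, f k (x p ω) * ζ p ω ^ k ∂μ) * s ^ k =
      ∫ ω, ∑ k ∈ Finset.range J, (∑ p, f k (x p ω) * ζ p ω ^ k) * s ^ k ∂μ := by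
    rw [integral_finsetSum _ fun k hk =>
      (integrable_finsetSum _ fun p _ => i2 p k hk).mul_const _]
    refine Finset.sum_congr rfl fun k hk => ?_
    rw [integral_mul_const, integral_finsetSum _ fun p _ => i2 p k hk]
  have i3 : Integrable (fun ω => S + B * s ^ J * ∑ p, ζ p ω ^ J) μ :=
    (integrable_const S).add ((integrable_finsetSum _ fun p _ => i1 p J).const_mul _)
  have h1 : ∀ ω, ‖∑ k ∈ Finset.range J, (∑ p, f k (x p ω) * ζ p ω ^ k) * s ^ k‖ ≤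
      S + B * s ^ J * ∑ p, ζ p ω ^ J := fun ω => by
    have e2 : ∑ k ∈ Finset.range J, (∑ p, f k (x p ω) * ζ p ω ^ k) * s ^ k =
        ∑ p, f0 (x p ω + s * ζ p ω) - ∑ p, (f0 (x p ω + s * ζ p ω) -
          ∑ k ∈ Finset.range J, f k (x p ω) * (s * ζ p ω) ^ k) := by
      rw [Finset.sum_sub_distrib, sub_sub_cancel, Finset.sum_comm]
      refine Finset.sum_congr rfl fun k _ => ?_
      rw [Finset.sum_mul]
      refine Finset.sum_congr rfl fun p _ => ?_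
      rw [mul_pow]
      ring
    rw [Real.norm_eq_abs, e2]
    refine (abs_sub _ _).trans (add_le_add (hS ω) ((Finset.abs_sum_le_sum_abs _ _).trans ?_))
    rw [Finset.mul_sum]
    refine Finset.sum_le_sum fun p _ => (hT _ _).trans (le_of_eq ?_)
    rw [hJ.pow_abs, mul_pow, mul_assoc]
  have h2 := norm_integral_le_of_norm_le i3 (Eventually.of_forall h1)
  rw [Real.norm_eq_abs, ← e1, integral_add (integrable_const S)
    ((integrable_finsetSum _ fun p _ => i1 p J).const_mul _), integral_const_mul,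
    integral_finsetSum _ fun p _ => i1 p J] at h2
  refine h2.trans (add_le_add (by simp) ?_)
  have h3 : ∑ p, ∫ ω, ζ p ω ^ J ∂μ ≤ Fintype.card κ * Mo := by
    refine (Finset.sum_le_sum fun p _ => hM p).trans (le_of_eq ?_)
    rw [Finset.sum_const, nsmul_eq_mul, Finset.card_univ]
  have h4 : s ^ J ≤ η ^ J := pow_le_pow_left₀ hs0 hs J
  have h5 : 0 ≤ s ^ J := pow_nonneg hs0 J
  calc B * s ^ J * ∑ p, ∫ ω, ζ p ω ^ J ∂μ ≤ B * s ^ J * (Fintype.card κ * Mo) :=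
        mul_le_mul_of_nonneg_left h3 (mul_nonneg hB h5)
    _ ≤ B * η ^ J * (Fintype.card κ * Mo) :=
        mul_le_mul_of_nonneg_right (mul_le_mul_of_nonneg_left h4 hB) (by positivity)
    _ = _ := by ring

end Pool.Agent.P.MP_83f3dc_co.KT
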