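import Pool.Agent.P.MP_83f3dc_co.KUTay
import Pool.Agent.P.MP_83f3dc_co.KUVan
import Pool.Agent.P.MP_83f3dc_co.KUPt
import Pool.Agent.P.MP_83f3dc_co.KUMom

set_option autoImplicit false
set_option linter.unusedSectionVars false
set_option linter.unusedVariables false

open MeasureTheory ProbabilityTheory Module Set Filter Topology
open scoped RealInnerProductSpace ENNReal

noncomputable section

namespace Pool.Agent.P.MP_83f3dc_co.KT

theorem KUTest_norm {c : ℕ} (v : E c) : ‖‖v‖⁻¹ • v‖ = 1 ∨ ‖v‖⁻¹ • v = 0 := by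
  by_cases hv : v = 0
  · right; simp [hv]
  · left
    have : ‖v‖ ≠ 0 := norm_ne_zero_iff.2 hv
    rw [norm_smul, norm_inv, norm_norm, inv_mul_cancel₀ this]

theorem KUTest_inner {c : ℕ} (v b : E c) (hb : ‖b‖ = 1) : |⟪b, ‖v‖⁻¹ • v⟫| ≤ 1 := by
  have h := abs_real_inner_le_norm b (‖v‖⁻¹ • v)
  rcases KUTest_norm v with h1 | h1
  · rw [hb, h1] at h; linarith
  · rw [h1]; simp

theorem KUTest_sqrt : (79 / 100 : ℝ) ≤ √(2 / Real.pi) := by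
  apply Real.le_sqrt_of_sq_le
  have h1 := Real.pi_lt_d2
  have h2 := Real.pi_pos
  rw [le_div_iff₀ h2]
  nlinarith

theorem KUTest_c1 {c N : ℕ} (Γ : Finset (Fin N)) (b : Fin N → E c) (T κ : ℝ) (a : E c) :
    ∫ y, (√(2 / Real.pi) * Real.exp (-(T * ⟪y, a⟫) ^ 2 / 2)) *
      (T * κ * ∑ j ∈ Γ, ⟪b j, a⟫ * Real.cos (T * ⟪y, b j⟫)) ^ 1 ∂(stdGaussian (E c))
      = √(2 / Real.pi) * κ * ∑ j ∈ Γ, K2 T a (b j) * ⟪b j, a⟫ := by
  have h1 : ∀ y : E c, (√(2 / Real.pi) * Real.exp (-(T * ⟪y, a⟫) ^ 2 / 2)) *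
      (T * κ * ∑ j ∈ Γ, ⟪b j, a⟫ * Real.cos (T * ⟪y, b j⟫)) ^ 1
      = √(2 / Real.pi) * κ * ∑ j ∈ Γ,
        (T * Real.exp (-(T * ⟪y, a⟫) ^ 2 / 2) * Real.cos (T * ⟪y, b j⟫)) * ⟪b j, a⟫ := by
    intro y
    rw [pow_one, Finset.mul_sum, Finset.mul_sum, Finset.mul_sum]
    refine Finset.sum_congr rfl fun j _ => ?_
    ring
  simp_rw [h1]
  rw [integral_const_mul, integral_finsetSum _
    (fun j _ => (K2_integrable T a (b j)).mul_const _)]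
  congr 1
  refine Finset.sum_congr rfl fun j _ => ?_
  rw [integral_mul_const]
  rfl

theorem KUTest_num (C B F Q η T sA M P c1 : ℝ) (J : ℕ) (hJ : 1 ≤ J) (hC : 0 < C) (hB : 0 ≤ B)
    (hF : 0 ≤ F) (hQ : Q = 10 * C + 1 + 160 * C * F * B) (hη : 0 < η) (hT : 1 ≤ T) (hA : 1 ≤ sA)
    (hM : 0 < M) (hsm : Q * η ^ (J - 1) * T ^ (J + 1) * sA ≤ 1)
    (hc1 : 79 / 100 * (1 / (T * sA)) * (28 / 100 * M) ≤ c1)
    (hP : P = M * η / (Q * T * sA))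
    (h : |c1| * η ≤ C * (P + B * η ^ J * M * (T ^ J * (16 * F)))) : False := by
  obtain ⟨m, rfl⟩ : ∃ m, J = m + 1 := ⟨J - 1, by omega⟩
  rw [Nat.add_sub_cancel] at hsm
  have hT0 : 0 < T := by linarith
  have hA0 : 0 < sA := by linarith
  have hCFB : 0 ≤ C * F * B := by positivity
  have hQ0 : 0 < Q := by rw [hQ]; nlinarith
  set k : ℝ := 1 / (T * sA) with hk
  have hk0 : 0 < k := by positivity
  have hP' : P = M * η * k / Q := by
    rw [hP, hk]; field_simp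
  have h1 : η ^ m * T ^ (m + 1) ≤ k / Q := by
    rw [hk, le_div_iff₀ hQ0, le_div_iff₀ (by positivity)]
    calc η ^ m * T ^ (m + 1) * Q * (T * sA) = Q * η ^ m * T ^ (m + 1 + 1) * sA := by ring
      _ ≤ 1 := hsm
  have hX : 0 < M * η * k := by positivity
  have h2 : C * P ≤ 1 / 10 * (M * η * k) := by
    rw [hP', ← mul_div_assoc, div_le_iff₀ hQ0]
    have : C ≤ 1 / 10 * Q := by rw [hQ]; nlinarith
    nlinarith
  have h3 : C * (B * η ^ (m + 1) * M * (T ^ (m + 1) * (16 * F))) ≤ 1 / 10 * (M * η * k) := by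
    have e : C * (B * η ^ (m + 1) * M * (T ^ (m + 1) * (16 * F)))
        = (16 * (C * F * B) * (M * η)) * (η ^ m * T ^ (m + 1)) := by ring
    rw [e]
    have h4 : (16 * (C * F * B) * (M * η)) * (η ^ m * T ^ (m + 1))
        ≤ (16 * (C * F * B) * (M * η)) * (k / Q) :=
      mul_le_mul_of_nonneg_left h1 (by positivity)
    refine h4.trans ?_
    rw [← mul_div_assoc, div_le_iff₀ hQ0]
    have : 16 * (C * F * B) ≤ 1 / 10 * Q := by rw [hQ]; nlinarith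
    nlinarith
  have h5 : c1 * η ≤ |c1| * η := mul_le_mul_of_nonneg_right (le_abs_self _) hη.le
  have h6 : 79 / 100 * k * (28 / 100 * M) * η ≤ c1 * η := mul_le_mul_of_nonneg_right hc1 hη.le
  rw [mul_add] at h
  nlinarith

/-- the gradient step test for the half-space discrepancy -/
theorem test2 (J : ℕ) (hJ : Even J) (hJ2 : 2 ≤ J) : ∃ Q : ℝ, 0 < Q ∧
    ∀ (c N t : ℕ) (Γ : Finset (Fin N)) (b : Fin N → E c) (δ T A η : ℝ) (w : Fin N × Fin t → E c),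
      1 ≤ N → 1 ≤ t → 100 * Γᶜ.card ≤ N → (∀ i ∈ Γ, ‖b i‖ = 1) → 0 < δ → δ ≤ 1 →
      (∀ i ∈ Γ, ∀ j ∈ Γ, i ≠ j → δ ≤ ‖pr (b j) (b i)‖) →
      (∀ n : Fin N → ℤ, (∀ i, n i ≠ 0 → i ∈ Γ) → ∑ i, |n i| ≤ J → n ≠ 0 →
        δ ≤ ‖∑ i, (n i : ℝ) • b i‖) →
      (∀ a : E c, ‖a‖ = 1 → ∑ j ∈ Γ, ⟪b j, a⟫ ^ 2 ≤ A) → 1 ≤ A → 1 ≤ T → 2 < T * δ →
      200 * (N : ℝ) ^ J * Real.exp (-T ^ 2 * δ ^ 2 / 32) ≤ 1 → 0 < η →
      Q * η ^ (J - 1) * T ^ (J + 1) * √A ≤ 1 →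
      (∀ p, p.1 ∈ Γ → w p ≠ 0 ∧ ‖‖w p‖⁻¹ • w p - b p.1‖ ≤ 1 / (2 * T)) →
      ∃ y : E c, t * (N * η / (Q * T * √A)) ≤ ∑ p, Real.sign ⟪y, w p⟫ := by
  obtain ⟨f, B, hB, hf, hfB, hf1, hTay⟩ := exists_taylor J hJ2
  obtain ⟨C, hC, hco⟩ := coeff_one_le J hJ2
  have hF : (0 : ℝ) ≤ (J.factorial : ℝ) := Nat.cast_nonneg _
  refine ⟨10 * C + 1 + 160 * C * (J.factorial : ℝ) * B, by positivity, ?_⟩
  intro c N t Γ b δ T A η w hN ht hΓ hb hδ hδ1 hsep hdis hfr hA hT hTδ hfar hη hsm hw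
  set Q : ℝ := 10 * C + 1 + 160 * C * (J.factorial : ℝ) * B with hQ
  by_contra hcon
  push Not at hcon
  set S0 : ℝ := t * (N * η / (Q * T * √A)) with hS0
  have hT0 : 0 < T := by linarith
  have hsA : 1 ≤ √A := Real.one_le_sqrt.2 hA
  have hsA0 : 0 < √A := by linarith
  have hN1 : (1 : ℝ) ≤ N := by exact_mod_cast hN
  have ht1 : (1 : ℝ) ≤ t := by exact_mod_cast ht
  set κ : ℝ := 1 / (T * √A) with hκ
  have hκ0 : 0 < κ := by positivity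
  have hexp := Real.exp_pos (-T ^ 2 * δ ^ 2 / 32)
  have hNJ : (N : ℝ) ≤ (N : ℝ) ^ J := le_self_pow₀ hN1 (by omega)
  have hfar1 : 200 * (N : ℝ) * Real.exp (-T ^ 2 * δ ^ 2 / 32) ≤ 1 := by
    refine le_trans ?_ hfar
    exact mul_le_mul_of_nonneg_right (by linarith) hexp.le
  have hfar2 : (N : ℝ) ^ J * Real.exp (-T ^ 2 * δ ^ 2 / 2) ≤ 1 := by
    have h1 : Real.exp (-T ^ 2 * δ ^ 2 / 2) ≤ Real.exp (-T ^ 2 * δ ^ 2 / 32) := by
      apply Real.exp_le_exp.2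
      have : 0 ≤ T ^ 2 * δ ^ 2 := by positivity
      nlinarith
    have h2 : (0 : ℝ) ≤ (N : ℝ) ^ J := by positivity
    have h3 := mul_le_mul_of_nonneg_left h1 h2
    have h4 := mul_nonneg h2 hexp.le
    nlinarith
  set x : Fin N × Fin t → E c → ℝ := fun p y => T * ⟪y, ‖w p‖⁻¹ • w p⟫ with hx
  set ζ : Fin N × Fin t → E c → ℝ := fun p y =>
    T * κ * ∑ j ∈ Γ, ⟪b j, ‖w p‖⁻¹ • w p⟫ * Real.cos (T * ⟪y, b j⟫) with hζ
  have hxm : ∀ p, Measurable (x p) := fun p => by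
    simp only [hx]; fun_prop
  have hζm : ∀ p, Measurable (ζ p) := fun p => by
    simp only [hζ]
    refine Measurable.const_mul (Finset.measurable_sum _ fun j _ => ?_) _
    fun_prop
  have hR : ∀ p y, |ζ p y| ≤ T * κ * Γ.card := by
    intro p y
    simp only [hζ]
    rw [abs_mul, abs_of_pos (mul_pos hT0 hκ0)]
    refine mul_le_mul_of_nonneg_left ?_ (mul_pos hT0 hκ0).le
    refine (Finset.abs_sum_le_sum_abs _ _).trans ?_
    have h1 : ∀ j ∈ Γ, |⟪b j, ‖w p‖⁻¹ • w p⟫ * Real.cos (T * ⟪y, b j⟫)| ≤ 1 := by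
      intro j hj
      rw [abs_mul]
      exact mul_le_one₀ (KUTest_inner _ _ (hb j hj)) (abs_nonneg _) (Real.abs_cos_le_one _)
    simpa using Finset.sum_le_card_nsmul Γ _ 1 h1
  have hM : ∀ p, ∫ y, ζ p y ^ J ∂(stdGaussian (E c)) ≤ T ^ J * (16 * (J.factorial : ℝ)) := by
    intro p
    have hα : ∑ j ∈ Γ, ⟪b j, ‖w p‖⁻¹ • w p⟫ ^ 2 ≤ A := by
      rcases KUTest_norm (w p) with h1 | h1
      · exact hfr _ h1
      · rw [h1]; simp; linarith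
    have h := mom hJ (by omega) Γ b δ T A hδ.le hδ1 hT hA hdis hfar2
      (fun j => ⟪b j, ‖w p‖⁻¹ • w p⟫) (fun j hj => KUTest_inner _ _ (hb j hj)) hα
    simp only [hζ, mul_pow (T * κ)]
    rw [integral_const_mul]
    refine (mul_le_mul_of_nonneg_left h (by positivity)).trans (le_of_eq ?_)
    have e : κ * (T * √A) = 1 := by rw [hκ]; field_simp
    calc (T * κ) ^ J * (16 * (J.factorial : ℝ) * (T * √A) ^ J)
        = T ^ J * (16 * (J.factorial : ℝ)) * (κ * (T * √A)) ^ J := by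
          rw [mul_pow T κ, mul_pow κ]; ring
      _ = T ^ J * (16 * (J.factorial : ℝ)) := by rw [e, one_pow, mul_one]
  have hS : ∀ (s : ℝ) (y : E c), |∑ p, f0 (x p y + s * ζ p y)| ≤ S0 := by
    intro s y
    have h := phi_le w S0 T (fun y => (hcon y).le)
      (y + (s * κ) • ∑ j ∈ Γ, Real.cos (T * ⟪y, b j⟫) • b j)
    have e : ∀ p, T * ⟪y + (s * κ) • ∑ j ∈ Γ, Real.cos (T * ⟪y, b j⟫) • b j, ‖w p‖⁻¹ • w p⟫
        = x p y + s * ζ p y := by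
      intro p
      simp only [hx, hζ]
      rw [inner_add_left, real_inner_smul_left, sum_inner]
      have e2 : ∑ j ∈ Γ, ⟪Real.cos (T * ⟪y, b j⟫) • b j, ‖w p‖⁻¹ • w p⟫
          = ∑ j ∈ Γ, ⟪b j, ‖w p‖⁻¹ • w p⟫ * Real.cos (T * ⟪y, b j⟫) :=
        Finset.sum_congr rfl fun j _ => by rw [real_inner_smul_left]; ring
      rw [e2]; ring
    simp only [e] at h
    exact h
  have hmain := hco (fun k => ∑ p, ∫ y, f k (x p y) * ζ p y ^ k ∂(stdGaussian (E c)))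
    (S0 + B * η ^ J * (Fintype.card (Fin N × Fin t)) * (T ^ J * (16 * (J.factorial : ℝ)))) η hη
    (fun s hs0 hs => psi_taylor (stdGaussian (E c)) x ζ hxm hζm _ hR J hJ f B hB hf hfB hTay _
      (by positivity) hM S0 η s (hS s) hs0 hs)
  have hc1 : ∑ p, ∫ y, f 1 (x p y) * ζ p y ^ 1 ∂(stdGaussian (E c))
      = √(2 / Real.pi) * κ *
        ∑ p, ∑ j ∈ Γ, K2 T (‖w p‖⁻¹ • w p) (b j) * ⟪b j, ‖w p‖⁻¹ • w p⟫ := by
    rw [Finset.mul_sum]
    refine Finset.sum_congr rfl fun p _ => ?_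
    simp only [hf1, hx, hζ]
    exact KUTest_c1 Γ b T κ _
  have hpt := pt_sum Γ hΓ b hb δ hδ hδ1 hsep T hT hTδ hfar1 w hw
  have hcard : (Fintype.card (Fin N × Fin t) : ℝ) = (t : ℝ) * N := by
    rw [Fintype.card_prod, Fintype.card_fin, Fintype.card_fin]; push_cast; ring
  rw [hcard] at hmain
  have hMp : (0 : ℝ) < (t : ℝ) * N := by positivity
  refine KUTest_num C B (J.factorial : ℝ) Q η T (√A) ((t : ℝ) * N) S0 _ J (by omega) hC hB hF hQ hη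
    hT hsA hMp hsm ?_ ?_ hmain
  · show _ ≤ ∑ p, ∫ y, f 1 (x p y) * ζ p y ^ 1 ∂(stdGaussian (E c))
    rw [hc1]
    refine mul_le_mul (mul_le_mul_of_nonneg_right KUTest_sqrt hκ0.le) hpt (by positivity) ?_
    positivity
  · rw [hS0]; ring

end Pool.Agent.P.MP_83f3dc_co.KT
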