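import Pool.Agent.P.MP_83f3dc_co.KTGm

set_option autoImplicit false
set_option linter.unusedSectionVars false
set_option linter.unusedVariables false

open MeasureTheory ProbabilityTheory Module Set Filter Topology
open scoped RealInnerProductSpace ENNReal

noncomputable section

namespace Pool.Agent.P.MP_83f3dc_co.KT

variable {V : Type} [NormedAddCommGroup V] [InnerProductSpace ℝ V] [FiniteDimensional ℝ V]
  [MeasurableSpace V] [BorelSpace V]

theorem exists_tuple {ι : Type} {J : ℕ} (O : Finset ι) (hO : O.Nonempty) (hJ : O.card ≤ J)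
    (z : ι → ℤ) (hz : ∀ i ∈ O, |z i| ≤ J) :
    ∃ (j : Fin J → ι) (m : Fin J → ℤ), (∀ r, j r ∈ O) ∧ (∀ r, |m r| ≤ J) ∧
      ∀ v : ι → V, ∑ r, (m r : ℝ) • v (j r) = ∑ i ∈ O, (z i : ℝ) • v i := by
  classical
  obtain ⟨i0, hi0⟩ := hO
  let e := O.equivFin.symm
  refine ⟨fun r => if h : r.1 < O.card then (e ⟨r.1, h⟩ : ι) else i0,
    fun r => if h : r.1 < O.card then z (e ⟨r.1, h⟩ : ι) else 0, fun r => ?_, fun r => ?_,
    fun v => ?_⟩
  · by_cases h : r.1 < O.card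
    · simp only [dif_pos h]
      exact (e _).2
    · simp only [dif_neg h]
      exact hi0
  · by_cases h : r.1 < O.card
    · simp only [dif_pos h]
      exact hz _ (e _).2
    · simp only [dif_neg h]
      simp
  · rw [← Finset.sum_coe_sort O, ← e.sum_comp]
    refine (Fintype.sum_of_injective (Fin.castLE hJ) (Fin.castLE_injective hJ) _ _
      (fun r hr => ?_) fun r => ?_).symm
    · have h : ¬ r.1 < O.card := fun h => hr ⟨⟨r.1, h⟩, rfl⟩
      simp only [dif_neg h]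
      simp
    · have h : (Fin.castLE hJ r).1 < O.card := r.2
      simp only [dif_pos h]
      rfl

theorem diss_of_good {N J : ℕ} (w : Fin N → V) (Γ : Finset (Fin N)) (s : Fin N → ℝ)
    (hs : ∀ i, s i = 1 ∨ s i = -1) (lo hi : ℝ) (hlo : 0 < lo)
    (hw : ∀ i ∈ Γ, lo < ‖w i‖ ∧ ‖w i‖ < hi)
    (hC : ∀ i ∈ Γ, ∀ (j : Fin J → Fin N) (m : Fin J → ℤ), (∀ r, i < j r) → (∀ r, |m r| ≤ J) →
      lo < ‖pr (∑ r, (m r : ℝ) • ‖w (j r)‖⁻¹ • w (j r)) (w i)‖)
    (n : Fin N → ℤ) (hn : ∀ i, n i ≠ 0 → i ∈ Γ) (hnJ : ∑ i, |n i| ≤ J) (hn0 : n ≠ 0) :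
    lo / hi ≤ ‖∑ i, (n i : ℝ) • ‖s i • w i‖⁻¹ • s i • w i‖ := by
  classical
  have hne : (Finset.univ.filter fun i => n i ≠ 0).Nonempty := by
    obtain ⟨i, hi⟩ := Function.ne_iff.1 hn0
    exact ⟨i, Finset.mem_filter.2 ⟨Finset.mem_univ _, hi⟩⟩
  set S := Finset.univ.filter fun i => n i ≠ 0 with hS
  set i0 := S.min' hne with hi0
  have h0 : i0 ∈ S := S.min'_mem hne
  have hn0' : n i0 ≠ 0 := (Finset.mem_filter.1 h0).2
  have hΓ := hn i0 hn0'
  let z : Fin N → ℤ := fun i => if s i = 1 then n i else -n i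
  have hz : ∀ i, |z i| = |n i| := fun i => by
    by_cases h : s i = 1 <;> simp [z, h]
  have hterm : ∀ i, (n i : ℝ) • ‖s i • w i‖⁻¹ • s i • w i = (z i : ℝ) • ‖w i‖⁻¹ • w i := by
    intro i
    by_cases h : s i = 1
    · simp [z, h]
    · have h' := (hs i).resolve_left h
      have : z i = -n i := if_neg h
      rw [this, h']
      simp
  have hsum : ∑ i, (n i : ℝ) • ‖s i • w i‖⁻¹ • s i • w i =
      (z i0 : ℝ) • ‖w i0‖⁻¹ • w i0 + ∑ i ∈ S.erase i0, (z i : ℝ) • ‖w i‖⁻¹ • w i := by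
    rw [Finset.add_sum_erase S (fun i => (z i : ℝ) • ‖w i‖⁻¹ • w i) h0]
    simp only [← hterm]
    refine (Finset.sum_subset (Finset.subset_univ S) fun i _ hi => ?_).symm
    have : n i = 0 := by
      by_contra k
      exact hi (Finset.mem_filter.2 ⟨Finset.mem_univ _, k⟩)
    rw [this]
    simp
  have hle : ∀ i, |n i| ≤ J := fun i =>
    (Finset.single_le_sum (f := fun i => |n i|) (fun _ _ => abs_nonneg _)
      (Finset.mem_univ i)).trans hnJ
  have hcard : (S.erase i0).card ≤ J := by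
    have k1 : ((S.card : ℕ) : ℤ) ≤ ∑ i ∈ S, |n i| := by
      rw [Finset.card_eq_sum_ones]
      push_cast
      exact Finset.sum_le_sum fun i hi => Int.one_le_abs (Finset.mem_filter.1 hi).2
    have k2 : ∑ i ∈ S, |n i| ≤ ∑ i, |n i| :=
      Finset.sum_le_sum_of_subset_of_nonneg (Finset.subset_univ S) fun _ _ _ => abs_nonneg _
    have k3 := Finset.card_erase_le (s := S) (a := i0)
    omega
  rw [hsum]
  set x := ∑ i ∈ S.erase i0, (z i : ℝ) • ‖w i‖⁻¹ • w i with hx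
  have hpr : lo < ‖pr x (w i0)‖ := by
    rcases (S.erase i0).eq_empty_or_nonempty with h | h
    · rw [hx, h, Finset.sum_empty, pr_zero_left]
      exact (hw i0 hΓ).1
    · obtain ⟨j, m, k1, k2, k3⟩ := exists_tuple (V := V) (S.erase i0) h hcard z
        fun i _ => (hz i).le.trans (hle i)
      rw [hx, ← k3 fun i => ‖w i‖⁻¹ • w i]
      refine hC i0 hΓ j m (fun r => ?_) k2
      have := Finset.mem_erase.1 (k1 r)
      exact lt_of_le_of_ne (S.min'_le _ this.2) this.1.symm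
  refine le_trans ?_ (norm_pr_le x _)
  rw [pr_add, pr_self, add_zero, pr_smul, pr_smul, norm_smul, norm_smul, norm_inv, norm_norm,
    Real.norm_eq_abs]
  have k1 : (1 : ℝ) ≤ |(z i0 : ℝ)| := by
    have := Int.one_le_abs hn0'
    rw [← hz] at this
    exact_mod_cast this
  have k2 : 0 < ‖w i0‖ := hlo.trans (hw i0 hΓ).1
  calc lo / hi ≤ lo / ‖w i0‖ := div_le_div_of_nonneg_left hlo.le k2 (hw i0 hΓ).2.le
    _ ≤ ‖w i0‖⁻¹ * ‖pr x (w i0)‖ := by
      rw [div_eq_inv_mul]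
      exact mul_le_mul_of_nonneg_left hpr.le (by positivity)
    _ ≤ _ := le_mul_of_one_le_left (by positivity) k1

theorem sep_of_good {N J : ℕ} (hJ : 1 ≤ J) (w : Fin N → V) (Γ : Finset (Fin N)) (s : Fin N → ℝ)
    (hs : ∀ i, s i = 1 ∨ s i = -1) (lo hi : ℝ) (hlo : 0 < lo)
    (hw : ∀ i ∈ Γ, lo < ‖w i‖ ∧ ‖w i‖ < hi)
    (hC : ∀ i ∈ Γ, ∀ (j : Fin J → Fin N) (m : Fin J → ℤ), (∀ r, i < j r) → (∀ r, |m r| ≤ J) →
      lo < ‖pr (∑ r, (m r : ℝ) • ‖w (j r)‖⁻¹ • w (j r)) (w i)‖) :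
    ∀ i ∈ Γ, ∀ j ∈ Γ, i ≠ j →
      lo / hi ≤ ‖pr (‖s j • w j‖⁻¹ • s j • w j) (‖s i • w i‖⁻¹ • s i • w i)‖ := by
  classical
  have hne : ∀ i ∈ Γ, w i ≠ 0 := fun i hi => norm_pos_iff.1 (hlo.trans (hw i hi).1)
  have key : ∀ i ∈ Γ, ∀ j ∈ Γ, i < j → lo < ‖pr (w j) (w i)‖ := by
    intro i hi j hj hij
    have h1 := hC i hi (fun _ => j) (Pi.single ⟨0, hJ⟩ 1) (fun _ => hij) fun r => by
      rw [Pi.single_apply]
      split_ifs
      · simpa using hJ
      · simp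
    have h2 : ∑ r : Fin J, (((Pi.single ⟨0, hJ⟩ 1 : Fin J → ℤ) r : ℤ) : ℝ) • ‖w j‖⁻¹ • w j =
        ‖w j‖⁻¹ • w j := by
      rw [Finset.sum_eq_single (⟨0, hJ⟩ : Fin J)]
      · simp
      · intro r _ hr
        simp [Pi.single_eq_of_ne hr]
      · intro h
        exact absurd (Finset.mem_univ _) h
    rwa [h2, pr_smul_left (inv_ne_zero (norm_ne_zero_iff.2 (hne j hj)))] at h1
  intro i hi' j hj hij
  have hH : 0 < hi := (norm_nonneg _).trans_lt (hw i hi').2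
  rcases lt_or_gt_of_ne hij with h | h
  · exact (dir_sep hH hlo.le (hne i hi') (hne j hj) (hw i hi').2 (key i hi' j hj h) (hs i)
      (hs j)).1
  · exact (dir_sep hH hlo.le (hne j hj) (hne i hi') (hw j hj).2 (key j hj i hi' h) (hs j)
      (hs i)).2

theorem frame_le {c D N : ℕ} {g : Fin c → E D} (hg : Orthonormal ℝ g) (u : Fin N → E D)
    (Γ : Finset (Fin N)) (s : Fin N → ℝ) (hs : ∀ i, s i = 1 ∨ s i = -1) (lo Λ : ℝ) (hlo : 0 < lo)
    (hw : ∀ i ∈ Γ, lo < ‖Gm g (u i)‖) (hu : ∀ z : E D, ∑ j, ⟪z, u j⟫ ^ 2 ≤ Λ * ‖z‖ ^ 2)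
    (a : E c) (ha : ‖a‖ = 1) :
    ∑ j ∈ Γ, ⟪‖s j • Gm g (u j)‖⁻¹ • s j • Gm g (u j), a⟫ ^ 2 ≤ Λ / lo ^ 2 := by
  have hy : ‖∑ k, a k • g k‖ ^ 2 = 1 := by
    rw [← real_inner_self_eq_norm_sq, hg.inner_sum]
    have := EuclideanSpace.real_norm_sq_eq a
    rw [ha, one_pow] at this
    rw [this]
    exact Finset.sum_congr rfl fun k _ => by simp [sq]
  have h1 := hu (∑ k, a k • g k)
  rw [hy, mul_one] at h1
  have h2 : ∀ j ∈ Γ, ⟪‖s j • Gm g (u j)‖⁻¹ • s j • Gm g (u j), a⟫ ^ 2 ≤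
      ⟪∑ k, a k • g k, u j⟫ ^ 2 / lo ^ 2 := by
    intro j hj
    have k1 : s j ^ 2 = 1 := by rcases hs j with h | h <;> rw [h] <;> norm_num
    have k2 : ‖s j • Gm g (u j)‖ = ‖Gm g (u j)‖ := by
      rcases hs j with h | h <;> rw [h] <;> simp
    rw [k2, real_inner_smul_left, real_inner_smul_left, real_inner_comm, inner_Gm, mul_pow,
      mul_pow, k1, one_mul, inv_pow, ← div_eq_inv_mul]
    exact div_le_div_of_nonneg_left (sq_nonneg _) (by positivity)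
      (pow_le_pow_left₀ hlo.le (hw j hj).le 2)
  refine (Finset.sum_le_sum h2).trans ?_
  rw [← Finset.sum_div]
  refine div_le_div_of_nonneg_right (le_trans ?_ h1) (by positivity)
  exact Finset.sum_le_sum_of_subset_of_nonneg (Finset.subset_univ Γ) fun _ _ _ => sq_nonneg _

end Pool.Agent.P.MP_83f3dc_co.KT
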