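import Pool.Agent.P.MP_83f3dc_co.KUConf1
import Pool.Agent.P.MP_83f3dc_co.KUTup
import Pool.Agent.P.MP_83f3dc_co.KUTest

set_option autoImplicit false
set_option linter.unusedSectionVars false
set_option linter.unusedVariables false

open MeasureTheory ProbabilityTheory Module Set Filter Topology
open scoped RealInnerProductSpace ENNReal

noncomputable section

namespace Pool.Agent.P.MP_83f3dc_co.KT

theorem conf2 (J : ℕ) (hJ : Even J) (hJ2 : 2 ≤ J) : ∃ Q : ℝ, 0 < Q ∧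
    ∀ (c D n : ℕ) (H η : ℝ), Par2 J c D n H → 0 < η →
      Q * η ^ (J - 1) * (H ^ 3) ^ (J + 1) * (6 * H * √(100 * (n : ℝ) / c)) ≤ 1 →
      ConfP c D (100 * n) (gain2 c n Q H η) := by
  obtain ⟨Q, hQ, htest⟩ := test2 J hJ hJ2
  refine ⟨Q, hQ, fun c D n H η P hη hQη => ?_⟩
  have h12 := P.h12
  have H0 : 0 < H := by linarith
  have c2 : (2 : ℝ) ≤ c := by exact_mod_cast P.c2
  have cn : (c : ℝ) ≤ n := by exact_mod_cast P.cD.trans P.Dn
  have c0 : (0 : ℝ) < c := by linarith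
  have n0 : (0 : ℝ) < n := by linarith
  have n1 : 1 ≤ n := by exact_mod_cast (by linarith : (1 : ℝ) ≤ n)
  have sc1 : 1 ≤ √(c : ℝ) := Real.one_le_sqrt.2 (by linarith)
  have sc0 : 0 < √(c : ℝ) := by linarith
  have lo0 : 0 < √(c : ℝ) / H := by positivity
  have hρ : 1 + 2 / (1 / (16 * c * (100 * (n : ℝ)) * H * H ^ 3)) ≤ (100 * (n : ℝ)) ^ 8 := by
    have e : 2 / (1 / (16 * c * (100 * (n : ℝ)) * H * H ^ 3)) =
        32 * c * (100 * (n : ℝ)) * H ^ 4 := by
      field_simp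
      norm_num
    have N1 : (200 : ℝ) ≤ 100 * (n : ℝ) := by linarith
    have hH4 : H ^ 4 ≤ (100 * (n : ℝ)) ^ 4 := pow_le_pow_left₀ H0.le P.HN 4
    have h1 : 32 * c * (100 * (n : ℝ)) * H ^ 4 ≤
        (100 * (n : ℝ)) * (100 * (n : ℝ)) * (100 * (n : ℝ)) ^ 4 := by
      refine mul_le_mul (mul_le_mul_of_nonneg_right (by linarith) (by positivity)) hH4
        (by positivity) (by positivity)
    rw [e]
    generalize 100 * (n : ℝ) = M at N1 h1 ⊢
    have h6 : 1 ≤ M ^ 6 := one_le_pow₀ (by linarith)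
    have h2 : 2 ≤ M ^ 2 := by nlinarith
    have h3 : M ^ 6 * 2 ≤ M ^ 6 * M ^ 2 := mul_le_mul_of_nonneg_left h2 (by positivity)
    have e2 : M * M * M ^ 4 = M ^ 6 := by ring
    have e3 : M ^ 6 * M ^ 2 = M ^ 8 := by ring
    linarith
  obtain ⟨u, hop, hu⟩ := exists_u2 P _ (by positivity) hρ
  refine ⟨u, 1 / (8 * H * H ^ 3), by positivity, fun t ht s hs U hU g hg => ?_⟩
  obtain ⟨g', hg', hd, hbad⟩ := hu g hg
  have ns : ∀ (i) (v : E c), ‖s i • v‖ = ‖v‖ := fun i v => by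
    rcases hs i with h | h <;> simp [h]
  set Γ := (badSet2 (A2 g' H (200 * (n : ℝ))) (C2 J g' H) u)ᶜ with hΓ
  have good : ∀ i ∈ Γ, (√(c : ℝ) / H < ‖Gm g' (u i)‖ ∧ ‖Gm g' (u i)‖ < H * √(c : ℝ)) ∧
      ‖u i‖ < 200 * (n : ℝ) ∧ ∀ (j : Fin J → Fin (100 * n)) (m : Fin J → ℤ), (∀ r, i < j r) →
        (∀ r, |m r| ≤ J) → √(c : ℝ) / H <
          ‖pr (∑ r, (m r : ℝ) • ‖Gm g' (u (j r))‖⁻¹ • Gm g' (u (j r))) (Gm g' (u i))‖ :=
    fun i hi => by
      rw [hΓ, Finset.mem_compl, mem_badSet2, not_or] at hi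
      exact ⟨⟨not_le.1 fun h => hi.1 (Or.inl h), not_le.1 fun h => hi.1 (Or.inr (Or.inl h))⟩,
        not_le.1 fun h => hi.1 (Or.inr (Or.inr h)),
        fun j m hj hm => not_le.1 fun h => hi.2 ⟨j, hj, m, hm, h⟩⟩
  have ne : ∀ i ∈ Γ, Gm g' (u i) ≠ 0 := fun i hi => norm_pos_iff.1 (lo0.trans (good i hi).1.1)
  have e1 : √(c : ℝ) / H / (H * √(c : ℝ)) = 1 / H ^ 2 := by field_simp
  have e2 : H ^ 3 * (1 / H ^ 2) = H := by field_simp
  have eA : 36 * (100 * (n : ℝ)) / (√(c : ℝ) / H) ^ 2 = (6 * H * √(100 * (n : ℝ) / c)) ^ 2 := by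
    rw [div_pow, mul_pow, Real.sq_sqrt c0.le, Real.sq_sqrt (by positivity)]
    field_simp
    norm_num
  have eS : √((6 * H * √(100 * (n : ℝ) / c)) ^ 2) = 6 * H * √(100 * (n : ℝ) / c) :=
    Real.sqrt_sq (by positivity)
  have s1 : 1 ≤ √(100 * (n : ℝ) / c) :=
    Real.one_le_sqrt.2 ((one_le_div c0).2 (by linarith))
  obtain ⟨y, hy⟩ := htest c (100 * n) t Γ (fun i => ‖s i • Gm g' (u i)‖⁻¹ • s i • Gm g' (u i))
    (1 / H ^ 2) (H ^ 3) ((6 * H * √(100 * (n : ℝ) / c)) ^ 2) η (fun p => Gm g (U p))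
    (by omega) ht (by rw [hΓ, compl_compl]; omega)
    (fun i hi => by
      rw [norm_smul, norm_inv, norm_norm, ns, inv_mul_cancel₀ (norm_ne_zero_iff.2 (ne i hi))])
    (by positivity) ((div_le_one (by positivity)).2 (one_le_pow₀ (by linarith)))
    (by
      rw [← e1]
      exact sep_of_good P.J1 (fun i => Gm g' (u i)) Γ s hs _ _ lo0 (fun i hi => (good i hi).1)
        fun i hi => (good i hi).2.2)
    (fun m hm hmJ hm0 => by
      rw [← e1]
      exact diss_of_good (fun i => Gm g' (u i)) Γ s hs _ _ lo0 (fun i hi => (good i hi).1)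
        (fun i hi => (good i hi).2.2) m hm hmJ hm0)
    (fun a ha => by
      rw [← eA]
      exact frame_le hg' u Γ s hs _ _ lo0 (fun i hi => (good i hi).1.1) hop a ha)
    (one_le_pow₀ (by nlinarith)) (one_le_pow₀ (by linarith)) (by rw [e2]; linarith)
    (by
      have e : -(H ^ 3) ^ 2 * (1 / H ^ 2) ^ 2 / 32 = -H ^ 2 / 32 := by field_simp
      rw [e]
      push_cast
      exact P.far)
    hη (by rw [eS]; exact hQη)
    fun p hp => by
      have h3 : 1 ≤ H ^ 3 := one_le_pow₀ (by linarith)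
      have e3 : 2 * H * (1 / (4 * H * H ^ 3)) = 1 / (2 * H ^ 3) := by
        field_simp
        norm_num
      rw [← e3]
      refine dir_close H0
        (by rw [ns]; exact (div_le_div_of_nonneg_right sc1 H0.le).trans_lt (good _ hp).1.1)
        (one_div_lt_one_div_of_lt H0 (by nlinarith)) ?_
      have e4 : Gm g (U p) - s p.1 • Gm g' (u p.1) =
          Gm g (U p - s p.1 • u p.1) + s p.1 • (Gm g (u p.1) - Gm g' (u p.1)) := by
        rw [Gm_sub, Gm_smul, smul_sub, sub_add_sub_cancel]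
      have h1 := (norm_Gm_le hg _).trans (hU p)
      have h2 := (norm_Gm_sub g g' _ (by positivity) hd (u p.1)).trans
        (mul_le_mul_of_nonneg_left (good _ hp).2.1.le (by positivity))
      rw [e4]
      refine (norm_add_le _ _).trans ?_
      rw [ns]
      refine (add_le_add h1 h2).trans_eq ?_
      field_simp
      norm_num
  refine ⟨y, ?_⟩
  simp only [inner_Gm] at hy
  rw [eS] at hy
  push_cast at hy
  exact hy

end Pool.Agent.P.MP_83f3dc_co.KT
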