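import Pool.Agent.P.MP_83f3dc_co.KTG

set_option autoImplicit false
set_option linter.unusedSectionVars false
set_option linter.unusedVariables false

open MeasureTheory ProbabilityTheory Module Set Filter Topology
open scoped RealInnerProductSpace ENNReal

noncomputable section

namespace Pool.Agent.P.MP_83f3dc_co.KT

/-- a configuration of `N` vectors whose clusters have discrepancy `S` for every `c`-frame -/
def ConfP (c D N : ℕ) (S : ℝ) : Prop :=
  ∃ u : Fin N → E D, ∃ r : ℝ, 0 < r ∧ ∀ t : ℕ, 1 ≤ t → ∀ s : Fin N → ℝ,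
    (∀ i, s i = 1 ∨ s i = -1) → ∀ U : Fin N × Fin t → E D,
      (∀ p, ‖U p - s p.1 • u p.1‖ ≤ r) → ∀ g : Fin c → E D, Orthonormal ℝ g →
        ∃ y : E c, t * S ≤ ∑ p, Real.sign ⟪∑ a, y a • g a, U p⟫

theorem ConfP.mono {c D N : ℕ} {S S' : ℝ} (h : S' ≤ S) (H : ConfP c D N S) : ConfP c D N S' := by
  obtain ⟨u, r, hr, hu⟩ := H
  refine ⟨u, r, hr, fun t ht s hs U hU g hg => ?_⟩
  obtain ⟨y, hy⟩ := hu t ht s hs U hU g hg
  exact ⟨y, (mul_le_mul_of_nonneg_left h (Nat.cast_nonneg _)).trans hy⟩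

/-- admissible parameters of the second construction, with `N = 100 n` vectors -/
structure Par2 (J c D n : ℕ) (H : ℝ) : Prop where
  J1 : 1 ≤ J
  c2 : 2 ≤ c
  cD : c ≤ D
  Dn : D ≤ n
  h12 : 12 ≤ H
  HN : H ≤ 100 * (n : ℝ)
  far : 200 * (100 * (n : ℝ)) ^ J * Real.exp (-H ^ 2 / 32) ≤ 1
  un : (100 * (n : ℝ)) ^ (8 * c * D) *
    (2 ^ 102 * (3 * (J : ℝ) * (100 * (n : ℝ))) ^ J * (3 / H) ^ (c - 1)) ^ n < 1 / 2

/-- the discrepancy of the second construction -/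
def gain2 (c n : ℕ) (Q H η : ℝ) : ℝ :=
  100 * (n : ℝ) * η / (Q * H ^ 3 * (6 * H * √(100 * (n : ℝ) / c)))

/-- the Gaussian smoothing of the sign function -/
def f0 (s : ℝ) : ℝ := ∫ t, Real.sign (s + t) ∂(gaussianReal 0 1)

end Pool.Agent.P.MP_83f3dc_co.KT
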