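import Pool.Agent.P.MP_83f3dc_co.KTTail
import Pool.Agent.P.MP_83f3dc_co.KTNet

set_option autoImplicit false
set_option linter.unusedSectionVars false
set_option linter.unusedVariables false

open MeasureTheory ProbabilityTheory Module Set Filter Topology
open scoped RealInnerProductSpace ENNReal

noncomputable section

namespace Pool.Agent.P.MP_83f3dc_co.KT

theorem kuop_mp {D N : ℕ} {z : E D} (hz : ‖z‖ = 1) :
    MeasurePreserving (fun u : Fin N → E D => (WithLp.toLp 2 fun j => ⟪u j, z⟫ : E N))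
      (Measure.pi fun _ : Fin N => stdGaussian (E D)) (stdGaussian (E N)) :=
  MeasurePreserving.comp (g := WithLp.toLp 2)
    ⟨by fun_prop, map_pi_eq_stdGaussian⟩
    (measurePreserving_pi _ _ fun _ : Fin N => mp_inner hz)

theorem kuop_sum {D N : ℕ} (u : Fin N → E D) (z : E D) :
    ∑ a, z a • (WithLp.toLp 2 fun j => u j a : E N) = WithLp.toLp 2 fun j => ⟪u j, z⟫ := by
  ext j
  simp [PiLp.inner_apply]

theorem op_event {D n : ℕ} (hD : D ≤ n) (hn : 1 ≤ n) :
    (Measure.pi fun _ : Fin (100 * n) => stdGaussian (E D))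
      {u | ¬ ∀ z : E D, ∑ j, ⟪z, u j⟫ ^ 2 ≤ 36 * (100 * (n : ℝ)) * ‖z‖ ^ 2}
        ≤ ENNReal.ofReal (1 / 4) := by
  obtain ⟨F, F1, F2, F3⟩ := net {y : E D | ‖y‖ = 1} (fun x hx => le_of_eq hx) (1 / 2)
    (by norm_num)
  rw [finrank_euclideanSpace_fin] at F2
  have hn' : (1 : ℝ) ≤ n := by exact_mod_cast hn
  have hN : (0 : ℝ) ≤ ((100 * n : ℕ) : ℝ) := Nat.cast_nonneg _
  let A : Set (E (100 * n)) := {x | √((100 * n : ℕ) : ℝ) + 2 * √((100 * n : ℕ) : ℝ) ≤ ‖x‖}
  have mA : MeasurableSet A := measurableSet_le measurable_const measurable_norm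
  have hA : stdGaussian (E (100 * n)) A ≤ ENNReal.ofReal (Real.exp (-(100 * n))) := by
    have := norm_tail (100 * n) (2 * √((100 * n : ℕ) : ℝ)) (by positivity)
    rwa [mul_pow, Real.sq_sqrt hN,
      show -(2 ^ 2 * ((100 * n : ℕ) : ℝ)) / 4 = -(100 * n) by push_cast; ring] at this
  refine le_trans (measure_mono (t := ⋃ y ∈ F, (fun u : Fin (100 * n) → E D =>
    (WithLp.toLp 2 fun j => ⟪u j, y⟫ : E (100 * n))) ⁻¹' A) fun u hu => ?_) ?_
  · by_contra hc
    refine hu fun z => ?_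
    have hop := op_of_net (fun a => (WithLp.toLp 2 fun j => u j a : E (100 * n))) F (1 / 2)
      (√((100 * n : ℕ) : ℝ) + 2 * √((100 * n : ℕ) : ℝ)) le_rfl (by positivity)
      (fun y hy => F3 y hy) (fun y hy => by
        rw [kuop_sum]
        exact (not_le.1 fun h => hc (mem_iUnion₂.2 ⟨y, hy, h⟩)).le) z
    rw [kuop_sum] at hop
    have h1 := pow_le_pow_left₀ (norm_nonneg _) hop 2
    rw [EuclideanSpace.real_norm_sq_eq] at h1
    simp only [real_inner_comm z] at h1 ⊢
    refine le_trans (le_of_eq (Finset.sum_congr rfl fun j _ => by rw [real_inner_comm])) (h1.trans (le_of_eq ?_))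
    rw [show 2 * (√((100 * n : ℕ) : ℝ) + 2 * √((100 * n : ℕ) : ℝ)) = 6 * √((100 * n : ℕ) : ℝ) by
      ring, mul_pow, mul_pow, Real.sq_sqrt hN]
    push_cast
    ring
  · refine (measure_biUnion_finset_le _ _).trans ?_
    refine (Finset.sum_le_card_nsmul F _ (ENNReal.ofReal (Real.exp (-(100 * n))))
      fun y hy => ?_).trans ?_
    · rw [(kuop_mp (F1 y hy)).measure_preimage mA.nullMeasurableSet]
      exact hA
    · rw [nsmul_eq_mul, ← ENNReal.ofReal_natCast, ← ENNReal.ofReal_mul (Nat.cast_nonneg _)]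
      refine ENNReal.ofReal_le_ofReal ?_
      have b1 : (1 + 2 / (1 / 2) : ℝ) ^ D ≤ Real.exp (4 * n) := by
        refine (pow_le_pow_right₀ (by norm_num) hD).trans ?_
        rw [mul_comm, Real.exp_nat_mul]
        exact pow_le_pow_left₀ (by norm_num) (by linarith [Real.add_one_le_exp 4]) n
      refine (mul_le_mul_of_nonneg_right (F2.trans b1) (Real.exp_pos _).le).trans ?_
      rw [← Real.exp_add]
      refine (Real.exp_le_exp.2 (show _ ≤ -3 by linarith)).trans ?_
      rw [Real.exp_neg, one_div]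
      exact inv_anti₀ (by norm_num) (by linarith [Real.add_one_le_exp 3])

end Pool.Agent.P.MP_83f3dc_co.KT
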