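import Pool.Agent.P.MP_83f3dc_co.KUProb
import Pool.Agent.P.MP_83f3dc_co.KUSeq
import Pool.Agent.P.MP_83f3dc_co.KUOp
import Pool.Agent.P.MP_83f3dc_co.KUDefs

set_option autoImplicit false
set_option linter.unusedSectionVars false
set_option linter.unusedVariables false

open MeasureTheory ProbabilityTheory Module Set Filter Topology
open scoped RealInnerProductSpace ENNReal

noncomputable section

namespace Pool.Agent.P.MP_83f3dc_co.KT

theorem exists_u2 {J c D n : ℕ} {H : ℝ} (P : Par2 J c D n H) (ρ : ℝ) (hρ : 0 < ρ)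
    (hρ' : 1 + 2 / ρ ≤ (100 * (n : ℝ)) ^ 8) :
    ∃ u : Fin (100 * n) → E D, (∀ z : E D, ∑ j, ⟪z, u j⟫ ^ 2 ≤ 36 * (100 * (n : ℝ)) * ‖z‖ ^ 2) ∧
      ∀ g : Fin c → E D, Orthonormal ℝ g →
        ∃ g' : Fin c → E D, Orthonormal ℝ g' ∧ (∀ a, ‖g a - g' a‖ ≤ ρ) ∧
          (badSet2 (A2 g' H (200 * (n : ℝ))) (C2 J g' H) u).card < n := by
  obtain ⟨F, hF1, hF2, hF3⟩ := net (X := Fin c → E D) {g | Orthonormal ℝ g}
    (fun g hg => (pi_norm_le_iff_of_nonneg zero_le_one).2 fun a => (hg.1 a).le) ρ hρ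
  have hr : finrank ℝ (Fin c → E D) = c * D := by
    rw [Module.finrank_pi_fintype]
    simp [E]
  have h12 := P.h12
  have hc := P.c2
  have hcD := P.cD
  have hDn := P.Dn
  have hH : (0 : ℝ) < H := by linarith
  have hJ : (1 : ℝ) ≤ J := by exact_mod_cast P.J1
  have hn : (1 : ℝ) ≤ n := by exact_mod_cast (by omega : 1 ≤ n)
  have hun := P.un
  generalize hx : (3 / H) ^ (c - 1) = x at hun
  have hx0 : (0 : ℝ) ≤ x := hx ▸ by positivity
  generalize hW : (3 * (J : ℝ) * (100 * (n : ℝ))) ^ J = W at hun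
  have hW1 : (1 : ℝ) ≤ W := hW ▸ one_le_pow₀ (by nlinarith)
  have hW2 : ((100 * n : ℕ) : ℝ) ^ J * (2 * (J : ℝ) + 1) ^ J ≤ W := by
    rw [← mul_pow, ← hW]
    refine pow_le_pow_left₀ (by positivity) ?_ _
    push_cast
    nlinarith
  let μ : Measure (Fin (100 * n) → E D) := Measure.pi fun _ => stdGaussian (E D)
  let B : (Fin c → E D) → Set (Fin (100 * n) → E D) := fun g =>
    {u | n ≤ (badSet2 (A2 g H (200 * (n : ℝ))) (C2 J g H) u).card}
  have hB : ∀ g ∈ F, μ (B g) ≤ ENNReal.ofReal ((2 ^ 102 * W * x) ^ n) := fun g hg => by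
    have h1 := seq_bad2 (stdGaussian (E D)) _ (measurable_A2 g H (200 * (n : ℝ))) _
      (measurable_C2 J g H) _ _ (ENNReal.ofReal (4 * W * x))
      (A2_le (hF1 g hg) hc hcD hDn h12 P.HN) (C2_le J (hF1 g hg) hc h12) (100 * n) n (by
        rw [hx, ← ENNReal.ofReal_natCast, ← ENNReal.ofReal_pow (Nat.cast_nonneg _),
          ← ENNReal.ofReal_mul (by positivity),
          ← ENNReal.ofReal_add (by positivity) (by positivity)]
        refine ENNReal.ofReal_le_ofReal ?_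
        nlinarith [mul_le_mul_of_nonneg_right hW1 hx0, mul_le_mul_of_nonneg_right hW2 hx0])
    refine h1.trans (le_of_eq ?_)
    have e : (2 ^ 102 * W * x) ^ n = (2 : ℝ) ^ (100 * n) * (4 * W * x) ^ n := by
      have e1 : (2 : ℝ) ^ 102 * W * x = 2 ^ 100 * (4 * W * x) := by ring
      rw [pow_mul, ← mul_pow, e1]
    rw [e, ENNReal.ofReal_mul (p := 2 ^ (100 * n)) (by positivity),
      ENNReal.ofReal_pow (by norm_num),
      ENNReal.ofReal_pow (by positivity), ENNReal.ofReal_ofNat]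
  have hU : μ (⋃ g ∈ F, B g) ≤ ENNReal.ofReal (1 / 2) := by
    refine (measure_biUnion_finset_le F B).trans ((Finset.sum_le_card_nsmul _ _ _ hB).trans ?_)
    rw [nsmul_eq_mul, ← ENNReal.ofReal_natCast, ← ENNReal.ofReal_mul (Nat.cast_nonneg _)]
    refine ENNReal.ofReal_le_ofReal
      (le_trans (mul_le_mul_of_nonneg_right (hF2.trans ?_) (by positivity)) hun.le)
    rw [hr, mul_assoc 8, pow_mul _ 8]
    exact pow_le_pow_left₀ (by positivity) hρ' _
  have hO := op_event hDn (by omega : 1 ≤ n)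
  have hex : ∃ u : Fin (100 * n) → E D, u ∉ {u : Fin (100 * n) → E D |
      ¬ ∀ z : E D, ∑ j, ⟪z, u j⟫ ^ 2 ≤ 36 * (100 * (n : ℝ)) * ‖z‖ ^ 2} ∪ ⋃ g ∈ F, B g := by
    by_contra h0
    have h := fun u => not_not.1 (not_exists.1 h0 u)
    have h3 := (measure_union_le (μ := μ) _ _).trans (add_le_add hO hU)
    rw [Set.eq_univ_of_forall h, measure_univ,
      ← ENNReal.ofReal_add (by norm_num) (by norm_num), ENNReal.one_le_ofReal] at h3
    norm_num at h3
  obtain ⟨u, hu⟩ := hex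
  refine ⟨u, not_not.1 fun h => hu (Or.inl h), fun g hg => ?_⟩
  obtain ⟨g', h1, h2⟩ := hF3 g hg
  exact ⟨g', hF1 g' h1, fun a => (norm_le_pi_norm (g - g') a).trans h2,
    not_le.1 fun h => hu (Or.inr (Set.mem_biUnion h1 h))⟩

end Pool.Agent.P.MP_83f3dc_co.KT
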