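import Pool.Agent.P.MP_83f3dc_co.KTKer0

set_option autoImplicit false
set_option linter.unusedSectionVars false
set_option linter.unusedVariables false

open MeasureTheory ProbabilityTheory Module Set Filter Topology
open scoped RealInnerProductSpace ENNReal

noncomputable section

namespace Pool.Agent.P.MP_83f3dc_co.KT

variable {V : Type} [NormedAddCommGroup V] [InnerProductSpace ℝ V] [FiniteDimensional ℝ V]
  [MeasurableSpace V] [BorelSpace V]

theorem kucos_pt : ∀ (J : ℕ) (x : Fin J → ℝ), (2 : ℝ) ^ J * ∏ r, Real.cos (x r) =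
    ∑ s : Fin J → Bool, Real.cos (∑ r, (if s r then (1 : ℝ) else -1) * x r)
  | 0, x => by simp
  | J + 1, x => by
    rw [← (Fin.consEquiv fun _ : Fin (J + 1) => Bool).sum_comp, Fintype.sum_prod_type,
      Fintype.sum_bool, ← Finset.sum_add_distrib, Fin.prod_univ_succ, pow_succ]
    have h := kucos_pt J fun r => x r.succ
    have h2 : (2 : ℝ) ^ J * 2 * (Real.cos (x 0) * ∏ r : Fin J, Real.cos (x r.succ)) =
        2 * Real.cos (x 0) * ((2 : ℝ) ^ J * ∏ r : Fin J, Real.cos (x r.succ)) := by ring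
    rw [h2, h, Finset.mul_sum]
    refine Finset.sum_congr rfl fun s _ => ?_
    simp only [Fin.sum_univ_succ, Fin.consEquiv_apply, Fin.cons_zero, Fin.cons_succ, if_true,
      Bool.false_eq_true, if_false, one_mul, neg_mul, Real.cos_add, Real.cos_neg, Real.sin_neg]
    ring

theorem kucos_int (v : V) : Integrable (fun y : V => Real.cos ⟪y, v⟫) (stdGaussian V) :=
  (integrable_const (1 : ℝ)).mono' (by fun_prop : Continuous fun y : V =>
    Real.cos ⟪y, v⟫).aestronglyMeasurable (Eventually.of_forall fun y => Real.abs_cos_le_one _)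

theorem prod_cos {J : ℕ} (v : Fin J → V) :
    ∫ y, ∏ r, Real.cos ⟪y, v r⟫ ∂(stdGaussian V) = ((2 : ℝ) ^ J)⁻¹ *
      ∑ s : Fin J → Bool, Real.exp (-‖∑ r, (if s r then (1 : ℝ) else -1) • v r‖ ^ 2 / 2) := by
  have h1 : ∀ y : V, ∏ r, Real.cos ⟪y, v r⟫ = ((2 : ℝ) ^ J)⁻¹ * ∑ s : Fin J → Bool,
      Real.cos ⟪y, ∑ r, (if s r then (1 : ℝ) else -1) • v r⟫ := by
    intro y
    simp only [inner_sum, real_inner_smul_right]
    rw [← kucos_pt J fun r => ⟪y, v r⟫, inv_mul_cancel_left₀ (by positivity)]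
  simp only [h1]
  rw [integral_const_mul, integral_finsetSum _ fun s _ => kucos_int _]
  simp only [int_cos]

/-- grouping the terms of a signed sum by the index -/
theorem kucos_fib {W : Type} [AddCommGroup W] [Module ℝ W] {N J : ℕ} (b : Fin N → W)
    (j : Fin J → Fin N) (s : Fin J → Bool) :
    ∑ r, (if s r then (1 : ℝ) else -1) • b (j r) = ∑ i,
      ((∑ r ∈ Finset.univ.filter fun r => j r = i, (if s r then (1 : ℤ) else -1) : ℤ) : ℝ) • b i := by
  rw [← Finset.sum_fiberwise Finset.univ j]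
  refine Finset.sum_congr rfl fun i _ => ?_
  rw [Int.cast_sum, Finset.sum_smul]
  refine Finset.sum_congr rfl fun r hr => ?_
  rw [(Finset.mem_filter.mp hr).2]
  cases s r <;> simp

theorem kucos_abs {N J : ℕ} (j : Fin J → Fin N) (s : Fin J → Bool) :
    ∑ i, |∑ r ∈ Finset.univ.filter fun r => j r = i, (if s r then (1 : ℤ) else -1)| ≤ J := by
  calc _ ≤ ∑ i, ∑ r ∈ Finset.univ.filter fun r => j r = i, (1 : ℤ) := by
        refine Finset.sum_le_sum fun i _ => (Finset.abs_sum_le_sum_abs _ _).trans ?_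
        refine Finset.sum_le_sum fun r _ => ?_
        cases s r <;> simp
    _ = J := by
        rw [Finset.sum_fiberwise Finset.univ j fun _ => (1 : ℤ)]
        simp

theorem kucos_one {N : ℕ} (n : Fin N → ℤ) (hn : n ≠ 0) :
    1 ≤ ‖∑ i, (n i : ℝ) • (EuclideanSpace.single i (1 : ℝ) : E N)‖ := by
  obtain ⟨i, hi⟩ := Function.ne_iff.mp hn
  refine le_trans ?_ (PiLp.norm_apply_le _ i)
  have h1 : (∑ i, (n i : ℝ) • (EuclideanSpace.single i (1 : ℝ) : E N)) i = n i := by
    simp [Finset.sum_apply, Pi.single_apply]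
  rw [h1, Real.norm_eq_abs, ← Int.cast_abs]
  exact_mod_cast Int.one_le_abs hi

theorem kucos_exp {W : Type} [NormedAddCommGroup W] [NormedSpace ℝ W] {δ : ℝ} (hδ : 0 ≤ δ) (T : ℝ)
    {w : W} (h : δ ≤ ‖w‖) : Real.exp (-‖T • w‖ ^ 2 / 2) ≤ Real.exp (-T ^ 2 * δ ^ 2 / 2) := by
  rw [Real.exp_le_exp, norm_smul, mul_pow, Real.norm_eq_abs, sq_abs]
  have h1 := mul_le_mul_of_nonneg_left (pow_le_pow_left₀ hδ h 2) (sq_nonneg T)
  linarith

theorem tuple_cmp {N J : ℕ} (Γ : Finset (Fin N)) (b : Fin N → V) (δ T : ℝ) (hδ : 0 ≤ δ)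
    (hδ1 : δ ≤ 1)
    (hdis : ∀ n : Fin N → ℤ, (∀ i, n i ≠ 0 → i ∈ Γ) → ∑ i, |n i| ≤ J → n ≠ 0 →
      δ ≤ ‖∑ i, (n i : ℝ) • b i‖) (j : Fin J → Fin N) (hj : ∀ r, j r ∈ Γ) :
    |∫ y, ∏ r, Real.cos (T * ⟪y, b (j r)⟫) ∂(stdGaussian V) -
      ∫ y, ∏ r, Real.cos (T * y (j r)) ∂(stdGaussian (E N))| ≤ Real.exp (-T ^ 2 * δ ^ 2 / 2) := by
  have h1 := prod_cos fun r => T • b (j r)
  have h2 := prod_cos fun r => T • (EuclideanSpace.single (j r) (1 : ℝ) : E N)
  simp only [real_inner_smul_right] at h1 h2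
  have h3 : ∀ (y : E N) (i : Fin N), ⟪y, (EuclideanSpace.single i (1 : ℝ) : E N)⟫ = y i := by
    intro y i
    simp [EuclideanSpace.inner_single_right]
  simp only [h3] at h2
  rw [h1, h2, ← mul_sub, ← Finset.sum_sub_distrib, abs_mul, abs_of_pos (by positivity),
    inv_mul_le_iff₀ (by positivity)]
  refine (Finset.abs_sum_le_sum_abs _ _).trans ?_
  refine (Finset.sum_le_card_nsmul _ _ (Real.exp (-T ^ 2 * δ ^ 2 / 2)) fun s _ => ?_).trans ?_
  · simp only [smul_comm _ T, ← Finset.smul_sum]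
    rw [kucos_fib b j s, kucos_fib (fun i => (EuclideanSpace.single i (1 : ℝ) : E N)) j s]
    generalize hn : (fun i => ∑ r ∈ Finset.univ.filter fun r => j r = i,
      (if s r then (1 : ℤ) else -1)) = n
    have hn' : ∀ i, ∑ r ∈ Finset.univ.filter fun r => j r = i,
      (if s r then (1 : ℤ) else -1) = n i := fun i => congrFun hn i
    simp only [hn']
    by_cases h0 : n = 0
    · subst h0
      simp [(Real.exp_pos _).le]
    · have h4 := kucos_exp hδ T (hdis n (fun i hi => by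
        rw [← hn'] at hi
        obtain ⟨r, hr, -⟩ := Finset.exists_ne_zero_of_sum_ne_zero hi
        rw [← (Finset.mem_filter.mp hr).2]
        exact hj r) (by simpa only [hn'] using kucos_abs j s) h0)
      have h5 := kucos_exp hδ T (hδ1.trans (kucos_one n h0))
      have h6 := Real.exp_pos (-‖T • ∑ i, (n i : ℝ) • b i‖ ^ 2 / 2)
      have h7 := Real.exp_pos
        (-‖T • ∑ i, (n i : ℝ) • (EuclideanSpace.single i (1 : ℝ) : E N)‖ ^ 2 / 2)
      rw [abs_le]
      constructor <;> linarith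
  · simp

end Pool.Agent.P.MP_83f3dc_co.KT
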