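import Pool.Agent.P.MP_83f3dc_co.KUDefs
import Pool.Agent.P.MP_83f3dc_co.KTPar1

set_option autoImplicit false
set_option linter.unusedSectionVars false
set_option linter.unusedVariables false

open MeasureTheory ProbabilityTheory Module Set Filter Topology
open scoped RealInnerProductSpace ENNReal

noncomputable section

namespace Pool.Agent.P.MP_83f3dc_co.KT

theorem KUPar_far (J : ℕ) (a : ℝ) (ha : 0 < a) :
    ∀ᶠ N : ℝ in atTop, 200 * N ^ J * Real.exp (-(N ^ a) ^ 2 / 32) ≤ 1 := by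
  have h1 := tendsto_rpow_mul_exp_neg_mul_atTop_nhds_zero ((J : ℝ) / a) (1 / 32) (by norm_num)
  have h2 := (h1.comp (tendsto_rpow_atTop ha)).eventually
    (gt_mem_nhds (show (0 : ℝ) < 1 / 200 by norm_num))
  filter_upwards [h2, eventually_ge_atTop (1 : ℝ)] with N hN hN1
  have hN0 : 0 ≤ N := by linarith
  have hx : 1 ≤ N ^ a := Real.one_le_rpow hN1 ha.le
  have e1 : (N ^ a) ^ ((J : ℝ) / a) = N ^ J := by
    rw [← Real.rpow_mul hN0, mul_div_cancel₀ _ ha.ne']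
    exact Real.rpow_natCast N J
  simp only [Function.comp] at hN
  rw [e1] at hN
  have h3 : Real.exp (-(N ^ a) ^ 2 / 32) ≤ Real.exp (-(1 / 32) * N ^ a) :=
    Real.exp_le_exp.2 (by nlinarith)
  have h4 : N ^ J * Real.exp (-(N ^ a) ^ 2 / 32) ≤ N ^ J * Real.exp (-(1 / 32) * N ^ a) :=
    mul_le_mul_of_nonneg_left h3 (by positivity)
  linarith

theorem KUPar_three (N a : ℝ) (hN : 0 < N) (h : 12 ≤ N ^ a) : 3 / N ^ a ≤ N ^ (-(a / 2)) := by
  have hs : 0 < N ^ (a / 2) := Real.rpow_pos_of_pos hN _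
  have e : N ^ a = N ^ (a / 2) * N ^ (a / 2) := by
    rw [← Real.rpow_add hN]
    congr 1
    ring
  have h3 : 3 ≤ N ^ (a / 2) := by
    by_contra hlt
    have hlt' : N ^ (a / 2) < 3 := lt_of_not_ge hlt
    nlinarith
  rw [Real.rpow_neg hN.le, e, div_le_iff₀ (by positivity), ← mul_assoc, inv_mul_cancel₀ hs.ne',
    one_mul]
  exact h3

theorem KUPar_un (J c D n : ℕ) (a N : ℝ) (ha : 0 < a) (hN : 3 ≤ N) (h12 : 12 ≤ N ^ a)
    (hC : 2 ^ 102 * (3 * (J : ℝ)) ^ J ≤ N) (hc2 : 2 ≤ c) (hD : 1 ≤ D)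
    (hc : 16 * (J : ℝ) + 8 ≤ a * c) (hn : 72 * (D : ℝ) ≤ a * n) :
    N ^ (8 * c * D) * (2 ^ 102 * (3 * (J : ℝ) * N) ^ J * (3 / N ^ a) ^ (c - 1)) ^ n < 1 / 2 := by
  have hN0 : 0 < N := by linarith
  have hN1 : 1 ≤ N := by linarith
  have hc2' : (2 : ℝ) ≤ c := by exact_mod_cast hc2
  have hD' : (1 : ℝ) ≤ D := by exact_mod_cast hD
  have hJ0 : (0 : ℝ) ≤ J := Nat.cast_nonneg J
  have hH : 0 < N ^ a := Real.rpow_pos_of_pos hN0 _
  have h1 : (3 / N ^ a) ^ (c - 1) ≤ N ^ (-(a / 2) * ((c : ℝ) - 1)) := by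
    have := pow_le_pow_left₀ (by positivity) (KUPar_three N a hN0 h12) (c - 1)
    refine this.trans (le_of_eq ?_)
    rw [← Real.rpow_natCast, ← Real.rpow_mul hN0.le, Nat.cast_sub (by omega), Nat.cast_one]
  have h2 : 2 ^ 102 * (3 * (J : ℝ) * N) ^ J ≤ N ^ ((J : ℝ) + 1) := by
    rw [Real.rpow_add hN0, Real.rpow_natCast, Real.rpow_one, mul_pow (3 * (J : ℝ)) N, ← mul_assoc,
      mul_comm (N ^ J) N]
    exact mul_le_mul_of_nonneg_right hC (by positivity)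
  have h3 : 2 ^ 102 * (3 * (J : ℝ) * N) ^ J * (3 / N ^ a) ^ (c - 1) ≤ N ^ (-(a * c / 8)) := by
    refine (mul_le_mul h2 h1 (by positivity) (by positivity)).trans ?_
    rw [← Real.rpow_add hN0]
    refine Real.rpow_le_rpow_of_exponent_le hN1 ?_
    nlinarith [mul_nonneg ha.le (sub_nonneg.2 hc2')]
  have h4 : (2 ^ 102 * (3 * (J : ℝ) * N) ^ J * (3 / N ^ a) ^ (c - 1)) ^ n
      ≤ N ^ (-(a * c / 8) * n) := by
    refine (pow_le_pow_left₀ (by positivity) h3 n).trans (le_of_eq ?_)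
    rw [← Real.rpow_natCast, ← Real.rpow_mul hN0.le]
  have h5 : N ^ (8 * c * D) * N ^ (-(a * c / 8) * n) ≤ N ^ (-1 : ℝ) := by
    rw [← Real.rpow_natCast, ← Real.rpow_add hN0]
    refine Real.rpow_le_rpow_of_exponent_le hN1 ?_
    push_cast
    have h6 : (c : ℝ) * (72 * D) ≤ c * (a * n) := mul_le_mul_of_nonneg_left hn (by linarith)
    have h7 : (1 : ℝ) ≤ c * D := by nlinarith
    nlinarith
  have h8 : N ^ (-1 : ℝ) < 1 / 2 := by
    rw [Real.rpow_neg_one, inv_eq_one_div]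
    exact one_div_lt_one_div_of_lt (by norm_num) (by linarith)
  exact lt_of_le_of_lt ((mul_le_mul_of_nonneg_left h4 (by positivity)).trans h5) h8

theorem par2_ev (J : ℕ) (hJ : 1 ≤ J) (a : ℝ) (ha : 0 < a) (ha1 : a ≤ 1) (K : ℕ)
    (hK : 72 / a ≤ K) : ∀ᶠ d : ℕ in atTop, ∀ c n : ℕ, 2 + (16 * (J : ℝ) + 8) / a ≤ c → c ≤ d →
      K * (d + 1) ≤ n → Par2 J c (d + 1) n ((100 * (n : ℝ)) ^ a) := by
  have hE : ∀ᶠ N : ℝ in atTop, 200 * N ^ J * Real.exp (-(N ^ a) ^ 2 / 32) ≤ 1 ∧ 12 ≤ N ^ a ∧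
      3 ≤ N ∧ 2 ^ 102 * (3 * (J : ℝ)) ^ J ≤ N :=
    (KUPar_far J a ha).and (((tendsto_rpow_atTop ha).eventually (eventually_ge_atTop 12)).and
      ((eventually_ge_atTop 3).and (eventually_ge_atTop _)))
  obtain ⟨N0, hN0⟩ := eventually_atTop.1 hE
  have haK : 72 ≤ a * K := by
    rw [div_le_iff₀ ha] at hK
    linarith
  have hK0 : (0 : ℝ) ≤ K := Nat.cast_nonneg K
  have hK1 : 1 ≤ K := by
    have : (1 : ℝ) ≤ K := by nlinarith
    exact_mod_cast this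
  filter_upwards [tendsto_natCast_atTop_atTop.eventually (eventually_ge_atTop N0)]
    with d hd c n hc hcd hn
  have hDn : d + 1 ≤ n := le_trans (Nat.le_mul_of_pos_left (d + 1) hK1) hn
  have hDn' : (d : ℝ) + 1 ≤ n := by exact_mod_cast hDn
  have hd0 : (0 : ℝ) ≤ d := Nat.cast_nonneg d
  obtain ⟨h1, h2, h3, h4⟩ := hN0 (100 * (n : ℝ)) (by linarith)
  have hJ0 : (0 : ℝ) ≤ J := Nat.cast_nonneg J
  have hq : 0 ≤ (16 * (J : ℝ) + 8) / a := by positivity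
  have hc2 : 2 ≤ c := by
    have : (2 : ℝ) ≤ c := by linarith
    exact_mod_cast this
  have hac : 16 * (J : ℝ) + 8 ≤ a * c := by
    have h5 : (16 * (J : ℝ) + 8) / a ≤ c := by linarith
    rw [div_le_iff₀ ha] at h5
    linarith
  have han : 72 * ((d + 1 : ℕ) : ℝ) ≤ a * n := by
    have h5 : (K : ℝ) * ((d + 1 : ℕ) : ℝ) ≤ n := by exact_mod_cast hn
    have h6 : (0 : ℝ) ≤ ((d + 1 : ℕ) : ℝ) := Nat.cast_nonneg _
    calc 72 * ((d + 1 : ℕ) : ℝ) ≤ a * K * ((d + 1 : ℕ) : ℝ) := mul_le_mul_of_nonneg_right haK h6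
      _ = a * (K * ((d + 1 : ℕ) : ℝ)) := by ring
      _ ≤ a * n := mul_le_mul_of_nonneg_left h5 ha.le
  refine ⟨hJ, hc2, by omega, hDn, h2, ?_, h1,
    KUPar_un J c (d + 1) n a _ ha h3 h2 h4 hc2 (by omega) hac han⟩
  calc (100 * (n : ℝ)) ^ a ≤ (100 * (n : ℝ)) ^ (1 : ℝ) :=
        Real.rpow_le_rpow_of_exponent_le (by linarith) ha1
    _ = 100 * (n : ℝ) := Real.rpow_one _

end Pool.Agent.P.MP_83f3dc_co.KT
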