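import Pool.Agent.P.MP_83f3dc_co.KUDefs

set_option autoImplicit false
set_option linter.unusedSectionVars false
set_option linter.unusedVariables false

open MeasureTheory ProbabilityTheory Module Set Filter Topology
open scoped RealInnerProductSpace ENNReal

noncomputable section

namespace Pool.Agent.P.MP_83f3dc_co.KT

theorem eta_ev (J : ℕ) (hJ : 4 ≤ J) (a : ℝ) (ha : 0 < a) (Q : ℝ) (hQ : 0 < Q) :
    ∀ᶠ N : ℝ in atTop, ∀ c : ℕ, 1 ≤ c →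
      Q * (N ^ (-(2 / (J : ℝ) + 8 * a))) ^ (J - 1) * ((N ^ a) ^ 3) ^ (J + 1) *
        (6 * N ^ a * √(N / c)) ≤ 1 := by
  filter_upwards [eventually_ge_atTop (1 : ℝ), eventually_ge_atTop (6 * Q)] with N h1 hQN c hc
  have h0 : 0 < N := by linarith
  have hJ' : (4 : ℝ) ≤ J := by exact_mod_cast hJ
  have hc' : (1 : ℝ) ≤ c := by exact_mod_cast hc
  have hs : √(N / c) ≤ N ^ (1 / 2 : ℝ) := by
    rw [← Real.sqrt_eq_rpow]
    exact Real.sqrt_le_sqrt (div_le_self h0.le hc')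
  have hJ1 : ((J - 1 : ℕ) : ℝ) = J - 1 := by
    rw [Nat.cast_sub (by omega), Nat.cast_one]
  have e1 : (N ^ (-(2 / (J : ℝ) + 8 * a))) ^ (J - 1) =
      N ^ (-(2 / (J : ℝ) + 8 * a) * (J - 1)) := by
    rw [← Real.rpow_natCast, ← Real.rpow_mul h0.le, hJ1]
  have e2 : ((N ^ a) ^ 3) ^ (J + 1) = N ^ (a * (3 * (J + 1))) := by
    rw [← pow_mul, ← Real.rpow_natCast, ← Real.rpow_mul h0.le]
    push_cast
    rfl
  have hexp : -(2 / (J : ℝ) + 8 * a) * (J - 1) + a * (3 * (J + 1)) + a + 1 / 2 ≤ -1 := by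
    have h2 : 2 / (J : ℝ) ≤ 1 / 2 := by
      rw [div_le_div_iff₀ (by linarith) (by norm_num)]
      linarith
    have h3 : 2 / (J : ℝ) * J = 2 := div_mul_cancel₀ _ (by linarith)
    nlinarith [mul_pos ha (show (0 : ℝ) < 5 * J - 12 by linarith)]
  rw [e1, e2]
  calc Q * N ^ (-(2 / (J : ℝ) + 8 * a) * (J - 1)) * N ^ (a * (3 * (J + 1))) *
        (6 * N ^ a * √(N / c))
      ≤ Q * N ^ (-(2 / (J : ℝ) + 8 * a) * (J - 1)) * N ^ (a * (3 * (J + 1))) *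
        (6 * N ^ a * N ^ (1 / 2 : ℝ)) := by gcongr
    _ = 6 * Q * N ^ (-(2 / (J : ℝ) + 8 * a) * (J - 1) + a * (3 * (J + 1)) + a + 1 / 2) := by
        rw [Real.rpow_add h0, Real.rpow_add h0, Real.rpow_add h0]
        ring
    _ ≤ N * N ^ (-1 : ℝ) := by
        gcongr
    _ = 1 := by
        rw [Real.rpow_neg_one, mul_inv_cancel₀ h0.ne']

theorem gain2_ev (J : ℕ) (hJ : 1 ≤ J) (a : ℝ) (ha : 0 < a) (Q : ℝ) (hQ : 0 < Q) (K : ℕ)
    (hK : 1 ≤ K) (ε : ℝ) (hε : 2 / (J : ℝ) + 12 * a ≤ ε / 2) :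
    ∀ᶠ d : ℕ in atTop, ∀ c n : ℕ, 1 ≤ c → K * (d + 1) ≤ n → n ≤ 3 * (K * (d + 1)) →
      4 * (√((c : ℝ) / d) * (d : ℝ) ^ (-ε)) * (100 * (n : ℝ)) ≤
        gain2 c n Q ((100 * (n : ℝ)) ^ a) ((100 * (n : ℝ)) ^ (-(2 / (J : ℝ) + 8 * a))) := by
  have hJ' : (1 : ℝ) ≤ J := by exact_mod_cast hJ
  have hK' : (1 : ℝ) ≤ K := by exact_mod_cast hK
  have hε0 : 0 < ε / 2 := lt_of_lt_of_le (by positivity) hε
  have ht : Tendsto (fun d : ℕ => (d : ℝ) ^ (ε / 2)) atTop atTop :=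
    (tendsto_rpow_atTop hε0).comp tendsto_natCast_atTop_atTop
  filter_upwards [eventually_ge_atTop 1,
    ht.eventually_ge_atTop (24 * Q * √(600 * (K : ℝ)) * (600 * (K : ℝ)) ^ (ε / 2))]
    with d hd hbig c n hc hn hn'
  have hd' : (1 : ℝ) ≤ d := by exact_mod_cast hd
  have hc' : (1 : ℝ) ≤ c := by exact_mod_cast hc
  have hn1 : (1 : ℝ) ≤ n := by
    have : 1 ≤ n := le_trans (Nat.mul_pos hK (Nat.succ_pos d)) hn
    exact_mod_cast this
  have hn2 : (n : ℝ) ≤ 3 * (K * (d + 1)) := by exact_mod_cast hn'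
  set N : ℝ := 100 * (n : ℝ) with hN
  have h1 : 1 ≤ N := by linarith
  have h0 : 0 < N := by linarith
  have hd0 : (0 : ℝ) < d := by linarith
  have hNK : N ≤ 600 * K * d := by nlinarith
  have hsq : √((c : ℝ) / d) * √(N / c) ≤ √(600 * (K : ℝ)) := by
    rw [← Real.sqrt_mul (by positivity)]
    refine Real.sqrt_le_sqrt ?_
    rw [div_mul_div_comm, mul_comm (d : ℝ), mul_div_mul_left _ _ (by positivity : (c : ℝ) ≠ 0),
      div_le_iff₀ hd0]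
    exact hNK
  have e2 : (N ^ a) ^ 3 * N ^ a = N ^ (4 * a) := by
    rw [← pow_succ, ← Real.rpow_natCast, ← Real.rpow_mul h0.le, mul_comm]
    norm_num
  have key : 24 * Q * √(600 * (K : ℝ)) * (d : ℝ) ^ (-ε) * N ^ (4 * a) ≤
      N ^ (-(2 / (J : ℝ) + 8 * a)) := by
    have k1 : (600 * (K : ℝ) * d) ^ (-(ε / 2)) ≤ N ^ (-(ε / 2)) :=
      Real.rpow_le_rpow_of_nonpos h0 hNK (by linarith)
    have k2 : N ^ (-(ε / 2)) * N ^ (4 * a) ≤ N ^ (-(2 / (J : ℝ) + 8 * a)) := by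
      rw [← Real.rpow_add h0]
      exact Real.rpow_le_rpow_of_exponent_le h1 (by linarith)
    have k3 : 24 * Q * √(600 * (K : ℝ)) * (d : ℝ) ^ (-ε) ≤ (600 * (K : ℝ) * d) ^ (-(ε / 2)) := by
      have e3 : (d : ℝ) ^ (-(ε / 2)) = (d : ℝ) ^ (ε / 2) * (d : ℝ) ^ (-ε) := by
        rw [← Real.rpow_add hd0]
        congr 1
        ring
      rw [Real.mul_rpow (by positivity) hd0.le, e3, ← mul_assoc]
      refine mul_le_mul_of_nonneg_right ?_ (by positivity)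
      rw [Real.rpow_neg (by positivity), ← div_eq_inv_mul, le_div_iff₀ (by positivity)]
      exact hbig
    exact (mul_le_mul_of_nonneg_right (k3.trans k1) (by positivity)).trans k2
  rw [gain2, ← hN, le_div_iff₀ (by positivity)]
  calc 4 * (√((c : ℝ) / d) * (d : ℝ) ^ (-ε)) * N * (Q * (N ^ a) ^ 3 * (6 * N ^ a * √(N / c)))
      = N * (24 * Q * (√((c : ℝ) / d) * √(N / c)) * (d : ℝ) ^ (-ε) * ((N ^ a) ^ 3 * N ^ a)) := by
        ring
    _ ≤ N * (24 * Q * √(600 * (K : ℝ)) * (d : ℝ) ^ (-ε) * N ^ (4 * a)) := by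
        rw [e2]
        gcongr
    _ ≤ N * N ^ (-(2 / (J : ℝ) + 8 * a)) := by gcongr

end Pool.Agent.P.MP_83f3dc_co.KT
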