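import Pool.Agent.P.MP_83f3dc_co.KUUp
import Pool.Agent.P.MP_83f3dc_co.KUConf
import Pool.Agent.P.MP_83f3dc_co.KUPar
import Pool.Agent.P.MP_83f3dc_co.KUPar2

set_option autoImplicit false
set_option linter.unusedSectionVars false
set_option linter.unusedVariables false

open MeasureTheory ProbabilityTheory Module Set Filter Topology
open scoped RealInnerProductSpace ENNReal

noncomputable section

namespace Pool.Agent.P.MP_83f3dc_co.KT

theorem partD (ε : ℝ) (hε : 0 < ε) :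
    ∃ c₀ K d₀ : ℕ, ∀ d c k m : ℕ, d₀ ≤ d → c₀ ≤ c → c < d → K * d ≤ k →
      IsGreatest {n : ℕ | 0 < n ∧ HasTransversal d (d - c) k n} m →
        (m : ℝ) ≤ d + (2 - √((c : ℝ) / d) * (d : ℝ) ^ (-ε)) * k := by
  set e : ℝ := min ε (1 / 4) with he
  have he0 : 0 < e := lt_min hε (by norm_num)
  have he4 : e ≤ 1 / 4 := min_le_right _ _
  have heε : e ≤ ε := min_le_left _ _
  set J : ℕ := 2 * (⌈4 / e⌉₊ + 2) with hJdef
  have hJe : Even J := even_two_mul _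
  have hJ4 : 4 ≤ J := by omega
  have hJR : 8 / e ≤ (J : ℝ) := by
    have := Nat.le_ceil (4 / e)
    have h2 : 8 / e = 2 * (4 / e) := by ring
    rw [hJdef, h2]
    push_cast
    linarith
  have hJ0 : (0 : ℝ) < J := by exact_mod_cast (by omega : 0 < J)
  set a : ℝ := e / 48 with ha
  have ha0 : 0 < a := by positivity
  have ha1 : a ≤ 1 := by linarith
  have hsum : 2 / (J : ℝ) + 12 * a ≤ e / 2 := by
    have h1 : 2 / (J : ℝ) ≤ e / 4 := by
      rw [div_le_iff₀ he0] at hJR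
      rw [div_le_iff₀ hJ0]
      linarith
    linarith
  obtain ⟨Q, hQ, hconf⟩ := conf2 J hJe (by omega)
  set K : ℕ := ⌈72 / a⌉₊ + 1 with hKdef
  have hK : 72 / a ≤ K := by
    have := Nat.le_ceil (72 / a)
    rw [hKdef]
    push_cast
    linarith
  have hK1 : 1 ≤ K := by omega
  obtain ⟨N₀, hN₀⟩ := eventually_atTop.1 (eta_ev J hJ4 a ha0 Q hQ)
  have hev1 : ∀ᶠ d : ℕ in atTop, N₀ ≤ (d : ℝ) :=
    tendsto_natCast_atTop_atTop.eventually (eventually_ge_atTop N₀)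
  have hev2 : ∀ᶠ d : ℕ in atTop, (d : ℝ) ^ (-e) ≤ 1 / 4 :=
    ((tendsto_rpow_neg_atTop he0).comp tendsto_natCast_atTop_atTop).eventually
      (ge_mem_nhds (by norm_num))
  obtain ⟨d₀, hd₀⟩ := eventually_atTop.1 ((par2_ev J (by omega) a ha0 ha1 K hK).and
    ((gain2_ev J (by omega) a ha0 Q hQ K hK1 e hsum).and
      (hev1.and (hev2.and (eventually_ge_atTop 1)))))
  refine ⟨⌈2 + (16 * (J : ℝ) + 8) / a⌉₊, 200 * K, d₀, fun d c k m hd hcc hcd hk hm => ?_⟩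
  obtain ⟨hP, hG, hN, h4, hd1⟩ := hd₀ d hd
  have hcR : 2 + (16 * (J : ℝ) + 8) / a ≤ c := Nat.ceil_le.1 hcc
  have hc1R : (1 : ℝ) ≤ c := by
    have : 0 ≤ (16 * (J : ℝ) + 8) / a := by positivity
    linarith
  have hc1 : 1 ≤ c := by exact_mod_cast hc1R
  have hdR : (1 : ℝ) ≤ d := by exact_mod_cast hd1
  have hcdR : (c : ℝ) ≤ d := by exact_mod_cast hcd.le
  have hs1 : √((c : ℝ) / d) ≤ 1 := Real.sqrt_le_one.2 ((div_le_one (by linarith)).2 hcdR)
  have hs0 : 0 < √((c : ℝ) / d) := Real.sqrt_pos.2 (by positivity)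
  have hp0 : 0 < (d : ℝ) ^ (-e) := Real.rpow_pos_of_pos (by linarith) _
  set g : ℝ := √((c : ℝ) / d) * (d : ℝ) ^ (-e) with hg
  have hg0 : 0 < g := mul_pos hs0 hp0
  have hg4 : 4 * g ≤ 1 := by nlinarith
  have hg1 : (d : ℝ)⁻¹ ≤ g := by
    have h1 : (d : ℝ) ^ (-(1 / 2 : ℝ)) ≤ √((c : ℝ) / d) := by
      rw [Real.rpow_neg (by linarith), ← Real.sqrt_eq_rpow, ← Real.sqrt_inv]
      refine Real.sqrt_le_sqrt ?_
      rw [inv_eq_one_div]
      exact div_le_div_of_nonneg_right hc1R (by linarith)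
    have h2 : (d : ℝ) ^ (-(1 / 2 : ℝ)) ≤ (d : ℝ) ^ (-e) :=
      Real.rpow_le_rpow_of_exponent_le hdR (by linarith)
    have h3 : (d : ℝ)⁻¹ = (d : ℝ) ^ (-(1 / 2 : ℝ)) * (d : ℝ) ^ (-(1 / 2 : ℝ)) := by
      rw [← Real.rpow_add (by linarith), ← Real.rpow_neg_one]
      norm_num
    rw [h3]
    exact mul_le_mul h1 h2 (by positivity) hs0.le
  have hn1 : d + 1 ≤ K * (d + 1) := Nat.le_mul_of_pos_left _ hK1
  have hng : 1 ≤ ((K * (d + 1) : ℕ) : ℝ) * g := by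
    have h1 : (d : ℝ) ≤ ((K * (d + 1) : ℕ) : ℝ) := by exact_mod_cast (by omega)
    calc (1 : ℝ) = d * (d : ℝ)⁻¹ := (mul_inv_cancel₀ (by linarith)).symm
      _ ≤ _ := mul_le_mul h1 hg1 (by positivity) (by positivity)
  have hKd : K * (d + 1) ≤ K * (2 * d) := Nat.mul_le_mul_left _ (by omega)
  have hk2 : 100 * (K * (d + 1)) ≤ k := by nlinarith
  have h := upper_of_conf (c' := c) (n₀ := K * (d + 1)) g (by omega) le_rfl hcd.le (by omega) hg0
    hg4 hng (by omega) hk2 (fun n h1 h2 => by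
      have hdn : (d : ℝ) ≤ 100 * (n : ℝ) := by exact_mod_cast (by omega : d ≤ 100 * n)
      exact ConfP.mono (hG c n hc1 h1 h2) (hconf c (d + 1) n _ _ (hP c n hcR hcd.le h1)
        (Real.rpow_pos_of_pos (by linarith) _) (hN₀ _ (hN.trans hdn) c hc1))) hm
  have hk0 : (0 : ℝ) ≤ k := Nat.cast_nonneg _
  have h5 : √((c : ℝ) / d) * (d : ℝ) ^ (-ε) ≤ g :=
    mul_le_mul_of_nonneg_left (Real.rpow_le_rpow_of_exponent_le hdR (by linarith)) hs0.le
  have h6 : (2 - g) * k ≤ (2 - √((c : ℝ) / d) * (d : ℝ) ^ (-ε)) * k :=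
    mul_le_mul_of_nonneg_right (by linarith) hk0
  linarith

end Pool.Agent.P.MP_83f3dc_co.KT
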