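import Pool.Agent.P.MP_83f3dc_co.KUDefs
import Pool.Agent.P.MP_83f3dc_co.KTDaw

set_option autoImplicit false
set_option linter.unusedSectionVars false
set_option linter.unusedVariables false

open MeasureTheory ProbabilityTheory Module Set Filter Topology
open scoped RealInnerProductSpace ENNReal

noncomputable section

namespace Pool.Agent.P.MP_83f3dc_co.KT

variable {V : Type} [NormedAddCommGroup V] [InnerProductSpace ℝ V] [FiniteDimensional ℝ V]
  [MeasurableSpace V] [BorelSpace V]

theorem f0_abs_le (s : ℝ) : |f0 s| ≤ 1 := by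
  have h := norm_integral_le_of_norm_le_const (μ := gaussianReal 0 1)
    (f := fun t => Real.sign (s + t)) (C := 1) (Eventually.of_forall fun x => abs_sign_le _)
  simpa [f0, Real.norm_eq_abs] using h

theorem kuf0_pdf (x : ℝ) : gaussianPDFReal 0 1 x = (√(2 * Real.pi))⁻¹ * Real.exp (-x ^ 2 / 2) := by
  simp only [gaussianPDFReal, NNReal.coe_one, mul_one, sub_zero]

theorem f0_zero : f0 0 = 0 := by
  unfold f0
  rw [integral_gaussianReal_eq_integral_smul one_ne_zero]
  have h := integral_neg_eq_self (fun x : ℝ => gaussianPDFReal 0 1 x • Real.sign (0 + x)) volume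
  simp only [kuf0_pdf, zero_add, Real.sign_neg, neg_sq, smul_neg, integral_neg] at h ⊢
  linarith

theorem kuf0_eq (s : ℝ) : f0 s = 1 - 2 * (∫ x in Iic (0 : ℝ), gaussianPDFReal 0 1 x) -
    2 * ∫ x in (0 : ℝ)..(-s), gaussianPDFReal 0 1 x := by
  have hg := integrable_gaussianPDFReal 0 1
  have hi : Integrable fun x : ℝ => gaussianPDFReal 0 1 x • Real.sign (s + x) := by
    refine hg.mul_bdd (c := 1)
      (measurable_sign.comp (measurable_const.add measurable_id)).aestronglyMeasurable
      (Eventually.of_forall fun x => abs_sign_le _)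
  unfold f0
  rw [integral_gaussianReal_eq_integral_smul one_ne_zero,
    ← intervalIntegral.integral_Iic_add_Ioi (b := -s) hi.integrableOn hi.integrableOn]
  have h1 : ∫ x in Iic (-s), gaussianPDFReal 0 1 x • Real.sign (s + x) =
      -∫ x in Iic (-s), gaussianPDFReal 0 1 x := by
    rw [integral_Iic_eq_integral_Iio, integral_Iic_eq_integral_Iio, ← integral_neg]
    refine setIntegral_congr_fun measurableSet_Iio fun x hx => ?_
    have : s + x < 0 := by have := mem_Iio.1 hx; linarith
    simp only [Real.sign_of_neg this, smul_eq_mul, mul_neg, mul_one]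
  have h2 : ∫ x in Ioi (-s), gaussianPDFReal 0 1 x • Real.sign (s + x) =
      ∫ x in Ioi (-s), gaussianPDFReal 0 1 x := by
    refine setIntegral_congr_fun measurableSet_Ioi fun x hx => ?_
    have : 0 < s + x := by have := mem_Ioi.1 hx; linarith
    simp only [Real.sign_of_pos this, smul_eq_mul, mul_one]
  have h3 := intervalIntegral.integral_Iic_add_Ioi (b := -s) hg.integrableOn hg.integrableOn
  rw [integral_gaussianPDFReal_eq_one 0 one_ne_zero] at h3
  have h4 := intervalIntegral.integral_Iic_sub_Iic (a := 0) (b := -s) hg.integrableOn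
    hg.integrableOn
  rw [h1, h2]
  linarith

theorem f0_hasDeriv (s : ℝ) : HasDerivAt f0 (√(2 / Real.pi) * Real.exp (-s ^ 2 / 2)) s := by
  have hc : Continuous (gaussianPDFReal 0 1) := by
    rw [funext kuf0_pdf]
    fun_prop
  have h1 := (hc.integral_hasStrictDerivAt 0 (-s)).hasDerivAt.comp s (hasDerivAt_neg s)
  have h2 := (h1.const_mul 2).const_sub (1 - 2 * ∫ x in Iic (0 : ℝ), gaussianPDFReal 0 1 x)
  have e : √(2 / Real.pi) * Real.exp (-s ^ 2 / 2) = -(2 * (gaussianPDFReal 0 1 (-s) * -1)) := by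
    have hp : 0 < √Real.pi := Real.sqrt_pos.2 Real.pi_pos
    have h3 : 0 < √(2 : ℝ) := by positivity
    have h4 : √(2 : ℝ) * √2 = 2 := Real.mul_self_sqrt (by norm_num)
    rw [kuf0_pdf, neg_sq, Real.sqrt_div (by norm_num), Real.sqrt_mul (by norm_num)]
    field_simp
    linear_combination h4
  rw [e, funext kuf0_eq]
  exact h2

theorem kuf0_int (T : ℝ) (z w : V) : f0 (T * ⟪z, ‖w‖⁻¹ • w⟫) =
    ∫ y, Real.sign ⟪T • z + y, w⟫ ∂(stdGaussian V) := by
  by_cases hw : w = 0
  · simp [hw, f0_zero]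
  have h0 : 0 < ‖w‖ := norm_pos_iff.2 hw
  have ha : ‖‖w‖⁻¹ • w‖ = 1 := norm_smul_inv_norm hw
  have hm : Measurable fun t : ℝ => Real.sign (T * ⟪z, ‖w‖⁻¹ • w⟫ + t) :=
    measurable_sign.comp (measurable_const.add measurable_id)
  unfold f0
  rw [← (mp_inner ha).map_eq, integral_map (mp_inner ha).measurable.aemeasurable
    hm.aestronglyMeasurable]
  refine integral_congr_ae (Eventually.of_forall fun y => ?_)
  have e : T * ⟪z, ‖w‖⁻¹ • w⟫ + ⟪y, ‖w‖⁻¹ • w⟫ = ‖w‖⁻¹ * ⟪T • z + y, w⟫ := by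
    rw [inner_add_left, real_inner_smul_left, real_inner_smul_right, real_inner_smul_right]
    ring
  have hp : 0 < ‖w‖⁻¹ := inv_pos.2 h0
  show Real.sign (T * ⟪z, ‖w‖⁻¹ • w⟫ + ⟪y, ‖w‖⁻¹ • w⟫) = Real.sign ⟪T • z + y, w⟫
  rw [e]
  rcases lt_trichotomy ⟪T • z + y, w⟫ 0 with h | h | h
  · rw [Real.sign_of_neg h, Real.sign_of_neg (mul_neg_of_pos_of_neg hp h)]
  · rw [h, mul_zero]
  · rw [Real.sign_of_pos h, Real.sign_of_pos (mul_pos hp h)]

theorem phi_le {κ : Type} [Fintype κ] (w : κ → V) (S T : ℝ)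
    (hS : ∀ y : V, ∑ p, Real.sign ⟪y, w p⟫ ≤ S) (z : V) :
    |∑ p, f0 (T * ⟪z, ‖w p‖⁻¹ • w p⟫)| ≤ S := by
  have hi : ∀ p, Integrable (fun y => Real.sign ⟪T • z + y, w p⟫) (stdGaussian V) := fun p =>
    Integrable.of_bound (measurable_sign.comp (by fun_prop)).aestronglyMeasurable 1
      (Eventually.of_forall fun x => abs_sign_le _)
  simp only [kuf0_int]
  rw [← integral_finsetSum _ fun p _ => hi p]
  have h := norm_integral_le_of_norm_le_const (μ := stdGaussian V)
    (f := fun y => ∑ p, Real.sign ⟪T • z + y, w p⟫) (C := S) (Eventually.of_forall fun y => by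
      rw [Real.norm_eq_abs, abs_le]
      refine ⟨?_, hS _⟩
      have h1 := hS (-(T • z + y))
      simp only [inner_neg_left, Real.sign_neg, Finset.sum_neg_distrib] at h1
      linarith)
  simpa [Real.norm_eq_abs] using h

end Pool.Agent.P.MP_83f3dc_co.KT
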