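import Pool.Agent.P.MP_83f3dc_co.KUC
import Pool.Agent.P.MP_83f3dc_co.KUD

set_option autoImplicit false
set_option linter.unusedSectionVars false
set_option linter.unusedVariables false

open MeasureTheory ProbabilityTheory Module Set Filter Topology
open scoped RealInnerProductSpace ENNReal

noncomputable section

namespace Pool.Agent.P.MP_83f3dc_co.KT

theorem partU (ε : ℝ) (hε : 0 < ε) :
    ∃ K d₀ : ℕ, ∀ d c k m : ℕ, d₀ ≤ d → 3 ≤ c → c < d → K * d ≤ k →
      IsGreatest {n : ℕ | 0 < n ∧ HasTransversal d (d - c) k n} m →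
        (m : ℝ) ≤ d + (2 - √((c : ℝ) / d) * (d : ℝ) ^ (-(1 / (2 * ((c : ℝ) - 1)) + ε))) * k := by
  obtain ⟨c₀, K₁, d₁, h₁⟩ := partD ε hε
  have h2 := fun c : ℕ => partC' (c + 3) (by omega) (ε / 2) (by positivity)
  choose Kf df hf using h2
  have hev : ∀ᶠ d : ℕ in atTop, √(c₀ : ℝ) ≤ (d : ℝ) ^ (ε / 2) :=
    ((tendsto_rpow_atTop (by positivity)).comp tendsto_natCast_atTop_atTop).eventually
      (eventually_ge_atTop _)
  obtain ⟨d₂, hd₂⟩ := eventually_atTop.1 hev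
  refine ⟨max K₁ ((Finset.range c₀).sup Kf), max (max d₁ d₂) ((Finset.range c₀).sup df),
    fun d c k m hd hc hcd hk hm => ?_⟩
  have hc3 : (3 : ℝ) ≤ c := by exact_mod_cast hc
  have hdR : (1 : ℝ) ≤ d := by exact_mod_cast (by omega : 1 ≤ d)
  have hk0 : (0 : ℝ) ≤ k := Nat.cast_nonneg _
  have hb0 : 0 < 1 / (2 * ((c : ℝ) - 1)) := by
    have : 0 < (c : ℝ) - 1 := by linarith
    positivity
  rcases le_or_gt c₀ c with hcc | hcc
  · have h := h₁ d c k m (by omega) hcc hcd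
      ((Nat.mul_le_mul_right d (le_max_left _ _)).trans hk) hm
    have h5 : √((c : ℝ) / d) * (d : ℝ) ^ (-(1 / (2 * ((c : ℝ) - 1)) + ε))
        ≤ √((c : ℝ) / d) * (d : ℝ) ^ (-ε) :=
      mul_le_mul_of_nonneg_left (Real.rpow_le_rpow_of_exponent_le hdR (by linarith))
        (Real.sqrt_nonneg _)
    have h6 := mul_le_mul_of_nonneg_right (sub_le_sub_left h5 2) hk0
    linarith
  · obtain ⟨c', rfl⟩ : ∃ c', c = c' + 3 := ⟨c - 3, by omega⟩
    have hmem : c' ∈ Finset.range c₀ := Finset.mem_range.2 (by omega)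
    have hK : Kf c' ≤ max K₁ ((Finset.range c₀).sup Kf) :=
      (Finset.le_sup (f := Kf) hmem).trans (le_max_right _ _)
    have hd' : df c' ≤ d := (Finset.le_sup (f := df) hmem).trans ((le_max_right _ _).trans hd)
    have h := hf c' d (c' + 3) k m hd' le_rfl hcd ((Nat.mul_le_mul_right d hK).trans hk) hm
    have h3 := hd₂ d (by omega)
    have h4 : √(((c' + 3 : ℕ) : ℝ) / d) ≤ (d : ℝ) ^ (ε / 2) * (d : ℝ) ^ (-(1 / 2 : ℝ)) := by
      rw [Real.sqrt_div (Nat.cast_nonneg _), div_eq_mul_inv, Real.rpow_neg (by linarith),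
        ← Real.sqrt_eq_rpow]
      refine mul_le_mul_of_nonneg_right (le_trans (Real.sqrt_le_sqrt ?_) h3) (by positivity)
      exact_mod_cast hcc.le
    have h5 : √(((c' + 3 : ℕ) : ℝ) / d) * (d : ℝ) ^ (-(1 / (2 * (((c' + 3 : ℕ) : ℝ) - 1)) + ε))
        ≤ (d : ℝ) ^ (-(1 / 2 + 1 / (2 * (((c' + 3 : ℕ) : ℝ) - 1)) + ε / 2)) := by
      refine (mul_le_mul_of_nonneg_right h4 (by positivity)).trans (le_of_eq ?_)
      rw [← Real.rpow_add (by linarith), ← Real.rpow_add (by linarith)]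
      congr 1
      ring
    have h6 := mul_le_mul_of_nonneg_right (sub_le_sub_left h5 2) hk0
    linarith

end Pool.Agent.P.MP_83f3dc_co.KT
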