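import Pool.Agent.P.MP_83f3dc_co.KUGp
import Pool.Agent.P.MP_83f3dc_co.KUDefs
import Pool.Agent.P.MP_83f3dc_co.KTGeo

set_option autoImplicit false
set_option linter.unusedSectionVars false
set_option linter.unusedVariables false

open MeasureTheory ProbabilityTheory Module Set Filter Topology
open scoped RealInnerProductSpace ENNReal

noncomputable section

namespace Pool.Agent.P.MP_83f3dc_co.KT

theorem kugeo_clusters {d N : ℕ} (hd : 0 < d) (u : Fin N → E (d + 1)) (r : ℝ) (hr : 0 < r)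
    (t : ℕ) : ∃ (s lam : Fin N → ℝ) (x : Fin N × Fin t → E d), (∀ i, s i = 1 ∨ s i = -1) ∧
      (∀ i, 0 < lam i) ∧ Function.Injective x ∧
      (∀ p, ‖lam p.1 • hom (x p) - s p.1 • u p.1‖ ≤ r) ∧
      ∀ f : E (d + 1), f ≠ 0 →
        (Finset.univ.filter fun p => ⟪f, hom (x p)⟫ = 0).card ≤ d := by
  choose s lam x₀ hs hlam hnear using fun i : Fin N => near_chart (u i) (r / 2) (half_pos hr)
  obtain ⟨x, hx, hinj, hz⟩ := gen_pos hd (fun p : Fin N × Fin t => x₀ p.1)
    (fun p => r / 2 / lam p.1) fun p => div_pos (half_pos hr) (hlam p.1)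
  refine ⟨s, lam, x, hs, hlam, hinj, fun p => ?_, hz⟩
  have h1 : lam p.1 • hom (x p) - s p.1 • u p.1 = lam p.1 • (hom (x p) - hom (x₀ p.1))
      + (lam p.1 • hom (x₀ p.1) - s p.1 • u p.1) := by
    rw [smul_sub]
    abel
  have h2 : ‖lam p.1 • (hom (x p) - hom (x₀ p.1))‖ ≤ r / 2 := by
    rw [norm_smul, norm_hom_sub, Real.norm_eq_abs, abs_of_pos (hlam p.1), mul_comm]
    exact (le_div_iff₀ (hlam p.1)).1 (hx p)
  rw [h1]
  refine (norm_add_le _ _).trans ?_
  linarith [hnear p.1]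

theorem not_has2 {d c j N t k : ℕ} (hd : 0 < d) (hj : j + c ≤ d) (ht : 1 ≤ t) (S : ℝ) (hS : 0 < S)
    (h : ConfP c (d + 1) N S) (hk : 2 * (k : ℝ) + d ≤ t * (N + S)) :
    ¬ HasTransversal d j k (N * t) := by
  classical
  intro H
  obtain ⟨u, r, hr, hu⟩ := h
  obtain ⟨s, lam, x, hs, hlam, hinj, hnear, hzero⟩ := kugeo_clusters hd u r hr t
  obtain ⟨L, hL, hdim, hmeet⟩ := H (Finset.univ.image x) (by
    rw [Finset.card_image_of_injective _ hinj]
    simp)
  obtain ⟨g, hg, hgL⟩ := frame_of_flat L hL hdim hj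
  obtain ⟨y, hy⟩ := hu t ht s hs (fun p => lam p.1 • hom (x p)) hnear g hg
  set f : E (d + 1) := ∑ a, y a • g a with hf
  have hfL : ∀ z ∈ L, ⟪f, hom z⟫ = 0 := by
    intro z hz
    rw [hf, sum_inner]
    refine Finset.sum_eq_zero fun a _ => ?_
    rw [real_inner_smul_left, hgL a z hz, mul_zero]
  have hy' : (t : ℝ) * S ≤ ∑ p, Real.sign ⟪f, hom (x p)⟫ := by
    refine hy.trans (le_of_eq (Finset.sum_congr rfl fun p _ => ?_))
    rw [real_inner_smul_right, geo_sign_mul _ _ (hlam p.1)]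
  have htS : (0 : ℝ) < t * S := mul_pos (by exact_mod_cast ht) hS
  have hne : f ≠ 0 := by
    intro h0
    simp [h0] at hy'
    linarith
  have hz : (∑ p : Fin N × Fin t, if ⟪f, hom (x p)⟫ = 0 then (1 : ℝ) else 0) ≤ d := by
    rw [Finset.sum_boole]
    exact_mod_cast hzero f hne
  have hsum : ∑ p, Real.sign ⟪f, hom (x p)⟫ ≤
      2 * ((Finset.univ.filter fun p => 0 < ⟪f, hom (x p)⟫).card : ℝ) +
        (∑ p : Fin N × Fin t, if ⟪f, hom (x p)⟫ = 0 then (1 : ℝ) else 0) - N * t := by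
    refine (Finset.sum_le_sum fun p _ => geo_sign _).trans (le_of_eq ?_)
    rw [Finset.sum_sub_distrib, Finset.sum_add_distrib, ← Finset.mul_sum, Finset.sum_boole]
    simp
  have hk' : k ≤ (Finset.univ.filter fun p => 0 < ⟪f, hom (x p)⟫).card := by
    have h1 : (k : ℝ) ≤ ((Finset.univ.filter fun p => 0 < ⟪f, hom (x p)⟫).card : ℝ) := by
      nlinarith
    exact_mod_cast h1
  obtain ⟨Z, hZ, hZc⟩ := Finset.exists_subset_card_eq hk'
  obtain ⟨z, hzL, hzY⟩ := hmeet (Z.image x) (Finset.image_subset_image (Finset.subset_univ _))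
    (by rw [Finset.card_image_of_injective _ hinj, hZc])
  have hpos : z ∈ {w : E d | 0 < ⟪f, hom w⟫} := by
    refine convexHull_min ?_ (convex_pos f) hzY
    intro w hw
    obtain ⟨p, hp, rfl⟩ := Finset.mem_image.1 (Finset.mem_coe.1 hw)
    exact (Finset.mem_filter.1 (hZ hp)).2
  have h3 : 0 < ⟪f, hom z⟫ := hpos
  rw [hfL z hzL] at h3
  exact lt_irrefl _ h3

end Pool.Agent.P.MP_83f3dc_co.KT
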