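import Pool.Agent.P.MP_83f3dc_co.KTHom

set_option autoImplicit false
set_option linter.unusedSectionVars false
set_option linter.unusedVariables false

open MeasureTheory ProbabilityTheory Module Set Filter Topology
open scoped RealInnerProductSpace ENNReal

noncomputable section

namespace Pool.Agent.P.MP_83f3dc_co.KT

theorem kugp_dense {d : ℕ} (f : E (d + 1)) (hf : f ≠ 0) :
    Dense {x : E d | ⟪f, hom x⟫ ≠ 0} := by
  rw [Metric.dense_iff]
  intro x r hr
  by_cases hx : ⟪f, hom x⟫ = 0
  · obtain ⟨a, ha⟩ : ∃ a : Fin d, f a.succ ≠ 0 := by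
      by_contra hcon
      push Not at hcon
      apply hf
      rw [inner_hom] at hx
      simp only [hcon, zero_mul, Finset.sum_const_zero, add_zero] at hx
      ext i
      exact Fin.cases hx hcon i
    refine ⟨x + EuclideanSpace.single a (r / 2), ?_, ?_⟩
    · rw [Metric.mem_ball, dist_eq_norm, add_sub_cancel_left, PiLp.norm_single,
        Real.norm_of_nonneg (by positivity)]
      linarith
    · have h1 : ⟪f, hom (x + EuclideanSpace.single a (r / 2))⟫ =
          ⟪f, hom x⟫ + f a.succ * (r / 2) := by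
        simp only [inner_hom, PiLp.add_apply, mul_add, Finset.sum_add_distrib]
        simp [Pi.single_apply, add_assoc]
      show _ ≠ _
      rw [h1, hx, zero_add]
      exact mul_ne_zero ha (by positivity)
  · exact ⟨x, Metric.mem_ball_self hr, hx⟩

theorem kugp_open {d : ℕ} (f : E (d + 1)) : IsOpen {x : E d | ⟪f, hom x⟫ ≠ 0} := by
  simp only [inner_hom]
  exact isOpen_ne_fun (by fun_prop) continuous_const

theorem kugp_avoid {d : ℕ} {α : Type} [Finite α] (W : α → Submodule ℝ (E (d + 1)))
    (hW : ∀ a, W a ≠ ⊤) (x₀ : E d) {r : ℝ} (hr : 0 < r) :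
    ∃ y : E d, ‖y - x₀‖ ≤ r ∧ ∀ a, hom y ∉ W a := by
  have h1 : ∀ a, ∃ f : E (d + 1), f ∈ (W a)ᗮ ∧ f ≠ 0 := fun a =>
    Submodule.exists_mem_ne_zero_of_ne_bot (by
      rw [Ne, Submodule.orthogonal_eq_bot_iff]
      exact hW a)
  choose f hf hf0 using h1
  have h2 : Dense (⋂ a, {x : E d | ⟪f a, hom x⟫ ≠ 0}) :=
    dense_iInter_of_isOpen (fun a => kugp_open _) fun a => kugp_dense _ (hf0 a)
  obtain ⟨y, hy, hy'⟩ := Metric.dense_iff.1 h2 x₀ r hr
  refine ⟨y, ?_, fun a ha => Set.mem_iInter.1 hy' a
    (Submodule.inner_left_of_mem_orthogonal ha (hf a))⟩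
  rw [Metric.mem_ball, dist_eq_norm] at hy
  exact hy.le

theorem kugp_ind {d : ℕ} {ι : Type} [Fintype ι] (x₀ : ι → E d) (r : ι → ℝ)
    (hr : ∀ p, 0 < r p) (S : Finset ι) :
    ∃ x : ι → E d, (∀ p, ‖x p - x₀ p‖ ≤ r p) ∧
      ∀ T : Finset ι, T ⊆ S → T.card ≤ d + 1 → LinearIndepOn ℝ (fun p => hom (x p)) T := by
  classical
  induction S using Finset.induction_on with
  | empty =>
    refine ⟨x₀, fun p => by simpa using (hr p).le, fun T hT _ => ?_⟩
    rw [Finset.subset_empty.1 hT]
    simp
  | insert q S hq ih =>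
    obtain ⟨x, hx, hT⟩ := ih
    obtain ⟨y, hy, hy'⟩ := kugp_avoid (α := {T : Finset ι // T.card ≤ d})
      (fun T => Submodule.span ℝ ((T.1.image fun p => hom (x p) : Finset (E (d + 1))) :
        Set (E (d + 1)))) (fun T h => by
        have h1 := finrank_span_finset_le_card (R := ℝ) (T.1.image fun p => hom (x p))
        have h2 := Finset.card_image_le (s := T.1) (f := fun p => hom (x p))
        have h3 := T.2
        rw [Set.finrank, h, finrank_top] at h1
        simp only [finrank_euclideanSpace, Fintype.card_fin] at h1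
        omega) (x₀ q) (hr q)
    have hc : ∀ T : Finset ι, q ∉ T → Set.EqOn (fun p => hom (x p))
        (fun p => hom (Function.update x q y p)) T := fun T hqT p hp => by
      have : p ≠ q := fun h => hqT (h ▸ hp)
      simp [Function.update_of_ne this]
    refine ⟨Function.update x q y, fun p => ?_, fun T hTS hTc => ?_⟩
    · by_cases h : p = q
      · rw [h, Function.update_self]
        exact hy
      · rw [Function.update_of_ne h]
        exact hx p
    · by_cases hqT : q ∈ T
      · have h1 : T.erase q ⊆ S := Finset.subset_insert_iff.1 hTS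
        have h2 : (T.erase q).card ≤ d := by
          rw [Finset.card_erase_of_mem hqT]
          omega
        have h3 := (hT _ h1 (by omega)).congr (hc _ (Finset.notMem_erase q T))
        rw [← Finset.insert_erase hqT, Finset.coe_insert]
        refine h3.insert ?_
        rw [← (hc _ (Finset.notMem_erase q T)).image_eq, Function.update_self, ← Finset.coe_image]
        exact hy' ⟨_, h2⟩
      · exact (hT T ((Finset.subset_insert_iff_of_notMem hqT).1 hTS) hTc).congr (hc T hqT)

/-- points near given centres, in general position -/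
theorem gen_pos {d : ℕ} (hd : 0 < d) {ι : Type} [Fintype ι] (x₀ : ι → E d) (r : ι → ℝ)
    (hr : ∀ p, 0 < r p) :
    ∃ x : ι → E d, (∀ p, ‖x p - x₀ p‖ ≤ r p) ∧ Function.Injective x ∧
      ∀ f : E (d + 1), f ≠ 0 → (Finset.univ.filter fun p => ⟪f, hom (x p)⟫ = 0).card ≤ d := by
  classical
  obtain ⟨x, hx, hT⟩ := kugp_ind x₀ r hr Finset.univ
  refine ⟨x, hx, fun p p' h => ?_, fun f hf => ?_⟩
  · refine (hT {p, p'} (Finset.subset_univ _) (Finset.card_le_two.trans (by omega))).injOn
      (by simp) (by simp) ?_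
    simp only [h]
  · by_contra hcon
    obtain ⟨T, hT1, hT2⟩ := Finset.exists_subset_card_eq (Nat.succ_le_of_lt (not_le.1 hcon))
    have h1 : LinearIndependent ℝ fun p : T => hom (x p) := hT T (Finset.subset_univ _) hT2.le
    have h2 := h1.span_eq_top_of_card_eq_finrank' (by simp [hT2])
    have h3 : (⊤ : Submodule ℝ (E (d + 1))) ≤ LinearMap.ker (innerSL ℝ f).toLinearMap := by
      rw [← h2, Submodule.span_le]
      rintro _ ⟨p, rfl⟩
      exact (Finset.mem_filter.1 (hT1 p.2)).2
    exact hf (inner_self_eq_zero.1 (h3 (Submodule.mem_top (x := f))))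

end Pool.Agent.P.MP_83f3dc_co.KT
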