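import Pool.Agent.P.MP_83f3dc_co.KTKer0

set_option autoImplicit false
set_option linter.unusedSectionVars false
set_option linter.unusedVariables false

open MeasureTheory ProbabilityTheory Module Set Filter Topology
open scoped RealInnerProductSpace ENNReal

noncomputable section

namespace Pool.Agent.P.MP_83f3dc_co.KT

variable {V : Type} [NormedAddCommGroup V] [InnerProductSpace ℝ V] [FiniteDimensional ℝ V]
  [MeasurableSpace V] [BorelSpace V]

/-- the correlation of a thin slab with a cosine wave -/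
def K2 (T : ℝ) (a b : V) : ℝ :=
  ∫ y, T * Real.exp (-(T * ⟪y, a⟫) ^ 2 / 2) * Real.cos (T * ⟪y, b⟫) ∂(stdGaussian V)

theorem kuk2_le (x : ℝ) : |Real.exp (-x ^ 2 / 2)| ≤ 1 := by
  rw [abs_of_pos (Real.exp_pos _), Real.exp_le_one_iff]
  have := sq_nonneg x
  linarith

theorem kuk2_int {A : Type} [MeasurableSpace A] {μ : Measure A} [IsFiniteMeasure μ] (T : ℝ)
    {f g : A → ℝ} (hf : Measurable f) (hg : Measurable g) (h : ∀ x, |g x| ≤ 1) :
    Integrable (fun y => T * Real.exp (-(f y) ^ 2 / 2) * g y) μ := by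
  have i : Integrable (fun y => Real.exp (-(f y) ^ 2 / 2) * g y) μ := by
    refine ker0_bdd (by fun_prop) fun y => ?_
    rw [abs_mul]
    exact mul_le_one₀ (kuk2_le _) (abs_nonneg _) (h y)
  simpa only [mul_assoc] using i.const_mul T

theorem K2_integrable (T : ℝ) (a b : V) : Integrable
    (fun y : V => T * Real.exp (-(T * ⟪y, a⟫) ^ 2 / 2) * Real.cos (T * ⟪y, b⟫)) (stdGaussian V) := by
  exact kuk2_int T (by fun_prop) (by fun_prop) fun _ => Real.abs_cos_le_one _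

theorem one_dim (T ω : ℝ) :
    ∫ x, T * Real.exp (-(T * x) ^ 2 / 2) * Real.cos (ω * x) ∂(gaussianReal 0 1)
      = T / √(1 + T ^ 2) * Real.exp (-ω ^ 2 / (2 * (1 + T ^ 2))) := by
  set σ : ℝ := √(1 + T ^ 2) with hσ
  have h1 : 0 < 1 + T ^ 2 := by positivity
  have hσ0 : 0 < σ := Real.sqrt_pos.2 h1
  have hσ2 : σ ^ 2 = 1 + T ^ 2 := Real.sq_sqrt h1.le
  have hc := int_cos (V := ℝ) (ω / σ)
  rw [stdGaussian_real, integral_gaussianReal_eq_integral_smul one_ne_zero] at hc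
  have hs := Measure.integral_comp_mul_left
    (fun y : ℝ => gaussianPDFReal 0 1 y • Real.cos ⟪y, ω / σ⟫) σ
  rw [hc] at hs
  have e : ∀ x : ℝ, gaussianPDFReal 0 1 x • (T * Real.exp (-(T * x) ^ 2 / 2) * Real.cos (ω * x)) =
      T * (gaussianPDFReal 0 1 (σ * x) • Real.cos ⟪σ * x, ω / σ⟫) := fun x => by
    have e1 : ⟪σ * x, ω / σ⟫ = ω * x := by
      have : ⟪σ * x, ω / σ⟫ = ω / σ * (σ * x) := by simp
      rw [this]
      field_simp
    have e2 : Real.exp (-(σ * x - 0) ^ 2 / (2 * ((1 : NNReal) : ℝ))) =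
        Real.exp (-(x - 0) ^ 2 / (2 * ((1 : NNReal) : ℝ))) * Real.exp (-(T * x) ^ 2 / 2) := by
      rw [← Real.exp_add]
      congr 1
      rw [sub_zero, sub_zero, mul_pow, hσ2, NNReal.coe_one]
      ring
    rw [e1]
    simp only [gaussianPDFReal, smul_eq_mul]
    rw [e2]
    ring
  rw [integral_gaussianReal_eq_integral_smul one_ne_zero, integral_congr_ae (Eventually.of_forall e),
    integral_const_mul, hs, abs_of_pos (inv_pos.2 hσ0), smul_eq_mul, Real.norm_eq_abs, sq_abs,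
    div_pow, hσ2, ← mul_assoc, ← div_eq_mul_inv]
  congr 2
  field_simp

theorem K2_eq (T : ℝ) {a : V} (ha : ‖a‖ = 1) (b : V) :
    K2 T a b = T / √(1 + T ^ 2) * Real.exp (-(T * ⟪a, b⟫) ^ 2 / (2 * (1 + T ^ 2))) *
      Real.exp (-T ^ 2 * ‖pr a b‖ ^ 2 / 2) := by
  have hm : Measurable fun y : V =>
      T * Real.exp (-(T * ⟪y, a⟫) ^ 2 / 2) * Real.cos (T * ⟪y, b⟫) := by fun_prop
  have hp := mp_pr_split ha
  have e : K2 T a b = ∫ q : V × ℝ, T * Real.exp (-(T * ⟪pr a q.1 + q.2 • a, a⟫) ^ 2 / 2) *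
      Real.cos (T * ⟪pr a q.1 + q.2 • a, b⟫) ∂((stdGaussian V).prod (gaussianReal 0 1)) := by
    unfold K2
    rw [← hp.map_eq, integral_map hp.measurable.aemeasurable hm.aestronglyMeasurable, hp.map_eq]
  have e1 : ∀ q : V × ℝ, T * Real.exp (-(T * ⟪pr a q.1 + q.2 • a, a⟫) ^ 2 / 2) *
      Real.cos (T * ⟪pr a q.1 + q.2 • a, b⟫) =
      Real.cos ⟪q.1, T • pr a b⟫ *
          (T * Real.exp (-(T * q.2) ^ 2 / 2) * Real.cos (T * ⟪a, b⟫ * q.2)) -
        Real.sin ⟪q.1, T • pr a b⟫ *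
          (T * Real.exp (-(T * q.2) ^ 2 / 2) * Real.sin (T * ⟪a, b⟫ * q.2)) := fun q => by
    have h1 : ⟪pr a q.1 + q.2 • a, a⟫ = q.2 := by
      rw [inner_add_left, real_inner_comm, inner_pr_self, real_inner_smul_left,
        real_inner_self_eq_norm_sq, ha]
      ring
    have h2 : T * ⟪pr a q.1 + q.2 • a, b⟫ = ⟪q.1, T • pr a b⟫ + T * ⟪a, b⟫ * q.2 := by
      rw [inner_add_left, inner_pr_comm, real_inner_smul_left, real_inner_smul_right]
      ring
    rw [h1, h2, Real.cos_add]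
    ring
  have i1 : Integrable (fun z : V => Real.sin ⟪z, T • pr a b⟫) (stdGaussian V) :=
    ker0_bdd (by fun_prop) fun _ => Real.abs_sin_le_one _
  have i2 : Integrable (fun z : V => Real.cos ⟪z, T • pr a b⟫) (stdGaussian V) :=
    ker0_bdd (by fun_prop) fun _ => Real.abs_cos_le_one _
  have i3 : Integrable (fun t : ℝ => T * Real.exp (-(T * t) ^ 2 / 2) * Real.cos (T * ⟪a, b⟫ * t))
      (gaussianReal 0 1) := kuk2_int T (by fun_prop) (by fun_prop) fun _ => Real.abs_cos_le_one _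
  have i4 : Integrable (fun t : ℝ => T * Real.exp (-(T * t) ^ 2 / 2) * Real.sin (T * ⟪a, b⟫ * t))
      (gaussianReal 0 1) := kuk2_int T (by fun_prop) (by fun_prop) fun _ => Real.abs_sin_le_one _
  rw [e, integral_congr_ae (Eventually.of_forall e1), integral_sub (i2.mul_prod i3) (i1.mul_prod i4),
    integral_prod_mul (fun z : V => Real.cos ⟪z, T • pr a b⟫)
      (fun t : ℝ => T * Real.exp (-(T * t) ^ 2 / 2) * Real.cos (T * ⟪a, b⟫ * t)),
    integral_prod_mul (fun z : V => Real.sin ⟪z, T • pr a b⟫)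
      (fun t : ℝ => T * Real.exp (-(T * t) ^ 2 / 2) * Real.sin (T * ⟪a, b⟫ * t)), int_sin, int_cos,
    zero_mul, sub_zero, one_dim, mul_comm, norm_smul, mul_pow (‖T‖), Real.norm_eq_abs, sq_abs,
    neg_mul]

end Pool.Agent.P.MP_83f3dc_co.KT
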