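import Pool.Agent.P.MP_83f3dc_co.KTGm
import Pool.Agent.P.MP_83f3dc_co.KTTail
import Pool.Agent.P.MP_83f3dc_co.KUBall

set_option autoImplicit false
set_option linter.unusedSectionVars false
set_option linter.unusedVariables false

open MeasureTheory ProbabilityTheory Module Set Filter Topology
open scoped RealInnerProductSpace ENNReal

noncomputable section

namespace Pool.Agent.P.MP_83f3dc_co.KT

/-- vectors with a short or long image, or long vectors -/
def A2 {c D : ℕ} (g : Fin c → E D) (H R : ℝ) : Set (E D) :=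
  {u | ‖Gm g u‖ ≤ √(c : ℝ) / H ∨ H * √(c : ℝ) ≤ ‖Gm g u‖ ∨ R ≤ ‖u‖}

/-- the image is close to the line of a small integer combination of other directions -/
def C2 {c D : ℕ} (J : ℕ) (g : Fin c → E D) (H : ℝ) : Set ((Fin J → E D) × E D) :=
  {q | ∃ n : Fin J → ℤ, (∀ r, |n r| ≤ J) ∧
    ‖pr (∑ r, (n r : ℝ) • ‖Gm g (q.1 r)‖⁻¹ • Gm g (q.1 r)) (Gm g q.2)‖ ≤ √(c : ℝ) / H}

theorem measurable_A2 {c D : ℕ} (g : Fin c → E D) (H R : ℝ) : MeasurableSet (A2 g H R) := by
  have h := (continuous_Gm g).norm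
  exact (isClosed_le h continuous_const).measurableSet.union
    ((isClosed_le continuous_const h).measurableSet.union
      (isClosed_le continuous_const continuous_norm).measurableSet)

theorem measurable_C2 {c D : ℕ} (J : ℕ) (g : Fin c → E D) (H : ℝ) :
    MeasurableSet (C2 J g H) := by
  have h := (continuous_Gm g).measurable
  rw [C2, ofPred_exists]
  refine MeasurableSet.iUnion fun n => (MeasurableSet.const _).inter (measurableSet_le
    (measurable_pr (Finset.measurable_sum _ fun r _ => ?_) (h.comp measurable_snd)).norm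
    measurable_const)
  have h1 : Measurable fun q : (Fin J → E D) × E D => Gm g (q.1 r) :=
    h.comp ((measurable_pi_apply r).comp measurable_fst)
  exact (h1.norm.inv.smul h1).const_smul (n r : ℝ)

theorem KUProb_pow {c : ℕ} {H : ℝ} (hH : 12 ≤ H) : (3 / H) ^ c ≤ (3 / H) ^ (c - 1) :=
  pow_le_pow_of_le_one (by positivity) ((div_le_one (by linarith)).2 (by linarith))
    (Nat.sub_le c 1)

theorem KUProb_exp {c : ℕ} {H s : ℝ} (hH : 12 ≤ H) (h : c * H ≤ s ^ 2 / 4) :
    Real.exp (-s ^ 2 / 4) ≤ (3 / H) ^ (c - 1) := by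
  have h0 : 0 < H := by linarith
  have h1 : Real.exp (-H) ≤ 3 / H := by
    rw [Real.exp_neg, inv_eq_one_div, div_le_div_iff₀ (Real.exp_pos _) h0]
    linarith [Real.add_one_le_exp H]
  refine le_trans ?_ ((pow_le_pow_left₀ (Real.exp_pos _).le h1 c).trans (KUProb_pow hH))
  rw [← Real.exp_nat_mul]
  exact Real.exp_le_exp.2 (by linarith)

theorem KUProb_pr {c : ℕ} (hc : 2 ≤ c) {H : ℝ} (hH : 12 ≤ H) (a : E c) :
    stdGaussian (E c) {w | ‖pr a w‖ ≤ √(c : ℝ) / H} ≤ ENNReal.ofReal ((3 / H) ^ (c - 1)) := by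
  have h0 : 0 < H := by linarith
  have hc' : (2 : ℝ) ≤ c := by exact_mod_cast hc
  have e0 : √(c : ℝ) / H = 1 / H * √(c : ℝ) := by ring
  have e1 : 3 / H = 3 * (1 / H) := by ring
  by_cases ha : a = 0
  · have h1 := ball_le2 (V := E c) (1 / H) c (by positivity) (by positivity) (by
      rw [finrank_euclideanSpace_fin]
      linarith)
    rw [finrank_euclideanSpace_fin, ← e0, ← e1] at h1
    simp only [ha, pr_zero_left]
    exact h1.trans (ENNReal.ofReal_le_ofReal (KUProb_pow hH))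
  · have e2 : {w : E c | ‖pr a w‖ ≤ √(c : ℝ) / H} = prS a ⁻¹' {z | ‖z‖ ≤ √(c : ℝ) / H} := rfl
    have h2 := finrank_orth ha
    rw [finrank_euclideanSpace_fin] at h2
    have h3 : ((finrank ℝ (ℝ ∙ a)ᗮ : ℕ) : ℝ) + 1 = c := by exact_mod_cast h2
    rw [e2, (mp_prS a).measure_preimage
      (isClosed_le continuous_norm continuous_const).measurableSet.nullMeasurableSet,
      show c - 1 = finrank ℝ (ℝ ∙ a)ᗮ by omega, e0, e1]
    exact ball_le2 (1 / H) c (by positivity) (by positivity) (by linarith)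

theorem A2_le {c D n : ℕ} {g : Fin c → E D} (hg : Orthonormal ℝ g) (hc : 2 ≤ c) (hcD : c ≤ D)
    (hD : D ≤ n) {H : ℝ} (hH : 12 ≤ H) (hHN : H ≤ 100 * (n : ℝ)) :
    stdGaussian (E D) (A2 g H (200 * (n : ℝ))) ≤ ENNReal.ofReal (3 * (3 / H) ^ (c - 1)) := by
  have h0 : 0 < H := by linarith
  have hc' : (2 : ℝ) ≤ c := by exact_mod_cast hc
  have hcn : (c : ℝ) ≤ n := by exact_mod_cast hcD.trans hD
  have hDn : (D : ℝ) ≤ n := by exact_mod_cast hD
  have e : A2 g H (200 * (n : ℝ)) ⊆ Gm g ⁻¹' {w | ‖pr 0 w‖ ≤ √(c : ℝ) / H} ∪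
      (Gm g ⁻¹' {w | √(c : ℝ) + (H - 1) * √(c : ℝ) ≤ ‖w‖} ∪
        {u | √(D : ℝ) + 100 * (n : ℝ) ≤ ‖u‖}) := by
    rintro u (h | h | h)
    · exact Or.inl (by simpa using h)
    · exact Or.inr (Or.inl (le_trans (le_of_eq (by ring)) h))
    · have h1 : √(D : ℝ) ≤ 100 * (n : ℝ) := Real.sqrt_le_iff.2 ⟨by positivity, by nlinarith⟩
      exact Or.inr (Or.inr (le_trans (by linarith) h))
  have a1 := KUProb_pr hc hH 0
  have a2 := norm_tail c ((H - 1) * √(c : ℝ)) (mul_nonneg (by linarith) (Real.sqrt_nonneg _))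
  have a3 := norm_tail D (100 * (n : ℝ)) (by positivity)
  rw [← (mp_Gm hg).measure_preimage (measurableSet_le
    (measurable_pr measurable_const measurable_id').norm measurable_const).nullMeasurableSet] at a1
  rw [← (mp_Gm hg).measure_preimage
    (isClosed_le continuous_const continuous_norm).measurableSet.nullMeasurableSet] at a2
  have b2 := KUProb_exp (c := c) (s := (H - 1) * √(c : ℝ)) hH (by
    rw [mul_pow, Real.sq_sqrt (by positivity)]
    have h1 : H ≤ (H - 1) ^ 2 / 4 := by nlinarith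
    nlinarith)
  have b3 := KUProb_exp (c := c) (s := 100 * (n : ℝ)) hH (by
    have h1 := mul_le_mul hcn hHN h0.le (by positivity)
    nlinarith)
  have hp : (0 : ℝ) ≤ (3 / H) ^ (c - 1) := by positivity
  refine (measure_mono e).trans ((measure_union_le _ _).trans ?_)
  refine (add_le_add a1 ((measure_union_le _ _).trans
    (add_le_add (a2.trans (ENNReal.ofReal_le_ofReal b2))
      (a3.trans (ENNReal.ofReal_le_ofReal b3))))).trans (le_of_eq ?_)
  rw [← ENNReal.ofReal_add hp hp, ← ENNReal.ofReal_add hp (add_nonneg hp hp)]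
  exact congrArg _ (by ring)

theorem C2_le {c D : ℕ} (J : ℕ) {g : Fin c → E D} (hg : Orthonormal ℝ g) (hc : 2 ≤ c) {H : ℝ}
    (hH : 12 ≤ H) (x : Fin J → E D) :
    stdGaussian (E D) {u | (x, u) ∈ C2 J g H} ≤
      ENNReal.ofReal ((2 * (J : ℝ) + 1) ^ J * (3 / H) ^ (c - 1)) := by
  have e : {u | (x, u) ∈ C2 J g H} ⊆
      ⋃ n ∈ Fintype.piFinset fun _ : Fin J => Finset.Icc (-(J : ℤ)) J, Gm g ⁻¹'
        {w | ‖pr (∑ r, (n r : ℝ) • ‖Gm g (x r)‖⁻¹ • Gm g (x r)) w‖ ≤ √(c : ℝ) / H} := by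
    rintro u ⟨n, h1, h2⟩
    exact mem_biUnion (Finset.mem_coe.2 (Fintype.mem_piFinset.2 fun r =>
      Finset.mem_Icc.2 (abs_le.1 (h1 r)))) h2
  refine (measure_mono e).trans ((measure_biUnion_finset_le _ _).trans ?_)
  refine (Finset.sum_le_card_nsmul _ _ (ENNReal.ofReal ((3 / H) ^ (c - 1))) fun n _ => ?_).trans
    (le_of_eq ?_)
  · rw [(mp_Gm hg).measure_preimage (measurableSet_le
      (measurable_pr measurable_const measurable_id').norm measurable_const).nullMeasurableSet]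
    exact KUProb_pr hc hH _
  · have h1 : ((J : ℤ) + 1 - -(J : ℤ)).toNat = 2 * J + 1 := by omega
    rw [Fintype.card_piFinset, Finset.prod_const, Int.card_Icc, h1, Finset.card_univ,
      Fintype.card_fin, nsmul_eq_mul, ENNReal.ofReal_mul (by positivity),
      ← ENNReal.ofReal_natCast]
    push_cast
    rfl

end Pool.Agent.P.MP_83f3dc_co.KT
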