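import Pool.Agent.P.MP_83f3dc_co.KUF0

set_option autoImplicit false
set_option linter.unusedSectionVars false
set_option linter.unusedVariables false

open MeasureTheory ProbabilityTheory Module Set Filter Topology
open scoped RealInnerProductSpace ENNReal

noncomputable section

namespace Pool.Agent.P.MP_83f3dc_co.KT

/-- Taylor estimate for a family of successive derivatives -/
theorem KUTay_gen (J : ℕ) : ∀ (g : ℕ → ℝ → ℝ) (B : ℝ), 0 ≤ B →
    (∀ k x, HasDerivAt (g k) (g (k + 1) x) x) → (∀ x, |g J x| ≤ B) →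
    ∀ x v, |g 0 (x + v) - ∑ k ∈ Finset.range J, g k x / (k.factorial : ℝ) * v ^ k| ≤ B * |v| ^ J := by
  induction J with
  | zero =>
    intro g B hB hg hb x v
    simpa using hb (x + v)
  | succ J ih =>
    intro g B hB hg hb x v
    have ih' := ih (fun k => g (k + 1)) B hB (fun k x => hg (k + 1) x) hb x
    set F : ℝ → ℝ := fun w => g 0 (x + w) -
      ∑ k ∈ Finset.range (J + 1), g k x / (k.factorial : ℝ) * w ^ k with hF
    have hd : ∀ w, HasDerivAt F (g 1 (x + w) -
        ∑ k ∈ Finset.range J, g (k + 1) x / (k.factorial : ℝ) * w ^ k) w := by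
      intro w
      have h1 : HasDerivAt (fun w => g 0 (x + w)) (g 1 (x + w)) w := by
        have := (hg 0 (x + w)).comp w ((hasDerivAt_id w).const_add x)
        simpa [Function.comp_def] using this
      have h2 : HasDerivAt (fun w : ℝ => ∑ k ∈ Finset.range (J + 1),
          g k x / (k.factorial : ℝ) * w ^ k)
          (∑ k ∈ Finset.range (J + 1), g k x / (k.factorial : ℝ) * ((k : ℝ) * w ^ (k - 1))) w := by
        have := HasDerivAt.fun_sum (u := Finset.range (J + 1))
          (A := fun k (w : ℝ) => g k x / (k.factorial : ℝ) * w ^ k)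
          (A' := fun k => g k x / (k.factorial : ℝ) * ((k : ℝ) * w ^ (k - 1))) (x := w)
          (fun k _ => (hasDerivAt_pow k w).const_mul _)
        exact this
      have h3 : ∑ k ∈ Finset.range (J + 1), g k x / (k.factorial : ℝ) * ((k : ℝ) * w ^ (k - 1)) =
          ∑ k ∈ Finset.range J, g (k + 1) x / (k.factorial : ℝ) * w ^ k := by
        rw [Finset.sum_range_succ']
        simp only [Nat.cast_zero, zero_mul, mul_zero, add_zero, Nat.add_sub_cancel]
        refine Finset.sum_congr rfl fun k _ => ?_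
        have hk : (k.factorial : ℝ) ≠ 0 := by positivity
        have hk1 : ((k + 1 : ℕ) : ℝ) ≠ 0 := by positivity
        rw [Nat.factorial_succ]
        push_cast
        field_simp
      rw [h3] at h2
      exact h1.sub h2
    have hF0 : F 0 = 0 := by
      simp [hF, Finset.sum_range_succ']
    have hbd : ∀ w ∈ uIcc (0 : ℝ) v, ‖g 1 (x + w) -
        ∑ k ∈ Finset.range J, g (k + 1) x / (k.factorial : ℝ) * w ^ k‖ ≤ B * |v| ^ J := by
      intro w hw
      have h1 := ih' w
      have h2 : |w| ≤ |v| := by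
        have := abs_sub_left_of_mem_uIcc hw
        simpa using this
      rw [Real.norm_eq_abs]
      exact h1.trans (mul_le_mul_of_nonneg_left (pow_le_pow_left₀ (abs_nonneg _) h2 _) hB)
    have hm := (convex_uIcc (0 : ℝ) v).norm_image_sub_le_of_norm_hasDerivWithin_le
      (f := F) (fun w _ => (hd w).hasDerivWithinAt) hbd left_mem_uIcc right_mem_uIcc
    rw [hF0, sub_zero, sub_zero, Real.norm_eq_abs, Real.norm_eq_abs] at hm
    calc |F v| ≤ B * |v| ^ J * |v| := hm
      _ = B * |v| ^ (J + 1) := by ring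

/-- the polynomials of the derivatives of the Gaussian -/
def KUTay_P : ℕ → Polynomial ℝ
  | 0 => 1
  | k + 1 => Polynomial.derivative (KUTay_P k) - Polynomial.X * KUTay_P k

theorem KUTay_mon (m : ℕ) (x : ℝ) :
    |x| ^ m * Real.exp (-x ^ 2 / 2) ≤ (m.factorial : ℝ) * Real.exp (1 / 2) := by
  have h1 : |x| ^ m / (m.factorial : ℝ) ≤ Real.exp |x| :=
    Real.pow_div_factorial_le_exp _ (abs_nonneg x) m
  have hm : (0 : ℝ) < m.factorial := by positivity
  rw [div_le_iff₀ hm] at h1
  have h2 : Real.exp |x| * Real.exp (-x ^ 2 / 2) ≤ Real.exp (1 / 2) := by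
    rw [← Real.exp_add]
    apply Real.exp_le_exp.2
    have : x ^ 2 = |x| ^ 2 := (sq_abs x).symm
    rw [this]
    nlinarith [sq_nonneg (|x| - 1)]
  calc |x| ^ m * Real.exp (-x ^ 2 / 2)
      ≤ (Real.exp |x| * m.factorial) * Real.exp (-x ^ 2 / 2) :=
        mul_le_mul_of_nonneg_right h1 (Real.exp_pos _).le
    _ = (m.factorial : ℝ) * (Real.exp |x| * Real.exp (-x ^ 2 / 2)) := by ring
    _ ≤ _ := mul_le_mul_of_nonneg_left h2 hm.le

theorem KUTay_poly (p : Polynomial ℝ) :
    ∃ B : ℝ, ∀ x : ℝ, |p.eval x * Real.exp (-x ^ 2 / 2)| ≤ B := by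
  induction p using Polynomial.induction_on' with
  | add p q hp hq =>
    obtain ⟨B, hB⟩ := hp
    obtain ⟨C, hC⟩ := hq
    refine ⟨B + C, fun x => ?_⟩
    rw [Polynomial.eval_add, add_mul]
    exact (abs_add_le _ _).trans (add_le_add (hB x) (hC x))
  | monomial m a =>
    refine ⟨|a| * ((m.factorial : ℝ) * Real.exp (1 / 2)), fun x => ?_⟩
    rw [Polynomial.eval_monomial, abs_mul, abs_mul, abs_pow, abs_of_pos (Real.exp_pos _), mul_assoc]
    exact mul_le_mul_of_nonneg_left (KUTay_mon m x) (abs_nonneg a)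

/-- the successive derivatives -/
def KUTay_g : ℕ → ℝ → ℝ
  | 0 => f0
  | k + 1 => fun x => √(2 / Real.pi) * ((KUTay_P k).eval x * Real.exp (-x ^ 2 / 2))

theorem KUTay_deriv (k : ℕ) (x : ℝ) : HasDerivAt (KUTay_g k) (KUTay_g (k + 1) x) x := by
  cases k with
  | zero =>
    have := f0_hasDeriv x
    simpa [KUTay_g, KUTay_P] using this
  | succ k =>
    have h1 : HasDerivAt (fun x : ℝ => -x ^ 2 / 2) (-x) x := by
      have := ((hasDerivAt_pow 2 x).neg).div_const 2
      refine this.congr_deriv ?_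
      simp
      ring
    have h2 := h1.exp
    have h3 := (((KUTay_P k).hasDerivAt x).mul h2).const_mul (√(2 / Real.pi))
    refine h3.congr_deriv ?_
    simp only [KUTay_g, KUTay_P, Polynomial.eval_sub, Polynomial.eval_mul, Polynomial.eval_X]
    ring

theorem KUTay_bdd (k : ℕ) : ∃ B : ℝ, ∀ x, |KUTay_g k x| ≤ B := by
  cases k with
  | zero => exact ⟨1, fun x => f0_abs_le x⟩
  | succ k =>
    obtain ⟨B, hB⟩ := KUTay_poly (KUTay_P k)
    refine ⟨√(2 / Real.pi) * B, fun x => ?_⟩
    simp only [KUTay_g]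
    rw [abs_mul, abs_of_nonneg (Real.sqrt_nonneg _)]
    exact mul_le_mul_of_nonneg_left (hB x) (Real.sqrt_nonneg _)

theorem exists_taylor (J : ℕ) (hJ : 2 ≤ J) :
    ∃ (f : ℕ → ℝ → ℝ) (B : ℝ), 0 ≤ B ∧ (∀ k, Continuous (f k)) ∧ (∀ k x, k ≤ J → |f k x| ≤ B) ∧
      (∀ x, f 1 x = √(2 / Real.pi) * Real.exp (-x ^ 2 / 2)) ∧
      ∀ x v, |f0 (x + v) - ∑ k ∈ Finset.range J, f k x * v ^ k| ≤ B * |v| ^ J := by
  choose b hb using KUTay_bdd
  have hb0 : ∀ k, 0 ≤ b k := fun k => (abs_nonneg _).trans (hb k 0)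
  have hle : ∀ k, k ≤ J → b k ≤ ∑ i ∈ Finset.range (J + 1), b i := fun k hk =>
    Finset.single_le_sum (f := b) (fun i _ => hb0 i) (Finset.mem_range.2 (by omega))
  refine ⟨fun k x => KUTay_g k x / (k.factorial : ℝ), ∑ i ∈ Finset.range (J + 1), b i,
    Finset.sum_nonneg fun i _ => hb0 i, fun k => ?_, fun k x hk => ?_, fun x => ?_, fun x v => ?_⟩
  · have : Continuous (KUTay_g k) :=
      continuous_iff_continuousAt.2 fun x => (KUTay_deriv k x).continuousAt
    exact this.div_const _
  · have h1 : (1 : ℝ) ≤ k.factorial := by exact_mod_cast Nat.factorial_pos k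
    rw [abs_div, abs_of_pos (by linarith : (0 : ℝ) < k.factorial)]
    exact (div_le_self (abs_nonneg _) h1).trans ((hb k x).trans (hle k hk))
  · simp [KUTay_g, KUTay_P]
  · exact KUTay_gen J KUTay_g _ (Finset.sum_nonneg fun i _ => hb0 i) KUTay_deriv
      (fun x => (hb J x).trans (hle J le_rfl)) x v

end Pool.Agent.P.MP_83f3dc_co.KT
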