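import Pool.Agent.P.MP_83f3dc_co.KUGeo
import Pool.Agent.P.MP_83f3dc_co.KTBasic

set_option autoImplicit false
set_option linter.unusedSectionVars false
set_option linter.unusedVariables false

open MeasureTheory ProbabilityTheory Module Set Filter Topology
open scoped RealInnerProductSpace ENNReal

noncomputable section

namespace Pool.Agent.P.MP_83f3dc_co.KT

theorem exists_tn (n₀ d k : ℕ) (g : ℝ) (hn : 1 ≤ n₀) (hg : 0 < g) (hg4 : 4 * g ≤ 1)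
    (hng : 1 ≤ n₀ * g) (hdk : d ≤ k) (hk : 100 * n₀ ≤ k) :
    ∃ t n : ℕ, 1 ≤ t ∧ n₀ ≤ n ∧ n ≤ 3 * n₀ ∧
      2 * (k : ℝ) + d ≤ t * (((100 * n : ℕ) : ℝ) + 4 * g * (100 * (n : ℝ))) ∧
      ((100 * n * t : ℕ) : ℝ) ≤ d + (2 - g) * k := by
  have hn0 : (1 : ℝ) ≤ n₀ := by exact_mod_cast hn
  have hkR : 100 * (n₀ : ℝ) ≤ k := by exact_mod_cast hk
  have hdR : (d : ℝ) ≤ k := by exact_mod_cast hdk
  have hd0 : (0 : ℝ) ≤ d := Nat.cast_nonneg _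
  have hk0 : (0 : ℝ) ≤ k := Nat.cast_nonneg _
  have h14 : 0 < 1 + 4 * g := by linarith
  obtain ⟨X, hX⟩ : ∃ X : ℝ, X * (1 + 4 * g) = 2 * (k : ℝ) + d :=
    ⟨(2 * (k : ℝ) + d) / (1 + 4 * g), div_mul_cancel₀ _ h14.ne'⟩
  have hX0 : 0 ≤ X := by
    by_contra hneg
    have : X * (1 + 4 * g) < 0 := mul_neg_of_neg_of_pos (not_le.1 hneg) h14
    linarith
  have hXk : (k : ℝ) ≤ X := by nlinarith
  have hX3 : X ≤ 3 * k := by nlinarith
  have hX2 : X ≤ (2 * (k : ℝ) + d) * (1 - 2 * g) := by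
    have h1 : 0 ≤ X * (g * (1 - 4 * g)) := mul_nonneg hX0 (mul_nonneg hg.le (by linarith))
    rw [← hX]
    nlinarith
  have hN : (0 : ℝ) < 100 * (n₀ : ℝ) := by linarith
  have hq1 : 1 ≤ X / (100 * (n₀ : ℝ)) := by
    rw [le_div_iff₀ hN]
    linarith
  obtain ⟨t, ht1, htl, htu⟩ : ∃ t : ℕ, 1 ≤ t ∧ (t : ℝ) * (100 * (n₀ : ℝ)) ≤ X ∧
      X < ((t : ℝ) + 1) * (100 * (n₀ : ℝ)) := by
    refine ⟨⌊X / (100 * (n₀ : ℝ))⌋₊, Nat.le_floor (by exact_mod_cast hq1), ?_, ?_⟩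
    · exact (le_div_iff₀ hN).1 (Nat.floor_le (by linarith))
    · exact (div_lt_iff₀ hN).1 (Nat.lt_floor_add_one _)
  have htR : (1 : ℝ) ≤ t := by exact_mod_cast ht1
  have hT : (0 : ℝ) < 100 * (t : ℝ) := by linarith
  obtain ⟨n, hnl, hnu⟩ : ∃ n : ℕ, X ≤ (n : ℝ) * (100 * (t : ℝ)) ∧
      (n : ℝ) * (100 * (t : ℝ)) < X + 100 * t := by
    refine ⟨⌈X / (100 * (t : ℝ))⌉₊, (div_le_iff₀ hT).1 (Nat.le_ceil _), ?_⟩
    have h1 := Nat.ceil_lt_add_one (div_nonneg hX0 hT.le)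
    have h2 := mul_lt_mul_of_pos_right h1 hT
    rw [add_mul, div_mul_cancel₀ _ hT.ne', one_mul] at h2
    exact h2
  refine ⟨t, n, ht1, ?_, ?_, ?_, ?_⟩
  · have h1 : (n₀ : ℝ) * (100 * (t : ℝ)) ≤ (n : ℝ) * (100 * (t : ℝ)) := by nlinarith
    exact_mod_cast le_of_mul_le_mul_right h1 hT
  · have h1 : (n : ℝ) * (100 * (t : ℝ)) ≤ (3 * (n₀ : ℝ)) * (100 * (t : ℝ)) := by
      have h2 : 0 ≤ ((t : ℝ) - 1) * n₀ := mul_nonneg (by linarith) (by linarith)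
      have h3 : 0 ≤ (t : ℝ) * ((n₀ : ℝ) - 1) := mul_nonneg (by linarith) (by linarith)
      nlinarith
    exact_mod_cast le_of_mul_le_mul_right h1 hT
  · have h1 := mul_le_mul_of_nonneg_right hnl h14.le
    rw [hX] at h1
    refine h1.trans (le_of_eq ?_)
    push_cast
    ring
  · have h1 : 100 * (t : ℝ) ≤ 3 * g * k := by
      have h2 : 100 * (t : ℝ) * 1 ≤ 100 * (t : ℝ) * (n₀ * g) :=
        mul_le_mul_of_nonneg_left hng hT.le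
      have h3 : (t : ℝ) * (100 * (n₀ : ℝ)) * g ≤ 3 * k * g :=
        mul_le_mul_of_nonneg_right (htl.trans hX3) hg.le
      nlinarith
    have h4 : 0 ≤ g * d := mul_nonneg hg.le hd0
    push_cast
    nlinarith

theorem upper_of_conf {d c c' k m n₀ : ℕ} (g : ℝ) (hd : 0 < d) (hc : c' ≤ c) (hcd : c ≤ d)
    (hn : 1 ≤ n₀) (hg : 0 < g) (hg4 : 4 * g ≤ 1) (hng : 1 ≤ n₀ * g) (hdk : d ≤ k)
    (hk : 100 * n₀ ≤ k)
    (h : ∀ n : ℕ, n₀ ≤ n → n ≤ 3 * n₀ → ConfP c' (d + 1) (100 * n) (4 * g * (100 * (n : ℝ))))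
    (hm : IsGreatest {n : ℕ | 0 < n ∧ HasTransversal d (d - c) k n} m) :
    (m : ℝ) ≤ d + (2 - g) * k := by
  obtain ⟨t, n, ht1, hn1, hn3, h1, h2⟩ := exists_tn n₀ d k g hn hg hg4 hng hdk hk
  have hnpos : (0 : ℝ) < n := by
    have : 0 < n := by omega
    exact_mod_cast this
  have hno : ¬ HasTransversal d (d - c) k (100 * n * t) :=
    not_has2 (c := c') hd (by omega) ht1 _ (by positivity) (h n hn1 hn3) h1
  have hlt : m < 100 * n * t := by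
    by_contra hge
    exact hno (has_mono_n hd (not_lt.1 hge) hm.1.2)
  have hlt' : (m : ℝ) ≤ ((100 * n * t : ℕ) : ℝ) := by exact_mod_cast hlt.le
  exact hlt'.trans h2

end Pool.Agent.P.MP_83f3dc_co.KT
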