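import Pool.Agent.P.MP_83f3dc_co.KVFin1

set_option autoImplicit false
set_option linter.unusedSectionVars false
set_option linter.unusedVariables false

open MeasureTheory ProbabilityTheory Module Set Filter Topology
open scoped RealInnerProductSpace ENNReal

noncomputable section

namespace Pool.Agent.P.MP_83f3dc_co.KT

theorem stage2 {c D : ℕ} (hD : 0 < D) {ι : Type} [Fintype ι] (hn : 0 < Fintype.card ι)
    {e : ι → E D} (he : Fors e) (x : VV c D) {θ ϑ τ β W η₀ η₁ H σ : ℝ} (L : ℕ) (hτ : 0 < τ)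
    (hθ : τ * √2 ^ L = θ) (hθ1 : θ ≤ 1) (hϑ : τ ≤ ϑ) (hβ : 0 < β) (hW : 0 ≤ W) (hη : 0 < η₁)
    (hH : 0 < H) (hσ : 0 ≤ σ) (hx : ‖x‖ ≤ H) (U : Finset (E c)) (hU1 : ∀ u ∈ U, ‖u‖ = 1)
    (hU : ∀ u : E c, ‖u‖ = 1 → ∃ w ∈ U, ‖u - w‖ ≤ σ)
    (hs : ∀ u ∈ U, slabN e ϑ (Lu u x) ≤ (Fintype.card ι : ℝ) * β)
    (hm : ∀ u ∈ U, ∑ p, f0 (⟪Lu u x, e p⟫ / θ) ≤ (Fintype.card ι : ℝ) * η₀)
    (h : (U.card : ℝ) * (Real.exp (-W) + Real.exp (-((ϑ - τ) / θ) ^ 2 / 2) / η₁) +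
      c * D / H ^ 2 < 1) :
    ∃ G : VV c D, ∀ u : E c, ‖u‖ = 1 → ∑ p, ramp τ ⟪Lu u G, e p⟫ ≤
      (Fintype.card ι : ℝ) * (1 / 2 + (η₀ / 2 + τ / θ + Real.exp (-((ϑ - τ) / θ) ^ 2 / 2) +
        √(12 * ((L : ℝ) + 1) * W * β / D) + η₁ + 4 * H * σ / τ)) := by
  have hD' : (1 : ℝ) ≤ D := by exact_mod_cast hD
  have hn' : (0 : ℝ) < Fintype.card ι := by exact_mod_cast hn
  have hθ0 : 0 < θ := by
    rw [← hθ]
    positivity
  set q : ℝ := Real.exp (-W) + Real.exp (-((ϑ - τ) / θ) ^ 2 / 2) / η₁ with hq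
  have hq0 : 0 ≤ q := by positivity
  let A : E c → Set (E D) := fun u => {ξ | (Fintype.card ι : ℝ) * (1 / 2 + (η₀ / 2 + τ / θ +
    Real.exp (-((ϑ - τ) / θ) ^ 2 / 2) + √(12 * ((L : ℝ) + 1) * W * β / D) + η₁)) ≤
    ∑ p, ramp τ ⟪Lu u x + θ • ξ, e p⟫}
  have mA : ∀ u, MeasurableSet (A u) := fun u => measurableSet_le measurable_const
    ((coreP_cont e τ).comp (continuous_const.add (continuous_id.const_smul θ))).measurable
  let B0 : Set (VV c D) := {Z | H ^ 2 ≤ ‖Z‖ ^ 2}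
  have b0 : stdGaussian (VV c D) B0 ≤ ENNReal.ofReal (c * D / H ^ 2) := by
    have h1 := mul_meas_ge_le_integral_of_nonneg (μ := stdGaussian (VV c D))
      (f := fun Z => ‖Z‖ ^ 2) (Eventually.of_forall fun Z => sq_nonneg _) (integrable_norm_pow 2)
      (H ^ 2)
    rw [integral_norm_sq, finrank_VV] at h1
    rw [← ofReal_measureReal (measure_ne_top _ _)]
    refine ENNReal.ofReal_le_ofReal ?_
    rw [le_div_iff₀ (by positivity), mul_comm]
    exact_mod_cast h1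
  let B1 : Set (VV c D) := ⋃ u ∈ U, Lu u ⁻¹' A u
  have b1 : stdGaussian (VV c D) B1 ≤ ENNReal.ofReal (U.card * q) := by
    refine (measure_biUnion_finset_le _ _).trans ?_
    refine (Finset.sum_le_card_nsmul U _ (ENNReal.ofReal q) fun u hu => ?_).trans ?_
    · rw [(mp_Lu u (hU1 u hu)).measure_preimage (mA u).nullMeasurableSet]
      exact fin_one hD hn he (Lu u x) L hτ hθ hϑ hβ hW hη (hs u hu) (hm u hu)
    · rw [nsmul_eq_mul, ← ENNReal.ofReal_natCast, ← ENNReal.ofReal_mul (Nat.cast_nonneg _)]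
  have hB : stdGaussian (VV c D) (B1 ∪ B0) < 1 := by
    refine ((measure_union_le _ _).trans (add_le_add b1 b0)).trans_lt ?_
    rw [← ENNReal.ofReal_add (by positivity) (by positivity), ENNReal.ofReal_lt_one]
    exact h
  obtain ⟨Z, hZ⟩ : ∃ Z, Z ∉ B1 ∪ B0 := by
    by_contra hc
    have : B1 ∪ B0 = univ := eq_univ_of_forall fun G => by_contra fun h => hc ⟨G, h⟩
    rw [this, measure_univ] at hB
    exact lt_irrefl _ hB
  have z0 : ‖Z‖ ≤ H := by
    have h1 : ‖Z‖ ^ 2 < H ^ 2 := not_le.1 fun h => hZ (Or.inr h)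
    exact (abs_le_of_sq_le_sq' h1.le hH.le).2
  have g0 : ‖x + θ • Z‖ ≤ 2 * H := by
    have h1 := norm_add_le x (θ • Z)
    rw [norm_smul, Real.norm_of_nonneg hθ0.le] at h1
    have h2 := mul_le_mul hθ1 z0 (norm_nonneg _) zero_le_one
    linarith
  refine ⟨x + θ • Z, fun u hu => ?_⟩
  obtain ⟨w, h1, h2⟩ := hU u hu
  have c1 : ∑ p, ramp τ ⟪Lu w x + θ • Lu w Z, e p⟫ ≤ _ :=
    (not_le.1 fun h => hZ (Or.inl (mem_iUnion₂.2 ⟨w, h1, h⟩))).le
  rw [← Lu_smul, ← Lu_add] at c1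
  have c2 := sum_lip e _ (by positivity) (coreP_lam hD e he.2) (ramp τ) τ⁻¹ (by positivity)
    (ramp_lip hτ) (Lu u (x + θ • Z)) (Lu w (x + θ • Z))
  have c4 : ‖Lu u (x + θ • Z) - Lu w (x + θ • Z)‖ ≤ σ * (2 * H) := by
    rw [← Lu_sub_left]
    exact (norm_Lu_le _ _).trans (mul_le_mul h2 g0 (norm_nonneg _) hσ)
  have c3 : √(3 / (D : ℝ)) ≤ 2 := by
    rw [Real.sqrt_le_left (by norm_num), div_le_iff₀ (by linarith)]
    linarith
  have c5 : τ⁻¹ * ((Fintype.card ι : ℝ) * √(3 / D)) * (σ * (2 * H)) ≤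
      (Fintype.card ι : ℝ) * (4 * H * σ / τ) := by
    calc τ⁻¹ * ((Fintype.card ι : ℝ) * √(3 / D)) * (σ * (2 * H))
        ≤ τ⁻¹ * ((Fintype.card ι : ℝ) * 2) * (σ * (2 * H)) := by gcongr
      _ = (Fintype.card ι : ℝ) * (4 * H * σ / τ) := by ring
  have c6 := (le_abs_self _).trans (c2.trans
    ((mul_le_mul_of_nonneg_left c4 (by positivity)).trans c5))
  linarith

theorem core_of_ramp {c D : ℕ} {ι : Type} [Fintype ι] (hn : 0 < Fintype.card ι) (e : ι → E D)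
    {τ η : ℝ} (hτ : 0 < τ) (hη0 : 0 ≤ η) (hη : η < 1 / 2) (G : VV c D)
    (hG : ∀ u : E c, ‖u‖ = 1 → ∑ p, ramp τ ⟪Lu u G, e p⟫ ≤ (Fintype.card ι : ℝ) * (1 / 2 + η)) :
    ∃ G : Fin c → E D, LinearIndependent ℝ G ∧ ∀ y : Fin c → ℝ,
      ((Finset.univ.filter fun p => 0 < ⟪∑ a, y a • G a, e p⟫).card : ℝ) ≤
        (Fintype.card ι : ℝ) * (1 / 2 + η) := by
  classical
  have hnr : (0 : ℝ) < Fintype.card ι := by exact_mod_cast hn
  have key : ∀ y : Fin c → ℝ, y ≠ 0 →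
      ((Finset.univ.filter fun p => 0 ≤ ⟪∑ a, y a • G a, e p⟫).card : ℝ) ≤
        (Fintype.card ι : ℝ) * (1 / 2 + η) := by
    intro y hy
    have hy' : (WithLp.toLp 2 y : E c) ≠ 0 := by simpa using hy
    have hpos : 0 < ‖(WithLp.toLp 2 y : E c)‖ := norm_pos_iff.2 hy'
    have h1 := hG (‖(WithLp.toLp 2 y : E c)‖⁻¹ • WithLp.toLp 2 y) (by
      rw [norm_smul, norm_inv, norm_norm, inv_mul_cancel₀ hpos.ne'])
    have h2 : Lu (‖(WithLp.toLp 2 y : E c)‖⁻¹ • (WithLp.toLp 2 y : E c)) G =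
        ‖(WithLp.toLp 2 y : E c)‖⁻¹ • ∑ a, y a • G a := by
      rw [Lu, Finset.smul_sum]
      refine Finset.sum_congr rfl fun a _ => ?_
      simp [smul_smul]
    rw [h2] at h1
    refine le_trans ?_ h1
    rw [Finset.card_filter, Nat.cast_sum]
    refine Finset.sum_le_sum fun p _ => ?_
    split_ifs with hp
    · rw [ramp_of_nonneg hτ]
      · simp
      · rw [real_inner_smul_left]
        exact mul_nonneg (inv_nonneg.2 hpos.le) hp
    · simpa using ramp_nonneg _ _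
  refine ⟨fun a => G a, Fintype.linearIndependent_iff.2 fun y hy => ?_, fun y => ?_⟩
  · by_contra hne
    have hy0 : y ≠ 0 := fun h => hne fun i => by simp [h]
    have h1 := key y hy0
    rw [hy] at h1
    simp only [inner_zero_left, le_refl, Finset.filter_true, Finset.card_univ] at h1
    nlinarith
  · by_cases hy : y = 0
    · simp only [hy, Pi.zero_apply, zero_smul, Finset.sum_const_zero, inner_zero_left,
        lt_self_iff_false, Finset.filter_false, Finset.card_empty, Nat.cast_zero]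
      positivity
    · refine le_trans ?_ (key y hy)
      exact_mod_cast Finset.card_le_card fun p hp => by
        simp only [Finset.mem_filter, Finset.mem_univ, true_and] at hp ⊢
        exact hp.le

theorem core_triv {c D : ℕ} (hcD : c ≤ D) {ι : Type} [Fintype ι] (e : ι → E D) {η : ℝ}
    (h0 : 1 / 2 ≤ η ∨ Fintype.card ι = 0) :
    ∃ G : Fin c → E D, LinearIndependent ℝ G ∧ ∀ y : Fin c → ℝ,
      ((Finset.univ.filter fun p => 0 < ⟪∑ a, y a • G a, e p⟫).card : ℝ) ≤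
        (Fintype.card ι : ℝ) * (1 / 2 + η) := by
  classical
  refine ⟨fun a => EuclideanSpace.basisFun (Fin D) ℝ (Fin.castLE hcD a),
    (EuclideanSpace.basisFun (Fin D) ℝ).orthonormal.linearIndependent.comp _
      (Fin.castLE_injective hcD), fun y => ?_⟩
  have h1 : ((Finset.univ.filter fun p => 0 < ⟪∑ a, y a •
      EuclideanSpace.basisFun (Fin D) ℝ (Fin.castLE hcD a), e p⟫).card : ℝ) ≤
      Fintype.card ι := by
    exact_mod_cast Finset.card_le_univ _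
  refine h1.trans ?_
  rcases h0 with h0 | h0
  · have : (0 : ℝ) ≤ Fintype.card ι := Nat.cast_nonneg _
    nlinarith
  · simp [h0]

end Pool.Agent.P.MP_83f3dc_co.KT
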