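import Pool.Agent.P.MP_83f3dc_co.KVDefs

set_option autoImplicit false
set_option linter.unusedSectionVars false
set_option linter.unusedVariables false

open MeasureTheory ProbabilityTheory Module Set Filter Topology
open scoped RealInnerProductSpace ENNReal

noncomputable section

namespace Pool.Agent.P.MP_83f3dc_co.KT

theorem kvn_L {D : ℕ} (hl : 1 ≤ Real.log D) :
    ∃ L : ℕ, (D : ℝ) ≤ √2 ^ L ∧ √2 ^ L ≤ 2 * (D : ℝ) ∧ (L : ℝ) + 1 ≤ 7 * Real.log D := by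
  have hD : 1 < D := by
    by_contra h
    have : D = 0 ∨ D = 1 := by omega
    rcases this with rfl | rfl <;> norm_num at hl
  have e : √2 ^ (2 * Nat.clog 2 D) = (2 : ℝ) ^ Nat.clog 2 D := by
    rw [pow_mul, Real.sq_sqrt two_pos.le]
  have h1 : (2 : ℝ) ^ Nat.clog 2 D ≤ 2 * (D : ℝ) := by
    have a := Nat.pow_pred_clog_lt_self one_lt_two hD
    have b := Nat.clog_pos one_lt_two hD
    obtain ⟨k, hk⟩ : ∃ k, Nat.clog 2 D = k + 1 := ⟨_, (Nat.succ_pred_eq_of_pos b).symm⟩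
    rw [hk] at a ⊢
    have a' : (2 : ℝ) ^ k ≤ D := by exact_mod_cast a.le
    rw [pow_succ]
    linarith
  refine ⟨2 * Nat.clog 2 D, ?_, e ▸ h1, ?_⟩
  · rw [e]
    exact_mod_cast Nat.le_pow_clog one_lt_two D
  · have a := Real.log_le_log (by positivity) h1
    have hD0 : (D : ℝ) ≠ 0 := by positivity
    rw [Real.log_pow, Real.log_mul two_ne_zero hD0] at a
    have b := Real.log_two_gt_d9
    have d : (0 : ℝ) ≤ Nat.clog 2 D := Nat.cast_nonneg _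
    push_cast
    nlinarith

theorem kvn_b1 {D l u : ℝ} (hD : 3 ≤ D) (e : Real.exp l = D) (a : 1 / D ≤ u) :
    1 + 2 * D ^ 2 / u ^ 2 ≤ Real.exp (5 * l) := by
  have D0 : 0 < D := by linarith
  have b : 2 * D ^ 2 / u ^ 2 ≤ 2 * D ^ 2 / (1 / D) ^ 2 := by gcongr
  have d : 2 * D ^ 2 / (1 / D) ^ 2 = 2 * D ^ 4 := by field_simp
  have D4 : 1 ≤ D ^ 4 := one_le_pow₀ (by linarith)
  have f := mul_le_mul_of_nonneg_left hD (show 0 ≤ D ^ 4 by positivity)
  rw [show (5 : ℝ) = (5 : ℕ) by norm_num, Real.exp_nat_mul, e, pow_succ D 4]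
  linarith

theorem kvn_b2 (c : ℕ) {D l X P s : ℝ} (hD : 17 ≤ D) (e : Real.exp l = D) (X1 : 1 ≤ X)
    (P0 : 0 < P) (PD : P ≤ D) (s0 : 0 < s) (s2 : s ≤ 2 * D) :
    (1 + 2 / (X / P / s / (4 * D ^ 2 * D))) ^ c ≤ Real.exp (6 * c * l) := by
  have D0 : 0 < D := by linarith
  have X0 : 0 < X := by linarith
  have a : 2 / (X / P / s / (4 * D ^ 2 * D)) = 8 * D ^ 3 * (P * s) / X := by
    field_simp
    norm_num
  have b : 8 * D ^ 3 * (P * s) / X ≤ 8 * D ^ 3 * (D * (2 * D)) / 1 := by gcongr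
  have D5 : 1 ≤ D ^ 5 := one_le_pow₀ (by linarith)
  have f := mul_le_mul_of_nonneg_left hD (show 0 ≤ D ^ 5 by positivity)
  rw [show 6 * (c : ℝ) * l = c * ((6 : ℕ) * l) by push_cast; ring, Real.exp_nat_mul,
    Real.exp_nat_mul, e, a]
  refine pow_le_pow_left₀ (by positivity) ?_ c
  rw [pow_succ D 5]
  linarith

theorem kvn_b3 {c A l X P s : ℝ} (c1 : 1 ≤ c) (h1 : 40320 * c ≤ A) (hl : 1 ≤ l) (X2 : 2 ≤ X)
    (P0 : 0 < P) (s1 : 1 ≤ s) (XX : A * (A * l ^ 2) ≤ X ^ 2) :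
    Real.exp (-((X ^ 2 / P - X / P / s) / (X / P)) ^ 2 / 2) ≤ Real.exp (-((6 * c + 3) * l)) := by
  have X0 : 0 < X := by linarith
  have s0 : 0 < s := by linarith
  have A0 : 0 < A := by linarith
  have a : (X ^ 2 / P - X / P / s) / (X / P) = X - 1 / s := by field_simp
  have b : 1 / s ≤ 1 := (div_le_one s0).2 s1
  have d : (X / 2) ^ 2 ≤ (X - 1 / s) ^ 2 := pow_le_pow_left₀ (by positivity) (by linarith) 2
  have e : (6 * c + 3) * l ≤ A * l ^ 2 :=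
    mul_le_mul (by linarith) (le_self_pow₀ hl two_ne_zero) (by linarith) A0.le
  have f : 8 * (A * l ^ 2) ≤ A * (A * l ^ 2) :=
    mul_le_mul_of_nonneg_right (by linarith) (by positivity)
  rw [a, Real.exp_le_exp]
  linarith

theorem kvn_a2 {A l X P Y L : ℝ} (A0 : 21 ≤ A) (hl : 1 ≤ l) (P0 : 0 < P) (Y1 : 1 ≤ Y)
    (L0 : 0 ≤ L) (s3 : L + 1 ≤ 7 * l) (XX : A * (A * l ^ 2) ≤ X ^ 2) :
    Real.exp (-(P * Y * (X ^ 2 / P)) / (3 * (L + 1))) ≤ Real.exp (-(A * (Y * l))) := by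
  have A1 : 0 < A := by linarith
  have a : P * Y * (X ^ 2 / P) = Y * X ^ 2 := by field_simp
  have d : A * l * (3 * (L + 1)) ≤ A * l * (21 * l) :=
    mul_le_mul_of_nonneg_left (by linarith) (by positivity)
  have f : 21 * (A * l ^ 2) ≤ A * (A * l ^ 2) := mul_le_mul_of_nonneg_right A0 (by positivity)
  have b : A * l * (3 * (L + 1)) ≤ X ^ 2 := by linarith
  rw [a, Real.exp_le_exp, neg_div, neg_le_neg_iff, le_div_iff₀ (by positivity)]
  linarith [mul_le_mul_of_nonneg_left b (show 0 ≤ Y by positivity)]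

theorem kvn_a3 {c C D R : ℝ} (c1 : 1 ≤ c) (hC : 0 < C) (D1 : 1 ≤ D) (h : 2 * ((C + 2) * c) ≤ D)
    (hR : R ≤ (C + 2) * D) : R * (c * D) / (D ^ 2) ^ 2 ≤ 1 / 2 := by
  rw [div_le_iff₀ (by positivity)]
  have a : R * (c * D) ≤ (C + 2) * D * (c * D) := mul_le_mul_of_nonneg_right hR (by positivity)
  have d : D ≤ D ^ 2 := le_self_pow₀ D1 two_ne_zero
  have b : (C + 2) * c * D ^ 2 ≤ 1 / 2 * D ^ 2 * D ^ 2 :=
    mul_le_mul_of_nonneg_right (by linarith) (by positivity)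
  linarith

theorem kvn_a4 {c C A K Y l : ℝ} (c1 : 1 ≤ c) (K0 : 0 ≤ K) (Y1 : 1 ≤ Y) (hl : 1 ≤ l)
    (h2 : 5 * (C + 2) + 6 * c + K + 1 ≤ A) :
    Real.exp ((C + 2) * Y * (5 * l)) * (Real.exp (6 * c * l) *
      (Real.exp K * Real.exp (-(A * (Y * l))))) < 1 / 2 := by
  rw [← Real.exp_add, ← Real.exp_add, ← Real.exp_add]
  have Yl : 1 ≤ Y * l := one_le_mul_of_one_le_of_one_le Y1 hl
  have a := mul_le_mul_of_nonneg_right h2 (show 0 ≤ Y * l by positivity)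
  have b : c * l ≤ c * (Y * l) :=
    mul_le_mul_of_nonneg_left (le_mul_of_one_le_left (by positivity) Y1) (by positivity)
  have d := le_mul_of_one_le_right K0 Yl
  refine lt_of_le_of_lt (Real.exp_le_exp.2 (show _ ≤ -1 by linarith)) ?_
  linarith [Real.exp_neg_one_lt_d9]

theorem kvn_c1 {c l : ℝ} (c1 : 1 ≤ c) (hl : 1 ≤ l) : Real.exp (6 * c * l) *
    (Real.exp (-(8 * c * l)) + Real.exp (-((6 * c + 3) * l)) * Real.exp l) ≤ 2 / 3 := by
  have e2 : Real.exp (-2) ≤ 1 / 3 := by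
    rw [Real.exp_neg, one_div]
    exact inv_anti₀ three_pos (by linarith [Real.add_one_le_exp 2])
  have cl : 1 ≤ c * l := one_le_mul_of_one_le_of_one_le c1 hl
  rw [mul_add, ← Real.exp_add, ← Real.exp_add, ← Real.exp_add]
  have a := Real.exp_le_exp.2 (show 6 * c * l + -(8 * c * l) ≤ -2 by linarith)
  have b := Real.exp_le_exp.2 (show 6 * c * l + (-((6 * c + 3) * l) + l) ≤ -2 by linarith)
  linarith

theorem kvn_c2 {c D : ℝ} (c1 : 1 ≤ c) (h : 4 * c ≤ D) : c * D / (D ^ 2) ^ 2 < 1 / 3 := by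
  have D1 : 1 ≤ D := by linarith
  rw [div_lt_iff₀ (by positivity)]
  have a : c * D < 1 / 3 * D * D := mul_lt_mul_of_pos_right (by linarith) (by linarith)
  have b : D ^ 2 ≤ (D ^ 2) ^ 2 := le_self_pow₀ (one_le_pow₀ D1) two_ne_zero
  linarith

theorem kvn_d1 {k : ℕ} {B D X P : ℝ} (hB : B ≤ D) (D0 : 0 < D) (X1 : 1 ≤ X) (P0 : 0 < P)
    (hm : X ^ k = D ^ 6 * X ^ 2) : B * (1 / P / (X / P)) ^ k * (D ^ 2) ^ 2 / 2 ≤ 1 / D := by
  have X0 : 0 < X := by linarith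
  have a : 1 / P / (X / P) = 1 / X := by field_simp
  have b : B * (1 / (D ^ 6 * X ^ 2)) * (D ^ 2) ^ 2 / 2 = B / (2 * X ^ 2 * D) / D := by field_simp
  rw [a, one_div_pow, hm, b]
  refine div_le_div_of_nonneg_right ((div_le_one (by positivity)).2 ?_) D0.le
  have e : 1 ≤ X ^ 2 := one_le_pow₀ X1
  have d : 1 * D ≤ 2 * X ^ 2 * D := mul_le_mul_of_nonneg_right (by linarith) D0.le
  linarith

theorem kvn_d5 {c A l X P D Z L : ℝ} (c1 : 1 ≤ c) (h1 : 40320 * c ≤ A) (hl : 1 ≤ l)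
    (P0 : 0 < P) (D0 : 0 < D) (hZ0 : 0 < Z) (hZ : Z ^ 2 = P * D) (s3 : L + 1 ≤ 7 * l)
    (XX : A * (A * l ^ 2) ≤ X ^ 2) :
    √(12 * (L + 1) * (8 * c * l) * (15 * (X ^ 2 / P)) / D) ≤ X ^ 2 / Z / 2 := by
  have A0 : 1 ≤ A := by linarith
  refine Real.sqrt_le_iff.2 ⟨by positivity, ?_⟩
  have a : 12 * (L + 1) * (8 * c * l) * (15 * (X ^ 2 / P)) / D =
      1440 * ((L + 1) * (c * l)) * (X ^ 2 / (P * D)) := by
    field_simp
    ring
  have b : (X ^ 2 / Z / 2) ^ 2 = X ^ 2 / 4 * (X ^ 2 / (P * D)) := by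
    rw [← hZ]
    field_simp
    norm_num
  rw [a, b]
  refine mul_le_mul_of_nonneg_right ?_ (by positivity)
  have d := mul_le_mul_of_nonneg_right s3 (show 0 ≤ c * l by positivity)
  have e := mul_le_mul_of_nonneg_right h1 (show 0 ≤ l ^ 2 by positivity)
  have f := le_mul_of_one_le_left (show 0 ≤ A * l ^ 2 by positivity) A0
  linarith

theorem kvn_core (c m : ℕ) (B C A X P Z : ℝ) (D : ℕ) (hc : 1 ≤ c) (hB : 0 ≤ B) (hC : 0 < C)
    (h1 : 40320 * (c : ℝ) ≤ A) (h2 : 5 * (C + 2) + 6 * c + c * (2 * m + 1) ^ (m + 1) + 1 ≤ A)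
    (h3 : 2 * ((C + 2) * c) ≤ A) (h4 : B ≤ A) (hl : 1 ≤ Real.log D)
    (hX : A * Real.log D ≤ X) (hP : X ^ 2 ≤ P) (hD : (D : ℝ) = P * P ^ (c - 1)) (hZ0 : 0 < Z)
    (hZ : Z ^ 2 = P * D) (hm : X ^ (2 * m + 2) = (D : ℝ) ^ 6 * X ^ 2) :
    ParV c m B C D (X ^ 2 / Z) := by
  obtain ⟨L, s1, s2, s3⟩ := kvn_L hl
  have c1 : (1 : ℝ) ≤ c := by exact_mod_cast hc
  have A0 : 40320 ≤ A := le_trans (by linarith only [c1]) h1
  have XA : A ≤ X := (le_mul_of_one_le_right (by linarith only [A0]) hl).trans hX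
  have X1 : 1 ≤ X := by linarith only [A0, XA]
  have X0 : 0 < X := by linarith only [X1]
  have X2 : X ≤ X ^ 2 := le_self_pow₀ X1 two_ne_zero
  have P1 : 1 ≤ P := X1.trans (X2.trans hP)
  have P0 : 0 < P := by linarith only [P1]
  have Y1 : 1 ≤ P ^ (c - 1) := one_le_pow₀ P1
  have hR1 := Nat.le_ceil (C * P ^ (c - 1))
  have hR2 := (Nat.ceil_lt_add_one (show 0 ≤ C * P ^ (c - 1) by positivity)).le
  have eρ : C / (1 / P) ^ (c - 1) = C * P ^ (c - 1) := by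
    rw [one_div, inv_pow, div_inv_eq_mul]
  have PD : P ≤ D := hD ▸ le_mul_of_one_le_right P0.le Y1
  have YD : P ^ (c - 1) ≤ D := hD ▸ le_mul_of_one_le_left (by positivity) P1
  have DA : A ≤ D := XA.trans (X2.trans (hP.trans PD))
  have D1 : (1 : ℝ) ≤ D := P1.trans PD
  have D0 : (0 : ℝ) < D := P0.trans_le PD
  have s0 : 0 < √2 ^ L := D0.trans_le s1
  have eD : Real.exp (Real.log D) = D := Real.exp_log D0
  have XX : A * (A * Real.log D ^ 2) ≤ X ^ 2 := by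
    have := pow_le_pow_left₀ (by positivity) hX 2
    linarith only [this]
  have hR3 : (⌈C * P ^ (c - 1)⌉₊ : ℝ) + 1 ≤ (C + 2) * P ^ (c - 1) := by linarith only [hR2, Y1]
  have b1 := kvn_b1 (by linarith only [A0, DA]) eD
    (div_le_div₀ (by positivity) (X1.trans X2) P0 PD)
  have b2 := kvn_b2 c (by linarith only [A0, DA]) eD X1 P0 PD s0 s2
  have b3 := kvn_b3 c1 h1 hl (by linarith only [A0, XA]) P0 (D1.trans s1) XX
  refine ⟨X / P, X ^ 2 / P, 1 / P, X / P / √2 ^ L, (D : ℝ) ^ 2, 8 * c * Real.log D,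
    X / P / √2 ^ L / (4 * (D : ℝ) ^ 2 * D), L, ⌈C * P ^ (c - 1)⌉₊, by positivity,
    div_mul_cancel₀ _ s0.ne', div_le_div_of_nonneg_right X2 P0.le, (div_le_one P0).2 hP,
    by positivity, (div_le_one P0).2 P1, by positivity, by positivity, by positivity, ?_,
    eρ ▸ hR1, ?_, ?_, ?_⟩
  · rw [div_mul_eq_mul_div, le_div_iff₀ P0, one_mul]
    exact (PD.trans s1).trans (le_mul_of_one_le_left s0.le (X1.trans X2))
  · have a1 := pow_le_pow_left₀ (by positivity) b1 (⌈C * P ^ (c - 1)⌉₊ + 1)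
    rw [← Real.exp_nat_mul, Nat.cast_add_one] at a1
    have a1' := a1.trans (Real.exp_le_exp.2 (mul_le_mul_of_nonneg_right hR3 (by positivity)))
    have a2 := kvn_a2 (by linarith only [A0]) hl P0 Y1 (Nat.cast_nonneg L) s3 XX
    rw [← hD] at a2
    have a3 := kvn_a3 c1 hC D1 (h3.trans DA)
      (hR3.trans (mul_le_mul_of_nonneg_left YD (by positivity)))
    have a4 := kvn_a4 c1 (by positivity) Y1 hl h2
    refine (add_lt_add_of_lt_of_le (lt_of_le_of_lt ?_ a4) a3).trans_eq (by norm_num)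
    gcongr
  · have a1 := kvn_c1 c1 hl
    rw [eD] at a1
    refine (add_lt_add_of_le_of_lt (le_trans ?_ a1)
      (kvn_c2 c1 (by linarith only [c1, h1, DA]))).trans_eq (by norm_num)
    gcongr
  · have a1 := kvn_d1 (h4.trans DA) D0 X1 P0 hm
    have a2 : X / P / √2 ^ L / (X / P) ≤ 1 / D := by
      rw [show X / P / √2 ^ L / (X / P) = 1 / √2 ^ L by field_simp]
      exact one_div_le_one_div_of_le D0 s1
    have a3 : Real.exp (-((6 * c + 3) * Real.log D)) ≤ 1 / D := by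
      rw [one_div, ← Real.exp_log (inv_pos.2 D0), Real.log_inv, Real.exp_le_exp, neg_le_neg_iff]
      exact le_mul_of_one_le_left (by positivity) (by linarith only [c1])
    have a4 : 4 * (D : ℝ) ^ 2 * (X / P / √2 ^ L / (4 * (D : ℝ) ^ 2 * D)) / (X / P / √2 ^ L) =
        1 / D := by field_simp
    have a5 := kvn_d5 c1 h1 hl P0 D0 hZ0 hZ s3 XX
    have a6 : Z ≤ D := (pow_le_pow_iff_left₀ hZ0.le D0.le two_ne_zero).1
      (by rw [hZ, sq]; exact mul_le_mul_of_nonneg_right PD D0.le)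
    have a7 : 10 / (D : ℝ) ≤ X ^ 2 / Z :=
      div_le_div₀ (by positivity) (by linarith only [A0, XA, X2]) hZ0 a6
    rw [show 10 / (D : ℝ) = 10 * (1 / D) by ring] at a7
    rw [a4]
    linarith only [a1, a2, a3, b3, a5, a7]

theorem par_num (c : ℕ) (hc : 1 ≤ c) (ε : ℝ) (hε : 0 < ε) : ∃ m : ℕ, ∀ B C : ℝ, 0 ≤ B → 0 < C →
    ∃ D₀ : ℕ, ∀ D : ℕ, D₀ ≤ D →
      ParV c m B C D ((D : ℝ) ^ (-(1 / 2 + 1 / (2 * (c : ℝ)) - ε))) := by
  obtain ⟨N, hN⟩ := exists_nat_one_div_lt hε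
  refine ⟨6 * (c * (N + 1)), fun B C hB hC => ?_⟩
  set m := 6 * (c * (N + 1)) with hm
  obtain ⟨A, h1, h2, h3, h4⟩ : ∃ A : ℝ, 40320 * (c : ℝ) ≤ A ∧
      5 * (C + 2) + 6 * c + c * (2 * m + 1) ^ (m + 1) + 1 ≤ A ∧ 2 * ((C + 2) * c) ≤ A ∧ B ≤ A :=
    ((eventually_ge_atTop _).and ((eventually_ge_atTop _).and ((eventually_ge_atTop _).and
      (eventually_ge_atTop _)))).exists
  have c1 : (1 : ℝ) ≤ c := by exact_mod_cast hc
  have A0 : 0 < A := by linarith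
  set r : ℝ := 1 / (2 * (c * ((N : ℝ) + 1))) with hr
  have r0 : 0 < r := by positivity
  obtain ⟨D₀, hD₀⟩ := eventually_atTop.1 ((tendsto_natCast_atTop_atTop (R := ℝ)).eventually
    (((isLittleO_log_rpow_atTop r0).bound (inv_pos.2 A0)).and
      ((Real.tendsto_log_atTop.eventually_ge_atTop 1).and (eventually_ge_atTop 1))))
  refine ⟨D₀, fun D hD => ?_⟩
  obtain ⟨d1, d2, d3⟩ := hD₀ D hD
  have D0 : (0 : ℝ) < D := by linarith
  rw [Real.norm_of_nonneg (by linarith), Real.norm_of_nonneg (by positivity),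
    le_inv_mul_iff₀ A0] at d1
  have X1 : 1 ≤ (D : ℝ) ^ r := Real.one_le_rpow d3 r0.le
  have eX : ((D : ℝ) ^ r) ^ (2 * (c * (N + 1))) = D := by
    rw [← Real.rpow_natCast, ← Real.rpow_mul D0.le]
    push_cast
    rw [hr, one_div_mul_cancel (by positivity), Real.rpow_one]
  have eη : ((D : ℝ) ^ r) ^ 2 / ((D : ℝ) ^ r) ^ ((N + 1) + c * (N + 1)) ≤
      (D : ℝ) ^ (-(1 / 2 + 1 / (2 * (c : ℝ)) - ε)) := by
    rw [← Real.rpow_natCast, ← Real.rpow_natCast, ← Real.rpow_mul D0.le, ← Real.rpow_mul D0.le,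
      ← Real.rpow_sub D0]
    refine Real.rpow_le_rpow_of_exponent_le d3 ?_
    push_cast
    have a : r * (((N : ℝ) + 1) + c * (N + 1)) = 1 / 2 + 1 / (2 * (c : ℝ)) := by
      rw [hr]
      field_simp
      ring
    have b : r * 2 ≤ 1 / ((N : ℝ) + 1) := by
      rw [hr, div_mul_eq_mul_div, div_le_div_iff₀ (by positivity) (by positivity)]
      nlinarith [Nat.cast_nonneg (α := ℝ) N]
    linarith
  generalize (D : ℝ) ^ r = X at d1 X1 eX eη
  obtain ⟨θ, ϑ, ρ, τ, H, W, σ, L, R, p1, p2, p3, p4, p5, p6, p7, p8, p9, q1, q2, q3, q4, q5⟩ :=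
    kvn_core c m B C A X (X ^ (2 * (N + 1))) (X ^ ((N + 1) + c * (N + 1))) D hc hB hC h1 h2 h3 h4
      d2 d1 (pow_le_pow_right₀ X1 (by omega))
      (by rw [← pow_succ', Nat.sub_add_cancel hc, ← pow_mul, ← eX]; congr 1; ring)
      (by positivity) (by rw [← eX]; ring) (by rw [← eX, hm]; ring)
  exact ⟨θ, ϑ, ρ, τ, H, W, σ, L, R, p1, p2, p3, p4, p5, p6, p7, p8, p9, q1, q2, q3, q4,
    q5.trans eη⟩

end Pool.Agent.P.MP_83f3dc_co.KT
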