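import Pool.Agent.P.MP_83f3dc_co.KVDefs
import Pool.Agent.P.MP_83f3dc_co.KTA

set_option autoImplicit false
set_option linter.unusedSectionVars false
set_option linter.unusedVariables false

open MeasureTheory ProbabilityTheory Module Set Filter Topology
open scoped RealInnerProductSpace ENNReal

noncomputable section

namespace Pool.Agent.P.MP_83f3dc_co.KT

theorem vec_blocksG {D c : ℕ} (hc : 1 ≤ c) (hcD : c ≤ D) {η : ℝ} (H : CoreP D c η)
    {ι : Type} [Fintype ι]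
    (v : ι → Fin D → E D) (hv : ∀ i, LinearIndependent ℝ (v i)) :
    ∃ g : Fin c → E D, Orthonormal ℝ g ∧ ∀ y : Fin c → ℝ,
      ((Finset.univ.filter fun p : ι × Fin D => 0 < ⟪∑ a, y a • g a, v p.1 p.2⟫).card : ℝ) ≤
        (Fintype.card ι : ℝ) * D * (1 / 2 + η) := by
  obtain ⟨B, hB⟩ := forster v hv
  have hD : (0 : ℝ) < D := by exact_mod_cast lt_of_lt_of_le (by omega : 0 < c) hcD
  have hne : ∀ p : ι × Fin D, B (v p.1 p.2) ≠ 0 := fun p h =>
    (hv p.1).ne_zero p.2 (B.map_eq_zero_iff.1 h)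
  have hcard : (Fintype.card (ι × Fin D) : ℝ) = (Fintype.card ι : ℝ) * D := by
    rw [Fintype.card_prod, Fintype.card_fin, Nat.cast_mul]
  obtain ⟨G, hG, hcount⟩ := H (ι × Fin D)
    (fun p : ι × Fin D => ‖B (v p.1 p.2)‖⁻¹ • B (v p.1 p.2))
    ⟨fun p => norm_smul_inv_norm (hne p), fun z => by
      rw [Fintype.sum_prod_type, hcard]
      refine (hB z).trans (le_of_eq ?_)
      field_simp⟩
  set T : E D →ₗ[ℝ] E D := LinearMap.adjoint (B : E D →ₗ[ℝ] E D) with hT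
  have hTi : ∀ w x : E D, ⟪T w, x⟫ = ⟪w, B x⟫ := fun w x => by
    rw [hT, LinearMap.adjoint_inner_left]; rfl
  have hker : LinearMap.ker T = ⊥ := by
    refine LinearMap.ker_eq_bot'.2 fun w hw => ?_
    have h := hTi w (B.symm w)
    rw [hw, inner_zero_left, B.apply_symm_apply] at h
    exact inner_self_eq_zero.1 h.symm
  obtain ⟨g, hg, hspan⟩ := exists_on (T ∘ G) (hG.map' T hker)
  refine ⟨g, hg, fun y => ?_⟩
  obtain ⟨y', hy'⟩ := hspan y
  have hsum : ∑ a, y a • g a = T (∑ a, y' a • G a) := by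
    rw [hy', map_sum]
    exact Finset.sum_congr rfl fun a _ => by rw [map_smul]; rfl
  rw [← hcard]
  refine le_trans (le_of_eq ?_) (hcount y')
  refine congrArg _ (congrArg _ (Finset.filter_congr fun p _ => ?_))
  rw [hsum, hTi, real_inner_smul_right]
  exact (mul_pos_iff_of_pos_left (inv_pos.2 (norm_pos_iff.2 (hne p)))).symm

theorem vecG {D c : ℕ} (hc : 1 ≤ c) (hcD : c ≤ D) {η : ℝ} (H : CoreP D c η)
    {ι : Type} [Fintype ι] (u : ι → E D) :
    ∃ g : Fin c → E D, Orthonormal ℝ g ∧ ∀ y : Fin c → ℝ,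
      ((Finset.univ.filter fun i => 0 < ⟪∑ a, y a • g a, u i⟫).card : ℝ) ≤
        (Fintype.card ι : ℝ) * (1 / 2 + η) := by
  classical
  have hr : ∀ j : ℕ, (0 : ℝ) < 1 / ((j : ℝ) + 1) := fun j => Nat.one_div_pos_of_nat
  choose v hv hvu using fun (j : ℕ) (i : ι) => perturb (u i) _ (hr j)
  choose g hg hgy using fun j : ℕ => vec_blocksG hc hcD H (v j) (hv j)
  have hmem : ∀ j, g j ∈ Metric.closedBall (0 : Fin c → E D) 1 := fun j => by
    rw [mem_closedBall_zero_iff, pi_norm_le_iff_of_nonneg zero_le_one]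
    exact fun a => ((hg j).1 a).le
  obtain ⟨G, -, φ, hφ, hG⟩ := (isCompact_closedBall (0 : Fin c → E D) 1).tendsto_subseq hmem
  have hGa : ∀ a, Tendsto (fun j => g (φ j) a) atTop (𝓝 (G a)) := fun a =>
    tendsto_pi_nhds.1 hG a
  refine ⟨G, ?_, fun y => ?_⟩
  · rw [orthonormal_iff_ite]
    intro a b
    have h1 : Tendsto (fun j => ⟪g (φ j) a, g (φ j) b⟫) atTop (𝓝 ⟪G a, G b⟫) :=
      (hGa a).inner (hGa b)
    simp only [orthonormal_iff_ite.1 (hg _)] at h1
    exact tendsto_nhds_unique h1 tendsto_const_nhds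
  · have hvt : ∀ i b, Tendsto (fun j => v (φ j) i b) atTop (𝓝 (u i)) := fun i b => by
      rw [tendsto_iff_norm_sub_tendsto_zero]
      exact squeeze_zero (fun j => norm_nonneg _) (fun j => hvu (φ j) i b)
        (tendsto_one_div_add_atTop_nhds_zero_nat.comp hφ.tendsto_atTop)
    have hy : Tendsto (fun j => ∑ a, y a • g (φ j) a) atTop (𝓝 (∑ a, y a • G a)) :=
      tendsto_finsetSum _ fun a _ => (hGa a).const_smul _
    have hev : ∀ᶠ j in atTop, ∀ p : ι × Fin D, 0 < ⟪∑ a, y a • G a, u p.1⟫ →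
        0 < ⟪∑ a, y a • g (φ j) a, v (φ j) p.1 p.2⟫ := by
      refine Filter.eventually_all.2 fun p => ?_
      by_cases h : 0 < ⟪∑ a, y a • G a, u p.1⟫
      · exact ((hy.inner (hvt p.1 p.2)).eventually (lt_mem_nhds h)).mono fun j hj _ => hj
      · exact Eventually.of_forall fun j hj => absurd hj h
    obtain ⟨j, hj⟩ := hev.exists
    have h1 : (Finset.univ.filter fun i => 0 < ⟪∑ a, y a • G a, u i⟫) ×ˢ
        (Finset.univ : Finset (Fin D)) ⊆ Finset.univ.filter fun p : ι × Fin D =>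
          0 < ⟪∑ a, y a • g (φ j) a, v (φ j) p.1 p.2⟫ := fun p hp => by
      rw [Finset.mem_product, Finset.mem_filter] at hp
      exact Finset.mem_filter.2 ⟨Finset.mem_univ _, hj p hp.1.2⟩
    have h2 := Finset.card_le_card h1
    rw [Finset.card_product, Finset.card_univ, Fintype.card_fin] at h2
    have h3 : (((Finset.univ.filter fun i => 0 < ⟪∑ a, y a • G a, u i⟫).card : ℝ)) * D ≤
        (Fintype.card ι : ℝ) * D * (1 / 2 + η) :=
      le_trans (by exact_mod_cast h2) (hgy (φ j) y)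
    have hD : (0 : ℝ) < D := by exact_mod_cast lt_of_lt_of_le (Nat.succ_le_iff.1 hc) hcD
    refine le_of_mul_le_mul_right ?_ hD
    linarith

theorem flat_subG {W : Type} [AddCommGroup W] [Module ℝ W] {a c : ℕ} (hc : 1 ≤ c) (hca : c ≤ a)
    {η : ℝ} (H : CoreP a c η)
    {f : Fin a → W} (hf : LinearIndependent ℝ f) {ι : Type} [Fintype ι] (ev : ι → W →ₗ[ℝ] ℝ) :
    ∃ V : Submodule ℝ W, V ≤ Submodule.span ℝ (Set.range f) ∧ finrank ℝ V = c ∧ ∀ w ∈ V,
      ((Finset.univ.filter fun i => 0 < ev i w).card : ℝ) ≤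
        (Fintype.card ι : ℝ) * (1 / 2 + η) := by
  obtain ⟨g, hg, h⟩ := vecG hc hca H fun i => (WithLp.toLp 2 fun b => ev i (f b) : E a)
  let T : E a →ₗ[ℝ] W :=
    (Fintype.linearCombination ℝ f).comp (WithLp.linearEquiv 2 ℝ (Fin a → ℝ)).toLinearMap
  have hT : ∀ z : E a, T z = ∑ b, z b • f b := fun z => rfl
  have hinj : LinearMap.ker T = ⊥ := LinearMap.ker_eq_bot_of_injective
    (hf.fintypeLinearCombination_injective.comp (WithLp.linearEquiv 2 ℝ _).injective)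
  refine ⟨Submodule.span ℝ (Set.range (T ∘ g)), Submodule.span_le.2 ?_, ?_, fun w hw => ?_⟩
  · rintro _ ⟨i, rfl⟩
    rw [Function.comp_apply, hT]
    exact Submodule.sum_mem _ fun b _ => Submodule.smul_mem _ _ (Submodule.subset_span ⟨b, rfl⟩)
  · rw [finrank_span_eq_card (hg.linearIndependent.map' T hinj), Fintype.card_fin]
  · obtain ⟨y, rfl⟩ := (Submodule.mem_span_range_iff_exists_fun ℝ).1 hw
    have e : ∀ (z : E a) (i : ι), ⟪z, (WithLp.toLp 2 fun b => ev i (f b) : E a)⟫ = ev i (T z) :=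
      fun z i => by
        rw [hT, map_sum, PiLp.inner_apply]
        refine Finset.sum_congr rfl fun b _ => ?_
        rw [map_smul, smul_eq_mul, real_inner_comm]
        simp
    have e' : ∑ i, y i • (T ∘ g) i = T (∑ i, y i • g i) := by
      simp only [map_sum, map_smul, Function.comp_apply]
    rw [e']
    simpa only [e] using h y

theorem flat_kerG {W : Type} [AddCommGroup W] [Module ℝ W] [FiniteDimensional ℝ W] {a c : ℕ}
    (hc : 1 ≤ c) (hca : c ≤ a) {η : ℝ} (H : CoreP a c η) {κ : Type} [Fintype κ] (ev₀ : κ → W →ₗ[ℝ] ℝ)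
    (h : Fintype.card κ + a ≤ finrank ℝ W) {ι : Type} [Fintype ι] (ev : ι → W →ₗ[ℝ] ℝ) :
    ∃ V : Submodule ℝ W, finrank ℝ V = c ∧ ∀ w ∈ V, (∀ x, ev₀ x w = 0) ∧
      ((Finset.univ.filter fun i => 0 < ev i w).card : ℝ) ≤
        (Fintype.card ι : ℝ) * (1 / 2 + η) := by
  have h1 := LinearMap.finrank_range_add_finrank_ker (LinearMap.pi ev₀)
  have h2 := Submodule.finrank_le (LinearMap.range (LinearMap.pi ev₀))
  rw [Module.finrank_fintype_fun_eq_card] at h2
  obtain ⟨f, hf⟩ := exists_linearIndependent_of_le_finrank (R := ℝ)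
    (M := LinearMap.ker (LinearMap.pi ev₀)) (n := a) (by omega)
  obtain ⟨V, hV1, hV2, hV3⟩ := flat_subG hc hca H (hf.map' _ (Submodule.ker_subtype _)) ev
  have hV0 : V ≤ LinearMap.ker (LinearMap.pi ev₀) :=
    hV1.trans (Submodule.span_le.2 (by
      rintro _ ⟨i, rfl⟩
      exact (f i).2))
  exact ⟨V, hV2, fun w hw => ⟨congrFun (hV0 hw), hV3 w hw⟩⟩

theorem flat_genG {F : Type} [NormedAddCommGroup F] [NormedSpace ℝ F] [FiniteDimensional ℝ F]
    {d c k a m : ℕ} (hd : finrank ℝ F = d) (hc : 1 ≤ c) (hca : c ≤ a) (had : a ≤ d + 1)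
    (hcd : c ≤ d) {η : ℝ} (H : CoreP a c η) (hm : (m : ℝ) * (1 / 2 + η) < k) (X : Finset F)
    (hX : X.card = d + 1 - a + m) : ∃ L : AffineSubspace ℝ F, (L : Set F).Nonempty ∧
      finrank ℝ L.direction = d - c ∧
        ∀ Y ⊆ X, Y.card = k → ((L : Set F) ∩ convexHull ℝ (Y : Set F)).Nonempty := by
  classical
  by_cases hk : X.card < k
  · obtain ⟨U, -, hU⟩ := exists_sub (⊤ : Submodule ℝ F) (m := d - c)
      (by rw [finrank_top, hd]; omega)
    refine ⟨AffineSubspace.mk' 0 U, AffineSubspace.mk'_nonempty _ _,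
      by rw [AffineSubspace.direction_mk', hU], fun Y hY hYk => ?_⟩
    have := Finset.card_le_card hY
    omega
  obtain ⟨S, hSX, hS⟩ := Finset.exists_subset_card_eq (s := X) (n := d + 1 - a) (by omega)
  let ev : F → (Dual ℝ F × ℝ) →ₗ[ℝ] ℝ := fun x =>
    (Dual.eval ℝ F x).comp (LinearMap.fst ℝ _ _) + LinearMap.snd ℝ _ _
  have hW : finrank ℝ (Dual ℝ F × ℝ) = d + 1 := by
    simp [Module.finrank_prod, hd]
  obtain ⟨V, hV2, hV3⟩ := flat_kerG hc hca H (fun x : S => ev x)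
    (by rw [Fintype.card_coe, hS, hW]; omega) fun x : (X \ S : Finset F) => ev x
  obtain ⟨L, hL1, hL2, hL3⟩ := flat_of_subspace X k (by omega) V (by
    intro w hw Y hYX hY
    by_contra hcon
    push Not at hcon
    have h3 : Y ⊆ (Finset.univ.filter fun i : (X \ S : Finset F) => 0 < ev i w).image
        Subtype.val := fun y hy => Finset.mem_image.2 ⟨⟨y, Finset.mem_sdiff.2 ⟨hYX hy, fun hyS =>
          (hcon y hy).ne' ((hV3 w hw).1 ⟨y, hyS⟩)⟩⟩,
        Finset.mem_filter.2 ⟨Finset.mem_univ _, hcon y hy⟩, rfl⟩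
    have h4 := (Finset.card_le_card h3).trans Finset.card_image_le
    have h5 := (hV3 w hw).2
    rw [Fintype.card_coe, Finset.card_sdiff_of_subset hSX, hX, hS, Nat.add_sub_cancel_left] at h5
    rw [hY] at h4
    exact absurd ((Nat.cast_le.2 h4).trans h5) hm.not_ge)
  exact ⟨L, hL1, by omega, hL3⟩

theorem has_ofG (d c k a m : ℕ) (hc : 1 ≤ c) (hca : c ≤ a) (had : a ≤ d + 1) (hcd : c ≤ d)
    {η : ℝ} (H : CoreP a c η) (hm : (m : ℝ) * (1 / 2 + η) < k) : HasTransversal d (d - c) k (d + 1 - a + m) :=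
  fun X hX => flat_genG finrank_euclideanSpace_fin hc hca had hcd H hm X hX

theorem lower_gen {d c k m : ℕ} (hc : 1 ≤ c) (hcd : c < d) (hk : 1 ≤ k)
    (hm : IsGreatest {n : ℕ | 0 < n ∧ HasTransversal d (d - c) k n} m) (a : ℕ) (hca : c ≤ a)
    (had : a ≤ d + 1) {η : ℝ} (hη : 0 ≤ η) (H : CoreP a c η) :
    (d : ℝ) - a + (2 - 4 * η) * k ≤ m := by
  have h0 := hη
  have hk' : (0 : ℝ) < k := by exact_mod_cast hk
  have hp : 0 < 1 / 2 + η := by linarith
  have ht : 0 < (k : ℝ) / (1 / 2 + η) := div_pos hk' hp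
  obtain ⟨m0, hm0⟩ : ∃ m0 : ℕ, ⌈(k : ℝ) / (1 / 2 + η)⌉₊ = m0 + 1 :=
    Nat.exists_eq_succ_of_ne_zero (Nat.ceil_pos.2 ht).ne'
  have h1 := Nat.ceil_lt_add_one ht.le
  have h2 := Nat.le_ceil ((k : ℝ) / (1 / 2 + η))
  rw [hm0] at h1 h2
  push_cast at h1 h2
  have h3 : (m0 : ℝ) * (1 / 2 + η) < k := by
    rw [← lt_div_iff₀ hp]; linarith
  have h4 := has_ofG d c k a m0 hc hca had hcd.le H h3
  have h5 : d + 1 - a + m0 ≤ m := by
    rcases Nat.eq_zero_or_pos (d + 1 - a + m0) with h | h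
    · omega
    · exact hm.2 ⟨h, h4⟩
  have h6 : (d : ℝ) + 1 + m0 ≤ m + a := by
    have : d + 1 + m0 ≤ m + a := by omega
    exact_mod_cast this
  have h7 : (2 - 4 * η) * k ≤ (k : ℝ) / (1 / 2 + η) := by
    rw [le_div_iff₀ hp]
    nlinarith [mul_nonneg hk'.le (mul_nonneg h0 h0)]
  linarith

end Pool.Agent.P.MP_83f3dc_co.KT
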