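import Pool.Agent.P.MP_83f3dc_co.KVSt1
import Pool.Agent.P.MP_83f3dc_co.KVFin2
import Pool.Agent.P.MP_83f3dc_co.KVNum
import Pool.Agent.P.MP_83f3dc_co.KVRed

set_option autoImplicit false
set_option linter.unusedSectionVars false
set_option linter.unusedVariables false

open MeasureTheory ProbabilityTheory Module Set Filter Topology
open scoped RealInnerProductSpace ENNReal

noncomputable section

namespace Pool.Agent.P.MP_83f3dc_co.KT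

theorem core_par (c m : ℕ) (hc : 1 ≤ c) : ∃ B C : ℝ, 0 ≤ B ∧ 0 < C ∧ ∀ (D : ℕ) (η : ℝ),
    c ≤ D → 0 ≤ η → ParV c m B C D η → CoreP D c η := by
  obtain ⟨B, C, hB, hC, h1⟩ := stage1 c m hc
  refine ⟨B, C, hB, hC, fun D η hcD hη0 hP ι _ e he => ?_⟩
  by_cases h0 : 1 / 2 ≤ η ∨ Fintype.card ι = 0
  · exact core_triv hcD e h0
  push Not at h0
  obtain ⟨θ, ϑ, ρ, τ, H, W, σ, L, R, p1, p2, p3, p4, p5, p6, p7, p8, p9, p10, p11, p12, p13,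
    p14⟩ := hP
  have hn : 0 < Fintype.card ι := Nat.pos_of_ne_zero h0.2
  have hD : 0 < D := by omega
  have hD' : (0 : ℝ) < D := by exact_mod_cast hD
  have hτθ : τ ≤ θ := by
    rw [← p2]
    exact le_mul_of_one_le_right p1.le (one_le_pow₀ (Real.one_le_sqrt.2 one_le_two))
  have hθ : 0 < θ := p1.trans_le hτθ
  have hϑ : 0 < ϑ := hθ.trans_le p3
  obtain ⟨U, U1, U2, U3⟩ := net {y : E c | ‖y‖ = 1} (fun x hx => le_of_eq hx) σ p9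
  rw [finrank_euclideanSpace_fin] at U2
  obtain ⟨x, x1, x2, x3⟩ := h1 D ι e θ ϑ ρ H L R U hD hn he hθ hϑ p4 p5 p6 p7 p10 p11 U1
    (lt_of_le_of_lt (by gcongr) p12)
  obtain ⟨G, hG⟩ := stage2 (β := 15 * ϑ) (η₁ := 1 / D) hD hn he x L p1 p2 (p3.trans p4)
    (hτθ.trans p3) (by positivity) p8 (by positivity) p7 p9.le x1 U U1 U3 x3
    (fun u hu => x2 u (U1 u hu)) (lt_of_le_of_lt (by
      rw [div_div_eq_mul_div, div_one]
      gcongr) p13)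
  refine core_of_ramp hn e p1 hη0 h0.1 G fun u hu => (hG u hu).trans ?_
  gcongr

theorem core_sharp (c : ℕ) (hc : 1 ≤ c) (ε : ℝ) (hε : 0 < ε) : ∃ D₀ : ℕ, ∀ D : ℕ, D₀ ≤ D →
    c ≤ D → CoreP D c ((D : ℝ) ^ (-(1 / 2 + 1 / (2 * (c : ℝ)) - ε))) := by
  obtain ⟨m, hm⟩ := par_num c hc ε hε
  obtain ⟨B, C, hB, hC, h⟩ := core_par c m hc
  obtain ⟨D₀, hD₀⟩ := hm B C hB hC
  exact ⟨D₀, fun D hD hcD => h D _ hcD (by positivity) (hD₀ D hD)⟩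

theorem partV (ε : ℝ) (hε : 0 < ε) : ∃ K : ℝ, ∀ d c k : ℕ, 1 ≤ c → c < d → 1 ≤ k →
    ∃ m : ℕ, IsGreatest {n : ℕ | 0 < n ∧ HasTransversal d (d - c) k n} m ∧
      ∀ a : ℕ, c ≤ a → a ≤ d + 1 →
        (d : ℝ) - a + (2 - K * √((c : ℝ) / a) * Real.log (2 * (a : ℝ) / c) *
          (a : ℝ) ^ (-max 0 (1 / (2 * (c : ℝ)) - ε))) * k ≤ m := by
  choose D₀ hD₀ using fun c : ℕ => core_sharp (c + 1) (Nat.le_add_left 1 c) ε hε
  obtain ⟨M, hM⟩ : ∃ M : ℕ, ∀ c : ℕ, c ≤ ⌈1 / ε⌉₊ → D₀ c ≤ M :=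
    ⟨(Finset.range (⌈1 / ε⌉₊ + 1)).sup D₀, fun c hc =>
      Finset.le_sup (f := D₀) (Finset.mem_range.2 (by omega))⟩
  refine ⟨160 * (M + 1), fun d c k hc hcd hk => ?_⟩
  obtain ⟨m, hm, hold⟩ := partA d c k hc hcd hk
  refine ⟨m, hm, fun a hca had => ?_⟩
  have hc' : (1 : ℝ) ≤ c := by exact_mod_cast hc
  have hca' : (c : ℝ) ≤ a := by exact_mod_cast hca
  have ha1 : (1 : ℝ) ≤ a := hc'.trans hca'
  have ha0 : (0 : ℝ) < a := by linarith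
  have hk0 : (0 : ℝ) ≤ k := Nat.cast_nonneg k
  have hM0 : (0 : ℝ) ≤ M := Nat.cast_nonneg M
  have h2 : (2 : ℝ) ≤ 2 * (a : ℝ) / c := by
    rw [le_div_iff₀ (by linarith)]; linarith
  have hlog : 1 / 2 ≤ Real.log (2 * (a : ℝ) / c) :=
    le_trans (by have := Real.log_two_gt_d9; linarith) (Real.log_le_log two_pos h2)
  have hs0 : 0 ≤ √((c : ℝ) / a) := Real.sqrt_nonneg _
  have key : ∀ t : ℝ, 1 ≤ (M + 1) * t → (d : ℝ) - a + (2 - 160 * (M + 1) * √((c : ℝ) / a) *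
      Real.log (2 * (a : ℝ) / c) * t) * k ≤ m := fun t ht => by
    refine le_trans ?_ (hold a hca had)
    have h3 : 0 ≤ 160 * √((c : ℝ) / a) * Real.log (2 * (a : ℝ) / c) := by
      have : 0 ≤ Real.log (2 * (a : ℝ) / c) := by linarith
      positivity
    have h4 := mul_le_mul_of_nonneg_left ht h3
    nlinarith [mul_le_mul_of_nonneg_right h4 hk0]
  rcases le_total (1 / (2 * (c : ℝ)) - ε) 0 with h0 | h0
  · rw [max_eq_left h0, neg_zero, Real.rpow_zero]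
    exact key 1 (by linarith)
  rw [max_eq_right h0]
  have hhalf : 1 / (2 * (c : ℝ)) ≤ 1 / c :=
    one_div_le_one_div_of_le (by linarith) (by linarith)
  obtain ⟨c₀, rfl⟩ : ∃ c₀, c = c₀ + 1 := ⟨c - 1, by omega⟩
  rcases le_or_gt (D₀ c₀) a with hD | hD
  · refine le_trans ?_ (lower_gen hc hcd hk hm a hca had (by positivity) (hD₀ c₀ a hD hca))
    have e1 : (a : ℝ) ^ (-(1 / 2 + 1 / (2 * ((c₀ + 1 : ℕ) : ℝ)) - ε)) =
        √(1 / (a : ℝ)) * (a : ℝ) ^ (-(1 / (2 * ((c₀ + 1 : ℕ) : ℝ)) - ε)) := by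
      rw [Real.sqrt_eq_rpow, one_div (a : ℝ), Real.inv_rpow ha0.le, ← Real.rpow_neg ha0.le,
        ← Real.rpow_add ha0]
      congr 1
      ring
    have e2 : √(1 / (a : ℝ)) ≤ √(((c₀ + 1 : ℕ) : ℝ) / a) := by gcongr
    have e3 : 0 ≤ (a : ℝ) ^ (-(1 / (2 * ((c₀ + 1 : ℕ) : ℝ)) - ε)) := by positivity
    have e4 : 4 * √(1 / (a : ℝ)) ≤ 160 * (M + 1) * √(((c₀ + 1 : ℕ) : ℝ) / a) *
        Real.log (2 * (a : ℝ) / ((c₀ + 1 : ℕ) : ℝ)) := by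
      have e5 : 4 ≤ 160 * (M + 1) * Real.log (2 * (a : ℝ) / ((c₀ + 1 : ℕ) : ℝ)) := by nlinarith
      nlinarith [mul_le_mul_of_nonneg_right e5 hs0]
    rw [e1]
    nlinarith [mul_le_mul_of_nonneg_right (mul_le_mul_of_nonneg_right e4 e3) hk0]
  · refine key _ ?_
    have h5 : (((c₀ + 1 : ℕ) : ℝ)) ≤ 1 / ε := by
      rw [le_div_iff₀ hε]
      have h6 : ε ≤ 1 / ((c₀ + 1 : ℕ) : ℝ) := by linarith
      rw [le_div_iff₀ (by linarith)] at h6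
      linarith
    have h7 : c₀ ≤ ⌈1 / ε⌉₊ := by
      have h8 : ((c₀ + 1 : ℕ) : ℝ) ≤ ⌈1 / ε⌉₊ := h5.trans (Nat.le_ceil _)
      have h9 : c₀ + 1 ≤ ⌈1 / ε⌉₊ := by exact_mod_cast h8
      omega
    have h10 : (a : ℝ) ≤ M + 1 := by
      have : a ≤ M + 1 := by have := hM c₀ h7; omega
      exact_mod_cast this
    have h11 : (a : ℝ) ^ (-1 : ℝ) ≤ (a : ℝ) ^ (-(1 / (2 * ((c₀ + 1 : ℕ) : ℝ)) - ε)) := by
      refine Real.rpow_le_rpow_of_exponent_le ha1 ?_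
      have : 1 / ((c₀ + 1 : ℕ) : ℝ) ≤ 1 := by rw [div_le_one (by linarith)]; exact hc'
      linarith
    rw [Real.rpow_neg_one] at h11
    calc (1 : ℝ) = a * (a : ℝ)⁻¹ := (mul_inv_cancel₀ ha0.ne').symm
      _ ≤ _ := mul_le_mul h10 h11 (by positivity) (by linarith)

end Pool.Agent.P.MP_83f3dc_co.KT
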