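import Pool.Agent.P.MP_83f3dc_co.KTG
import Pool.Agent.P.MP_83f3dc_co.KTNet
import Pool.Agent.Lib.PolyPart.BU

set_option autoImplicit false
set_option linter.unusedSectionVars false
set_option linter.unusedVariables false

open MeasureTheory ProbabilityTheory Module Set Filter Topology
open scoped RealInnerProductSpace ENNReal

noncomputable section

namespace Pool.Agent.P.MP_83f3dc_co.KT

variable {V : Type} [NormedAddCommGroup V] [InnerProductSpace ℝ V] [FiniteDimensional ℝ V]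
  [MeasurableSpace V] [BorelSpace V]

theorem kvbu_lab (m : ℕ) (g : Fin m → (Fin (m + 1) → ℝ) → ℝ) (ho : ∀ k x, g k (-x) = -g k x) :
    ∃ w : Fin (m + 1) → ℝ, w ≠ 0 ∧ ∀ k, ContinuousAt (g k) w → g k w = 0 := by
  classical
  let s : Fin m → (Fin (m + 1) → ℝ) → ZMod 2 := fun k w =>
    if 0 < g k w then 1 else if g k w < 0 then 0 else if WellOrderingRel w (-w) then 1 else 0
  obtain ⟨w, hw, hk⟩ := Pool.Agent.Lib.PolyPart.borsuk_ulam_labels m s (by
    intro k w hw
    have h11 : (1 : ZMod 2) + 1 = 0 := rfl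
    simp only [s, ho, neg_neg, neg_pos, neg_lt_zero]
    rcases lt_trichotomy 0 (g k w) with h | h | h
    · simp [h, h.not_gt, h11]
    · have hne : w ≠ -w := by
        intro h'
        apply hw
        funext j
        have := congrFun h' j
        simp only [Pi.neg_apply] at this
        simp only [Pi.zero_apply]
        linarith
      simp only [← h, lt_irrefl, if_false]
      rcases trichotomous_of WellOrderingRel w (-w) with h' | h' | h'
      · rw [if_pos h', if_neg (asymm h'), h11]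
      · exact absurd h' hne
      · rw [if_pos h', if_neg (asymm h'), zero_add]
    · simp [h, h.not_gt])
  refine ⟨w, hw, fun k hc => ?_⟩
  by_contra h0
  apply hk k
  rcases lt_or_gt_of_ne h0 with h | h
  · filter_upwards [hc.eventually (gt_mem_nhds h)] with v hv
    simp only [s, hv, h, hv.not_gt, h.not_gt, if_true, if_false]
  · filter_upwards [hc.eventually (lt_mem_nhds h)] with v hv
    simp only [s, hv, h, if_true]

/-- Borsuk-Ulam for continuous odd maps -/
theorem bu_cont {κ : Type} [Fintype κ] {R : ℕ} (hR : Fintype.card κ ≤ R)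
    (Φ : E (R + 1) → κ → ℝ) (hc : Continuous Φ) (ho : ∀ a, Φ (-a) = -Φ a) :
    ∃ a, ‖a‖ = 1 ∧ Φ a = 0 := by
  classical
  obtain ⟨emb⟩ : Nonempty (κ ↪ Fin R) :=
    Function.Embedding.nonempty_of_card_le (by rwa [Fintype.card_fin])
  let t : (Fin (R + 1) → ℝ) → E (R + 1) := fun x => WithLp.toLp 2 x
  have ht : Continuous t := PiLp.continuous_toLp 2 _
  let n : (Fin (R + 1) → ℝ) → E (R + 1) := fun x => ‖t x‖⁻¹ • t x
  have hn : ∀ x, n (-x) = -n x := fun x => by
    have e : t (-x) = -t x := rfl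
    simp only [n, e, norm_neg, smul_neg]
  obtain ⟨w, hw, hk⟩ := kvbu_lab R (fun k x => ∑ i, if emb i = k then Φ (n x) i else 0)
    (fun k x => by
      rw [hn, ho, ← Finset.sum_neg_distrib]
      refine Finset.sum_congr rfl fun i _ => ?_
      split_ifs
      · rfl
      · exact neg_zero.symm)
  have h0 : ‖t w‖ ≠ 0 := norm_ne_zero_iff.2 fun h => hw (congrArg WithLp.ofLp h)
  have hcn : ContinuousAt n w := (ht.norm.continuousAt.inv₀ h0).smul ht.continuousAt
  refine ⟨n w, ?_, funext fun i => ?_⟩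
  · simp only [n]
    rw [norm_smul, norm_inv, norm_norm, inv_mul_cancel₀ h0]
  · have e : ∀ x, (∑ i', if emb i' = emb i then Φ (n x) i' else 0) = Φ (n x) i := fun x => by
      simp only [emb.injective.eq_iff, Finset.sum_ite_eq', Finset.mem_univ, if_true]
    have h1 := hk (emb i)
    simp only [e] at h1
    exact h1 (((continuous_apply i).comp hc).continuousAt.comp hcn)

theorem kvbu_norm {c : ℕ} (y : E c) (G : Fin c → V) :
    ‖∑ a, y a • G a‖ ≤ ‖y‖ * √(∑ a, ‖G a‖ ^ 2) := by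
  have h1 : ‖∑ a, y a • G a‖ ≤ ∑ a, ‖y a‖ * ‖G a‖ :=
    (norm_sum_le _ _).trans (le_of_eq (Finset.sum_congr rfl fun a _ => norm_smul _ _))
  refine h1.trans ?_
  rw [EuclideanSpace.norm_eq]
  exact Real.sum_mul_le_sqrt_mul_sqrt _ _ _

theorem kvbu_markov (c : ℕ) {H : ℝ} (hH : 0 < H) :
    (Measure.pi fun _ : Fin c => stdGaussian V) {G | H ^ 2 ≤ ∑ a, ‖G a‖ ^ 2} ≤
      ENNReal.ofReal (c * (finrank ℝ V : ℝ) / H ^ 2) := by
  let μ : Measure (Fin c → V) := Measure.pi fun _ : Fin c => stdGaussian V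
  have hm : ∀ a : Fin c, MeasurePreserving (fun G : Fin c → V => G a) μ (stdGaussian V) :=
    fun a => measurePreserving_eval (fun _ : Fin c => stdGaussian V) a
  have hi : ∀ a : Fin c, Integrable (fun G : Fin c → V => ‖G a‖ ^ 2) μ := fun a =>
    (hm a).integrable_comp_of_integrable (integrable_norm_pow (V := V) 2)
  have he : ∀ a : Fin c, ∫ G, ‖G a‖ ^ 2 ∂μ = finrank ℝ V := fun a => by
    rw [← integral_norm_sq (V := V), ← (hm a).map_eq,
      integral_map (hm a).measurable.aemeasurable (by fun_prop)]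
  have h1 := mul_meas_ge_le_integral_of_nonneg (μ := μ) (f := fun G => ∑ a, ‖G a‖ ^ 2)
    (ae_of_all _ fun G => Finset.sum_nonneg fun a _ => sq_nonneg _)
    (integrable_finsetSum _ fun a _ => hi a) (H ^ 2)
  rw [integral_finsetSum _ fun a _ => hi a] at h1
  simp only [he, Finset.sum_const, Finset.card_univ, Fintype.card_fin, nsmul_eq_mul] at h1
  rw [← ENNReal.ofReal_toReal (measure_ne_top μ _)]
  refine ENNReal.ofReal_le_ofReal ?_
  rw [le_div_iff₀ (by positivity), mul_comm]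
  exact h1

/-- an odd map has a zero close to a point outside a given set of very small Gaussian measure -/
theorem avoid {κ : Type} [Fintype κ] {R : ℕ} (hR : Fintype.card κ ≤ R) (Φ : V → κ → ℝ)
    (hc : Continuous Φ) (ho : ∀ x, Φ (-x) = -Φ x) (A : Set V) (hA : MeasurableSet A)
    (q H ρ : ℝ) (hq0 : 0 ≤ q) (hq : stdGaussian V A ≤ ENNReal.ofReal q) (hH : 0 < H) (hρ : 0 < ρ)
    (h : (1 + 2 / ρ) ^ (R + 1) * q + (R + 1) * (finrank ℝ V : ℝ) / H ^ 2 < 1) :
    ∃ P P' : V, ‖P‖ ≤ H ∧ Φ P = 0 ∧ ‖P - P'‖ ≤ ρ * H ∧ P' ∉ A := by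
  obtain ⟨F, F1, F2, F3⟩ := net {y : E (R + 1) | ‖y‖ = 1} (fun x hx => le_of_eq hx) ρ hρ
  rw [finrank_euclideanSpace_fin] at F2
  let μ : Measure (Fin (R + 1) → V) := Measure.pi fun _ : Fin (R + 1) => stdGaussian V
  let B1 : Set (Fin (R + 1) → V) := ⋃ y ∈ F, (fun G : Fin (R + 1) → V => ∑ a, y a • G a) ⁻¹' A
  let B2 : Set (Fin (R + 1) → V) := {G | H ^ 2 ≤ ∑ a, ‖G a‖ ^ 2}
  have b1 : μ B1 ≤ ENNReal.ofReal ((1 + 2 / ρ) ^ (R + 1) * q) := by
    refine (measure_biUnion_finset_le _ _).trans ?_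
    refine (Finset.sum_le_card_nsmul F _ (ENNReal.ofReal q) fun y hy => ?_).trans ?_
    · rw [(mp_comb y (F1 y hy)).measure_preimage hA.nullMeasurableSet]
      exact hq
    · rw [nsmul_eq_mul, ← ENNReal.ofReal_natCast, ← ENNReal.ofReal_mul (Nat.cast_nonneg _)]
      exact ENNReal.ofReal_le_ofReal (mul_le_mul_of_nonneg_right F2 hq0)
  have b2 : μ B2 ≤ ENNReal.ofReal ((R + 1) * (finrank ℝ V : ℝ) / H ^ 2) := by
    have := kvbu_markov (V := V) (R + 1) hH
    rwa [Nat.cast_add, Nat.cast_one] at this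
  have hB : μ (B1 ∪ B2) < 1 := by
    refine ((measure_union_le _ _).trans (add_le_add b1 b2)).trans_lt ?_
    rwa [← ENNReal.ofReal_add (by positivity) (by positivity), ENNReal.ofReal_lt_one]
  obtain ⟨G, hG⟩ : ∃ G, G ∉ B1 ∪ B2 := by
    by_contra hcon
    have : B1 ∪ B2 = univ := eq_univ_of_forall fun G => by_contra fun h => hcon ⟨G, h⟩
    rw [this, measure_univ] at hB
    exact lt_irrefl _ hB
  have g1 : ∀ y ∈ F, ∑ a, y a • G a ∉ A := fun y hy hh =>
    hG (Or.inl (mem_iUnion₂.2 ⟨y, hy, hh⟩))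
  have g2 : √(∑ a, ‖G a‖ ^ 2) ≤ H :=
    Real.sqrt_le_iff.2 ⟨hH.le, (not_le.1 fun hh => hG (Or.inr hh)).le⟩
  obtain ⟨y, y1, y2⟩ := bu_cont hR (fun y : E (R + 1) => Φ (∑ a, y a • G a))
    (hc.comp (by fun_prop)) (fun y => by
      rw [← ho, ← Finset.sum_neg_distrib]
      exact congrArg Φ (Finset.sum_congr rfl fun a _ => by rw [PiLp.neg_apply, neg_smul]))
  obtain ⟨y', h1, h2⟩ := F3 y y1
  refine ⟨∑ a, y a • G a, ∑ a, y' a • G a, ?_, y2, ?_, g1 y' h1⟩
  · refine (kvbu_norm y G).trans ?_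
    rwa [y1, one_mul]
  · have c3 : ∑ a, y a • G a - ∑ a, y' a • G a = ∑ a, (y - y') a • G a := by
      rw [← Finset.sum_sub_distrib]
      exact Finset.sum_congr rfl fun a _ => by rw [PiLp.sub_apply, sub_smul]
    rw [c3]
    exact (kvbu_norm _ G).trans (mul_le_mul h2 g2 (Real.sqrt_nonneg _) hρ.le)

end Pool.Agent.P.MP_83f3dc_co.KT
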