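import Pool.Agent.P.MP_83f3dc_co.KUDefs
import Pool.Agent.P.MP_83f3dc_co.KTSmooth

set_option autoImplicit false
set_option linter.unusedSectionVars false
set_option linter.unusedVariables false

open MeasureTheory ProbabilityTheory Module Set Filter Topology
open scoped RealInnerProductSpace ENNReal

noncomputable section

namespace Pool.Agent.P.MP_83f3dc_co.KT

/-- tuples of `c` vectors of `E D`, with the Euclidean norm -/
abbrev VV (c D : ℕ) : Type := PiLp 2 fun _ : Fin c => E D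

/-- the combination of a tuple with coefficients `u` -/
def Lu {c D : ℕ} (u : E c) (x : VV c D) : E D := ∑ a, u a • x a

/-- unit vectors in nearly isotropic position -/
def Fors {D : ℕ} {ι : Type} [Fintype ι] (e : ι → E D) : Prop :=
  (∀ p, ‖e p‖ = 1) ∧ ∀ z, ∑ p, ⟪z, e p⟫ ^ 2 ≤ 3 * (Fintype.card ι : ℝ) / D * ‖z‖ ^ 2

/-- smoothed number of vectors in the slab of width `ω` around the hyperplane orthogonal to `z` -/
def bumpS {D : ℕ} {ι : Type} [Fintype ι] (e : ι → E D) (ω : ℝ) (z : E D) : ℝ :=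
  ∑ p, Real.exp (-⟪z, e p⟫ ^ 2 / (2 * ω ^ 2))

/-- number of vectors in the slab -/
def slabN {D : ℕ} {ι : Type} [Fintype ι] (e : ι → E D) (ω : ℝ) (z : E D) : ℝ :=
  ((Finset.univ.filter fun p => |⟪z, e p⟫| ≤ ω).card : ℝ)

/-- every isotropic family has a `c`-dimensional space of `η`-balanced functionals -/
def CoreP (D c : ℕ) (η : ℝ) : Prop :=
  ∀ (ι : Type) [Fintype ι] (e : ι → E D), Fors e →
    ∃ G : Fin c → E D, LinearIndependent ℝ G ∧ ∀ y : Fin c → ℝ,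
      ((Finset.univ.filter fun p => 0 < ⟪∑ a, y a • G a, e p⟫).card : ℝ) ≤
        (Fintype.card ι : ℝ) * (1 / 2 + η)

/-- the numerical conditions on the parameters -/
def ParV (c m : ℕ) (B C : ℝ) (D : ℕ) (η : ℝ) : Prop :=
  ∃ (θ ϑ ρ τ H W σ : ℝ) (L R : ℕ), 0 < τ ∧ τ * √2 ^ L = θ ∧ θ ≤ ϑ ∧ ϑ ≤ 1 ∧ 0 < ρ ∧ ρ ≤ 1 ∧
    0 < H ∧ 0 ≤ W ∧ 0 < σ ∧ 1 ≤ ϑ * √2 ^ L ∧ C / ρ ^ (c - 1) ≤ R ∧
    (1 + 2 * H / ϑ ^ 2) ^ (R + 1) * ((1 + 2 / σ) ^ c * (Real.exp (c * (2 * m + 1) ^ (m + 1)) *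
      Real.exp (-(D * ϑ) / (3 * (L + 1))))) + (R + 1) * (c * D) / H ^ 2 < 1 ∧
    (1 + 2 / σ) ^ c * (Real.exp (-W) + Real.exp (-((ϑ - τ) / θ) ^ 2 / 2) * D) + c * D / H ^ 2 < 1 ∧
    B * (ρ / θ) ^ (2 * m + 2) * H ^ 2 / 2 + τ / θ + Real.exp (-((ϑ - τ) / θ) ^ 2 / 2) +
      √(12 * ((L : ℝ) + 1) * W * (15 * ϑ) / D) + 1 / D + 4 * H * σ / τ ≤ η

theorem finrank_VV (c D : ℕ) : finrank ℝ (VV c D) = c * D := by
  rw [(WithLp.linearEquiv 2 ℝ (Fin c → E D)).finrank_eq, Module.finrank_pi_fintype]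
  simp

theorem Lu_sub_left {c D : ℕ} (u u' : E c) (x : VV c D) : Lu (u - u') x = Lu u x - Lu u' x := by
  simp only [Lu, PiLp.sub_apply, sub_smul, Finset.sum_sub_distrib]

theorem Lu_add {c D : ℕ} (u : E c) (x y : VV c D) : Lu u (x + y) = Lu u x + Lu u y := by
  simp only [Lu, PiLp.add_apply, smul_add, Finset.sum_add_distrib]

theorem Lu_sub {c D : ℕ} (u : E c) (x y : VV c D) : Lu u (x - y) = Lu u x - Lu u y := by
  simp only [Lu, PiLp.sub_apply, smul_sub, Finset.sum_sub_distrib]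

theorem Lu_smul {c D : ℕ} (u : E c) (t : ℝ) (x : VV c D) : Lu u (t • x) = t • Lu u x := by
  simp only [Lu, PiLp.smul_apply, Finset.smul_sum, smul_comm t]

theorem Lu_neg {c D : ℕ} (u : E c) (x : VV c D) : Lu u (-x) = -Lu u x := by
  simp only [Lu, PiLp.neg_apply, smul_neg, Finset.sum_neg_distrib]

theorem inner_Lu {c D : ℕ} (u : E c) (x : VV c D) (z : E D) :
    ⟪Lu u x, z⟫ = ∑ a, u a * ⟪x a, z⟫ := by
  simp only [Lu, sum_inner, real_inner_smul_left]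

theorem continuous_Lu {c D : ℕ} (u : E c) : Continuous (Lu u : VV c D → E D) := by
  unfold Lu
  fun_prop

theorem norm_Lu_le {c D : ℕ} (u : E c) (x : VV c D) : ‖Lu u x‖ ≤ ‖u‖ * ‖x‖ := by
  have h1 : ‖Lu u x‖ ≤ ∑ a, ‖u a‖ * ‖x a‖ :=
    (norm_sum_le _ _).trans (le_of_eq (Finset.sum_congr rfl fun a _ => norm_smul _ _))
  refine h1.trans ?_
  rw [EuclideanSpace.norm_eq, PiLp.norm_eq_of_L2]
  exact Real.sum_mul_le_sqrt_mul_sqrt _ _ _

theorem mp_Lu {c D : ℕ} (u : E c) (hu : ‖u‖ = 1) :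
    MeasurePreserving (Lu u : VV c D → E D) (stdGaussian (VV c D)) (stdGaussian (E D)) := by
  refine mp_coiso _ (continuous_Lu u).measurable
    (fun t => (WithLp.toLp 2 fun a => u a • t : VV c D)) (fun z t => ?_) fun t => ?_
  · rw [inner_Lu, PiLp.inner_apply]
    exact Finset.sum_congr rfl fun a _ => by simp only [real_inner_smul_right]
  · have h1 : ∑ a, ‖u a‖ ^ 2 = 1 := by rw [← EuclideanSpace.norm_sq_eq, hu, one_pow]
    rw [PiLp.norm_eq_of_L2]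
    simp only [norm_smul, mul_pow]
    rw [← Finset.sum_mul, h1, one_mul, Real.sqrt_sq (norm_nonneg _)]

end Pool.Agent.P.MP_83f3dc_co.KT
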