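import Pool.Agent.P.MP_83f3dc_co.KVDefs
import Pool.Agent.P.MP_83f3dc_co.KUF0
import Pool.Agent.P.MP_83f3dc_co.KTCoreP

set_option autoImplicit false
set_option linter.unusedSectionVars false
set_option linter.unusedVariables false

open MeasureTheory ProbabilityTheory Module Set Filter Topology
open scoped RealInnerProductSpace ENNReal

noncomputable section

namespace Pool.Agent.P.MP_83f3dc_co.KT

theorem gauss_tail {s : ℝ} (hs : 0 ≤ s) :
    (gaussianReal 0 1).real (Ici s) ≤ Real.exp (-s ^ 2 / 2) := by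
  have h := measure_ge_le_exp_mul_mgf (X := id) (μ := gaussianReal 0 1) s hs
    (integrable_exp_mul_gaussianReal s)
  rw [mgf_id_gaussianReal, ← Real.exp_add] at h
  refine le_trans (le_of_eq rfl) (h.trans (le_of_eq ?_))
  congr 1
  simp only [NNReal.coe_one]
  ring

theorem kvfin0_low {s : ℝ} (hs : 0 ≤ s) :
    (gaussianReal 0 1).real (Iic (-s)) ≤ Real.exp (-s ^ 2 / 2) := by
  have h := measure_le_le_exp_mul_mgf (X := id) (μ := gaussianReal 0 1) (-s) (neg_nonpos.2 hs)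
    (integrable_exp_mul_gaussianReal (-s))
  rw [mgf_id_gaussianReal, ← Real.exp_add] at h
  refine le_trans (le_of_eq rfl) (h.trans (le_of_eq ?_))
  congr 1
  simp only [NNReal.coe_one]
  ring

theorem kvfin0_ind (g : ℝ → ℝ) (hg : Integrable g (gaussianReal 0 1)) (h1 : ∀ t, g t ≤ 1)
    {S : Set ℝ} (hS : MeasurableSet S) (h : ∀ t, t ∉ S → g t ≤ 0) :
    ∫ t, g t ∂(gaussianReal 0 1) ≤ (gaussianReal 0 1).real S := by
  rw [← integral_indicator_one hS]
  refine integral_mono hg ((integrable_const (1 : ℝ)).indicator hS) fun t => ?_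
  by_cases ht : t ∈ S
  · rw [indicator_of_mem ht]
    exact h1 t
  · rw [indicator_of_notMem ht]
    exact h t ht

theorem kvfin0_int (τ θ α : ℝ) : Integrable (fun t => ramp τ (α + θ * t)) (gaussianReal 0 1) := by
  refine smooth_bint _ ?_ (fun _ => ramp_nonneg _ _) fun _ => ramp_le_one _ _
  unfold ramp
  fun_prop

theorem kvfin0_zero {τ s : ℝ} (hτ : 0 < τ) (hs : s ≤ -τ) : ramp τ s ≤ 0 := by
  have h : s / τ ≤ -1 := by
    rw [div_le_iff₀ hτ]
    linarith
  exact max_le le_rfl ((min_le_right _ _).trans (by linarith))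

theorem kvfin0_f0 (s : ℝ) : (gaussianReal 0 1).real (Ioi (-s)) ≤ 1 / 2 + f0 s / 2 := by
  have hi : Integrable (fun t : ℝ => Real.sign (s + t)) (gaussianReal 0 1) :=
    Integrable.of_bound (measurable_sign.comp (by fun_prop)).aestronglyMeasurable 1
      (Eventually.of_forall fun x => abs_sign_le _)
  have e : ∫ t, (1 / 2 + Real.sign (s + t) / 2) ∂(gaussianReal 0 1) = 1 / 2 + f0 s / 2 := by
    rw [integral_add (integrable_const _) (hi.div_const 2)]
    simp [f0, integral_div]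
  rw [← e, ← integral_indicator_one measurableSet_Ioi]
  refine integral_mono ((integrable_const (1 : ℝ)).indicator measurableSet_Ioi)
    ((integrable_const _).add (hi.div_const 2)) fun t => ?_
  by_cases ht : t ∈ Ioi (-s)
  · rw [indicator_of_mem ht]
    have h : 0 < s + t := by linarith [mem_Ioi.1 ht]
    simp only [Real.sign_of_pos h, Pi.one_apply]
    norm_num
  · rw [indicator_of_notMem ht]
    have h := (abs_le.1 (abs_sign_le (s + t))).1
    show (0 : ℝ) ≤ 1 / 2 + Real.sign (s + t) / 2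
    linarith

theorem ramp_mean {τ θ : ℝ} (hτ : 0 < τ) (hθ : 0 < θ) (α : ℝ) :
    ∫ t, ramp τ (α + θ * t) ∂(gaussianReal 0 1) ≤ 1 / 2 + f0 (α / θ) / 2 + τ / θ := by
  have h1 := kvfin0_ind _ (kvfin0_int τ θ α) (fun _ => ramp_le_one _ _)
    (S := Ioi (-(α / θ) - τ / θ)) measurableSet_Ioi (fun t ht => kvfin0_zero hτ (by
      have h : t ≤ (-α - τ) / θ := by
        rw [sub_div, neg_div]
        exact not_lt.1 ht
      rw [le_div_iff₀ hθ] at h
      linarith))
  have h2 := smooth_Ioi_sub (a := -(α / θ) - τ / θ) (b := -(α / θ))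
    (by linarith [div_pos hτ hθ])
  linarith [kvfin0_f0 (α / θ)]

theorem ramp_mean_ge {τ θ ϑ α : ℝ} (hτ : 0 < τ) (hθ : 0 < θ) (hϑ : τ ≤ ϑ) (hα : ϑ < α) :
    1 ≤ ∫ t, ramp τ (α + θ * t) ∂(gaussianReal 0 1) + Real.exp (-((ϑ - τ) / θ) ^ 2 / 2) := by
  have hs : 0 ≤ (ϑ - τ) / θ := div_nonneg (by linarith) hθ.le
  have h1 := kvfin0_ind (fun t => 1 - ramp τ (α + θ * t))
    ((integrable_const _).sub (kvfin0_int τ θ α)) (fun _ => sub_le_self _ (ramp_nonneg _ _))
    (S := Iic (-((ϑ - τ) / θ))) measurableSet_Iic (fun t ht => by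
      have h : (τ - ϑ) / θ < t := by
        rw [← neg_sub, neg_div]
        exact not_le.1 ht
      rw [div_lt_iff₀ hθ] at h
      rw [ramp_of_nonneg hτ (by linarith), sub_self])
  rw [integral_sub (integrable_const _) (kvfin0_int τ θ α)] at h1
  have h2 : ∫ _ : ℝ, (1 : ℝ) ∂(gaussianReal 0 1) = 1 := by simp
  linarith [kvfin0_low hs]

theorem ramp_mean_le {τ θ ϑ α : ℝ} (hτ : 0 < τ) (hθ : 0 < θ) (hϑ : τ ≤ ϑ) (hα : α < -ϑ) :
    ∫ t, ramp τ (α + θ * t) ∂(gaussianReal 0 1) ≤ Real.exp (-((ϑ - τ) / θ) ^ 2 / 2) := by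
  have hs : 0 ≤ (ϑ - τ) / θ := div_nonneg (by linarith) hθ.le
  refine (kvfin0_ind _ (kvfin0_int τ θ α) (fun _ => ramp_le_one _ _)
    (S := Ici ((ϑ - τ) / θ)) measurableSet_Ici fun t ht => kvfin0_zero hτ ?_).trans (gauss_tail hs)
  have h : t < (ϑ - τ) / θ := not_le.1 ht
  rw [lt_div_iff₀ hθ] at h
  linarith

end Pool.Agent.P.MP_83f3dc_co.KT
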