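import Pool.Agent.P.MP_83f3dc_co.KVFin0

set_option autoImplicit false
set_option linter.unusedSectionVars false
set_option linter.unusedVariables false

open MeasureTheory ProbabilityTheory Module Set Filter Topology
open scoped RealInnerProductSpace ENNReal

noncomputable section

namespace Pool.Agent.P.MP_83f3dc_co.KT

theorem kvf1_cont (τ : ℝ) : Continuous (ramp τ) := by
  unfold ramp
  fun_prop

theorem kvf1_A {D : ℕ} (hD : 0 < D) {ι : Type} [Fintype ι] (hn : 0 < Fintype.card ι)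
    {e : ι → E D} (he : Fors e) (v : E D) {θ τ β W : ℝ} (L : ℕ) (hτ : 0 < τ)
    (hθ : τ * √2 ^ L = θ) (hβ : 0 < β) (hW : 0 ≤ W) (S : Finset ι)
    (hs : (S.card : ℝ) ≤ (Fintype.card ι : ℝ) * β) :
    stdGaussian (E D) {ξ | ∑ p ∈ S, ∫ t, ramp τ (⟪v, e p⟫ + θ * t) ∂(gaussianReal 0 1) +
      (Fintype.card ι : ℝ) * √(12 * ((L : ℝ) + 1) * W * β / D) ≤
        ∑ p ∈ S, ramp τ ⟪v + θ • ξ, e p⟫} ≤ ENNReal.ofReal (Real.exp (-W)) := by
  have hD' : (0 : ℝ) < D := by exact_mod_cast hD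
  have hn' : (0 : ℝ) < Fintype.card ι := by exact_mod_cast hn
  have hc := kvf1_cont τ
  have hl : ∀ z : E D, (Fintype.card S : ℝ) * ∑ p : S, ⟪z, e p⟫ ^ 2 ≤
      ((Fintype.card ι : ℝ) * √(3 * β / D)) ^ 2 * ‖z‖ ^ 2 := fun z => by
    rw [Fintype.card_coe, Finset.sum_coe_sort S fun p => ⟪z, e p⟫ ^ 2, mul_pow,
      Real.sq_sqrt (by positivity)]
    have h1 : ∑ p ∈ S, ⟪z, e p⟫ ^ 2 ≤ 3 * (Fintype.card ι : ℝ) / D * ‖z‖ ^ 2 :=
      (Finset.sum_le_sum_of_subset_of_nonneg (Finset.subset_univ S)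
        fun _ _ _ => sq_nonneg _).trans (he.2 z)
    calc _ ≤ (Fintype.card ι : ℝ) * β * (3 * (Fintype.card ι : ℝ) / D * ‖z‖ ^ 2) :=
          mul_le_mul hs h1 (Finset.sum_nonneg fun _ _ => sq_nonneg _) (by positivity)
      _ = _ := by ring
  have h := tail (stdGaussian (E D)) (fun ξ => ∑ p ∈ S, ramp τ ⟪v + θ • ξ, e p⟫)
    (Continuous.measurable (by fun_prop))
    (∑ p ∈ S, ∫ t, ramp τ (⟪v, e p⟫ + θ * t) ∂(gaussianReal 0 1))
    (((L : ℝ) + 1) * ((Fintype.card ι : ℝ) * √(3 * β / D)) ^ 2)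
    ((Fintype.card ι : ℝ) * √(12 * ((L : ℝ) + 1) * W * β / D)) (by positivity) (by positivity)
    fun u _ => by
      have h1 := multi (fun p : S => e p) (fun p => he.1 p) _ (by positivity) hl (ramp τ)
        (ramp_nonneg τ) (ramp_le_one τ) τ hτ (ramp_lip hτ) u L v
      rw [hθ, Finset.sum_coe_sort S
        fun p => ∫ t, ramp τ (⟪v, e p⟫ + θ * t) ∂(gaussianReal 0 1)] at h1
      refine le_trans (le_of_eq (lintegral_congr fun ξ => ?_))
        (h1.trans (le_of_eq (congrArg (fun x => ENNReal.ofReal (Real.exp x)) (by ring))))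
      rw [Finset.sum_coe_sort S fun p => ramp τ ⟪v + θ • ξ, e p⟫]
  have e1 : -((Fintype.card ι : ℝ) * √(12 * ((L : ℝ) + 1) * W * β / D)) ^ 2 /
      (4 * (((L : ℝ) + 1) * ((Fintype.card ι : ℝ) * √(3 * β / D)) ^ 2)) = -W := by
    rw [mul_pow, mul_pow, Real.sq_sqrt (by positivity), Real.sq_sqrt (by positivity)]
    field_simp
    ring
  rw [e1] at h
  exact h

theorem kvf1_B {D : ℕ} {ι : Type} [Fintype ι] (hn : 0 < Fintype.card ι)
    {e : ι → E D} (he : Fors e) (v : E D) {θ τ q η : ℝ} (hq : 0 ≤ q) (hη : 0 < η) (T : Finset ι)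
    (hT : ∀ p ∈ T, ∫ t, ramp τ (⟪v, e p⟫ + θ * t) ∂(gaussianReal 0 1) ≤ q) :
    stdGaussian (E D) {ξ | (Fintype.card ι : ℝ) * η ≤ ∑ p ∈ T, ramp τ ⟪v + θ • ξ, e p⟫} ≤
      ENNReal.ofReal (q / η) := by
  have hn' : (0 : ℝ) < Fintype.card ι := by exact_mod_cast hn
  have hc := kvf1_cont τ
  have hi : ∀ p ∈ T, Integrable (fun ξ : E D => ramp τ ⟪v + θ • ξ, e p⟫) (stdGaussian (E D)) :=
    fun p _ => multi_int _ hc (ramp_nonneg τ) (ramp_le_one τ) (by fun_prop)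
  have hm : ∫ ξ, ∑ p ∈ T, ramp τ ⟪v + θ • ξ, e p⟫ ∂(stdGaussian (E D)) ≤
      (Fintype.card ι : ℝ) * q := by
    rw [integral_finsetSum _ hi]
    refine (Finset.sum_le_card_nsmul T _ q fun p hp => le_trans (le_of_eq ?_) (hT p hp)).trans ?_
    · have hp := mp_inner (he.1 p)
      have hcc : Continuous fun t : ℝ => ramp τ (⟪v, e p⟫ + θ * t) := hc.comp (by fun_prop)
      rw [← hp.map_eq, integral_map hp.measurable.aemeasurable hcc.aestronglyMeasurable]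
      refine integral_congr_ae (Eventually.of_forall fun ξ => ?_)
      simp only [inner_add_left, real_inner_smul_left]
    · rw [nsmul_eq_mul]
      exact mul_le_mul_of_nonneg_right (Nat.cast_le.2 (Finset.card_le_univ T)) hq
  have h := (mul_meas_ge_le_integral_of_nonneg
    (Eventually.of_forall fun ξ => Finset.sum_nonneg fun p _ => ramp_nonneg τ _)
    (integrable_finsetSum T hi) ((Fintype.card ι : ℝ) * η)).trans hm
  rw [← ofReal_measureReal (measure_ne_top _ _)]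
  refine ENNReal.ofReal_le_ofReal ?_
  rw [le_div_iff₀ hη]
  refine le_of_mul_le_mul_left ?_ hn'
  linarith

/-- the last, free noise in one direction -/
theorem fin_one {D : ℕ} (hD : 0 < D) {ι : Type} [Fintype ι] (hn : 0 < Fintype.card ι)
    {e : ι → E D} (he : Fors e) (v : E D) {θ ϑ τ β W η₀ η₁ : ℝ} (L : ℕ) (hτ : 0 < τ)
    (hθ : τ * √2 ^ L = θ) (hϑ : τ ≤ ϑ) (hβ : 0 < β) (hW : 0 ≤ W) (hη : 0 < η₁)
    (hs : slabN e ϑ v ≤ (Fintype.card ι : ℝ) * β)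
    (hm : ∑ p, f0 (⟪v, e p⟫ / θ) ≤ (Fintype.card ι : ℝ) * η₀) :
    stdGaussian (E D) {ξ | (Fintype.card ι : ℝ) * (1 / 2 + (η₀ / 2 + τ / θ +
        Real.exp (-((ϑ - τ) / θ) ^ 2 / 2) + √(12 * ((L : ℝ) + 1) * W * β / D) + η₁)) ≤
        ∑ p, ramp τ ⟪v + θ • ξ, e p⟫} ≤
      ENNReal.ofReal (Real.exp (-W) + Real.exp (-((ϑ - τ) / θ) ^ 2 / 2) / η₁) := by
  have hθ0 : 0 < θ := by rw [← hθ]; positivity
  obtain ⟨q, hq⟩ : ∃ q, q = Real.exp (-((ϑ - τ) / θ) ^ 2 / 2) := ⟨_, rfl⟩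
  have hq0 : 0 ≤ q := hq ▸ (Real.exp_pos _).le
  have hA := kvf1_A hD hn he v L hτ hθ hβ hW (Finset.univ.filter fun p => |⟪v, e p⟫| ≤ ϑ) hs
  have hB := kvf1_B hn he v (θ := θ) (τ := τ) hq0 hη (Finset.univ.filter fun p => ⟪v, e p⟫ < -ϑ)
    fun p hp => hq ▸ ramp_mean_le hτ hθ0 hϑ (Finset.mem_filter.1 hp).2
  rw [← hq, ENNReal.ofReal_add (Real.exp_pos _).le (div_nonneg hq0 hη.le)]
  refine le_trans (measure_mono fun ξ hξ => ?_)
    ((measure_union_le _ _).trans (add_le_add hA hB))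
  by_contra hcon
  rw [mem_union, not_or, mem_ofPred_eq, mem_ofPred_eq, not_le, not_le, Finset.sum_filter,
    Finset.sum_filter, Finset.sum_filter] at hcon
  obtain ⟨c1, c2⟩ := hcon
  rw [mem_ofPred_eq] at hξ
  obtain ⟨m, hmd⟩ : ∃ m : ι → ℝ,
      m = fun p => ∫ t, ramp τ (⟪v, e p⟫ + θ * t) ∂(gaussianReal 0 1) := ⟨_, rfl⟩
  have hm' : ∀ p, ∫ t, ramp τ (⟪v, e p⟫ + θ * t) ∂(gaussianReal 0 1) = m p :=
    fun p => by rw [hmd]
  simp only [hm'] at c1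
  have h0 : ∀ p, 0 ≤ m p := fun p => hm' p ▸ integral_nonneg fun t => ramp_nonneg τ _
  have h1 : ∀ p, ramp τ ⟪v + θ • ξ, e p⟫ + (if |⟪v, e p⟫| ≤ ϑ then m p else 0) ≤
      (if |⟪v, e p⟫| ≤ ϑ then ramp τ ⟪v + θ • ξ, e p⟫ else 0) +
        (if ⟪v, e p⟫ < -ϑ then ramp τ ⟪v + θ • ξ, e p⟫ else 0) + (m p + q) := fun p => by
    have r0 := ramp_nonneg τ ⟪v + θ • ξ, e p⟫
    have r1 := ramp_le_one τ ⟪v + θ • ξ, e p⟫
    have m0 := h0 p
    split_ifs with a b b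
    · linarith
    · linarith
    · linarith
    · have a' : ϑ < ⟪v, e p⟫ := by
        by_contra c
        exact a (abs_le.2 ⟨not_lt.1 b, not_lt.1 c⟩)
      have := ramp_mean_ge hτ hθ0 hϑ a'
      rw [hm', ← hq] at this
      linarith
  have h2 := Finset.sum_le_sum fun p (_ : p ∈ Finset.univ) => h1 p
  have h3 : ∑ p, m p ≤ ∑ p, (1 / 2 + f0 (⟪v, e p⟫ / θ) / 2 + τ / θ) :=
    Finset.sum_le_sum fun p _ => hm' p ▸ ramp_mean hτ hθ0 _
  simp only [Finset.sum_add_distrib, Finset.sum_const, Finset.card_univ, nsmul_eq_mul,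
    ← Finset.sum_div] at h2 h3
  generalize √(12 * ((L : ℝ) + 1) * W * β / D) = s at c1 hξ
  simp only [mul_add] at hξ
  have e1 : (Fintype.card ι : ℝ) * (η₀ / 2) = (Fintype.card ι : ℝ) * η₀ / 2 := by ring
  linarith

end Pool.Agent.P.MP_83f3dc_co.KT
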