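import Pool.Agent.P.MP_83f3dc_co.KTG

set_option autoImplicit false
set_option linter.unusedSectionVars false
set_option linter.unusedVariables false

open MeasureTheory ProbabilityTheory Module Set Filter Topology
open scoped RealInnerProductSpace ENNReal

noncomputable section

namespace Pool.Agent.P.MP_83f3dc_co.KT

variable {V : Type} [NormedAddCommGroup V] [InnerProductSpace ℝ V] [FiniteDimensional ℝ V]
  [MeasurableSpace V] [BorelSpace V]

/-- the gradient map of `|x|^2/2 + ν/(2m+2) ∑ ⟪x, w i⟫^(2m+2)` -/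
def proxS {κ : Type} [Fintype κ] (w : κ → V) (ν : ℝ) (m : ℕ) (x : V) : V :=
  x + ν • ∑ i, ⟪x, w i⟫ ^ (2 * m + 1) • w i

theorem kvp1_inner {κ : Type} [Fintype κ] (w : κ → V) (ν : ℝ) (m : ℕ) (x v : V) :
    ⟪proxS w ν m x, v⟫ = ⟪x, v⟫ + ν * ∑ i, ⟪x, w i⟫ ^ (2 * m + 1) * ⟪v, w i⟫ := by
  unfold proxS
  rw [inner_add_left, real_inner_smul_left, sum_inner]
  congr 2
  exact Finset.sum_congr rfl fun i _ => by rw [real_inner_smul_left, real_inner_comm v (w i)]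

theorem kvp1_mono (m : ℕ) (s t : ℝ) : 0 ≤ (s ^ (2 * m + 1) - t ^ (2 * m + 1)) * (s - t) := by
  have ho : Odd (2 * m + 1) := ⟨m, rfl⟩
  have hm : Monotone fun a : ℝ => a ^ (2 * m + 1) := ho.strictMono_pow.monotone
  rcases le_total s t with h | h
  · exact mul_nonneg_of_nonpos_of_nonpos (sub_nonpos.mpr (hm h)) (sub_nonpos.mpr h)
  · exact mul_nonneg (sub_nonneg.mpr (hm h)) (sub_nonneg.mpr h)

theorem kvp1_even (m : ℕ) (s : ℝ) : 0 ≤ s ^ (2 * m + 2) :=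
  Even.pow_nonneg ⟨m + 1, by ring⟩ s

theorem proxS_neg {κ : Type} [Fintype κ] (w : κ → V) (ν : ℝ) (m : ℕ) (x : V) :
    proxS w ν m (-x) = -proxS w ν m x := by
  have ho : Odd (2 * m + 1) := ⟨m, rfl⟩
  unfold proxS
  simp only [inner_neg_left, ho.neg_pow, neg_smul, Finset.sum_neg_distrib, smul_neg, neg_add]

theorem proxS_expand {κ : Type} [Fintype κ] (w : κ → V) {ν : ℝ} (hν : 0 ≤ ν) (m : ℕ) (x y : V) :
    ‖x - y‖ ≤ ‖proxS w ν m x - proxS w ν m y‖ := by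
  have h1 : ‖x - y‖ ^ 2 ≤ ⟪proxS w ν m x - proxS w ν m y, x - y⟫ := by
    rw [inner_sub_left, kvp1_inner, kvp1_inner]
    have h2 : ⟪x, x - y⟫ - ⟪y, x - y⟫ = ‖x - y‖ ^ 2 := by
      rw [← inner_sub_left, real_inner_self_eq_norm_sq]
    have h3 : 0 ≤ ∑ i, ⟪x, w i⟫ ^ (2 * m + 1) * ⟪x - y, w i⟫ -
        ∑ i, ⟪y, w i⟫ ^ (2 * m + 1) * ⟪x - y, w i⟫ := by
      rw [← Finset.sum_sub_distrib]
      refine Finset.sum_nonneg fun i _ => ?_
      rw [← sub_mul, inner_sub_left]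
      exact kvp1_mono m _ _
    have h4 := mul_nonneg hν h3
    rw [mul_sub] at h4
    linarith
  have h5 := real_inner_le_norm (proxS w ν m x - proxS w ν m y) (x - y)
  rcases (norm_nonneg (x - y)).eq_or_lt with h | h
  · rw [← h]
    exact norm_nonneg _
  · have h6 : ‖x - y‖ * ‖x - y‖ ≤ ‖proxS w ν m x - proxS w ν m y‖ * ‖x - y‖ := by
      rw [← sq]
      exact h1.trans h5
    exact le_of_mul_le_mul_right h6 h

theorem proxS_mom {κ : Type} [Fintype κ] (w : κ → V) {ν : ℝ} (hν : 0 ≤ ν) (m : ℕ) (x : V) :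
    ν * ∑ i, ⟪x, w i⟫ ^ (2 * m + 2) ≤ ‖proxS w ν m x‖ ^ 2 := by
  have h1 : ⟪proxS w ν m x, x⟫ = ‖x‖ ^ 2 + ν * ∑ i, ⟪x, w i⟫ ^ (2 * m + 2) := by
    rw [kvp1_inner, real_inner_self_eq_norm_sq]
    congr 2
  have h2 := real_inner_le_norm (proxS w ν m x) x
  have h3 := sq_nonneg (‖proxS w ν m x‖ - ‖x‖)
  have h4 := sq_nonneg ‖proxS w ν m x‖
  have h5 := sq_nonneg ‖x‖
  nlinarith

theorem proxS_surj {κ : Type} [Fintype κ] (w : κ → V) {ν : ℝ} (hν : 0 ≤ ν) (m : ℕ) :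
    Function.Surjective (proxS w ν m) := by
  intro y
  set g : V → ℝ := fun x => ‖x - y‖ ^ 2 / 2 +
    ν / (2 * m + 2) * ∑ i, ⟪x, w i⟫ ^ (2 * m + 2) with hg
  have hc : Continuous g := by
    rw [hg]
    fun_prop
  have hpos : (0 : ℝ) < 2 * m + 2 := by positivity
  have hge : ∀ x, ‖x - y‖ ^ 2 / 2 ≤ g x := fun x => by
    have h1 : 0 ≤ ν / (2 * m + 2) * ∑ i, ⟪x, w i⟫ ^ (2 * m + 2) :=
      mul_nonneg (div_nonneg hν hpos.le) (Finset.sum_nonneg fun i _ => kvp1_even m _)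
    simp only [hg]
    linarith
  have hy0 : 0 ≤ g y := le_trans (by positivity) (hge y)
  obtain ⟨x, -, hx⟩ := (isCompact_closedBall y (g y + 2)).exists_isMinOn
    ⟨y, Metric.mem_closedBall_self (by linarith)⟩ hc.continuousOn
  have hxy : g x ≤ g y := hx (Metric.mem_closedBall_self (by linarith))
  have hmin : ∀ z, g x ≤ g z := fun z => by
    by_cases hz : z ∈ Metric.closedBall y (g y + 2)
    · exact hx hz
    · rw [Metric.mem_closedBall, dist_eq_norm, not_le] at hz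
      have h1 := hge z
      nlinarith
  refine ⟨x, ?_⟩
  have key : ∀ v : V, ⟪proxS w ν m x - y, v⟫ = 0 := fun v => by
    have e1 : ∀ t : ℝ, g (x + t • v) = (‖x - y‖ ^ 2 + 2 * (t * ⟪x - y, v⟫) + t ^ 2 * ‖v‖ ^ 2) / 2 +
        ν / (2 * m + 2) * ∑ i, (⟪x, w i⟫ + t * ⟪v, w i⟫) ^ (2 * m + 2) := fun t => by
      simp only [hg]
      have h1 : x + t • v - y = (x - y) + t • v := by abel
      rw [h1, norm_add_sq_real, real_inner_smul_right, norm_smul, mul_pow, Real.norm_eq_abs,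
        sq_abs]
      simp only [inner_add_left, real_inner_smul_left]
    have hd1 : HasDerivAt (fun t : ℝ => (‖x - y‖ ^ 2 + 2 * (t * ⟪x - y, v⟫) + t ^ 2 * ‖v‖ ^ 2) / 2)
        ⟪x - y, v⟫ 0 := by
      have a1 : HasDerivAt (fun t : ℝ => t * ⟪x - y, v⟫) ⟪x - y, v⟫ 0 := by
        simpa using (hasDerivAt_id (0 : ℝ)).mul_const ⟪x - y, v⟫
      have a2 : HasDerivAt (fun t : ℝ => t ^ 2 * ‖v‖ ^ 2) 0 0 := by
        simpa using (hasDerivAt_pow 2 (0 : ℝ)).mul_const (‖v‖ ^ 2)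
      have a3 := (((a1.const_mul 2).const_add (‖x - y‖ ^ 2)).fun_add a2).div_const 2
      refine a3.congr_deriv ?_
      ring
    have hd2 : ∀ i, HasDerivAt (fun t : ℝ => (⟪x, w i⟫ + t * ⟪v, w i⟫) ^ (2 * m + 2))
        ((2 * m + 2) * (⟪x, w i⟫ ^ (2 * m + 1) * ⟪v, w i⟫)) 0 := fun i => by
      have a1 : HasDerivAt (fun t : ℝ => ⟪x, w i⟫ + t * ⟪v, w i⟫) ⟪v, w i⟫ 0 := by
        simpa using ((hasDerivAt_id (0 : ℝ)).mul_const ⟪v, w i⟫).const_add ⟪x, w i⟫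
      have a2 := a1.fun_pow (2 * m + 2)
      refine a2.congr_deriv ?_
      have : 2 * m + 2 - 1 = 2 * m + 1 := by omega
      rw [this]
      push_cast
      ring
    have hd3 := (HasDerivAt.fun_sum (u := Finset.univ) fun i _ => hd2 i).const_mul
      (ν / (2 * m + 2))
    have hd := hd1.fun_add hd3
    have hloc : IsLocalMin (fun t : ℝ =>
        (‖x - y‖ ^ 2 + 2 * (t * ⟪x - y, v⟫) + t ^ 2 * ‖v‖ ^ 2) / 2 +
        ν / (2 * m + 2) * ∑ i, (⟪x, w i⟫ + t * ⟪v, w i⟫) ^ (2 * m + 2)) 0 := by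
      refine Filter.Eventually.of_forall fun t => ?_
      beta_reduce
      rw [← e1 t, ← e1 0, zero_smul, add_zero]
      exact hmin _
    have h0 := hloc.hasDerivAt_eq_zero hd
    rw [← Finset.mul_sum, ← mul_assoc, div_mul_cancel₀ _ hpos.ne', inner_sub_left] at h0
    rw [inner_sub_left, kvp1_inner]
    linarith
  have h := key (proxS w ν m x - y)
  rw [inner_self_eq_zero] at h
  exact sub_eq_zero.mp h

end Pool.Agent.P.MP_83f3dc_co.KT
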