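import Pool.Agent.P.MP_83f3dc_co.KVProx1

set_option autoImplicit false
set_option linter.unusedSectionVars false
set_option linter.unusedVariables false

open MeasureTheory ProbabilityTheory Module Set Filter Topology
open scoped RealInnerProductSpace ENNReal

noncomputable section

namespace Pool.Agent.P.MP_83f3dc_co.KT

variable {V : Type} [NormedAddCommGroup V] [InnerProductSpace ℝ V] [FiniteDimensional ℝ V]
  [MeasurableSpace V] [BorelSpace V]

/-- determinant of the identity plus a positive semidefinite sum of rank one maps -/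
theorem prox_det {κ : Type} [Fintype κ] (w : κ → V) (t : κ → ℝ) (ht : ∀ i, 0 ≤ t i) :
    |(ContinuousLinearMap.id ℝ V + ∑ i, t i • (innerSL ℝ (w i)).smulRight (w i)).det| ≤
      Real.exp (∑ i, t i * ‖w i‖ ^ 2) := by
  set S := ContinuousLinearMap.id ℝ V + ∑ i, t i • (innerSL ℝ (w i)).smulRight (w i) with hS
  have hap : ∀ x y : V, ⟪S x, y⟫ = ⟪x, y⟫ + ∑ i, t i * (⟪w i, x⟫ * ⟪w i, y⟫) := by
    intro x y
    simp only [hS, add_apply, ContinuousLinearMap.id_apply,
      sum_apply, smul_apply,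
      ContinuousLinearMap.smulRight_apply, innerSL_apply_apply, inner_add_left, sum_inner,
      real_inner_smul_left]
  have hT : (S : V →ₗ[ℝ] V).IsSymmetric := by
    intro x y
    change ⟪S x, y⟫ = ⟪x, S y⟫
    rw [real_inner_comm (S y) x, hap, hap, real_inner_comm x y]
    simp only [mul_comm ⟪w _, x⟫]
  set b := hT.eigenvectorBasis rfl with hb
  have hev : ∀ j, hT.eigenvalues rfl j = 1 + ∑ i, t i * ⟪w i, b j⟫ ^ 2 := by
    intro j
    have h1 : S (b j) = hT.eigenvalues rfl j • b j := hT.apply_eigenvectorBasis rfl j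
    have h2 := hap (b j) (b j)
    have h3 : ⟪b j, b j⟫ = 1 := by rw [real_inner_self_eq_norm_sq, b.orthonormal.1 j, one_pow]
    rw [h1, real_inner_smul_left, h3, mul_one] at h2
    simp only [h2, sq]
  have hdet : S.det = ∏ j, (1 + ∑ i, t i * ⟪w i, b j⟫ ^ 2) := by
    have h := hT.det_eq_prod_eigenvalues rfl
    simp only [hev] at h
    exact h
  have h0 : ∀ j, 0 ≤ ∑ i, t i * ⟪w i, b j⟫ ^ 2 := fun j =>
    Finset.sum_nonneg fun i _ => mul_nonneg (ht i) (sq_nonneg _)
  rw [hdet, abs_of_nonneg (Finset.prod_nonneg fun j _ => add_nonneg zero_le_one (h0 j))]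
  refine (Finset.prod_le_prod (fun j _ => add_nonneg zero_le_one (h0 j))
    fun j _ => (add_comm _ _).trans_le (Real.add_one_le_exp _)).trans (le_of_eq ?_)
  rw [← Real.exp_sum, Finset.sum_comm]
  congr 1
  refine Finset.sum_congr rfl fun i _ => ?_
  rw [← Finset.mul_sum, b.sum_sq_inner_left]

theorem kvprox2_deriv {κ : Type} [Fintype κ] (w : κ → V) (ν : ℝ) (m : ℕ) (x : V) :
    HasFDerivAt (proxS w ν m) (ContinuousLinearMap.id ℝ V +
      ∑ i, (ν * ((2 * m + 1) * ⟪x, w i⟫ ^ (2 * m))) • (innerSL ℝ (w i)).smulRight (w i)) x := by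
  have h1 : ∀ i, HasFDerivAt (fun y : V => ⟪y, w i⟫) (innerSL ℝ (w i)) x := fun i => by
    have h := (innerSL ℝ (w i)).hasFDerivAt (x := x)
    refine h.congr_of_eventuallyEq (Eventually.of_forall fun y => ?_)
    simp only [innerSL_apply_apply, real_inner_comm]
  have h2 := (hasFDerivAt_id x).add ((HasFDerivAt.fun_sum (u := Finset.univ) fun i _ =>
    ((h1 i).pow (2 * m + 1)).smul_const (w i)).const_smul ν)
  refine HasFDerivAt.congr_fderiv h2 ?_
  ext y
  simp only [add_apply, ContinuousLinearMap.id_apply,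
    sum_apply, smul_apply,
    ContinuousLinearMap.smulRight_apply, innerSL_apply_apply, Finset.smul_sum, smul_smul,
    Nat.add_sub_cancel, smul_eq_mul, nsmul_eq_mul]
  congr 1
  refine Finset.sum_congr rfl fun i _ => ?_
  congr 1
  push_cast
  ring

theorem kvprox2_num (m : ℕ) (s : ℝ) :
    (2 * m + 1) * s ^ (2 * m) - s ^ (2 * m + 2) ≤ (2 * m + 1) ^ (m + 1) := by
  have h0 : 0 ≤ s ^ 2 := sq_nonneg s
  have ha : (0 : ℝ) ≤ 2 * m + 1 := by positivity
  have e : s ^ (2 * m + 2) = s ^ 2 * (s ^ 2) ^ m := by ring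
  rw [e, pow_mul, pow_succ' _ m]
  have h1 : 0 ≤ (s ^ 2) ^ m := pow_nonneg h0 m
  rcases le_total (s ^ 2) (2 * m + 1) with h | h
  · have h2 := mul_le_mul_of_nonneg_left (pow_le_pow_left₀ h0 h m) ha
    have h3 := mul_nonneg h0 h1
    linarith
  · have h2 := mul_le_mul_of_nonneg_right h h1
    have h3 := mul_nonneg ha (pow_nonneg ha m)
    linarith

theorem kvprox2_norm {κ : Type} [Fintype κ] (w : κ → V) (ν : ℝ) (m : ℕ) (x : V) :
    ‖x‖ ^ 2 + 2 * (ν * ∑ i, ⟪x, w i⟫ ^ (2 * m + 2)) ≤ ‖proxS w ν m x‖ ^ 2 := by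
  unfold proxS
  rw [norm_add_sq_real, real_inner_smul_right, inner_sum]
  simp only [real_inner_smul_right, ← pow_succ]
  exact le_add_of_nonneg_right (sq_nonneg _)

theorem proxS_image {κ : Type} [Fintype κ] (w : κ → V) (hw : ∀ i, ‖w i‖ ≤ 1) {ν : ℝ}
    (hν : 0 ≤ ν) (m : ℕ) (A : Set V) (hA : MeasurableSet A) :
    stdGaussian V (proxS w ν m '' A) ≤
      ENNReal.ofReal (Real.exp (ν * Fintype.card κ * (2 * m + 1) ^ (m + 1))) * stdGaussian V A := by
  have hinj : Function.Injective (proxS w ν m) := fun x y h => by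
    have := proxS_expand w hν m x y
    rw [h, sub_self, norm_zero] at this
    exact sub_eq_zero.1 (norm_le_zero_iff.1 this)
  have hd := fun x (_ : x ∈ A) => (kvprox2_deriv w ν m x).hasFDerivWithinAt (s := A)
  have hc : 0 ≤ (2 * Real.pi) ^ (-(finrank ℝ V : ℝ) / 2) := by positivity
  rw [stdGaussian_eq_withDensity,
    withDensity_apply _ (measurable_image_of_fderivWithin hA hd hinj.injOn),
    withDensity_apply _ hA, lintegral_image_eq_lintegral_abs_det_fderiv_mul _ hA hd hinj.injOn,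
    ← lintegral_const_mul' _ _ ENNReal.ofReal_ne_top]
  refine lintegral_mono fun x => ?_
  rw [← ENNReal.ofReal_mul (abs_nonneg _), ← ENNReal.ofReal_mul (Real.exp_pos _).le]
  refine ENNReal.ofReal_le_ofReal ?_
  have ht : ∀ i, 0 ≤ ν * ((2 * m + 1) * ⟪x, w i⟫ ^ (2 * m)) := fun i =>
    mul_nonneg hν (mul_nonneg (by positivity) (by rw [pow_mul]; positivity))
  have h1 := prox_det w _ ht
  have h2 : ∑ i, ν * ((2 * m + 1) * ⟪x, w i⟫ ^ (2 * m)) * ‖w i‖ ^ 2 ≤
      ν * ∑ i, ⟪x, w i⟫ ^ (2 * m + 2) + ν * Fintype.card κ * (2 * m + 1) ^ (m + 1) := by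
    have h3 : ∀ i, ν * ((2 * m + 1) * ⟪x, w i⟫ ^ (2 * m)) * ‖w i‖ ^ 2 ≤
        ν * ⟪x, w i⟫ ^ (2 * m + 2) + ν * (2 * m + 1) ^ (m + 1) := fun i => by
      have a1 := mul_le_of_le_one_right (ht i) (pow_le_one₀ (norm_nonneg _) (hw i) (n := 2))
      have a2 := mul_le_mul_of_nonneg_left (kvprox2_num m ⟪x, w i⟫) hν
      linarith
    refine (Finset.sum_le_sum fun i _ => h3 i).trans (le_of_eq ?_)
    rw [Finset.sum_add_distrib, ← Finset.mul_sum, Finset.sum_const, Finset.card_univ,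
      nsmul_eq_mul]
    ring
  have h4 := kvprox2_norm w ν m x
  refine (mul_le_mul_of_nonneg_right h1 (by positivity)).trans ?_
  rw [mul_left_comm, mul_left_comm (Real.exp _), ← Real.exp_add, ← Real.exp_add]
  exact mul_le_mul_of_nonneg_left (Real.exp_le_exp.mpr (by linarith)) hc

/-- an odd contraction that cuts the high moments and has bounded Gaussian density -/
theorem prox {κ : Type} [Fintype κ] (w : κ → V) (hw : ∀ i, ‖w i‖ ≤ 1) {ν : ℝ} (hν : 0 ≤ ν)
    (m : ℕ) : ∃ T : V → V, (∀ x, T (-x) = -T x) ∧ (∀ x y, ‖T x - T y‖ ≤ ‖x - y‖) ∧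
      (∀ x, ν * ∑ i, ⟪T x, w i⟫ ^ (2 * m + 2) ≤ ‖x‖ ^ 2) ∧ ∀ A, MeasurableSet A →
        stdGaussian V (T ⁻¹' A) ≤
          ENNReal.ofReal (Real.exp (ν * Fintype.card κ * (2 * m + 1) ^ (m + 1))) *
            stdGaussian V A := by
  choose T hT using proxS_surj w hν m
  have hinj : Function.Injective (proxS w ν m) := fun x y h => by
    have := proxS_expand w hν m x y
    rw [h, sub_self, norm_zero] at this
    exact sub_eq_zero.1 (norm_le_zero_iff.1 this)
  refine ⟨T, fun x => hinj (by rw [hT, proxS_neg, hT]), fun x y => ?_, fun x => ?_, fun A hA => ?_⟩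
  · simpa only [hT] using proxS_expand w hν m (T x) (T y)
  · simpa only [hT] using proxS_mom w hν m (T x)
  · refine le_trans (measure_mono fun x hx => ?_) (proxS_image w hw hν m A hA)
    exact ⟨T x, hx, hT x⟩

end Pool.Agent.P.MP_83f3dc_co.KT
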