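import Pool.Agent.P.MP_83f3dc_co.KVDefs
import Pool.Agent.P.MP_83f3dc_co.KTConc

set_option autoImplicit false
set_option linter.unusedSectionVars false
set_option linter.unusedVariables false

open MeasureTheory ProbabilityTheory Module Set Filter Topology
open scoped RealInnerProductSpace ENNReal

noncomputable section

namespace Pool.Agent.P.MP_83f3dc_co.KT

theorem kvslab1_g_lip {ω : ℝ} (hω : 0 < ω) (s t : ℝ) :
    |Real.exp (-s ^ 2 / (4 * ω ^ 2)) - Real.exp (-t ^ 2 / (4 * ω ^ 2))| ≤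
      1 / (2 * ω) * |s - t| := by
  have hd : ∀ x : ℝ, HasDerivAt (fun x : ℝ => Real.exp (-x ^ 2 / (4 * ω ^ 2)))
      (Real.exp (-x ^ 2 / (4 * ω ^ 2)) * (-(2 * x) / (4 * ω ^ 2))) x := by
    intro x
    have h1 : HasDerivAt (fun x : ℝ => -x ^ 2 / (4 * ω ^ 2)) (-(2 * x) / (4 * ω ^ 2)) x := by
      have h2 := ((hasDerivAt_pow 2 x).neg).div_const (4 * ω ^ 2)
      simpa using h2
    exact h1.exp
  have hb : ∀ x : ℝ, ‖Real.exp (-x ^ 2 / (4 * ω ^ 2)) * (-(2 * x) / (4 * ω ^ 2))‖ ≤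
      1 / (2 * ω) := by
    intro x
    have h1 : |x| / ω ≤ Real.exp (x ^ 2 / (4 * ω ^ 2)) := by
      have h2 := Real.add_one_le_exp (x ^ 2 / (4 * ω ^ 2))
      have h3 : x ^ 2 / (4 * ω ^ 2) = (|x| / ω) ^ 2 / 4 := by
        rw [div_pow, sq_abs]
        field_simp
      nlinarith [sq_nonneg (|x| / ω - 2)]
    have h4 : ‖Real.exp (-x ^ 2 / (4 * ω ^ 2)) * (-(2 * x) / (4 * ω ^ 2))‖ =
        1 / (2 * ω) * (|x| / ω / Real.exp (x ^ 2 / (4 * ω ^ 2))) := by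
      rw [Real.norm_eq_abs, abs_mul, abs_of_pos (Real.exp_pos _), abs_div, abs_neg, abs_mul,
        abs_of_pos (by positivity : (0 : ℝ) < 4 * ω ^ 2), abs_two, neg_div, Real.exp_neg]
      field_simp
      norm_num
    rw [h4]
    exact mul_le_of_le_one_right (by positivity) ((div_le_one (Real.exp_pos _)).2 h1)
  have h := Convex.norm_image_sub_le_of_norm_hasDerivWithin_le (s := (univ : Set ℝ))
    (fun x _ => (hd x).hasDerivWithinAt) (fun x _ => hb x) convex_univ (mem_univ t) (mem_univ s)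
  simpa only [Real.norm_eq_abs] using h

theorem kvslab1_nonneg {D : ℕ} {ι : Type} [Fintype ι] (e : ι → E D) (ω : ℝ) (z : E D) :
    0 ≤ bumpS e ω z := Finset.sum_nonneg fun _ _ => (Real.exp_pos _).le

theorem kvslab1_norm {D : ℕ} {ι : Type} [Fintype ι] (e : ι → E D) {ω : ℝ} (hω : 0 < ω) (z : E D) :
    √(bumpS e ω z) = ‖(WithLp.toLp 2 fun p => Real.exp (-⟪z, e p⟫ ^ 2 / (4 * ω ^ 2)) :
      EuclideanSpace ℝ ι)‖ := by
  rw [EuclideanSpace.norm_eq]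
  congr 1
  refine Finset.sum_congr rfl fun p _ => ?_
  rw [Real.norm_eq_abs, sq_abs, ← Real.exp_nat_mul]
  congr 1
  push_cast
  field_simp
  norm_num

theorem kvslab1_int_le {D : ℕ} {f : E D → ℝ} (h1 : Integrable f (stdGaussian (E D)))
    (h2 : Integrable (fun x => f x ^ 2) (stdGaussian (E D))) :
    ∫ x, f x ∂(stdGaussian (E D)) ≤ √(∫ x, f x ^ 2 ∂(stdGaussian (E D))) := by
  set A : ℝ := ∫ x, f x ∂(stdGaussian (E D)) with hA
  have h4 : ∫ x, (2 * A * f x - A ^ 2) ∂(stdGaussian (E D)) ≤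
      ∫ x, f x ^ 2 ∂(stdGaussian (E D)) := by
    refine integral_mono ((h1.const_mul _).sub (integrable_const _)) h2 fun x => ?_
    nlinarith [sq_nonneg (f x - A)]
  rw [integral_sub (h1.const_mul _) (integrable_const _), integral_const_mul] at h4
  simp only [integral_const, probReal_univ, smul_eq_mul, one_mul] at h4
  refine Real.le_sqrt_of_sq_le ?_
  rw [← hA] at h4
  nlinarith

theorem slab_lip {D : ℕ} (hD : 0 < D) {ι : Type} [Fintype ι] {e : ι → E D} (he : Fors e)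
    {ω : ℝ} (hω : 0 < ω) (z z' : E D) :
    |√(bumpS e ω z) - √(bumpS e ω z')| ≤
      √(3 * (Fintype.card ι : ℝ) / D) / (2 * ω) * ‖z - z'‖ := by
  rw [kvslab1_norm e hω, kvslab1_norm e hω]
  refine (abs_norm_sub_norm_le _ _).trans ?_
  rw [EuclideanSpace.norm_eq]
  refine Real.sqrt_le_iff.2 ⟨by positivity, ?_⟩
  have h1 : ∀ p, ‖((WithLp.toLp 2 fun p => Real.exp (-⟪z, e p⟫ ^ 2 / (4 * ω ^ 2)) :
      EuclideanSpace ℝ ι) - (WithLp.toLp 2 fun p => Real.exp (-⟪z', e p⟫ ^ 2 / (4 * ω ^ 2)) :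
      EuclideanSpace ℝ ι)) p‖ ^ 2 ≤ (1 / (2 * ω)) ^ 2 * ⟪z - z', e p⟫ ^ 2 := by
    intro p
    have h2 := kvslab1_g_lip hω ⟪z, e p⟫ ⟪z', e p⟫
    have h3 := pow_le_pow_left₀ (abs_nonneg _) h2 2
    rw [mul_pow, sq_abs (_ - _ : ℝ), sq_abs (_ - _ : ℝ), ← inner_sub_left] at h3
    rw [PiLp.sub_apply, Real.norm_eq_abs, sq_abs]
    exact h3
  refine (Finset.sum_le_sum fun p _ => h1 p).trans ?_
  rw [← Finset.mul_sum]
  refine (mul_le_mul_of_nonneg_left (he.2 (z - z')) (by positivity)).trans (le_of_eq ?_)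
  rw [mul_pow, div_pow, div_pow, Real.sq_sqrt (by positivity)]
  ring

theorem bump_conv {ω : ℝ} (hω : 0 < ω) (σ s : ℝ) :
    ∫ t, Real.exp (-(s + σ * t) ^ 2 / (2 * ω ^ 2)) ∂(gaussianReal 0 1) =
      ω / √(ω ^ 2 + σ ^ 2) * Real.exp (-s ^ 2 / (2 * √(ω ^ 2 + σ ^ 2) ^ 2)) := by
  have hq : 0 < ω ^ 2 + σ ^ 2 := by positivity
  have hpi := Real.pi_pos
  rw [integral_gaussianReal_eq_integral_smul one_ne_zero, Real.sq_sqrt hq.le]
  have h1 : ∀ t : ℝ, gaussianPDFReal 0 1 t • Real.exp (-(s + σ * t) ^ 2 / (2 * ω ^ 2)) =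
      (√(2 * Real.pi))⁻¹ * Real.exp (-s ^ 2 / (2 * (ω ^ 2 + σ ^ 2))) *
        Real.exp (-((ω ^ 2 + σ ^ 2) / (2 * ω ^ 2)) * (t + s * σ / (ω ^ 2 + σ ^ 2)) ^ 2) := by
    intro t
    rw [smul_eq_mul, gaussianPDFReal, NNReal.coe_one, mul_one, mul_assoc, mul_assoc,
      ← Real.exp_add, ← Real.exp_add]
    congr 2
    field_simp
    ring
  simp_rw [h1]
  rw [integral_const_mul, integral_add_right_eq_self
    (fun t : ℝ => Real.exp (-((ω ^ 2 + σ ^ 2) / (2 * ω ^ 2)) * t ^ 2)), integral_gaussian,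
    mul_right_comm]
  congr 1
  rw [show Real.pi / ((ω ^ 2 + σ ^ 2) / (2 * ω ^ 2)) = 2 * Real.pi * (ω ^ 2 / (ω ^ 2 + σ ^ 2)) by
    field_simp, Real.sqrt_mul (by positivity) (ω ^ 2 / (ω ^ 2 + σ ^ 2)),
    Real.sqrt_div (sq_nonneg ω), Real.sqrt_sq hω.le,
    ← mul_assoc, inv_mul_cancel₀ (Real.sqrt_pos.2 (by positivity)).ne', one_mul]

theorem slab_step {D : ℕ} (hD : 0 < D) {ι : Type} [Fintype ι] {e : ι → E D} (he : Fors e)
    {ϑ ω σ : ℝ} (hϑ : 0 < ϑ) (hω : ϑ ≤ ω) (hσ0 : 0 ≤ σ) (hσ : σ ≤ ω) {l : ℝ} (hl : 0 ≤ l)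
    (x : E D) :
    ∫⁻ ξ, ENNReal.ofReal (Real.exp (l * √(ϑ / ω * bumpS e ω (x + σ • ξ)))) ∂(stdGaussian (E D)) ≤
      ENNReal.ofReal (Real.exp (l * √(ϑ / √(ω ^ 2 + σ ^ 2) * bumpS e √(ω ^ 2 + σ ^ 2) x) +
        l ^ 2 * (3 * (Fintype.card ι : ℝ) / (4 * D)))) := by
  have hω0 : 0 < ω := hϑ.trans_le hω
  have hr0 : 0 ≤ ϑ / ω := by positivity
  have hr1 : √(ϑ / ω) ≤ 1 := Real.sqrt_le_one.2 ((div_le_one hω0).2 hω)
  have hlip : ∀ ξ ξ' : E D, |√(ϑ / ω * bumpS e ω (x + σ • ξ)) - √(ϑ / ω * bumpS e ω (x + σ • ξ'))| ≤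
      √(3 * (Fintype.card ι : ℝ) / D) / 2 * ‖ξ - ξ'‖ := by
    intro ξ ξ'
    rw [Real.sqrt_mul hr0, Real.sqrt_mul hr0, ← mul_sub, abs_mul, abs_of_nonneg (Real.sqrt_nonneg _)]
    refine (mul_le_of_le_one_left (abs_nonneg _) hr1).trans ((slab_lip hD he hω0 _ _).trans ?_)
    rw [add_sub_add_left_eq_sub, ← smul_sub, norm_smul, Real.norm_of_nonneg hσ0]
    have h1 : √(3 * (Fintype.card ι : ℝ) / D) / (2 * ω) * (σ * ‖ξ - ξ'‖) =
        √(3 * (Fintype.card ι : ℝ) / D) / 2 * ‖ξ - ξ'‖ * (σ / ω) := by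
      field_simp
    rw [h1]
    exact mul_le_of_le_one_right (by positivity) ((div_le_one hω0).2 hσ)
  have hi := (lip_integrable _ _ (by positivity) hlip).2
  have hsq : ∀ ξ : E D, √(ϑ / ω * bumpS e ω (x + σ • ξ)) ^ 2 =
      ϑ / ω * ∑ p, Real.exp (-(⟪x, e p⟫ + σ * ⟪ξ, e p⟫) ^ 2 / (2 * ω ^ 2)) := by
    intro ξ
    rw [Real.sq_sqrt (mul_nonneg hr0 (kvslab1_nonneg e ω _))]
    simp only [bumpS, inner_add_left, real_inner_smul_left]
  have hterm : ∀ p, Integrable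
      (fun ξ : E D => Real.exp (-(⟪x, e p⟫ + σ * ⟪ξ, e p⟫) ^ 2 / (2 * ω ^ 2)))
      (stdGaussian (E D)) := by
    intro p
    refine Integrable.mono' (integrable_const (1 : ℝ)) (Continuous.aestronglyMeasurable (by fun_prop))
      (ae_of_all _ fun ξ => ?_)
    rw [Real.norm_of_nonneg (Real.exp_pos _).le, Real.exp_le_one_iff]
    exact div_nonpos_of_nonpos_of_nonneg (neg_nonpos.2 (sq_nonneg _)) (by positivity)
  have hval : ∀ p, ∫ ξ, Real.exp (-(⟪x, e p⟫ + σ * ⟪ξ, e p⟫) ^ 2 / (2 * ω ^ 2))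
      ∂(stdGaussian (E D)) = ω / √(ω ^ 2 + σ ^ 2) *
        Real.exp (-⟪x, e p⟫ ^ 2 / (2 * √(ω ^ 2 + σ ^ 2) ^ 2)) := by
    intro p
    have hm := mp_inner (V := E D) (he.1 p)
    rw [← bump_conv hω0 σ ⟪x, e p⟫, ← hm.map_eq,
      integral_map hm.measurable.aemeasurable (Continuous.aestronglyMeasurable (by fun_prop))]
  have hi2 : Integrable (fun ξ : E D => √(ϑ / ω * bumpS e ω (x + σ • ξ)) ^ 2)
      (stdGaussian (E D)) := by
    simp_rw [hsq]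
    exact (integrable_finsetSum _ fun p _ => hterm p).const_mul _
  have hint := kvslab1_int_le hi hi2
  have hE : ∫ ξ, √(ϑ / ω * bumpS e ω (x + σ • ξ)) ^ 2 ∂(stdGaussian (E D)) =
      ϑ / √(ω ^ 2 + σ ^ 2) * bumpS e √(ω ^ 2 + σ ^ 2) x := by
    simp_rw [hsq]
    rw [integral_const_mul, integral_finsetSum _ fun p _ => hterm p]
    simp_rw [hval]
    rw [← Finset.mul_sum, ← mul_assoc, div_mul_div_cancel₀ hω0.ne']
    rfl
  rw [hE] at hint
  refine (conc _ _ (by positivity) hlip l).trans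
    (ENNReal.ofReal_le_ofReal (Real.exp_le_exp.2 ?_))
  have h1 : (√(3 * (Fintype.card ι : ℝ) / D) / 2) ^ 2 = 3 * (Fintype.card ι : ℝ) / (4 * D) := by
    rw [div_pow, Real.sq_sqrt (by positivity)]
    ring
  rw [h1]
  have h2 := mul_le_mul_of_nonneg_left hint hl
  linarith

end Pool.Agent.P.MP_83f3dc_co.KT
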