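import Pool.Agent.P.MP_83f3dc_co.KVSlab1
import Pool.Agent.P.MP_83f3dc_co.KTTail
import Pool.Agent.P.MP_83f3dc_co.KTMulti

set_option autoImplicit false
set_option linter.unusedSectionVars false
set_option linter.unusedVariables false

open MeasureTheory ProbabilityTheory Module Set Filter Topology
open scoped RealInnerProductSpace ENNReal

noncomputable section

namespace Pool.Agent.P.MP_83f3dc_co.KT

theorem slab_multi {D : ℕ} (hD : 0 < D) {ι : Type} [Fintype ι] {e : ι → E D} (he : Fors e)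
    {ϑ τ : ℝ} (hτ : 0 < τ) (hϑ : τ ≤ ϑ) {l : ℝ} (hl : 0 ≤ l) (L : ℕ) (x : E D) :
    ∫⁻ ξ, ENNReal.ofReal (Real.exp (l * √(bumpS e ϑ (x + (τ * √2 ^ L) • ξ))))
        ∂(stdGaussian (E D)) ≤
      ENNReal.ofReal (Real.exp (l * √(ϑ / √(ϑ ^ 2 + (τ * √2 ^ L) ^ 2) *
        bumpS e √(ϑ ^ 2 + (τ * √2 ^ L) ^ 2) x) +
        l ^ 2 * (((L : ℝ) + 1) * (3 * (Fintype.card ι : ℝ) / (4 * D))))) := by
  have hϑ0 : 0 < ϑ := hτ.trans_le hϑ
  induction L generalizing x with
  | zero =>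
    have h := slab_step hD he hϑ0 le_rfl hτ.le hϑ hl x
    simpa only [pow_zero, mul_one, Nat.cast_zero, zero_add, one_mul, div_self hϑ0.ne'] using h
  | succ L ih =>
    have h2 : (√2 : ℝ) ≠ 0 := by positivity
    obtain ⟨σ, hσ⟩ : ∃ σ, σ = τ * √2 ^ L := ⟨_, rfl⟩
    have hσ0 : 0 < σ := by rw [hσ]; positivity
    have hs : τ * √2 ^ (L + 1) = σ * √2 := by rw [hσ, pow_succ, mul_assoc]
    rw [← hσ] at ih
    rw [hs]
    obtain ⟨ω, hω⟩ : ∃ ω, ω = √(ϑ ^ 2 + σ ^ 2) := ⟨_, rfl⟩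
    rw [← hω] at ih
    have hω1 : ϑ ≤ ω := by
      rw [hω]
      exact Real.le_sqrt_of_sq_le (by nlinarith [sq_nonneg σ])
    have hω2 : σ ≤ ω := by
      rw [hω]
      exact Real.le_sqrt_of_sq_le (by nlinarith [sq_nonneg ϑ])
    have hω3 : ω ^ 2 + σ ^ 2 = ϑ ^ 2 + (σ * √2) ^ 2 := by
      rw [hω, Real.sq_sqrt (by positivity), mul_pow, Real.sq_sqrt (by norm_num)]
      ring
    have hp := mp_two (V := E D) multi_sq
    have hF : Measurable fun ξ : E D =>
        ENNReal.ofReal (Real.exp (l * √(bumpS e ϑ (x + (σ * √2) • ξ)))) := by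
      have : Continuous fun ξ : E D => Real.exp (l * √(bumpS e ϑ (x + (σ * √2) • ξ))) := by
        unfold bumpS
        fun_prop
      exact this.measurable.ennreal_ofReal
    have hG : Measurable fun ζ : E D =>
        ENNReal.ofReal (Real.exp (l * √(ϑ / ω * bumpS e ω (x + σ • ζ)))) := by
      have : Continuous fun ζ : E D => Real.exp (l * √(ϑ / ω * bumpS e ω (x + σ • ζ))) := by
        unfold bumpS
        fun_prop
      exact this.measurable.ennreal_ofReal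
    have e1 : ∀ ζ ξ : E D, x + (σ * √2) • ((√2 : ℝ)⁻¹ • ζ + (√2 : ℝ)⁻¹ • ξ) =
        x + σ • ζ + σ • ξ := fun ζ ξ => by
      rw [smul_add, smul_smul, smul_smul, mul_assoc, mul_inv_cancel₀ h2, mul_one, add_assoc]
    rw [← hp.lintegral_comp hF]
    refine (lintegral_prod _ (hF.comp hp.measurable).aemeasurable).le.trans ?_
    calc ∫⁻ ζ, ∫⁻ ξ, ENNReal.ofReal (Real.exp (l * √(bumpS e ϑ
            (x + (σ * √2) • ((√2 : ℝ)⁻¹ • ζ + (√2 : ℝ)⁻¹ • ξ)))))
            ∂(stdGaussian (E D)) ∂(stdGaussian (E D))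
        ≤ ∫⁻ ζ, ENNReal.ofReal (Real.exp (l * √(ϑ / ω * bumpS e ω (x + σ • ζ)))) *
            ENNReal.ofReal (Real.exp
              (l ^ 2 * (((L : ℝ) + 1) * (3 * (Fintype.card ι : ℝ) / (4 * D)))))
            ∂(stdGaussian (E D)) := by
          refine lintegral_mono fun ζ => ?_
          have h := ih (x + σ • ζ)
          rw [Real.exp_add, ENNReal.ofReal_mul (Real.exp_pos _).le] at h
          simp only [e1]
          exact h
      _ ≤ ENNReal.ofReal (Real.exp (l * √(ϑ / √(ω ^ 2 + σ ^ 2) * bumpS e √(ω ^ 2 + σ ^ 2) x) +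
            l ^ 2 * (3 * (Fintype.card ι : ℝ) / (4 * D)))) *
            ENNReal.ofReal (Real.exp
              (l ^ 2 * (((L : ℝ) + 1) * (3 * (Fintype.card ι : ℝ) / (4 * D))))) := by
          rw [lintegral_mul_const _ hG]
          exact mul_le_mul_left (slab_step hD he hϑ0 hω1 hσ0.le hω2 hl x) _
      _ = _ := by
          rw [← ENNReal.ofReal_mul (Real.exp_pos _).le, ← Real.exp_add, hω3]
          congr 2
          push_cast
          ring

theorem slab_tail {D : ℕ} (hD : 0 < D) {ι : Type} [Fintype ι] (hn : 0 < Fintype.card ι)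
    {e : ι → E D} (he : Fors e) {ϑ : ℝ} (hϑ : 0 < ϑ) (L : ℕ) (hL : 1 ≤ ϑ * √2 ^ L) :
    stdGaussian (E D) {z | 2 * √((Fintype.card ι : ℝ) * ϑ) ≤ √(bumpS e ϑ z)} ≤
      ENNReal.ofReal (Real.exp (-(D * ϑ) / (3 * (L + 1)))) := by
  have hq : (0 : ℝ) < √2 ^ L := by positivity
  have hD' : (0 : ℝ) < D := by exact_mod_cast hD
  have hn' : (0 : ℝ) < Fintype.card ι := by exact_mod_cast hn
  have h1 : (√2 ^ L : ℝ)⁻¹ * √2 ^ L = 1 := inv_mul_cancel₀ hq.ne'
  have h2 : (√2 ^ L : ℝ)⁻¹ ≤ ϑ := by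
    rw [inv_eq_one_div, div_le_iff₀ hq]
    exact hL
  have hf : Measurable fun z : E D => √(bumpS e ϑ z) := by
    have : Continuous fun z : E D => √(bumpS e ϑ z) := by
      unfold bumpS
      fun_prop
    exact this.measurable
  have hb : ∀ ω : ℝ, bumpS e ω 0 = Fintype.card ι := fun ω => by
    simp [bumpS]
  have hm : √(ϑ / √(ϑ ^ 2 + 1 ^ 2) * (Fintype.card ι : ℝ)) ≤ √((Fintype.card ι : ℝ) * ϑ) := by
    apply Real.sqrt_le_sqrt
    rw [mul_comm]
    refine mul_le_mul_of_nonneg_left (div_le_self hϑ.le ?_) hn'.le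
    exact Real.le_sqrt_of_sq_le (by nlinarith [sq_nonneg ϑ])
  have h := tail (stdGaussian (E D)) (fun z => √(bumpS e ϑ z)) hf
    √((Fintype.card ι : ℝ) * ϑ) (((L : ℝ) + 1) * (3 * (Fintype.card ι : ℝ) / (4 * D)))
    √((Fintype.card ι : ℝ) * ϑ) (by positivity) (Real.sqrt_nonneg _) (fun l hl => by
      have h3 := slab_multi hD he (inv_pos.2 hq) h2 hl L 0
      simp only [h1, one_smul, zero_add, hb] at h3
      refine h3.trans (ENNReal.ofReal_le_ofReal (Real.exp_le_exp.2 ?_))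
      have := mul_le_mul_of_nonneg_left hm hl
      linarith)
  rw [← two_mul, Real.sq_sqrt (by positivity)] at h
  refine h.trans (le_of_eq ?_)
  congr 2
  field_simp

theorem slabN_le {D : ℕ} {ι : Type} [Fintype ι] (e : ι → E D) {ϑ : ℝ} (hϑ : 0 < ϑ) (z : E D)
    (h : √(bumpS e ϑ z) ≤ 3 * √((Fintype.card ι : ℝ) * ϑ)) :
    slabN e ϑ z ≤ (Fintype.card ι : ℝ) * (15 * ϑ) := by
  have hb : bumpS e ϑ z ≤ 9 * ((Fintype.card ι : ℝ) * ϑ) := by
    have h0 : 0 ≤ bumpS e ϑ z := Finset.sum_nonneg fun p _ => (Real.exp_pos _).le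
    have h1 := pow_le_pow_left₀ (Real.sqrt_nonneg _) h 2
    rw [mul_pow, Real.sq_sqrt h0, Real.sq_sqrt (by positivity)] at h1
    linarith
  have he : (3 / 5 : ℝ) ≤ Real.exp (-(1 / 2)) := by
    have h1 : Real.exp (1 / 2) ≤ 5 / 3 := by
      refine le_of_sq_le_sq ?_ (by norm_num)
      rw [← Real.exp_nat_mul]
      have := Real.exp_one_lt_d9
      norm_num at this ⊢
      linarith
    rw [Real.exp_neg, le_inv_comm₀ (by norm_num) (Real.exp_pos _)]
    refine h1.trans (by norm_num)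
  have hs : slabN e ϑ z * (3 / 5) ≤ bumpS e ϑ z := by
    unfold slabN bumpS
    refine le_trans ?_ (Finset.sum_le_sum_of_subset_of_nonneg
      (Finset.filter_subset (fun p => |⟪z, e p⟫| ≤ ϑ) Finset.univ)
      fun p _ _ => (Real.exp_pos _).le)
    rw [← nsmul_eq_mul]
    refine Finset.card_nsmul_le_sum _ _ _ fun p hp => he.trans (Real.exp_le_exp.2 ?_)
    have h1 : ⟪z, e p⟫ ^ 2 ≤ ϑ ^ 2 := sq_le_sq' (abs_le.1 (Finset.mem_filter.1 hp).2).1
      (abs_le.1 (Finset.mem_filter.1 hp).2).2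
    rw [le_div_iff₀ (by positivity)]
    linarith
  linarith

end Pool.Agent.P.MP_83f3dc_co.KT
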