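import Pool.Agent.P.MP_83f3dc_co.KTG
import Pool.Agent.P.MP_83f3dc_co.KTNet

set_option autoImplicit false
set_option linter.unusedSectionVars false
set_option linter.unusedVariables false

open MeasureTheory ProbabilityTheory Module Set Filter Topology
open scoped RealInnerProductSpace ENNReal

noncomputable section

namespace Pool.Agent.P.MP_83f3dc_co.KT

/-- the vector with coordinate `t` at `b` and the coordinates of `y` elsewhere -/
def kvsph_ins {n : ℕ} (b : Fin (n + 1)) (t : ℝ) (y : E n) : E (n + 1) :=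
  WithLp.toLp 2 (Fin.insertNth (α := fun _ => ℝ) b t fun a => y a)

theorem kvsph_dist {n : ℕ} (b : Fin (n + 1)) (t : ℝ) (y y' : E n) :
    ‖kvsph_ins b t y - kvsph_ins b t y'‖ = ‖y - y'‖ := by
  rw [EuclideanSpace.norm_eq, EuclideanSpace.norm_eq, Fin.sum_univ_succAbove _ b]
  simp [kvsph_ins]

theorem kvsph_dir {X : Type} [NormedAddCommGroup X] [NormedSpace ℝ X] (u a : X) (hu : ‖u‖ = 1)
    (t : ℝ) (ht : 0 < t) : t * ‖u - ‖a‖⁻¹ • a‖ ≤ 2 * ‖t • u - a‖ := by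
  have h1 : ‖‖a‖⁻¹ • a‖ ≤ 1 := by
    rw [norm_smul, norm_inv, norm_norm]
    exact inv_mul_le_one
  have h2 : ‖a‖ • ‖a‖⁻¹ • a = a := by
    by_cases h : a = 0
    · simp [h]
    · rw [smul_smul, mul_inv_cancel₀ (norm_ne_zero_iff.2 h), one_smul]
  have h3 : t • (u - ‖a‖⁻¹ • a) = (t • u - a) + (‖a‖ - t) • ‖a‖⁻¹ • a := by
    rw [sub_smul, h2, smul_sub]
    abel
  have h4 : |‖a‖ - t| ≤ ‖t • u - a‖ := by
    have h5 := abs_norm_sub_norm_le a (t • u)
    rwa [norm_smul, hu, mul_one, Real.norm_of_nonneg ht.le, norm_sub_rev] at h5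
  have h6 : ‖(‖a‖ - t) • ‖a‖⁻¹ • a‖ ≤ ‖t • u - a‖ := by
    rw [norm_smul, Real.norm_eq_abs]
    exact (mul_le_of_le_one_right (abs_nonneg _) h1).trans h4
  have h7 := norm_add_le (t • u - a) ((‖a‖ - t) • ‖a‖⁻¹ • a)
  rw [← h3, norm_smul, Real.norm_of_nonneg ht.le] at h7
  linarith

theorem kvsph_big {n : ℕ} (u : E (n + 1)) (hu : ‖u‖ = 1) :
    ∃ b : Fin (n + 1), 1 ≤ (n + 1 : ℝ) * |u b| ∧ |u b| ≤ 1 := by
  have h1 : ∑ a, u a ^ 2 = 1 := by
    rw [← EuclideanSpace.real_norm_sq_eq, hu, one_pow]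
  have h2 : ∀ b, |u b| ≤ 1 := fun b => by
    have := PiLp.norm_apply_le u b
    rwa [hu, Real.norm_eq_abs] at this
  obtain ⟨b, -, hb⟩ := Finset.exists_max_image Finset.univ (fun a => |u a|) Finset.univ_nonempty
  refine ⟨b, ?_, h2 b⟩
  have h3 : ∑ a, u a ^ 2 ≤ ∑ _a : Fin (n + 1), |u b| := Finset.sum_le_sum fun a _ => by
    have h4 := hb a (Finset.mem_univ a)
    have h5 := h2 a
    have h6 := abs_nonneg (u a)
    rw [← sq_abs]
    nlinarith
  rw [h1, Finset.sum_const, Finset.card_univ, Fintype.card_fin, nsmul_eq_mul] at h3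
  exact_mod_cast h3

/-- a net of the unit sphere of `E c` of size `C / ρ^(c-1)` -/
theorem sph_net (c : ℕ) (hc : 1 ≤ c) : ∃ C : ℝ, 0 < C ∧ ∀ ρ : ℝ, 0 < ρ → ρ ≤ 1 →
    ∃ F : Finset (E c), (F.card : ℝ) ≤ C / ρ ^ (c - 1) ∧
      ∀ u : E c, ‖u‖ = 1 → ∃ w ∈ F, ‖u - w‖ ≤ ρ := by
  classical
  obtain ⟨n, rfl⟩ : ∃ n, c = n + 1 := ⟨c - 1, by omega⟩
  obtain ⟨k, hk⟩ : ∃ k : ℝ, k = n + 1 := ⟨_, rfl⟩
  have hk1 : 1 ≤ k := by
    rw [hk]
    linarith [Nat.cast_nonneg (α := ℝ) n]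
  have hk0 : 0 < k := by linarith
  refine ⟨k * 2 * (5 * k) ^ n, by positivity, fun ρ h0 h1 => ?_⟩
  obtain ⟨G, -, g2, g3⟩ := net {y : E n | ‖y‖ ≤ 1} (fun _ h => h) (ρ / (2 * k)) (by positivity)
  refine ⟨((Finset.univ : Finset (Fin (n + 1))) ×ˢ ({k⁻¹, -k⁻¹} : Finset ℝ) ×ˢ G).image fun q =>
    ‖kvsph_ins q.1 q.2.1 q.2.2‖⁻¹ • kvsph_ins q.1 q.2.1 q.2.2, ?_, fun u hu => ?_⟩
  · refine (Nat.cast_le.2 Finset.card_image_le).trans ?_
    rw [Finset.card_product, Finset.card_product, Finset.card_univ, Fintype.card_fin,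
      Nat.add_sub_cancel]
    have a1 : ((({k⁻¹, -k⁻¹} : Finset ℝ).card : ℕ) : ℝ) ≤ 2 := by
      exact_mod_cast Finset.card_le_two
    have a2 : 1 + 2 / (ρ / (2 * k)) ≤ 5 * k / ρ := by
      have a3 : 2 / (ρ / (2 * k)) = 4 * k / ρ := by
        field_simp
        ring
      have a4 : 1 ≤ k / ρ := (one_le_div h0).2 (h1.trans hk1)
      have a5 : 5 * k / ρ = k / ρ + 4 * k / ρ := by ring
      rw [a3, a5]
      linarith
    rw [finrank_euclideanSpace_fin] at g2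
    have a6 : (G.card : ℝ) ≤ (5 * k / ρ) ^ n :=
      g2.trans (pow_le_pow_left₀ (by positivity) a2 n)
    push_cast
    rw [← hk, mul_div_assoc, ← div_pow, mul_assoc]
    exact mul_le_mul_of_nonneg_left (mul_le_mul a1 a6 (Nat.cast_nonneg _) (by norm_num)) hk0.le
  · obtain ⟨b, b1, b2⟩ := kvsph_big u hu
    rw [← hk] at b1
    have b0 : 0 < |u b| := by
      by_contra h
      have : |u b| = 0 := le_antisymm (not_lt.1 h) (abs_nonneg _)
      rw [this] at b1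
      linarith
    obtain ⟨t, ht⟩ : ∃ t : ℝ, t = (k * |u b|)⁻¹ := ⟨_, rfl⟩
    have t0 : 0 < t := by
      rw [ht]
      positivity
    have t1 : t ≤ 1 := by
      rw [ht]
      exact inv_le_one_of_one_le₀ b1
    have t2 : 1 ≤ k * t := by
      rw [ht, mul_inv, ← mul_assoc, mul_inv_cancel₀ hk0.ne', one_mul]
      exact (one_le_inv₀ b0).2 b2
    let y : E n := WithLp.toLp 2 fun a => t * u (b.succAbove a)
    have y1 : t • u = kvsph_ins b (t * u b) y := by
      ext a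
      refine Fin.succAboveCases b ?_ (fun a => ?_) a <;> simp [kvsph_ins, y]
    have y2 : ‖y‖ ≤ 1 := by
      have y3 : ‖t • u‖ ^ 2 = (t * u b) ^ 2 + ‖y‖ ^ 2 := by
        rw [EuclideanSpace.real_norm_sq_eq, EuclideanSpace.real_norm_sq_eq,
          Fin.sum_univ_succAbove _ b]
        simp [y]
      rw [norm_smul, hu, mul_one, Real.norm_of_nonneg t0.le] at y3
      have y4 : ‖y‖ ^ 2 ≤ 1 := by nlinarith [sq_nonneg (t * u b)]
      nlinarith [norm_nonneg y]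
    obtain ⟨z, z1, z2⟩ := g3 y y2
    have s1 : t * u b ∈ ({k⁻¹, -k⁻¹} : Finset ℝ) := by
      have s2 : u b ≠ 0 := abs_pos.1 b0
      rw [Finset.mem_insert, Finset.mem_singleton, ht]
      rcases abs_choice (u b) with h | h
      · left
        rw [h]
        field_simp
      · right
        rw [h]
        field_simp
    refine ⟨_, Finset.mem_image.2 ⟨(b, t * u b, z), ?_, rfl⟩, ?_⟩
    · simp only [Finset.mem_product, Finset.mem_univ, true_and]
      exact ⟨s1, z1⟩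
    · have d1 := kvsph_dir u (kvsph_ins b (t * u b) z) hu t t0
      rw [y1, kvsph_dist] at d1
      have d2 : k * (ρ / (2 * k)) = ρ / 2 := by field_simp
      have d3 := norm_nonneg (u - ‖kvsph_ins b (t * u b) z‖⁻¹ • kvsph_ins b (t * u b) z)
      have d4 := mul_le_mul_of_nonneg_left z2 hk0.le
      have d5 := mul_le_mul_of_nonneg_left d1 hk0.le
      have d6 := mul_le_mul_of_nonneg_right t2 d3
      nlinarith

end Pool.Agent.P.MP_83f3dc_co.KT
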