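import Pool.Agent.P.MP_83f3dc_co.KVDefs
import Pool.Agent.P.MP_83f3dc_co.KUTay

set_option autoImplicit false
set_option linter.unusedSectionVars false
set_option linter.unusedVariables false

open MeasureTheory ProbabilityTheory Module Set Filter Topology
open scoped RealInnerProductSpace ENNReal

noncomputable section

namespace Pool.Agent.P.MP_83f3dc_co.KT

theorem kvtay_par (k : ℕ) : ∀ x, KUTay_g k (-x) = (-1) ^ (k + 1) * KUTay_g k x := by
  induction k with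
  | zero =>
    intro x
    have hd : ∀ y, HasDerivAt (fun y => f0 y + f0 (-y)) 0 y := by
      intro y
      have h1 := (f0_hasDeriv y).add ((f0_hasDeriv (-y)).comp y (hasDerivAt_neg y))
      refine h1.congr_deriv ?_
      rw [neg_sq]
      ring
    have hc := is_const_of_deriv_eq_zero (f := fun y => f0 y + f0 (-y))
      (fun y => (hd y).differentiableAt) (fun y => (hd y).deriv) x 0
    simp only [neg_zero, f0_zero, add_zero] at hc
    simp only [KUTay_g, zero_add, pow_one]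
    linarith
  | succ k ih =>
    intro x
    have h1 : HasDerivAt (fun y => KUTay_g k (-y)) (KUTay_g (k + 1) (-x) * -1) x :=
      (KUTay_deriv k (-x)).comp x (hasDerivAt_neg x)
    have h2 : HasDerivAt (fun y => KUTay_g k (-y)) ((-1) ^ (k + 1) * KUTay_g (k + 1) x) x := by
      rw [funext ih]
      exact (KUTay_deriv k x).const_mul _
    have h3 := h1.unique h2
    rw [pow_succ (-1 : ℝ) (k + 1)]
    linarith

theorem taylor_odd (J : ℕ) : ∃ (f : ℕ → ℝ → ℝ) (B : ℝ), 0 ≤ B ∧ (∀ k, Continuous (f k)) ∧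
    (∀ k x, f k (-x) = (-1) ^ (k + 1) * f k x) ∧
    ∀ x v, |f0 (x + v) - ∑ k ∈ Finset.range J, f k x * v ^ k| ≤ B * |v| ^ J := by
  obtain ⟨B, hB⟩ := KUTay_bdd J
  have hB0 : 0 ≤ B := (abs_nonneg _).trans (hB 0)
  refine ⟨fun k x => KUTay_g k x / (k.factorial : ℝ), B, hB0, fun k => ?_, fun k x => ?_,
    fun x v => KUTay_gen J KUTay_g B hB0 KUTay_deriv hB x v⟩
  · exact (continuous_iff_continuousAt.2 fun x => (KUTay_deriv k x).continuousAt).div_const _
  · simp only [kvtay_par k x]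
    ring

theorem kvtay_rem {c : ℕ} (m : ℕ) (v : E c) (y : Fin c → ℝ) (ρ : ℝ) (hv : ‖v‖ ≤ ρ) :
    |∑ a, v a * y a| ^ (2 * m + 2) ≤
      ρ ^ (2 * m + 2) * ((c : ℝ) ^ (2 * m + 1) * ∑ a, y a ^ (2 * m + 2)) := by
  have hρ : 0 ≤ ρ := (norm_nonneg _).trans hv
  have h1 : |∑ a, v a * y a| ≤ ρ * ∑ a, |y a| := by
    rw [Finset.mul_sum]
    refine (Finset.abs_sum_le_sum_abs _ _).trans (Finset.sum_le_sum fun a _ => ?_)
    rw [abs_mul]
    exact mul_le_mul_of_nonneg_right ((PiLp.norm_apply_le v a).trans hv) (abs_nonneg _)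
  have h2 := pow_sum_le_card_mul_sum_pow (s := Finset.univ) (f := fun a => |y a|)
    (fun a _ => abs_nonneg _) (2 * m + 1)
  have h3 : ∀ a, |y a| ^ (2 * m + 1 + 1) = y a ^ (2 * m + 2) := fun a =>
    Even.pow_abs ⟨m + 1, by ring⟩ _
  simp only [h3, Finset.card_univ, Fintype.card_fin] at h2
  refine (pow_le_pow_left₀ (abs_nonneg _) h1 _).trans ?_
  rw [mul_pow]
  exact mul_le_mul_of_nonneg_left h2 (pow_nonneg hρ _)

/-- finitely many odd functionals whose vanishing makes the smoothed discrepancy small -/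
theorem kill (c m : ℕ) (hc : 1 ≤ c) : ∃ B : ℝ, 0 ≤ B ∧ ∀ (D : ℕ) (ι : Type) [Fintype ι]
    (e : ι → E D) (θ ρ : ℝ) (F : Finset (E c)), 0 < θ → 0 ≤ ρ →
    (∀ u : E c, ‖u‖ = 1 → ∃ w ∈ F, ‖u - w‖ ≤ ρ) →
    ∃ (κ : Type) (_ : Fintype κ) (Φ : VV c D → κ → ℝ),
      Fintype.card κ ≤ F.card * ((2 * m + 2) * c ^ (2 * m + 2)) ∧ Continuous Φ ∧
      (∀ x, Φ (-x) = -Φ x) ∧ ∀ x, Φ x = 0 → ∀ u : E c, ‖u‖ = 1 →
        ∑ p, f0 (⟪Lu u x, e p⟫ / θ) ≤
          B * (ρ / θ) ^ (2 * m + 2) * ∑ i : Fin c × ι, ⟪x i.1, e i.2⟫ ^ (2 * m + 2) := by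
  obtain ⟨f, B, hB, hf, hodd, hT⟩ := taylor_odd (2 * m + 2)
  refine ⟨B * (c : ℝ) ^ (2 * m + 1), by positivity, ?_⟩
  intro D ι _ e θ ρ F hθ hρ hF
  refine ⟨F × (Σ k : Fin (2 * m + 2), Fin k → Fin c), inferInstance,
    fun x q => ∑ p, f q.2.1 (⟪Lu q.1.1 x, e p⟫ / θ) * ∏ t, ⟪x (q.2.2 t), e p⟫, ?_, ?_, ?_, ?_⟩
  · rw [Fintype.card_prod, Fintype.card_coe, Fintype.card_sigma]
    refine Nat.mul_le_mul_left _ ?_
    calc ∑ k : Fin (2 * m + 2), Fintype.card (Fin k → Fin c)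
        ≤ ∑ _k : Fin (2 * m + 2), c ^ (2 * m + 2) := by
          refine Finset.sum_le_sum fun k _ => ?_
          rw [Fintype.card_fun, Fintype.card_fin, Fintype.card_fin]
          exact Nat.pow_le_pow_right hc k.2.le
      _ = (2 * m + 2) * c ^ (2 * m + 2) := by simp
  · refine continuous_pi fun q => continuous_finsetSum _ fun p _ => ?_
    refine ((hf _).comp (((continuous_Lu _).inner continuous_const).div_const _)).mul ?_
    refine continuous_finsetProd _ fun t _ => Continuous.inner ?_ continuous_const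
    fun_prop
  · intro x
    funext q
    simp only [Pi.neg_apply, Lu_neg, inner_neg_left, neg_div, hodd, PiLp.neg_apply,
      ← Finset.sum_neg_distrib]
    refine Finset.sum_congr rfl fun p _ => ?_
    rw [Finset.prod_neg, Finset.card_univ, Fintype.card_fin]
    have : ((-1 : ℝ)) ^ ((q.2.1 : ℕ) + 1) * (-1) ^ (q.2.1 : ℕ) = -1 := by
      rw [← pow_add]
      exact Odd.neg_one_pow ⟨q.2.1, by ring⟩
    linear_combination (f q.2.1 (⟪Lu q.1.1 x, e p⟫ / θ) * ∏ t, ⟪x (q.2.2 t), e p⟫) * this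
  · intro x hx u hu
    obtain ⟨w, hw, hwu⟩ := hF u hu
    have hsplit : ∀ p, ⟪Lu u x, e p⟫ / θ =
        ⟪Lu w x, e p⟫ / θ + (∑ a, (u - w) a * ⟪x a, e p⟫) / θ := by
      intro p
      rw [← inner_Lu, Lu_sub_left, inner_sub_left]
      ring
    have hzero : ∀ k ∈ Finset.range (2 * m + 2),
        ∑ p, f k (⟪Lu w x, e p⟫ / θ) * ((∑ a, (u - w) a * ⟪x a, e p⟫) / θ) ^ k = 0 := by
      intro k hk
      have h0 : ∀ i : Fin k → Fin c,
          ∑ p, f k (⟪Lu w x, e p⟫ / θ) * ∏ t, ⟪x (i t), e p⟫ = 0 := fun i =>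
        congrFun hx (⟨w, hw⟩, ⟨⟨k, Finset.mem_range.1 hk⟩, i⟩)
      have h1 : ∀ p, f k (⟪Lu w x, e p⟫ / θ) * ((∑ a, (u - w) a * ⟪x a, e p⟫) / θ) ^ k =
          ∑ i : Fin k → Fin c, ((∏ t, (u - w) (i t)) / θ ^ k) *
            (f k (⟪Lu w x, e p⟫ / θ) * ∏ t, ⟪x (i t), e p⟫) := by
        intro p
        rw [div_pow, Fintype.sum_pow, Finset.sum_div, Finset.mul_sum]
        refine Finset.sum_congr rfl fun i _ => ?_
        rw [Finset.prod_mul_distrib]
        ring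
      simp only [h1]
      rw [Finset.sum_comm]
      refine Finset.sum_eq_zero fun i _ => ?_
      rw [← Finset.mul_sum, h0 i, mul_zero]
    have hp : ∀ p, f0 (⟪Lu u x, e p⟫ / θ) ≤
        ∑ k ∈ Finset.range (2 * m + 2),
          f k (⟪Lu w x, e p⟫ / θ) * ((∑ a, (u - w) a * ⟪x a, e p⟫) / θ) ^ k +
        B * (c : ℝ) ^ (2 * m + 1) * (ρ / θ) ^ (2 * m + 2) * ∑ a, ⟪x a, e p⟫ ^ (2 * m + 2) := by
      intro p
      have h1 := (abs_le.1 (hT (⟪Lu w x, e p⟫ / θ) ((∑ a, (u - w) a * ⟪x a, e p⟫) / θ))).2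
      have h2 := kvtay_rem m (u - w) (fun a => ⟪x a, e p⟫) ρ hwu
      have h3 : |(∑ a, (u - w) a * ⟪x a, e p⟫) / θ| ^ (2 * m + 2) ≤
          (c : ℝ) ^ (2 * m + 1) * (ρ / θ) ^ (2 * m + 2) * ∑ a, ⟪x a, e p⟫ ^ (2 * m + 2) := by
        rw [abs_div, abs_of_pos hθ, div_pow, div_pow]
        refine (div_le_div_of_nonneg_right h2 (pow_pos hθ _).le).trans (le_of_eq ?_)
        ring
      have h4 := mul_le_mul_of_nonneg_left h3 hB
      rw [hsplit p]
      linarith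
    refine (Finset.sum_le_sum fun p _ => hp p).trans (le_of_eq ?_)
    rw [Finset.sum_add_distrib, Finset.sum_comm, Finset.sum_eq_zero hzero, zero_add,
      ← Finset.mul_sum, Fintype.sum_prod_type, Finset.sum_comm]

end Pool.Agent.P.MP_83f3dc_co.KT
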