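import Pool.Agent.P.MP_83f3dc_co.KVBU
import Pool.Agent.P.MP_83f3dc_co.KVProx2
import Pool.Agent.P.MP_83f3dc_co.KVSlab2
import Pool.Agent.P.MP_83f3dc_co.KVTay
import Pool.Agent.P.MP_83f3dc_co.KVSph

set_option autoImplicit false
set_option linter.unusedSectionVars false
set_option linter.unusedVariables false

open MeasureTheory ProbabilityTheory Module Set Filter Topology
open scoped RealInnerProductSpace ENNReal

noncomputable section

namespace Pool.Agent.P.MP_83f3dc_co.KT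

theorem continuous_bumpS {D : ℕ} {ι : Type} [Fintype ι] (e : ι → E D) (ω : ℝ) :
    Continuous (bumpS e ω) := by
  unfold bumpS
  fun_prop

theorem st1_inner {c D : ℕ} (x : VV c D) (a : Fin c) (z : E D) :
    ⟪x, (PiLp.single 2 a z : VV c D)⟫ = ⟪x a, z⟫ := by
  rw [PiLp.inner_apply, Finset.sum_eq_single a]
  · simp
  · intro b _ hb
    simp [hb]
  · simp

theorem stage1 (c m : ℕ) (hc : 1 ≤ c) : ∃ B C : ℝ, 0 ≤ B ∧ 0 < C ∧ ∀ (D : ℕ) (ι : Type)
    [Fintype ι] (e : ι → E D) (θ ϑ ρ H : ℝ) (L R : ℕ) (U : Finset (E c)), 0 < D →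
    0 < Fintype.card ι → Fors e → 0 < θ → 0 < ϑ → ϑ ≤ 1 → 0 < ρ → ρ ≤ 1 → 0 < H →
    1 ≤ ϑ * √2 ^ L → C / ρ ^ (c - 1) ≤ R → (∀ u ∈ U, ‖u‖ = 1) →
    (1 + 2 * H / ϑ ^ 2) ^ (R + 1) * ((U.card : ℝ) * (Real.exp (c * (2 * m + 1) ^ (m + 1)) *
      Real.exp (-(D * ϑ) / (3 * (L + 1))))) + (R + 1) * (c * D) / H ^ 2 < 1 →
    ∃ x : VV c D, ‖x‖ ≤ H ∧
      (∀ u : E c, ‖u‖ = 1 → ∑ p, f0 (⟪Lu u x, e p⟫ / θ) ≤
        (Fintype.card ι : ℝ) * (B * (ρ / θ) ^ (2 * m + 2) * H ^ 2)) ∧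
      ∀ u ∈ U, slabN e ϑ (Lu u x) ≤ (Fintype.card ι : ℝ) * (15 * ϑ) := by
  obtain ⟨B, hB, hk⟩ := kill c m hc
  obtain ⟨C, hC, hs⟩ := sph_net c hc
  have hc0 : (0 : ℝ) < c := by exact_mod_cast hc
  refine ⟨B, C * ((2 * m + 2) * c ^ (2 * m + 2)), hB, by positivity, ?_⟩
  intro D ι _ e θ ϑ ρ H L R U hD hn he hθ hϑ hϑ1 hρ hρ1 hH hL hR hU hsum
  have hn' : (0 : ℝ) < Fintype.card ι := by exact_mod_cast hn
  have hD' : (1 : ℝ) ≤ D := by exact_mod_cast hD
  obtain ⟨F, F1, F2⟩ := hs ρ hρ hρ1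
  obtain ⟨κ, _, Φ, k1, k2, k3, k4⟩ := hk D ι e θ ρ F hθ hρ.le F2
  have hκ : Fintype.card κ ≤ R := by
    have h1 : (Fintype.card κ : ℝ) ≤ F.card * ((2 * m + 2) * c ^ (2 * m + 2)) := by
      exact_mod_cast k1
    have h2 : (Fintype.card κ : ℝ) ≤ R := by
      refine h1.trans (le_trans ?_ hR)
      rw [mul_div_right_comm]
      gcongr
    exact_mod_cast h2
  obtain ⟨T, T1, T2, T3, T4⟩ := prox (V := VV c D)
    (fun i : Fin c × ι => (PiLp.single 2 i.1 (e i.2) : VV c D))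
    (fun i => by rw [PiLp.norm_single, he.1]) (ν := (Fintype.card ι : ℝ)⁻¹) (by positivity) m
  have e1 : (Fintype.card ι : ℝ)⁻¹ * Fintype.card (Fin c × ι) = c := by
    rw [Fintype.card_prod, Fintype.card_fin, Nat.cast_mul]
    field_simp
  rw [e1] at T4
  have Tc : Continuous T :=
    (LipschitzWith.of_dist_le_mul (K := 1) fun x y => by
      simpa only [dist_eq_norm, NNReal.coe_one, one_mul] using T2 x y).continuous
  have T0 : T 0 = 0 := by
    have h1 := T1 0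
    rw [neg_zero] at h1
    have h2 : (2 : ℝ) • T 0 = 0 := by rw [two_smul]; exact add_eq_zero_iff_eq_neg.2 h1
    exact (smul_eq_zero.1 h2).resolve_left two_ne_zero
  let A₀ : Set (E D) := {z | 2 * √((Fintype.card ι : ℝ) * ϑ) ≤ √(bumpS e ϑ z)}
  have mA : MeasurableSet A₀ :=
    measurableSet_le measurable_const (continuous_bumpS e ϑ).sqrt.measurable
  have mB : ∀ u : E c, MeasurableSet ((Lu u : VV c D → E D) ⁻¹' A₀) := fun u =>
    (continuous_Lu u).measurable mA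
  obtain ⟨P, P', h1, h2, h3, h4⟩ := avoid hκ (fun x => Φ (T x)) (k2.comp Tc)
    (fun x => by rw [T1, k3]) (⋃ u ∈ U, T ⁻¹' (Lu u ⁻¹' A₀))
    (Finset.measurableSet_biUnion U fun u _ => Tc.measurable (mB u))
    ((U.card : ℝ) * (Real.exp (c * (2 * m + 1) ^ (m + 1)) *
      Real.exp (-(D * ϑ) / (3 * (L + 1))))) H (ϑ ^ 2 / H) (by positivity) (by
      refine (measure_biUnion_finset_le _ _).trans ?_
      refine (Finset.sum_le_card_nsmul U _ (ENNReal.ofReal (Real.exp (c * (2 * m + 1) ^ (m + 1)) *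
        Real.exp (-(D * ϑ) / (3 * (L + 1))))) fun u hu => ?_).trans ?_
      · refine (T4 _ (mB u)).trans ?_
        rw [(mp_Lu u (hU u hu)).measure_preimage mA.nullMeasurableSet,
          ENNReal.ofReal_mul (Real.exp_pos _).le]
        exact mul_le_mul_right (slab_tail hD hn he hϑ L hL) _
      · rw [nsmul_eq_mul, ← ENNReal.ofReal_natCast, ← ENNReal.ofReal_mul (Nat.cast_nonneg _)])
    hH (by positivity) (by
      rw [finrank_VV, Nat.cast_mul, div_div_eq_mul_div]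
      exact hsum)
  rw [div_mul_cancel₀ _ hH.ne'] at h3
  refine ⟨T P, ?_, fun u hu => (k4 _ h2 u hu).trans ?_, fun u hu => slabN_le e hϑ _ ?_⟩
  · have := T2 P 0
    rw [T0, sub_zero, sub_zero] at this
    exact this.trans h1
  · have h5 := T3 P
    simp only [st1_inner] at h5
    rw [inv_mul_le_iff₀ hn'] at h5
    have h6 : ‖P‖ ^ 2 ≤ H ^ 2 := by gcongr
    calc _ ≤ B * (ρ / θ) ^ (2 * m + 2) * ((Fintype.card ι : ℝ) * H ^ 2) := by
          gcongr
          exact h5.trans (by gcongr)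
      _ = _ := by ring
  · have h5 : ¬ 2 * √((Fintype.card ι : ℝ) * ϑ) ≤ √(bumpS e ϑ (Lu u (T P'))) := fun h =>
      h4 (mem_iUnion₂.2 ⟨u, hu, h⟩)
    have h6 := (le_abs_self _).trans (slab_lip hD he hϑ (Lu u (T P)) (Lu u (T P')))
    have h7 : ‖Lu u (T P) - Lu u (T P')‖ ≤ ϑ ^ 2 := by
      rw [← Lu_sub]
      refine (norm_Lu_le _ _).trans ?_
      rw [hU u hu, one_mul]
      exact (T2 _ _).trans h3
    have h8 : √(3 * (Fintype.card ι : ℝ) / D) / (2 * ϑ) * ϑ ^ 2 ≤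
        √((Fintype.card ι : ℝ) * ϑ) := by
      refine Real.le_sqrt_of_sq_le ?_
      have h9 : 3 * (Fintype.card ι : ℝ) / D ≤ 4 * Fintype.card ι := by
        rw [div_le_iff₀ (by linarith)]
        nlinarith
      calc _ = 3 * (Fintype.card ι : ℝ) / D * (ϑ ^ 2 / 4) := by
            rw [mul_pow, div_pow, Real.sq_sqrt (by positivity)]
            field_simp
            norm_num
        _ ≤ 4 * Fintype.card ι * (ϑ / 4) := by
            gcongr
            nlinarith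
        _ = _ := by ring
    have h10 := mul_le_mul_of_nonneg_left h7
      (show 0 ≤ √(3 * (Fintype.card ι : ℝ) / D) / (2 * ϑ) by positivity)
    linarith [not_le.1 h5]

end Pool.Agent.P.MP_83f3dc_co.KT
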