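import Pool.Agent.P.MP_83f3dc_co.Lower

set_option autoImplicit false

open Module Submodule Filter Topology

namespace Pool.Agent.P.MP_83f3dc_co

lemma many_pos {W : Type} [AddCommGroup W] [Module ℝ W] [FiniteDimensional ℝ W] {ι : Type}
    [Fintype ι] (ev : W →ₗ[ℝ] (ι → ℝ)) (d : ℕ) (hd : d < Fintype.card ι) (m : ℕ) :
    ∀ U : Submodule ℝ W, m + 1 ≤ finrank ℝ U →
      (∀ w ∈ U, w ≠ 0 → (Finset.univ.filter fun i => ev w i = 0).card ≤ d) →
      ∃ w ∈ U, Fintype.card ι + 2 * m ≤ 2 * (Finset.univ.filter fun i => 0 < ev w i).card + d := by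
  classical
  have hex : ∀ U : Submodule ℝ W, 1 ≤ finrank ℝ U → ∃ w ∈ U, w ≠ 0 := by
    intro U hU
    by_contra h
    push Not at h
    have : U = ⊥ := (Submodule.eq_bot_iff U).2 h
    rw [this, finrank_bot] at hU
    omega
  induction m with
  | zero =>
    intro U hU hz
    obtain ⟨w, hwU, hw⟩ := hex U hU
    have h1 := hz w hwU hw
    have h2 : (Finset.univ : Finset ι) ⊆ ((Finset.univ.filter fun i => 0 < ev w i) ∪
        (Finset.univ.filter fun i => 0 < ev (-w) i)) ∪ (Finset.univ.filter fun i => ev w i = 0) := by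
      intro i _
      simp only [Finset.mem_union, Finset.mem_filter, Finset.mem_univ, true_and, map_neg,
        Pi.neg_apply, Left.neg_pos_iff]
      rcases lt_trichotomy 0 (ev w i) with h | h | h
      · exact Or.inl (Or.inl h)
      · exact Or.inr h.symm
      · exact Or.inl (Or.inr h)
    have h3 := (Finset.card_le_card h2).trans ((Finset.card_union_le _ _).trans
      (Nat.add_le_add_right (Finset.card_union_le _ _) _))
    rw [Finset.card_univ] at h3
    by_cases h4 : (Finset.univ.filter fun i => 0 < ev (-w) i).card ≤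
        (Finset.univ.filter fun i => 0 < ev w i).card
    · exact ⟨w, hwU, by omega⟩
    · exact ⟨-w, U.neg_mem hwU, by omega⟩
  | succ m ih =>
    intro U hU hz
    obtain ⟨w₀, hw₀U, hw₀⟩ := hex U (by omega)
    obtain ⟨i, hi⟩ : ∃ i, ev w₀ i ≠ 0 := by
      by_contra h
      push Not at h
      have h1 := hz w₀ hw₀U hw₀
      rw [Finset.filter_true_of_mem fun i _ => h i, Finset.card_univ] at h1
      omega
    obtain ⟨w₁, hw₁U, hw₁⟩ : ∃ w₁ ∈ U, 0 < ev w₁ i := by
      rcases lt_or_gt_of_ne hi with h | h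
      · exact ⟨-w₀, U.neg_mem hw₀U, by simpa using h⟩
      · exact ⟨w₀, hw₀U, h⟩
    let f : U →ₗ[ℝ] ℝ := ((LinearMap.proj i).comp ev).domRestrict U
    have h1 := LinearMap.finrank_range_add_finrank_ker f
    have h2 : finrank ℝ (LinearMap.range f) ≤ 1 := by
      simpa using Submodule.finrank_le (LinearMap.range f)
    obtain ⟨w', hw', hw''⟩ := ih ((LinearMap.ker f).map U.subtype)
      (by rw [Submodule.finrank_map_subtype_eq]; omega)
      (fun w hw => hz w (Submodule.map_subtype_le _ _ hw))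
    obtain ⟨w', hw'f, rfl⟩ := hw'
    have hw'i : ev w'.1 i = 0 := hw'f
    have hev : ∀ᶠ ε : ℝ in 𝓝[>] 0, ∀ j ∈ (Finset.univ.filter fun j => 0 < ev w'.1 j),
        0 < ev w'.1 j + ε * ev w₁ j := by
      rw [Filter.eventually_all_finset]
      intro j hj
      have hc : Continuous fun ε : ℝ => ev w'.1 j + ε * ev w₁ j := by fun_prop
      refine nhdsWithin_le_nhds ((isOpen_lt continuous_const hc).mem_nhds ?_)
      simpa using hj
    obtain ⟨ε, hε1, hε2⟩ := (hev.and self_mem_nhdsWithin).exists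
    have hε : 0 < ε := hε2
    refine ⟨w'.1 + ε • w₁, U.add_mem w'.2 (U.smul_mem _ hw₁U), ?_⟩
    have h3 : insert i (Finset.univ.filter fun j => 0 < ev w'.1 j) ⊆
        Finset.univ.filter fun j => 0 < ev (w'.1 + ε • w₁) j := by
      intro j hj
      simp only [Finset.mem_filter, Finset.mem_univ, true_and, map_add, map_smul, Pi.add_apply,
        Pi.smul_apply, smul_eq_mul]
      rcases Finset.mem_insert.1 hj with rfl | hj
      · rw [hw'i, zero_add]
        exact mul_pos hε hw₁
      · exact hε1 j hj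
    have h4 := Finset.card_le_card h3
    rw [Finset.card_insert_of_notMem (by simp [hw'i])] at h4
    have h5 : Fintype.card ι + 2 * m ≤
        2 * (Finset.univ.filter fun j => 0 < ev w'.1 j).card + d := hw''
    change (Finset.univ.filter fun j => 0 < ev w'.1 j).card + 1 ≤ _ at h4
    omega

/-- The moment curve. -/
noncomputable def mc (d : ℕ) (t : ℕ) : EuclideanSpace ℝ (Fin d) :=
  WithLp.toLp 2 fun i => (t : ℝ) ^ ((i : ℕ) + 1)

lemma mc_inj {d : ℕ} (hd : 0 < d) : Function.Injective (mc d) := by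
  intro s t h
  have := congrArg (fun x : EuclideanSpace ℝ (Fin d) => x ⟨0, hd⟩) h
  simpa [mc] using this

lemma mc_zeros {d n : ℕ} (φ : Dual ℝ (EuclideanSpace ℝ (Fin d))) (hφ : φ ≠ 0) (c : ℝ) :
    (Finset.univ.filter fun t : Fin n => φ (mc d t) + c = 0).card ≤ d := by
  classical
  let b := (EuclideanSpace.basisFun (Fin d) ℝ).toBasis
  let P : Polynomial ℝ := Polynomial.C c +
    ∑ i : Fin d, Polynomial.monomial ((i : ℕ) + 1) (φ (b i))
  have hP : ∀ t : ℕ, P.eval (t : ℝ) = φ (mc d t) + c := by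
    intro t
    have h1 : mc d t = ∑ i : Fin d, ((t : ℝ) ^ ((i : ℕ) + 1)) • b i := by
      conv_lhs => rw [← b.sum_repr (mc d t)]
      simp [b, mc]
    rw [h1, map_sum]
    simp only [P, Polynomial.eval_add, Polynomial.eval_C, Polynomial.eval_finsetSum,
      Polynomial.eval_monomial, map_smul, smul_eq_mul, mul_comm]
    ring
  have hP0 : P ≠ 0 := by
    intro h
    apply hφ
    refine b.ext fun i => ?_
    have := congrArg (fun Q : Polynomial ℝ => Q.coeff ((i : ℕ) + 1)) h
    simpa [P, Polynomial.coeff_monomial, Polynomial.coeff_C, Fin.val_inj] using this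
  have hdeg : P.natDegree ≤ d := by
    refine (Polynomial.natDegree_add_le _ _).trans (max_le (by simp) ?_)
    refine Polynomial.natDegree_sum_le_of_forall_le _ _ fun i _ => ?_
    exact (Polynomial.natDegree_monomial_le _).trans i.2
  refine le_trans ?_ ((Multiset.toFinset_card_le P.roots).trans (P.card_roots'.trans hdeg))
  refine Finset.card_le_card_of_injOn (fun t : Fin n => ((t : ℕ) : ℝ)) ?_ ?_
  · intro t ht
    have ht' : φ (mc d t) + c = 0 := by simpa using ht
    simp only [Finset.mem_coe, Multiset.mem_toFinset, Polynomial.mem_roots hP0, Polynomial.IsRoot]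
    rw [hP, ht']
  · intro s _ t _ h
    have h' : ((s : ℕ) : ℝ) = ((t : ℕ) : ℝ) := h
    exact Fin.ext (by exact_mod_cast h')

theorem upper (lam q j n : ℕ) (hlam : 1 ≤ lam) (hn : j + lam + 2 * q < n) :
    ¬ HasTransversal (j + lam) j (lam + q) n := by
  classical
  intro H
  have hinj : Function.Injective fun t : Fin n => mc (j + lam) t :=
    (mc_inj (by omega)).comp Fin.val_injective
  obtain ⟨L, ⟨x₀, hx₀⟩, hL, hY⟩ := H (Finset.univ.image fun t : Fin n => mc (j + lam) t)
    (by rw [Finset.card_image_of_injective _ hinj]; simp)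
  let ev : Dual ℝ (EuclideanSpace ℝ (Fin (j + lam))) →ₗ[ℝ] (Fin n → ℝ) :=
    { toFun := fun φ t => φ (mc (j + lam) t) + -φ x₀
      map_add' := by
        intro w w'
        funext i
        simp only [LinearMap.add_apply, Pi.add_apply]
        ring
      map_smul' := by
        intro c w
        funext i
        simp only [LinearMap.smul_apply, smul_eq_mul, RingHom.id_apply, Pi.smul_apply]
        ring }
  have hU := Subspace.finrank_add_finrank_dualAnnihilator_eq L.direction
  rw [hL, finrank_euclideanSpace_fin] at hU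
  obtain ⟨φ, hφU, hφ⟩ := many_pos ev (j + lam) (by rw [Fintype.card_fin]; omega) (lam - 1)
    L.direction.dualAnnihilator (by omega) fun φ _ hφ => mc_zeros φ hφ _
  rw [Fintype.card_fin] at hφ
  obtain ⟨T, hT, hTc⟩ := Finset.exists_subset_card_eq
    (show lam + q ≤ (Finset.univ.filter fun i => 0 < ev φ i).card by omega)
  obtain ⟨x, hxL, hxY⟩ := hY (T.image fun t : Fin n => mc (j + lam) t)
    (Finset.image_subset_image (Finset.subset_univ _))
    (by rw [Finset.card_image_of_injective _ hinj, hTc])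
  have h1 : φ x₀ < φ x := by
    refine convexHull_min (t := {y | φ x₀ < φ y}) ?_ (convex_halfSpace_gt φ.isLinear _) hxY
    intro y hy
    obtain ⟨t, ht, rfl⟩ := Finset.mem_image.1 hy
    have : 0 < φ (mc (j + lam) t) + -φ x₀ := (Finset.mem_filter.1 (hT ht)).2
    change φ x₀ < φ (mc (j + lam) t)
    linarith
  have h2 : φ (x - x₀) = 0 :=
    (mem_dualAnnihilator φ).1 hφU _ (AffineSubspace.vsub_mem_direction hxL hx₀)
  rw [map_sub] at h2
  linarith

theorem main (lam q : ℕ) (hlam : 1 ≤ lam) : ∃ j₀ : ℕ, ∀ j, j₀ ≤ j →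
    IsGreatest {n | 0 < n ∧ HasTransversal (j + lam) j (lam + q) n} (j + lam + 2 * q) := by
  obtain ⟨j₀, hj₀⟩ := lower lam q hlam
  refine ⟨j₀, fun j hj => ⟨⟨by omega, hj₀ j hj⟩, fun n hn => ?_⟩⟩
  by_contra h
  exact upper lam q j n hlam (not_le.1 h) hn.2

end Pool.Agent.P.MP_83f3dc_co
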